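import Mathlib

/-!
# Truncated relations between polynomials with logarithmic derivatives of bounded degree
-/

set_option autoImplicit false

namespace Pool.Agent.Q103.SD

open Polynomial Finset

section

variable {K : Type*} [Field K] [CharZero K]

theorem exists_trailing {f : K[X]} (hf : f ≠ 0) : ∃ u : K[X], f = X ^ f.natTrailingDegree * u ∧
    u.coeff 0 ≠ 0 := by
  have h1 : X ^ f.natTrailingDegree ∣ f := by
    rw [X_pow_dvd_iff]
    intro d hd
    exact coeff_eq_zero_of_lt_natTrailingDegree hd
  obtain ⟨u, hu⟩ := h1
  refine ⟨u, hu, ?_⟩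
  have h2 : f.coeff f.natTrailingDegree ≠ 0 := by
    have := trailingCoeff_nonzero_iff_nonzero.mpr hf
    exact this
  intro h0
  apply h2
  conv_lhs => rw [hu]
  have := coeff_X_pow_mul u f.natTrailingDegree 0
  rw [zero_add] at this
  have e : (X ^ f.natTrailingDegree * u).natTrailingDegree = f.natTrailingDegree := by rw [← hu]
  rw [e] at *
  rw [this, h0]

theorem trailing_eq {f g : K[X]} (hf : f ≠ 0) (hg : g ≠ 0)
    (h : derivative f * g = f * derivative g) : f.natTrailingDegree = g.natTrailingDegree := by
  obtain ⟨u, hu, hu0⟩ := exists_trailing hf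
  obtain ⟨v, hv, hv0⟩ := exists_trailing hg
  obtain ⟨m, hm⟩ : ∃ m, m = f.natTrailingDegree := ⟨_, rfl⟩
  obtain ⟨n, hn⟩ : ∃ n, n = g.natTrailingDegree := ⟨_, rfl⟩
  rw [← hm] at hu ⊢
  rw [← hn] at hv ⊢
  have hX : ∀ k : ℕ, X * derivative (X ^ k : K[X]) = (k : K[X]) * X ^ k := by
    intro k
    rcases Nat.eq_zero_or_pos k with rfl | hk
    · simp
    · obtain ⟨j, rfl⟩ : ∃ j, k = j + 1 := ⟨k - 1, by omega⟩
      rw [derivative_X_pow_succ]
      push_cast
      simp only [map_add, map_natCast, map_one]
      ring
  have e1 : X * (derivative f * g) = X * (f * derivative g) := by rw [h]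
  rw [hu, hv, derivative_mul, derivative_mul] at e1
  have e2 : (X : K[X]) ^ (m + n) * (((m : K[X]) - (n : K[X])) * u * v +
      X * (derivative u * v - u * derivative v)) = 0 := by
    have a1 := hX m
    have a2 := hX n
    have : X * ((derivative (X ^ m) * u + X ^ m * derivative u) * (X ^ n * v)) -
        X * (X ^ m * u * (derivative (X ^ n) * v + X ^ n * derivative v)) = 0 := by
      rw [e1, sub_self]
    rw [← this, pow_add]
    linear_combination (-(u * X ^ n * v)) * a1 + (X ^ m * u * v) * a2
  have e3 : ((m : K[X]) - (n : K[X])) * u * v +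
      X * (derivative u * v - u * derivative v) = 0 := by
    rcases mul_eq_zero.mp e2 with h2 | h2
    · exact absurd h2 (pow_ne_zero _ X_ne_zero)
    · exact h2
  have e4 := congrArg (fun p => coeff p 0) e3
  simp only [coeff_add, coeff_zero, mul_coeff_zero, coeff_sub, coeff_X_zero, zero_mul, add_zero,
    coeff_natCast_ite, if_true] at e4
  have e5 : ((m : K) - (n : K)) = 0 := by
    rcases mul_eq_zero.mp e4 with h2 | h2
    · rcases mul_eq_zero.mp h2 with h3 | h3
      · exact h3
      · exact absurd h3 hu0
    · exact absurd h2 hv0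
  exact_mod_cast sub_eq_zero.mp e5

/-- the loss in the order of vanishing -/
def gg (D : ℕ) : ℕ → ℕ → ℕ
  | 0, _ => 0
  | n + 1, d => max (gg D n (2 * d + D) + 1) (d + 1)

theorem gg_mono_d (D n : ℕ) : ∀ {d d' : ℕ}, d ≤ d' → gg D n d ≤ gg D n d' := by
  induction n with
  | zero => intro d d' _; exact le_rfl
  | succ n ih =>
    intro d d' h
    simp only [gg]
    have := ih (show 2 * d + D ≤ 2 * d' + D by omega)
    omega

theorem gg_le_succ (D n d : ℕ) : gg D n d ≤ gg D (n + 1) d := by
  simp only [gg]
  have := gg_mono_d D n (show d ≤ 2 * d + D by omega)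
  omega

theorem gg_mono (D : ℕ) {n n' : ℕ} (h : n ≤ n') (d : ℕ) : gg D n d ≤ gg D n' d := by
  induction h with
  | refl => exact le_rfl
  | step _ ih => exact ih.trans (gg_le_succ _ _ _)

theorem X_pow_dvd_derivative {P : K[X]} {n : ℕ} (h : X ^ (n + 1) ∣ P) : X ^ n ∣ derivative P := by
  obtain ⟨Q, rfl⟩ := h
  rw [derivative_mul, derivative_X_pow_succ]
  refine dvd_add ?_ ?_
  · exact Dvd.dvd.mul_right (dvd_mul_left _ _) _
  · rw [pow_succ, mul_assoc]
    exact dvd_mul_right _ _

/-- **Truncated relations are exact**: if the sum of the products `a_k A_k`, with `a_k` of degree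
at most `d` and `A_k` with a logarithmic derivative `N_k / R` of degree at most `D`, is divisible by
a power of `X` which is larger than that of all `A_k`, then it is zero. -/
theorem exact (D : ℕ) {ι : Type*} [DecidableEq ι] (R : K[X]) (hR : R ≠ 0) (hRD : R.natDegree ≤ D)
    (A N : ι → K[X]) (hA : ∀ k, A k ≠ 0) (hN : ∀ k, (N k).natDegree ≤ D)
    (hAN : ∀ k, R * derivative (A k) = A k * N k) (s : Finset ι) :
    ∀ (d J : ℕ) (a : ι → K[X]), (∀ k ∈ s, (a k).natDegree ≤ d) →
      (∀ k ∈ s, (A k).natTrailingDegree + gg D s.card d ≤ J) →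
      X ^ J ∣ ∑ k ∈ s, a k * A k → ∑ k ∈ s, a k * A k = 0 := by
  induction s using Finset.induction_on with
  | empty => intro d J a _ _ _; simp
  | insert i s hi ih =>
    intro d J a ha hJ hdvd
    rw [Finset.card_insert_of_notMem hi] at hJ
    by_cases hai : a i = 0
    · rw [Finset.sum_insert hi, hai, zero_mul, zero_add] at hdvd ⊢
      refine ih (2 * d + D) J a (fun k hk => (ha k (Finset.mem_insert_of_mem hk)).trans (by omega))
        (fun k hk => ?_) hdvd
      have h1 := hJ k (Finset.mem_insert_of_mem hk)
      simp only [gg] at h1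
      omega
    obtain ⟨f, hf⟩ : ∃ f, f = ∑ k ∈ insert i s, a k * A k := ⟨_, rfl⟩
    rw [← hf] at hdvd ⊢
    have hJi := hJ i (Finset.mem_insert_self _ _)
    simp only [gg] at hJi
    obtain ⟨J', rfl⟩ : ∃ J', J = J' + 1 := ⟨J - 1, by omega⟩
    obtain ⟨b, hb⟩ : ∃ b : ι → K[X], ∀ k, b k = a i * (R * derivative (a k) + a k * N k) -
        (derivative (a i) * R + a i * N i) * a k := ⟨_, fun k => rfl⟩
    have hdi := ha i (Finset.mem_insert_self _ _)
    have hbd : ∀ k ∈ s, (b k).natDegree ≤ 2 * d + D := by
      intro k hk
      have hdk := ha k (Finset.mem_insert_of_mem hk)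
      have hd' : ∀ P : K[X], (derivative P).natDegree ≤ P.natDegree := fun P =>
        (natDegree_derivative_le P).trans (by omega)
      have h1 : (R * derivative (a k) + a k * N k).natDegree ≤ D + d := by
        refine (natDegree_add_le _ _).trans (max_le ?_ ?_)
        · exact natDegree_mul_le.trans (by have := hd' (a k); omega)
        · exact natDegree_mul_le.trans (by have := hN k; omega)
      have h2 : (derivative (a i) * R + a i * N i).natDegree ≤ D + d := by
        refine (natDegree_add_le _ _).trans (max_le ?_ ?_)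
        · exact natDegree_mul_le.trans (by have := hd' (a i); omega)
        · exact natDegree_mul_le.trans (by have := hN i; omega)
      rw [hb k]
      refine (natDegree_sub_le _ _).trans (max_le ?_ ?_)
      · exact natDegree_mul_le.trans (by omega)
      · exact natDegree_mul_le.trans (by omega)
    have hDf : a i * (R * derivative f) - (derivative (a i) * R + a i * N i) * f =
        ∑ k ∈ s, b k * A k := by
      have e1 : ∀ k, a i * (R * derivative (a k * A k)) -
          (derivative (a i) * R + a i * N i) * (a k * A k) = b k * A k := by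
        intro k
        rw [hb k, derivative_mul]
        linear_combination (a i * a k) * hAN k
      have e2 : b i = 0 := by
        rw [hb i]
        ring
      calc a i * (R * derivative f) - (derivative (a i) * R + a i * N i) * f
          = ∑ k ∈ insert i s, (a i * (R * derivative (a k * A k)) -
              (derivative (a i) * R + a i * N i) * (a k * A k)) := by
            rw [hf, derivative_sum, Finset.sum_sub_distrib, Finset.mul_sum, Finset.mul_sum,
              Finset.mul_sum]
        _ = ∑ k ∈ insert i s, b k * A k := Finset.sum_congr rfl fun k _ => e1 k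
        _ = _ := by rw [Finset.sum_insert hi, e2, zero_mul, zero_add]
    have hzero : ∑ k ∈ s, b k * A k = 0 := by
      refine ih (2 * d + D) J' b hbd (fun k hk => ?_) ?_
      · have h1 := hJ k (Finset.mem_insert_of_mem hk)
        simp only [gg] at h1
        omega
      · rw [← hDf]
        refine dvd_sub ?_ ?_
        · exact Dvd.dvd.mul_left (Dvd.dvd.mul_left (X_pow_dvd_derivative hdvd) _) _
        · exact Dvd.dvd.mul_left ((pow_dvd_pow X (Nat.le_succ J')).trans hdvd) _
    rw [hzero] at hDf
    by_contra hf0
    have hg0 : a i * A i ≠ 0 := mul_ne_zero hai (hA i)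
    have hwr : derivative f * (a i * A i) = f * derivative (a i * A i) := by
      have h1 : R * (derivative f * (a i * A i) - f * derivative (a i * A i)) = 0 := by
        rw [derivative_mul]
        linear_combination (A i) * hDf - (f * a i) * hAN i
      rcases mul_eq_zero.mp h1 with h2 | h2
      · exact absurd h2 hR
      · exact sub_eq_zero.mp h2
    have htr := trailing_eq hf0 hg0 hwr
    have h1 : J' + 1 ≤ f.natTrailingDegree :=
      le_natTrailingDegree hf0 fun m hm => (X_pow_dvd_iff.mp hdvd) m hm
    have h2 : (a i * A i).natTrailingDegree ≤ d + (A i).natTrailingDegree := by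
      rw [natTrailingDegree_mul hai (hA i)]
      have := natTrailingDegree_le_natDegree (a i)
      omega
    omega

end

/-- products of powers have logarithmic derivatives of bounded degree -/
theorem exists_log {A : Type*} [CommRing A] {κ : Type*} [DecidableEq κ] (F : κ → A[X]) (e : κ → ℕ)
    (s : Finset κ) : ∃ N : A[X], N.natDegree ≤ ∑ i ∈ s, (F i).natDegree ∧
      (∏ i ∈ s, F i) * derivative (∏ i ∈ s, F i ^ e i) = (∏ i ∈ s, F i ^ e i) * N := by
  induction s using Finset.induction_on with
  | empty => exact ⟨0, by simp, by simp⟩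
  | insert i s hi ih =>
    obtain ⟨N, hN, h⟩ := ih
    have hR : (∏ i ∈ s, F i).natDegree ≤ ∑ i ∈ s, (F i).natDegree := natDegree_prod_le _ _
    refine ⟨(e i : A[X]) * derivative (F i) * (∏ i ∈ s, F i) + F i * N, ?_, ?_⟩
    · rw [Finset.sum_insert hi]
      refine (natDegree_add_le _ _).trans (max_le ?_ ?_)
      · refine natDegree_mul_le.trans (add_le_add ?_ hR)
        refine natDegree_mul_le.trans ?_
        rw [natDegree_natCast, zero_add]
        exact (natDegree_derivative_le _).trans (by omega)
      · exact natDegree_mul_le.trans (by omega)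
    · rw [Finset.prod_insert hi, Finset.prod_insert hi, derivative_mul]
      have e1 : F i * derivative (F i ^ e i) = (e i : A[X]) * derivative (F i) * F i ^ e i := by
        rcases Nat.eq_zero_or_pos (e i) with h0 | h0
        · rw [h0]; simp
        · obtain ⟨m, hm⟩ : ∃ m, e i = m + 1 := ⟨e i - 1, by omega⟩
          rw [hm, derivative_pow_succ, pow_succ]
          simp only [map_add, map_natCast, map_one]
          push_cast
          ring
      linear_combination ((∏ i ∈ s, F i) * ∏ i ∈ s, F i ^ e i) * e1 + (F i * F i ^ e i) * h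

end Pool.Agent.Q103.SD
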