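import Mathlib
import Pool.Agent.Q103.SD.Exact

/-!
# Sizes of coefficients, and relations between values at a large element
-/

set_option autoImplicit false

namespace Pool.Agent.Q103.SD

open Polynomial Finset

/-- A size function on a ring. -/
structure SizeFn {A : Type*} [CommRing A] (s : A → ℝ) : Prop where
  nonneg : ∀ x, 0 ≤ s x
  zero : s 0 = 0
  one : s 1 ≤ 1
  add : ∀ x y, s (x + y) ≤ s x + s y
  mul : ∀ x y, s (x * y) ≤ s x * s y

section

variable {A : Type*} [CommRing A] {s : A → ℝ}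

theorem SizeFn.sum (hs : SizeFn s) {ι : Type*} (S : Finset ι) (f : ι → A) :
    s (∑ i ∈ S, f i) ≤ ∑ i ∈ S, s (f i) := by
  classical
  induction S using Finset.induction_on with
  | empty => simp [hs.zero]
  | insert i S hi ih =>
    rw [Finset.sum_insert hi, Finset.sum_insert hi]
    exact (hs.add _ _).trans (add_le_add le_rfl ih)

/-- Geometric majorisation of the coefficients. -/
def Geo (s : A → ℝ) (P : A[X]) (W : ℝ) : Prop := ∀ i, s (P.coeff i) ≤ W ^ i

theorem Geo.mul (hs : SizeFn s) {P Q : A[X]} {W V : ℝ} (h : Geo s P W) (k : Geo s Q V)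
    (hW : 0 ≤ W) (hV : 0 ≤ V) : Geo s (P * Q) (W + V) := by
  intro n
  rw [coeff_mul, Commute.add_pow' (Commute.all W V)]
  refine (hs.sum _ _).trans (Finset.sum_le_sum fun x hx => ?_)
  have h1 : s (P.coeff x.1 * Q.coeff x.2) ≤ W ^ x.1 * V ^ x.2 :=
    (hs.mul _ _).trans (mul_le_mul (h _) (k _) (hs.nonneg _) (by positivity))
  refine h1.trans ?_
  have hle : x.1 ≤ n := by
    have := HasAntidiagonal.mem_antidiagonal.mp hx
    omega
  have h2 : 1 ≤ n.choose x.1 := Nat.choose_pos hle
  have h3 : (1 : ℝ) ≤ n.choose x.1 := by exact_mod_cast h2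
  rw [nsmul_eq_mul]
  have h4 : 0 ≤ W ^ x.1 * V ^ x.2 := by positivity
  nlinarith

theorem Geo.one (hs : SizeFn s) {W : ℝ} (hW : 0 ≤ W) : Geo s 1 W := by
  intro i
  rcases Nat.eq_zero_or_pos i with rfl | hi
  · simpa using hs.one
  · rw [coeff_one, if_neg (by omega), hs.zero]
    positivity

theorem Geo.pow (hs : SizeFn s) {P : A[X]} {W : ℝ} (h : Geo s P W) (hW : 0 ≤ W) (k : ℕ) :
    Geo s (P ^ k) (k * W) := by
  induction k with
  | zero =>
    rw [pow_zero]
    exact Geo.one hs (by simp)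
  | succ k ih =>
    rw [pow_succ]
    have := ih.mul hs h (by positivity) hW
    push_cast
    rw [add_mul, one_mul]
    exact this

theorem Geo.prod (hs : SizeFn s) {κ : Type*} (S : Finset κ) (F : κ → A[X]) (e : κ → ℕ) {W : ℝ}
    (hW : 0 ≤ W) (h : ∀ i ∈ S, Geo s (F i) W) :
    Geo s (∏ i ∈ S, F i ^ e i) (((∑ i ∈ S, e i : ℕ) : ℝ) * W) := by
  classical
  induction S using Finset.induction_on with
  | empty =>
    rw [Finset.prod_empty]
    exact Geo.one hs (by simp)
  | insert i S hi ih =>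
    rw [Finset.prod_insert hi, Finset.sum_insert hi]
    have h1 := (h i (Finset.mem_insert_self _ _)).pow hs hW (e i)
    have h2 := ih fun j hj => h j (Finset.mem_insert_of_mem hj)
    have := h1.mul hs h2 (by positivity) (by positivity)
    push_cast
    push_cast at this
    rw [add_mul]
    exact this

theorem Geo.mono {P : A[X]} {W V : ℝ} (h : Geo s P W) (hW : 0 ≤ W) (hV : W ≤ V) :
    Geo s P V := fun i => (h i).trans (pow_le_pow_left₀ hW hV i)

end

section

variable {A : Type*} [CommRing A] [IsDomain A] {s : A → ℝ}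

theorem X_pow_dvd_of_eval {P : A[X]} {t : A} (ht0 : t ≠ 0) {T : ℝ}
    (hT : ∀ x, t ∣ x → s x < T → x = 0) (I : ℕ)
    (h : ∀ i, i < I → s (P.coeff i) < T) (h0 : P.eval t = 0) : X ^ I ∣ P := by
  induction I with
  | zero => simp
  | succ I ih =>
    obtain ⟨Q, hQ⟩ := ih fun i hi => h i (by omega)
    have h1 : Q.eval t = 0 := by
      rw [hQ, eval_mul, eval_pow, eval_X] at h0
      rcases mul_eq_zero.mp h0 with h2 | h2
      · exact absurd h2 (pow_ne_zero _ ht0)
      · exact h2
    have h2 : (t - 0) ∣ Q.eval t - Q.eval 0 := sub_dvd_eval_sub _ _ _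
    rw [h1, sub_zero, zero_sub, dvd_neg, ← coeff_zero_eq_eval_zero] at h2
    have h3 : P.coeff I = Q.coeff 0 := by
      rw [hQ]
      have := coeff_X_pow_mul Q I 0
      rwa [zero_add] at this
    have h6 : Q.coeff 0 = 0 := hT _ h2 (by rw [← h3]; exact h I (by omega))
    rw [pow_succ, hQ]
    exact mul_dvd_mul_left _ (X_dvd_iff.mpr h6)

end

/-- the product of powers `α ∏ F_i ^ e_i` -/
noncomputable def PP {A : Type*} [CommRing A] {κ : Type*} [Fintype κ] (F : κ → A[X]) (α : A)
    (e : κ → ℕ) : A[X] := C α * ∏ i, F i ^ e i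

section

variable {A : Type*} [CommRing A] {κ : Type*} [Fintype κ]

theorem eval_PP (F : κ → A[X]) (α : A) (e : κ → ℕ) (t : A) :
    (PP F α e).eval t = α * ∏ i, (F i).eval t ^ e i := by
  unfold PP
  rw [eval_mul, eval_C, eval_prod]
  simp only [eval_pow]

theorem coeff_PP {s : A → ℝ} (hs : SizeFn s) (F : κ → A[X]) (α : A) (e : κ → ℕ) {W : ℝ}
    (hW : 0 ≤ W) (h : ∀ i, Geo s (F i) W) (j : ℕ) :
    s ((PP F α e).coeff j) ≤ s α * (((∑ i, e i : ℕ) : ℝ) * W) ^ j := by
  unfold PP
  rw [coeff_C_mul]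
  exact (hs.mul _ _).trans (mul_le_mul_of_nonneg_left
    (Geo.prod hs Finset.univ F e hW (fun i _ => h i) j) (hs.nonneg _))

theorem exists_log_PP [DecidableEq κ] (F : κ → A[X]) (α : A) (e : κ → ℕ) :
    ∃ N : A[X], N.natDegree ≤ ∑ i, (F i).natDegree ∧
      (∏ i, F i) * derivative (PP F α e) = PP F α e * N := by
  obtain ⟨N, hN, h⟩ := exists_log F e Finset.univ
  refine ⟨N, hN, ?_⟩
  unfold PP
  rw [derivative_C_mul]
  linear_combination (C α) * h

end

theorem trailing_map {A B : Type*} [CommRing A] [CommRing B] {φ : A →+* B}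
    (hφ : Function.Injective φ) (P : A[X]) :
    (P.map φ).natTrailingDegree = P.natTrailingDegree := by
  apply natTrailingDegree_eq_of_trailingDegree_eq
  unfold trailingDegree
  rw [support_map_of_injective P hφ]

section

variable {A : Type*} [CommRing A] [IsDomain A] [CharZero A] {κ ι : Type*} [Fintype κ]

theorem PP_ne_zero {F : κ → A[X]} (hF : ∀ i, F i ≠ 0) {α : A} (hα : α ≠ 0) (e : κ → ℕ) :
    PP F α e ≠ 0 := by
  unfold PP
  exact mul_ne_zero (C_ne_zero.mpr hα) (Finset.prod_ne_zero_iff.mpr fun i _ =>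
    pow_ne_zero _ (hF i))

/-- exactness over a domain, for sums of power products -/
theorem exact_PP [DecidableEq κ] [DecidableEq ι] {F : κ → A[X]} (hF : ∀ i, F i ≠ 0) {α : ι → A}
    (hα : ∀ k, α k ≠ 0) (e : ι → κ → ℕ) {D : ℕ} (hD : ∑ i, (F i).natDegree ≤ D) (S : Finset ι)
    (J : ℕ) (hJ : ∀ k ∈ S, (PP F (α k) (e k)).natTrailingDegree + gg D S.card 0 ≤ J)
    (h : X ^ J ∣ ∑ k ∈ S, PP F (α k) (e k)) : ∑ k ∈ S, PP F (α k) (e k) = 0 := by
  let φ : A →+* FractionRing A := algebraMap A (FractionRing A)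
  have hφ : Function.Injective φ := IsFractionRing.injective A (FractionRing A)
  have : CharZero (FractionRing A) := charZero_of_injective_algebraMap hφ
  choose N hN hNe using fun k => exists_log_PP F (α k) (e k)
  have hne : ∀ {P : A[X]}, P ≠ 0 → P.map φ ≠ 0 := fun h => (Polynomial.map_ne_zero_iff hφ).mpr h
  have h1 := exact D (ι := ι) ((∏ i, F i).map φ) (hne (Finset.prod_ne_zero_iff.mpr fun i _ => hF i))
    (by
      rw [natDegree_map_eq_of_injective hφ]
      exact (natDegree_prod_le _ _).trans hD)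
    (fun k => (PP F (α k) (e k)).map φ) (fun k => (N k).map φ)
    (fun k => hne (PP_ne_zero hF (hα k) _))
    (fun k => by
      rw [natDegree_map_eq_of_injective hφ]
      exact (hN k).trans hD)
    (fun k => by
      rw [derivative_map, ← Polynomial.map_mul, ← Polynomial.map_mul, hNe k]) S 0 J
    (fun _ => 1) (fun k _ => by simp)
    (fun k hk => by
      rw [trailing_map hφ]
      exact hJ k hk)
    (by
      simp only [one_mul]
      rw [← Polynomial.map_sum]
      have := Polynomial.map_dvd φ h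
      rwa [Polynomial.map_pow, map_X] at this)
  simp only [one_mul] at h1
  rw [← Polynomial.map_sum] at h1
  exact (Polynomial.map_eq_zero_iff hφ).mp h1

end

end Pool.Agent.Q103.SD
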