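import Mathlib
import Pool.Agent.Q103.SD.Size

/-!
# Relations between products of powers of numbers with small digits
-/

set_option autoImplicit false

namespace Pool.Agent.Q103.SD

open Polynomial Finset

/-- A gap in a finite family of natural numbers. -/
theorem exists_gap {ι : Type*} [Fintype ι] (v : ι → ℕ) {G : ℕ} (hG : 0 < G) :
    ∃ r, r ≤ Fintype.card ι ∧ ∀ k, v k ≤ r * G ∨ (r + 1) * G < v k := by
  classical
  obtain ⟨r, hr, hr2⟩ : ∃ r ∈ Finset.range (Fintype.card ι + 1),
      r ∉ Finset.univ.image (fun k => (v k - 1) / G) := by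
    apply Finset.exists_mem_notMem_of_card_lt_card
    rw [Finset.card_range]
    exact (Finset.card_image_le.trans (by rw [Finset.card_univ])).trans_lt (Nat.lt_succ_self _)
  rw [Finset.mem_range] at hr
  refine ⟨r, by omega, fun k => ?_⟩
  have h1 : (v k - 1) / G ≠ r := by
    intro h
    exact hr2 (Finset.mem_image.mpr ⟨k, Finset.mem_univ _, h⟩)
  rcases Nat.lt_or_gt_of_ne h1 with h2 | h2
  · left
    have h3 := (Nat.div_lt_iff_lt_mul hG).mp h2
    omega
  · right
    have h3 := (Nat.le_div_iff_mul_le hG).mp h2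
    have h4 : 0 < (r + 1) * G := by positivity
    have h5 : (r + 1) * G ≤ v k - 1 := h3
    omega

/-- the number of coefficients that are needed -/
def JJ (D n : ℕ) : ℕ := (n + 1) * (gg D n 0 + 1)

theorem gap_ge {D n : ℕ} {m : ℕ} (h : m ≤ n) : gg D m 0 ≤ gg D n 0 + 1 :=
  (gg_mono D h 0).trans (Nat.le_succ _)

section

variable {A : Type*} [CommRing A] [IsDomain A] [CharZero A] {κ ι : Type*} [Fintype κ] [Fintype ι]
  {s : A → ℝ}

/-- **Relations between numbers with small digits come from identities**, for any number of terms: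
`t` is an element such that a multiple of `t` of size less than `T` is zero, the numbers are the
values at `t` of polynomials with coefficients of size at most `H` and constant terms of size at
most `1`; the exponents are at most `N`. -/
theorem identity (hs : SizeFn s) {t : A} (ht0 : t ≠ 0) {T : ℝ}
    (hT : ∀ x, t ∣ x → s x < T → x = 0) {F : κ → A[X]} (hF : ∀ i, F i ≠ 0) {D : ℕ}
    (hD : ∑ i, (F i).natDegree ≤ D) {H : ℝ} (hH : 1 ≤ H) (hF0 : ∀ i, s ((F i).coeff 0) ≤ 1)
    (hFH : ∀ i j, s ((F i).coeff j) ≤ H) {α : ι → A} (hα : ∀ k, α k ≠ 0)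
    (hαH : ∀ k, s (α k) ≤ H) (e : ι → κ → ℕ) {N : ℕ} (hN : 1 ≤ N) (heN : ∀ k, ∑ i, e k i ≤ N)
    (hsize : (Fintype.card ι : ℝ) * H * (N * H) ^ (JJ D (Fintype.card ι)) < T)
    (hsum : ∑ k, (PP F (α k) (e k)).eval t = 0) (k0 : ι)
    (hk0 : ¬ t ∣ (PP F (α k0) (e k0)).eval t)
    (hno : ∀ S : Finset ι, S.Nonempty → S ≠ Finset.univ → ∑ k ∈ S, (PP F (α k) (e k)).eval t ≠ 0) :
    ∑ k, PP F (α k) (e k) = 0 := by
  classical
  have hgeo : ∀ i, Geo s (F i) H := by
    intro i j
    rcases Nat.eq_zero_or_pos j with rfl | hj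
    · rw [pow_zero]; exact hF0 i
    · exact (hFH i j).trans (le_self_pow₀ hH (by omega))
  have hN1 : (1 : ℝ) ≤ N := by exact_mod_cast hN
  have hNH : 1 ≤ (N : ℝ) * H := by nlinarith
  obtain ⟨P, hP⟩ : ∃ P, P = ∑ k, PP F (α k) (e k) := ⟨_, rfl⟩
  have hdvd : X ^ (JJ D (Fintype.card ι)) ∣ P := by
    refine X_pow_dvd_of_eval ht0 hT _ (fun j hj => lt_of_le_of_lt ?_ hsize) ?_
    · rw [hP, finset_sum_coeff]
      refine (hs.sum _ _).trans ?_
      have h1 : ∀ k ∈ (Finset.univ : Finset ι), s ((PP F (α k) (e k)).coeff j) ≤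
          H * (N * H) ^ (JJ D (Fintype.card ι)) := by
        intro k _
        refine (coeff_PP hs F (α k) (e k) (by linarith) hgeo j).trans ?_
        apply mul_le_mul (hαH k) _ (by positivity) (by linarith)
        refine (pow_le_pow_left₀ (by positivity) ?_ j).trans (pow_le_pow_right₀ hNH hj.le)
        apply mul_le_mul_of_nonneg_right _ (by linarith)
        exact_mod_cast heN k
      refine (Finset.sum_le_sum h1).trans (le_of_eq ?_)
      rw [Finset.sum_const, Finset.card_univ, nsmul_eq_mul, mul_assoc]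
    · rw [hP, eval_finset_sum, hsum]
  have hG : 0 < gg D (Fintype.card ι) 0 + 1 := Nat.succ_pos _
  obtain ⟨r, hr, hgap⟩ := exists_gap (fun k => (PP F (α k) (e k)).natTrailingDegree) hG
  obtain ⟨L, hL⟩ : ∃ L : Finset ι, L = Finset.univ.filter (fun k =>
      (PP F (α k) (e k)).natTrailingDegree ≤ r * (gg D (Fintype.card ι) 0 + 1)) := ⟨_, rfl⟩
  have hcardL : L.card ≤ Fintype.card ι := Finset.card_le_univ _
  have hzero : ∑ k ∈ L, PP F (α k) (e k) = 0 := by
    refine exact_PP hF hα e hD L ((r + 1) * (gg D (Fintype.card ι) 0 + 1)) ?_ ?_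
    · intro k hk
      rw [hL, Finset.mem_filter] at hk
      have h1 := gap_ge (D := D) hcardL
      rw [add_mul, one_mul]
      omega
    · have h1 : ∑ k ∈ L, PP F (α k) (e k) = P - ∑ k ∈ Lᶜ, PP F (α k) (e k) := by
        rw [hP, ← Finset.sum_add_sum_compl L]
        ring
      rw [h1]
      refine dvd_sub ((pow_dvd_pow X ?_).trans hdvd) (Finset.dvd_sum fun k hk => ?_)
      · unfold JJ
        exact Nat.mul_le_mul_right _ (by omega)
      · rw [Finset.mem_compl, hL, Finset.mem_filter, not_and] at hk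
        have h2 := hk (Finset.mem_univ _)
        rcases hgap k with h3 | h3
        · exact absurd h3 h2
        · rw [X_pow_dvd_iff]
          intro d hd
          exact coeff_eq_zero_of_lt_natTrailingDegree (hd.trans h3)
  have hk0L : k0 ∈ L := by
    rw [hL, Finset.mem_filter]
    refine ⟨Finset.mem_univ _, ?_⟩
    have h1 : (PP F (α k0) (e k0)).coeff 0 ≠ 0 := by
      intro h0
      apply hk0
      have h2 : (t - 0) ∣ (PP F (α k0) (e k0)).eval t - (PP F (α k0) (e k0)).eval 0 :=
        sub_dvd_eval_sub _ _ _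
      rwa [← coeff_zero_eq_eval_zero, h0, sub_zero, sub_zero] at h2
    have h2 := natTrailingDegree_le_of_ne_zero h1
    omega
  have hLu : L = Finset.univ := by
    by_contra hne
    apply hno L ⟨k0, hk0L⟩ hne
    rw [← eval_finset_sum, hzero, eval_zero]
  rw [hLu] at hzero
  exact hzero

end

end Pool.Agent.Q103.SD
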