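import Mathlib
import Pool.Agent.Q103.SD.Main

/-!
# Sums of products of powers without vanishing subsums: first and last coefficients
-/

set_option autoImplicit false

namespace Pool.Agent.Q103.SD

open Polynomial Finset

section

variable {A : Type*} [CommRing A] [IsDomain A] [CharZero A] {κ ι : Type*} [Fintype κ] [Fintype ι]

theorem reverse_prod' (S : Finset κ) (F : κ → A[X])
    (e : κ → ℕ) : (∏ i ∈ S, F i ^ e i).reverse = ∏ i ∈ S, (F i).reverse ^ e i := by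
  classical
  have hpow : ∀ (P : A[X]) (k : ℕ), (P ^ k).reverse = P.reverse ^ k := by
    intro P k
    induction k with
    | zero => rw [pow_zero, pow_zero, ← C_1, reverse_C]
    | succ k ih => rw [pow_succ, pow_succ, reverse_mul_of_domain, ih]
  induction S using Finset.induction_on with
  | empty => rw [Finset.prod_empty, Finset.prod_empty, ← C_1, reverse_C]
  | insert i S hi ih =>
    rw [Finset.prod_insert hi, Finset.prod_insert hi, reverse_mul_of_domain, ih, hpow]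

theorem reverse_PP' (F : κ → A[X])
    (α : A) (e : κ → ℕ) : (PP F α e).reverse = PP (fun i => (F i).reverse) α e := by
  unfold PP
  rw [reverse_mul_of_domain, reverse_C, reverse_prod']

/-- if a sum of products of powers vanishes to a high order at zero, a subsum vanishes -/
theorem gap_subsum {F : κ → A[X]} (hF : ∀ i, F i ≠ 0) {D : ℕ} (hD : ∑ i, (F i).natDegree ≤ D)
    {α : ι → A} (hα : ∀ k, α k ≠ 0) (e : ι → κ → ℕ) (k0 : ι)
    (hk0 : (PP F (α k0) (e k0)).coeff 0 ≠ 0)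
    (hdvd : X ^ (JJ D (Fintype.card ι)) ∣ ∑ k, PP F (α k) (e k)) :
    ∃ L : Finset ι, k0 ∈ L ∧ ∑ k ∈ L, PP F (α k) (e k) = 0 := by
  classical
  obtain ⟨P, hP⟩ : ∃ P, P = ∑ k, PP F (α k) (e k) := ⟨_, rfl⟩
  rw [← hP] at hdvd
  have hG : 0 < gg D (Fintype.card ι) 0 + 1 := Nat.succ_pos _
  obtain ⟨r, hr, hgap⟩ := exists_gap (fun k => (PP F (α k) (e k)).natTrailingDegree) hG
  obtain ⟨L, hL⟩ : ∃ L : Finset ι, L = Finset.univ.filter (fun k =>
      (PP F (α k) (e k)).natTrailingDegree ≤ r * (gg D (Fintype.card ι) 0 + 1)) := ⟨_, rfl⟩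
  have hcardL : L.card ≤ Fintype.card ι := Finset.card_le_univ _
  have hzero : ∑ k ∈ L, PP F (α k) (e k) = 0 := by
    refine exact_PP hF hα e hD L ((r + 1) * (gg D (Fintype.card ι) 0 + 1)) ?_ ?_
    · intro k hk
      rw [hL, Finset.mem_filter] at hk
      have h1 := gap_ge (D := D) hcardL
      rw [add_mul, one_mul]
      omega
    · have h1 : ∑ k ∈ L, PP F (α k) (e k) = P - ∑ k ∈ Lᶜ, PP F (α k) (e k) := by
        rw [hP, ← Finset.sum_add_sum_compl L]
        ring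
      rw [h1]
      refine dvd_sub ((pow_dvd_pow X ?_).trans hdvd) (Finset.dvd_sum fun k hk => ?_)
      · unfold JJ
        exact Nat.mul_le_mul_right _ (by omega)
      · rw [Finset.mem_compl, hL, Finset.mem_filter, not_and] at hk
        have h2 := hk (Finset.mem_univ _)
        rcases hgap k with h3 | h3
        · exact absurd h3 h2
        · rw [X_pow_dvd_iff]
          intro d hd
          exact coeff_eq_zero_of_lt_natTrailingDegree (hd.trans h3)
  refine ⟨L, ?_, hzero⟩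
  rw [hL, Finset.mem_filter]
  refine ⟨Finset.mem_univ _, ?_⟩
  have h2 := natTrailingDegree_le_of_ne_zero hk0
  omega

/-- the degree of a product of powers -/
theorem natDegree_PP {F : κ → A[X]} (hF : ∀ i, F i ≠ 0) {α : A} (hα : α ≠ 0) (e : κ → ℕ) :
    (PP F α e).natDegree = ∑ i, e i * (F i).natDegree := by
  unfold PP
  rw [natDegree_C_mul hα, natDegree_prod _ _ (fun i _ => pow_ne_zero _ (hF i))]
  apply Finset.sum_congr rfl
  intro i _
  rw [natDegree_pow]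

/-- the reversed family with the variable -/
noncomputable def RF (F : κ → A[X]) : Option κ → A[X]
  | none => X
  | some i => (F i).reverse

/-- the exponents for the reversed family -/
def RE (E : ℕ) (F : κ → A[X]) (e : κ → ℕ) : Option κ → ℕ
  | none => E - ∑ i, e i * (F i).natDegree
  | some i => e i

theorem PP_RF (F : κ → A[X]) (α : A) (e : κ → ℕ) (E : ℕ) :
    PP (RF F) α (RE E F e) = X ^ (E - ∑ i, e i * (F i).natDegree) * (PP F α e).reverse := by
  rw [reverse_PP']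
  unfold PP
  rw [Fintype.prod_option]
  simp only [RF, RE]
  ring

/-- the value of the reversed family at the inverse -/
theorem eval_RF {F : κ → A[X]} (hF : ∀ i, F i ≠ 0) {α : A} (hα : α ≠ 0) (e : κ → ℕ) {E : ℕ}
    (hE : ∑ i, e i * (F i).natDegree ≤ E) (σ : A →+* ℂ) {t : A} (ht : σ t ≠ 0) :
    σ t ^ E * (PP (RF F) α (RE E F e)).eval₂ σ (σ t)⁻¹ = σ ((PP F α e).eval t) := by
  rw [PP_RF, eval₂_mul, eval₂_pow, eval₂_X]
  have h1 : (PP F α e).reverse.eval₂ σ (σ t)⁻¹ * (σ t) ^ (PP F α e).natDegree =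
      (PP F α e).eval₂ σ (σ t) := by
    let := invertibleOfNonzero ht
    have h2 := eval₂_reverse_mul_pow σ (σ t) (PP F α e)
    rwa [invOf_eq_inv] at h2
  rw [natDegree_PP hF hα] at h1
  obtain ⟨m, hm⟩ : ∃ m, m = ∑ i, e i * (F i).natDegree := ⟨_, rfl⟩
  rw [← hm] at h1 hE ⊢
  have h3 : σ t ^ E = σ t ^ (E - m) * σ t ^ m := by
    rw [← pow_add, Nat.sub_add_cancel hE]
  have h4 : σ t ^ (E - m) * (σ t)⁻¹ ^ (E - m) = 1 := by
    rw [← mul_pow, mul_inv_cancel₀ ht, one_pow]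
  rw [eval₂_at_apply] at h1
  rw [← h1, h3]
  linear_combination (σ t ^ m * eval₂ σ (σ t)⁻¹ (PP F α e).reverse) * h4

theorem reflect_eq (f : A[X]) {E : ℕ} (hE : f.natDegree ≤ E) :
    reflect E f = X ^ (E - f.natDegree) * f.reverse := by
  ext i
  rw [coeff_reflect, coeff_X_pow_mul']
  split_ifs with h
  · rw [coeff_reverse]
    rcases Nat.lt_or_ge E i with h1 | h1
    · rw [revAt_eq_self_of_lt h1, revAt_eq_self_of_lt (by omega),
        coeff_eq_zero_of_natDegree_lt (by omega), coeff_eq_zero_of_natDegree_lt (by omega)]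
    · rw [revAt_le h1, revAt_le (by omega)]
      congr 1
      omega
  · rw [revAt_le (by omega), coeff_eq_zero_of_natDegree_lt (by omega)]

/-- a vanishing subsum of the reversed family -/
theorem subsum_of_RF {F : κ → A[X]} (hF : ∀ i, F i ≠ 0) {α : ι → A} (hα : ∀ k, α k ≠ 0)
    (e : ι → κ → ℕ) {E : ℕ} (hE : ∀ k, ∑ i, e k i * (F i).natDegree ≤ E) (L : Finset ι)
    (h : ∑ k ∈ L, PP (RF F) (α k) (RE E F (e k)) = 0) : ∑ k ∈ L, PP F (α k) (e k) = 0 := by
  classical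
  have h1 : ∀ k, PP (RF F) (α k) (RE E F (e k)) = reflect E (PP F (α k) (e k)) := by
    intro k
    rw [PP_RF, reflect_eq _ (by rw [natDegree_PP hF (hα k)]; exact hE k),
      natDegree_PP hF (hα k)]
  have h2 : reflect E (∑ k ∈ L, PP F (α k) (e k)) = ∑ k ∈ L, reflect E (PP F (α k) (e k)) := by
    clear h
    induction L using Finset.induction_on with
    | empty => simp
    | insert k L hk ih => rw [Finset.sum_insert hk, Finset.sum_insert hk, reflect_add, ih]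
  rw [Finset.sum_congr rfl fun k _ => h1 k, ← h2, reflect_eq_zero_iff] at h
  exact h

variable {s : A → ℝ}

theorem coeff_RF (hs : SizeFn s) {F : κ → A[X]} {H : ℝ} (hH : 1 ≤ H)
    (hFH : ∀ i j, s ((F i).coeff j) ≤ H) (hlc : ∀ i, s (F i).leadingCoeff ≤ 1) {α : A}
    (hα : s α ≤ H) (e : κ → ℕ) {N : ℕ} (hN : 1 ≤ N) (he : ∑ i, e i ≤ N) (E j : ℕ) :
    s ((PP (RF F) α (RE E F e)).coeff j) ≤ H * (N * H) ^ j := by
  have hN1 : (1 : ℝ) ≤ N := by exact_mod_cast hN
  have hNH : 1 ≤ (N : ℝ) * H := by nlinarith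
  rw [PP_RF, coeff_X_pow_mul']
  split_ifs with h
  · have hgeo : ∀ k, Geo s ((F k).reverse) H := by
      intro k m
      rcases Nat.eq_zero_or_pos m with rfl | hm
      · rw [pow_zero, coeff_zero_reverse]
        exact hlc k
      · refine le_trans ?_ (le_self_pow₀ hH (by omega))
        rw [coeff_reverse]
        exact hFH k _
    rw [reverse_PP']
    refine (coeff_PP hs (fun i => (F i).reverse) α e (by linarith) hgeo _).trans ?_
    apply mul_le_mul hα _ (by positivity) (by linarith)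
    refine (pow_le_pow_left₀ (by positivity) ?_ _).trans (pow_le_pow_right₀ hNH (Nat.sub_le _ _))
    apply mul_le_mul_of_nonneg_right _ (by linarith)
    exact_mod_cast he
  · rw [hs.zero]
    positivity

theorem coeff_PP' (hs : SizeFn s) {F : κ → A[X]} {H : ℝ} (hH : 1 ≤ H)
    (hFH : ∀ i j, s ((F i).coeff j) ≤ H) (hF0 : ∀ i, s ((F i).coeff 0) ≤ 1) {α : A}
    (hα : s α ≤ H) (e : κ → ℕ) {N : ℕ} (he : ∑ i, e i ≤ N) (j : ℕ) :
    s ((PP F α e).coeff j) ≤ H * (N * H) ^ j := by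
  have hgeo : ∀ k, Geo s (F k) H := by
    intro k m
    rcases Nat.eq_zero_or_pos m with rfl | hm
    · rw [pow_zero]
      exact hF0 k
    · exact (hFH k m).trans (le_self_pow₀ hH (by omega))
  refine (coeff_PP hs F α e (by linarith) hgeo _).trans ?_
  apply mul_le_mul hα _ (by positivity) (by linarith)
  refine pow_le_pow_left₀ (by positivity) ?_ _
  apply mul_le_mul_of_nonneg_right _ (by linarith)
  exact_mod_cast he

theorem coeff_sum_le (hs : SizeFn s) {P : ι → A[X]} {Y W : ℝ}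
    (h : ∀ k j, s ((P k).coeff j) ≤ Y * W ^ j) (j : ℕ) :
    s ((∑ k, P k).coeff j) ≤ Fintype.card ι * Y * W ^ j := by
  rw [finset_sum_coeff]
  refine (hs.sum _ _).trans ((Finset.sum_le_sum fun k _ => h k j).trans (le_of_eq ?_))
  rw [Finset.sum_const, Finset.card_univ, nsmul_eq_mul]
  ring

/-- values at a small number -/
theorem eval_near {σ : A →+* ℂ} (hσ : ∀ x, ‖σ x‖ ≤ s x) {P : A[X]} {Y W : ℝ} (hY : 0 ≤ Y)
    (hW : 0 ≤ W) (h : ∀ j, s (P.coeff j) ≤ Y * W ^ j) {u : ℂ} (hu : 2 * W * ‖u‖ ≤ 1) :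
    ‖P.eval₂ σ u - σ (P.coeff 0)‖ ≤ 2 * Y * W * ‖u‖ := by
  have h1 : P.eval₂ σ u - σ (P.coeff 0) =
      ∑ i ∈ Finset.range P.natDegree, σ (P.coeff (i + 1)) * u ^ (i + 1) := by
    rw [eval₂_eq_sum_range, Finset.sum_range_succ']
    simp
  rw [h1]
  obtain ⟨y, hy⟩ : ∃ y, y = W * ‖u‖ := ⟨_, rfl⟩
  have hy0 : 0 ≤ y := by rw [hy]; positivity
  have hy1 : 2 * y ≤ 1 := by rw [hy]; linarith
  have h2 : ‖∑ i ∈ Finset.range P.natDegree, σ (P.coeff (i + 1)) * u ^ (i + 1)‖ ≤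
      Y * y * ∑ i ∈ Finset.range P.natDegree, y ^ i := by
    refine (norm_sum_le _ _).trans ?_
    rw [Finset.mul_sum]
    apply Finset.sum_le_sum
    intro i _
    rw [norm_mul, norm_pow]
    calc ‖σ (P.coeff (i + 1))‖ * ‖u‖ ^ (i + 1) ≤ (Y * W ^ (i + 1)) * ‖u‖ ^ (i + 1) :=
          mul_le_mul_of_nonneg_right ((hσ _).trans (h _)) (by positivity)
      _ = Y * y * y ^ i := by rw [hy, mul_pow, pow_succ, pow_succ]; ring
  have h3 : ∑ i ∈ Finset.range P.natDegree, y ^ i ≤ 2 := by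
    have h4 := geom_sum_mul y P.natDegree
    have h5 : 0 ≤ y ^ P.natDegree := by positivity
    have h6 : 0 ≤ ∑ i ∈ Finset.range P.natDegree, y ^ i :=
      Finset.sum_nonneg fun i _ => by positivity
    nlinarith
  calc _ ≤ Y * y * ∑ i ∈ Finset.range P.natDegree, y ^ i := h2
    _ ≤ Y * y * 2 := mul_le_mul_of_nonneg_left h3 (by positivity)
    _ = _ := by rw [hy]; ring

/-- **The two ends of a sum of products of powers without vanishing subsums.** -/
theorem two_ends (hs : SizeFn s) {F : κ → A[X]} (hF : ∀ i, F i ≠ 0) {D : ℕ}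
    (hD : ∑ i, (F i).natDegree ≤ D) {H : ℝ} (hH : 1 ≤ H) (hF0 : ∀ i, s ((F i).coeff 0) ≤ 1)
    (hF00 : ∀ i, (F i).coeff 0 ≠ 0) (hlc : ∀ i, s (F i).leadingCoeff ≤ 1)
    (hFH : ∀ i j, s ((F i).coeff j) ≤ H) {α : ι → A} (hα : ∀ k, α k ≠ 0)
    (hαH : ∀ k, s (α k) ≤ H) (e : ι → κ → ℕ) {N : ℕ} (hN : 1 ≤ N) (heN : ∀ k, ∑ i, e k i ≤ N)
    [Nonempty ι] (hno : ∀ L : Finset ι, L.Nonempty → ∑ k ∈ L, PP F (α k) (e k) ≠ 0)
    {J : ℕ} (hJ1 : JJ D (Fintype.card ι) ≤ J) (hJ2 : JJ (D + 1) (Fintype.card ι) ≤ J) (t : A) :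
    ∃ (i j : ℕ) (q r : A), i < J ∧ j < J ∧ q ≠ 0 ∧ r ≠ 0 ∧
      s q ≤ Fintype.card ι * H * (N * H) ^ J ∧ s r ≤ Fintype.card ι * H * (N * H) ^ J ∧
      (∃ y, (∑ k, PP F (α k) (e k)).eval t = t ^ i * (q + t * y)) ∧
      ∀ σ : A →+* ℂ, (∀ x, ‖σ x‖ ≤ s x) → 2 * (N * H) ≤ ‖σ t‖ → ∀ k,
        ‖σ ((PP F (α k) (e k)).eval t)‖ *
          (‖σ r‖ - 2 * (Fintype.card ι * H * (N * H) ^ J) * (N * H) / ‖σ t‖) ≤
        2 * H * ‖σ t‖ ^ j * ‖σ ((∑ k, PP F (α k) (e k)).eval t)‖ := by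
  classical
  have hN1 : (1 : ℝ) ≤ N := by exact_mod_cast hN
  have hNH : 1 ≤ (N : ℝ) * H := by nlinarith
  obtain ⟨P, hP⟩ : ∃ P, P = ∑ k, PP F (α k) (e k) := ⟨_, rfl⟩
  have hcard : (1 : ℝ) ≤ Fintype.card ι := by exact_mod_cast Fintype.card_pos
  obtain ⟨C, hC⟩ : ∃ C : ℝ, C = Fintype.card ι * H := ⟨_, rfl⟩
  have hC0 : 0 ≤ C := by rw [hC]; positivity
  have hmono : ∀ m, m ≤ J → C * (N * H) ^ m ≤ C * (N * H) ^ J := fun m hm =>
    mul_le_mul_of_nonneg_left (pow_le_pow_right₀ hNH hm) hC0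
  have hk0 : ∀ k, (PP F (α k) (e k)).coeff 0 ≠ 0 := by
    intro k
    rw [coeff_zero_eq_eval_zero, eval_PP]
    refine mul_ne_zero (hα k) (Finset.prod_ne_zero_iff.mpr fun i _ => pow_ne_zero _ ?_)
    rw [← coeff_zero_eq_eval_zero]
    exact hF00 i
  obtain ⟨k0⟩ := ‹Nonempty ι›
  -- the last coefficients
  have hPne : ¬ X ^ (JJ D (Fintype.card ι)) ∣ P := by
    intro h
    rw [hP] at h
    obtain ⟨L, hL, hL0⟩ := gap_subsum hF hD hα e k0 (hk0 k0) h
    exact hno L ⟨k0, hL⟩ hL0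
  have hP0 : P ≠ 0 := by
    rintro rfl
    exact hPne (dvd_zero _)
  have hi : P.natTrailingDegree < JJ D (Fintype.card ι) := by
    by_contra hcon
    push Not at hcon
    apply hPne
    rw [X_pow_dvd_iff]
    intro d hd
    exact coeff_eq_zero_of_lt_natTrailingDegree (hd.trans_le hcon)
  have hcP : ∀ j, s (P.coeff j) ≤ C * (N * H) ^ j := by
    intro j
    rw [hP, hC]
    exact coeff_sum_le hs (fun k j => coeff_PP' hs hH hFH hF0 (hαH k) (e k) (heN k) j) j
  -- the first coefficients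
  obtain ⟨k1, -, hk1⟩ := Finset.exists_max_image Finset.univ
    (fun k => ∑ i, e k i * (F i).natDegree) ⟨k0, Finset.mem_univ _⟩
  obtain ⟨E, hE⟩ : ∃ E, E = ∑ i, e k1 i * (F i).natDegree := ⟨_, rfl⟩
  have hEk : ∀ k, ∑ i, e k i * (F i).natDegree ≤ E := fun k => by
    rw [hE]
    exact hk1 k (Finset.mem_univ _)
  obtain ⟨R, hR⟩ : ∃ R, R = ∑ k, PP (RF F) (α k) (RE E F (e k)) := ⟨_, rfl⟩
  have hRF : ∀ i, RF F i ≠ 0 := by
    intro i
    rcases i with _ | i
    · exact X_ne_zero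
    · simp only [RF]
      rw [Ne, reverse_eq_zero]
      exact hF i
  have hRD : ∑ i, (RF F i).natDegree ≤ D + 1 := by
    rw [Fintype.sum_option]
    simp only [RF]
    rw [natDegree_X, add_comm]
    apply Nat.add_le_add_right
    refine le_trans (Finset.sum_le_sum fun i _ => ?_) hD
    exact reverse_natDegree_le _
  have hRne : ¬ X ^ (JJ (D + 1) (Fintype.card ι)) ∣ R := by
    intro h
    rw [hR] at h
    obtain ⟨L, hL, hL0⟩ := gap_subsum hRF hRD hα (fun k => RE E F (e k)) k1 (by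
      rw [PP_RF, ← hE, Nat.sub_self, pow_zero, one_mul, coeff_zero_reverse]
      exact leadingCoeff_ne_zero.mpr (PP_ne_zero hF (hα k1) _)) h
    exact hno L ⟨k1, hL⟩ (subsum_of_RF hF hα e hEk L hL0)
  have hR0 : R ≠ 0 := by
    rintro rfl
    exact hRne (dvd_zero _)
  have hj : R.natTrailingDegree < JJ (D + 1) (Fintype.card ι) := by
    by_contra hcon
    push Not at hcon
    apply hRne
    rw [X_pow_dvd_iff]
    intro d hd
    exact coeff_eq_zero_of_lt_natTrailingDegree (hd.trans_le hcon)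
  have hcRk : ∀ k j, s ((PP (RF F) (α k) (RE E F (e k))).coeff j) ≤ H * (N * H) ^ j :=
    fun k j => coeff_RF hs hH hFH hlc (hαH k) (e k) hN (heN k) E j
  have hcR : ∀ j, s (R.coeff j) ≤ C * (N * H) ^ j := by
    intro j
    rw [hR, hC]
    exact coeff_sum_le hs hcRk j
  obtain ⟨i, hii⟩ : ∃ i, i = P.natTrailingDegree := ⟨_, rfl⟩
  obtain ⟨j, hjj⟩ : ∃ j, j = R.natTrailingDegree := ⟨_, rfl⟩
  rw [← hii] at hi
  rw [← hjj] at hj
  refine ⟨i, j, P.coeff i, R.coeff j, by omega, by omega, ?_, ?_, ?_, ?_, ?_, ?_⟩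
  · rw [hii]; exact trailingCoeff_nonzero_iff_nonzero.mpr hP0
  · rw [hjj]; exact trailingCoeff_nonzero_iff_nonzero.mpr hR0
  · rw [← hC]; exact (hcP i).trans (hmono i (by omega))
  · rw [← hC]; exact (hcR j).trans (hmono j (by omega))
  · rw [← hP]
    obtain ⟨Q, hQ⟩ : X ^ i ∣ P := by
      rw [X_pow_dvd_iff]
      intro d hd
      exact coeff_eq_zero_of_lt_natTrailingDegree (by omega)
    have hQ0 : Q.coeff 0 = P.coeff i := by
      rw [hQ]
      have := coeff_X_pow_mul Q i 0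
      rw [zero_add] at this
      exact this.symm
    obtain ⟨y, hy⟩ : (t - 0) ∣ Q.eval t - Q.eval 0 := sub_dvd_eval_sub _ _ _
    rw [← coeff_zero_eq_eval_zero, sub_zero, hQ0] at hy
    refine ⟨y, ?_⟩
    have h1 : P.eval t = t ^ i * Q.eval t := by
      conv_lhs => rw [hQ]
      rw [eval_mul, eval_pow, eval_X]
    rw [h1]
    linear_combination (t ^ i) * hy
  · intro σ hσ hσt k
    have hZ0 : 0 < ‖σ t‖ := by linarith
    have hz : σ t ≠ 0 := norm_pos_iff.mp hZ0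
    obtain ⟨u, hu⟩ : ∃ u, u = (σ t)⁻¹ := ⟨_, rfl⟩
    have hun : ‖u‖ = ‖σ t‖⁻¹ := by rw [hu, norm_inv]
    have hus : 2 * (N * H) * ‖u‖ ≤ 1 := by
      rw [hun, ← div_eq_mul_inv, div_le_one hZ0]
      exact hσt
    have hNH0 : 0 ≤ (N : ℝ) * H := by linarith
    -- the term
    have hT : ‖σ ((PP F (α k) (e k)).eval t)‖ ≤ 2 * H * ‖σ t‖ ^ E := by
      rw [← eval_RF hF (hα k) (e k) (hEk k) σ hz, norm_mul, norm_pow, ← hu, mul_comm]
      apply mul_le_mul_of_nonneg_right _ (by positivity)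
      have h1 := eval_near hσ (by linarith : 0 ≤ H) hNH0 (hcRk k) hus
      have h2 := hcRk k 0
      rw [pow_zero, mul_one] at h2
      have h3 := norm_le_norm_add_norm_sub' ((PP (RF F) (α k) (RE E F (e k))).eval₂ σ u)
        (σ ((PP (RF F) (α k) (RE E F (e k))).coeff 0))
      have h4 : ‖σ ((PP (RF F) (α k) (RE E F (e k))).coeff 0)‖ ≤ H := (hσ _).trans h2
      have h5 : 2 * H * (N * H) * ‖u‖ ≤ H := by nlinarith
      linarith
    -- the sum
    have hsum : ‖σ t‖ ^ E * ‖R.eval₂ σ u‖ = ‖σ (P.eval t)‖ := by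
      have h1 : σ t ^ E * R.eval₂ σ u = σ (P.eval t) := by
        rw [hR, hP, eval₂_finset_sum, Finset.mul_sum, eval_finset_sum, map_sum]
        apply Finset.sum_congr rfl
        intro k _
        rw [hu]
        exact eval_RF hF (hα k) (e k) (hEk k) σ hz
      rw [← h1, norm_mul, norm_pow]
    obtain ⟨Q, hQ⟩ : X ^ j ∣ R := by
      rw [X_pow_dvd_iff]
      intro d hd
      exact coeff_eq_zero_of_lt_natTrailingDegree (by omega)
    have hQc : ∀ m, Q.coeff m = R.coeff (m + j) := by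
      intro m
      rw [hQ, coeff_X_pow_mul]
    have hQb : ∀ m, s (Q.coeff m) ≤ (C * (N * H) ^ j) * (N * H) ^ m := by
      intro m
      rw [hQc, mul_assoc, ← pow_add, add_comm j m]
      exact hcR _
    have h6 := eval_near hσ (by positivity : 0 ≤ C * ((N : ℝ) * H) ^ j) hNH0 hQb hus
    have hQ0 : Q.coeff 0 = R.coeff j := by rw [hQc, zero_add]
    rw [hQ0] at h6
    have h7 : ‖σ (R.coeff j)‖ - 2 * (C * (N * H) ^ J) * (N * H) / ‖σ t‖ ≤ ‖Q.eval₂ σ u‖ := by
      have h8 : ‖σ (R.coeff j)‖ ≤ ‖Q.eval₂ σ u‖ + ‖Q.eval₂ σ u - σ (R.coeff j)‖ :=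
        norm_le_norm_add_norm_sub _ _
      have h9 : 2 * (C * (N * H) ^ j) * (N * H) * ‖u‖ ≤
          2 * (C * (N * H) ^ J) * (N * H) / ‖σ t‖ := by
        rw [hun, ← div_eq_mul_inv]
        apply div_le_div_of_nonneg_right _ hZ0.le
        have := hmono j (by omega)
        nlinarith
      linarith
    have h10 : ‖R.eval₂ σ u‖ * ‖σ t‖ ^ j = ‖Q.eval₂ σ u‖ := by
      rw [hQ, eval₂_mul, eval₂_pow, eval₂_X, norm_mul, norm_pow, hun, inv_pow]
      field_simp
    rw [← hP, ← hC, ← hsum]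
    have hT0 : 0 ≤ ‖σ ((PP F (α k) (e k)).eval t)‖ := norm_nonneg _
    calc ‖σ ((PP F (α k) (e k)).eval t)‖ *
          (‖σ (R.coeff j)‖ - 2 * (C * (N * H) ^ J) * (N * H) / ‖σ t‖)
        ≤ ‖σ ((PP F (α k) (e k)).eval t)‖ * ‖Q.eval₂ σ u‖ := mul_le_mul_of_nonneg_left h7 hT0
      _ ≤ (2 * H * ‖σ t‖ ^ E) * ‖Q.eval₂ σ u‖ := mul_le_mul_of_nonneg_right hT (norm_nonneg _)
      _ = 2 * H * ‖σ t‖ ^ j * (‖σ t‖ ^ E * ‖R.eval₂ σ u‖) := by rw [← h10]; ring

end

end Pool.Agent.Q103.SD
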