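import Mathlib
import Pool.Agent.Q103.SD.Size

/-!
# The degrees in a three-term identity between products of powers
-/

set_option autoImplicit false

namespace Pool.Agent.Q103.SD.Deg

open Polynomial Finset

/-- the bases that occur -/
def used {n : ℕ} (l b c : Fin n → ℕ) : Finset (Fin n) :=
  Finset.univ.filter (fun i => l i ≠ 0 ∨ b i ≠ 0 ∨ c i ≠ 0)

section

variable {A E : Type*} [CommRing A] [IsDomain A] [Field E] [CharZero E] [DecidableEq E]
  (φ : A →+* E)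

theorem radical_deg (hφ : Function.Injective φ) {n : ℕ} {F : Fin n → A[X]} {U : Finset (Fin n)}
    {P : E[X]} (hP : P ≠ 0) (hF0 : ∀ i, F i ≠ 0)
    (h : ∃ m, P ∣ (∏ i ∈ U, (F i).map φ) ^ m) :
    (UniqueFactorizationMonoid.radical P).natDegree ≤ ∑ i ∈ U, (F i).natDegree := by
  have h1 := (UniqueFactorizationMonoid.exists_dvd_pow_iff_radical_dvd hP).mp h
  have h2 : ∏ i ∈ U, (F i).map φ ≠ 0 :=
    Finset.prod_ne_zero_iff.mpr fun i _ => (Polynomial.map_ne_zero_iff hφ).mpr (hF0 i)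
  refine (natDegree_le_of_dvd h1 h2).trans ((natDegree_prod_le _ _).trans ?_)
  apply Finset.sum_le_sum
  intro i _
  exact natDegree_map_le

theorem natDegree_PP' (hφ : Function.Injective φ) {n : ℕ} {F : Fin n → A[X]} (hF0 : ∀ i, F i ≠ 0)
    {η : A} (hη : η ≠ 0) (e : Fin n → ℕ) :
    ((PP F η e).map φ).natDegree = ∑ i, e i * (F i).natDegree := by
  unfold PP
  rw [natDegree_map_eq_of_injective hφ, natDegree_C_mul hη,
    natDegree_prod _ _ (fun i _ => pow_ne_zero _ (hF0 i))]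
  apply Finset.sum_congr rfl
  intro i _
  rw [natDegree_pow]

/-- **The degrees in the identity.** -/
theorem degrees (hφ : Function.Injective φ) {n : ℕ} {F : Fin n → A[X]}
    (hpos : ∀ i, 0 < (F i).natDegree) {α β γ : A} (hα : α ≠ 0) (hβ : β ≠ 0) (hγ : γ ≠ 0)
    {l b c : Fin n → ℕ}
    (hco : IsCoprime ((PP F α l).map φ) ((PP F β b).map φ))
    (hid : PP F α l + PP F β b = PP F γ c) (hU : (used l b c).Nonempty) :
    ∑ i, l i * (F i).natDegree + 1 ≤ ∑ i ∈ used l b c, (F i).natDegree ∧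
    ∑ i, b i * (F i).natDegree + 1 ≤ ∑ i ∈ used l b c, (F i).natDegree ∧
    ∑ i, c i * (F i).natDegree + 1 ≤ ∑ i ∈ used l b c, (F i).natDegree := by
  have hF0 : ∀ i, F i ≠ 0 := fun i h => by
    have := hpos i
    rw [h, natDegree_zero] at this
    omega
  have hnz : ∀ (η : A) (e : Fin n → ℕ), η ≠ 0 → (PP F η e).map φ ≠ 0 := fun η e hη =>
    (Polynomial.map_ne_zero_iff hφ).mpr (mul_ne_zero (C_ne_zero.mpr hη)
      (Finset.prod_ne_zero_iff.mpr fun i _ => pow_ne_zero _ (hF0 i)))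
  obtain ⟨P, hP⟩ : ∃ P, P = (PP F α l).map φ := ⟨_, rfl⟩
  obtain ⟨Q, hQ⟩ : ∃ Q, Q = (PP F β b).map φ := ⟨_, rfl⟩
  obtain ⟨R, hR⟩ : ∃ R, R = (PP F γ c).map φ := ⟨_, rfl⟩
  have hsum : P + Q + -R = 0 := by
    rw [hP, hQ, hR, ← Polynomial.map_add, hid]
    ring
  have hP0 : P ≠ 0 := by rw [hP]; exact hnz α l hα
  have hQ0 : Q ≠ 0 := by rw [hQ]; exact hnz β b hβ
  have hR0 : R ≠ 0 := by rw [hR]; exact hnz γ c hγ
  have hdvd : ∀ (η : A) (e : Fin n → ℕ), η ≠ 0 → (∀ i, e i ≠ 0 → i ∈ used l b c) →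
      (PP F η e).map φ ∣ (∏ i ∈ used l b c, (F i).map φ) ^ (∑ i, e i) := by
    intro η e hη he
    unfold PP
    rw [Polynomial.map_mul, map_C, Polynomial.map_prod]
    have hη' : φ η ≠ 0 := fun h => hη (hφ (by rw [h, map_zero]))
    have hu1 : IsUnit (C (φ η)) := isUnit_C.mpr (isUnit_iff_ne_zero.mpr hη')
    refine (hu1.mul_left_dvd).mpr ?_
    rw [← Finset.prod_pow_eq_pow_sum]
    apply Finset.prod_dvd_prod_of_dvd
    intro i _
    rw [Polynomial.map_pow]
    by_cases hi : e i = 0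
    · rw [hi, pow_zero, pow_zero]
    · exact pow_dvd_pow_of_dvd (Finset.dvd_prod_of_mem _ (he i hi)) _
  have hrad : (UniqueFactorizationMonoid.radical (P * Q * -R)).natDegree ≤
      ∑ i ∈ used l b c, (F i).natDegree := by
    refine radical_deg φ hφ (mul_ne_zero (mul_ne_zero hP0 hQ0) (neg_ne_zero.mpr hR0)) hF0
      ⟨∑ i, l i + ∑ i, b i + ∑ i, c i, ?_⟩
    rw [pow_add, pow_add, mul_neg, neg_dvd, hP, hQ, hR]
    refine mul_dvd_mul (mul_dvd_mul ?_ ?_) ?_
    · exact hdvd α l hα fun i hi => Finset.mem_filter.mpr ⟨Finset.mem_univ _, Or.inl hi⟩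
    · exact hdvd β b hβ fun i hi => Finset.mem_filter.mpr ⟨Finset.mem_univ _, Or.inr (Or.inl hi)⟩
    · exact hdvd γ c hγ fun i hi => Finset.mem_filter.mpr ⟨Finset.mem_univ _, Or.inr (Or.inr hi)⟩
  have hcoPQ : IsCoprime P Q := by rw [hP, hQ]; exact hco
  rcases Polynomial.abc hP0 hQ0 (neg_ne_zero.mpr hR0) hcoPQ hsum with ⟨h1, h2, h3⟩ | ⟨h1, h2, h3⟩
  · rw [natDegree_neg] at h3
    have e1 := natDegree_PP' φ hφ hF0 hα l
    have e2 := natDegree_PP' φ hφ hF0 hβ b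
    have e3 := natDegree_PP' φ hφ hF0 hγ c
    rw [← hP] at e1
    rw [← hQ] at e2
    rw [← hR] at e3
    omega
  · exfalso
    rw [derivative_neg, neg_eq_zero] at h3
    obtain ⟨i, hi⟩ := hU
    have z1 := derivative_eq_zero.mp h1
    have z2 := derivative_eq_zero.mp h2
    have z3 := derivative_eq_zero.mp h3
    rw [hP, natDegree_PP' φ hφ hF0 hα] at z1
    rw [hQ, natDegree_PP' φ hφ hF0 hβ] at z2
    rw [hR, natDegree_PP' φ hφ hF0 hγ] at z3
    have hone : ∀ e : Fin n → ℕ, ∑ i, e i * (F i).natDegree = 0 → e i = 0 := by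
      intro e he
      have h4 := (Finset.sum_eq_zero_iff.mp he) i (Finset.mem_univ i)
      rcases Nat.mul_eq_zero.mp h4 with h5 | h5
      · exact h5
      · have := hpos i
        omega
    rcases (Finset.mem_filter.mp hi).2 with h4 | h4 | h4
    · exact h4 (hone l z1)
    · exact h4 (hone b z2)
    · exact h4 (hone c z3)

end

end Pool.Agent.Q103.SD.Deg
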