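import Mathlib
import Pool.Agent.Q103.SD.Main

/-!
# Numbers with small digits in number fields: houses and common roots
-/

set_option autoImplicit false

namespace Pool.Agent.Q103.SD.NF

open Polynomial Finset NumberField

section

variable {K : Type*} [Field K] [NumberField K]

/-- the house is a size function -/
theorem sizeFn_house : SizeFn (fun x : 𝓞 K => house (x : K)) where
  nonneg x := house_nonneg _
  zero := by
    have := house_intCast (K := K) 0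
    simpa using this
  one := by
    have := house_intCast (K := K) 1
    simp at this
    simp [this]
  add x y := by
    have := house_add_le (x : K) (y : K)
    simpa using this
  mul x y := by
    have := house_mul_le (x : K) (y : K)
    simpa using this

theorem small_house {t : 𝓞 K} {T : ℝ} (ht : ∀ σ : K →+* ℂ, T ≤ ‖σ t‖) (x : 𝓞 K) (hd : t ∣ x)
    (hx : house (x : K) < T) : x = 0 := by
  by_contra h0
  obtain ⟨y, rfl⟩ := hd
  have hy : y ≠ 0 := fun h => h0 (by rw [h, mul_zero])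
  obtain ⟨σ, hσ⟩ := exists_conjugate_one_le_norm hy
  have h1 := norm_embedding_le_house ((t * y : 𝓞 K) : K) σ
  have h2 : σ ((t * y : 𝓞 K) : K) = σ t * σ y := by
    rw [← map_mul]
    rfl
  rw [h2, norm_mul] at h1
  have h3 := ht σ
  have h4 : T ≤ ‖σ t‖ * ‖σ y‖ := by
    have : 0 ≤ ‖σ (t : K)‖ := norm_nonneg _
    nlinarith
  linarith

end

/-- a nonzero algebraic integer has a conjugate of absolute value at least `1` -/
theorem exists_embedding {L : Type*} [Field L] [CharZero L] [Algebra.IsAlgebraic ℚ L] {w : L}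
    (hw : IsIntegral ℤ w) (hw0 : w ≠ 0) : ∃ ψ : L →+* ℂ, 1 ≤ ‖ψ w‖ := by
  have hint : IsIntegral ℚ w := hw.tower_top
  have : FiniteDimensional ℚ (IntermediateField.adjoin ℚ {w}) :=
    IntermediateField.adjoin.finiteDimensional hint
  have : NumberField (IntermediateField.adjoin ℚ {w}) := ⟨⟩
  let g : IntermediateField.adjoin ℚ {w} := IntermediateField.AdjoinSimple.gen ℚ w
  have hg : IsIntegral ℤ g := by
    have hinj : Function.Injective (algebraMap (IntermediateField.adjoin ℚ {w}) L) :=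
      (algebraMap (IntermediateField.adjoin ℚ {w}) L).injective
    have e : algebraMap (IntermediateField.adjoin ℚ {w}) L g = w :=
      IntermediateField.AdjoinSimple.algebraMap_gen ℚ w
    rw [← e] at hw
    exact (isIntegral_algebraMap_iff hinj).mp hw
  have hg0 : (⟨g, hg⟩ : 𝓞 (IntermediateField.adjoin ℚ {w})) ≠ 0 := by
    intro h
    have h1 : g = 0 := congrArg Subtype.val h
    apply hw0
    have e : algebraMap (IntermediateField.adjoin ℚ {w}) L g = w :=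
      IntermediateField.AdjoinSimple.algebraMap_gen ℚ w
    rw [← e, h1, map_zero]
  obtain ⟨σ, hσ⟩ := exists_conjugate_one_le_norm hg0
  let := σ.toAlgebra
  have : Algebra.IsAlgebraic (IntermediateField.adjoin ℚ {w}) L :=
    Algebra.IsAlgebraic.tower_top (K := ℚ) _
  let ψ : L →ₐ[IntermediateField.adjoin ℚ {w}] ℂ := IsAlgClosed.lift
  refine ⟨ψ.toRingHom, ?_⟩
  have e : algebraMap (IntermediateField.adjoin ℚ {w}) L g = w :=
    IntermediateField.AdjoinSimple.algebraMap_gen ℚ w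
  have e2 : ψ w = σ g := (congrArg ψ e.symm).trans (ψ.commutes g)
  have e3 : ψ.toRingHom w = ψ w := rfl
  rw [e3, e2]
  exact hσ

/-- evaluation of a polynomial at a large complex number -/
theorem eval_close {P : ℂ[X]} {B : ℝ} (hP : ∀ j, ‖P.coeff j‖ ≤ B) {z : ℂ} (hz : 2 ≤ ‖z‖) :
    ‖z‖ * ‖P.eval z - P.leadingCoeff * z ^ P.natDegree‖ ≤ 2 * B * ‖z‖ ^ P.natDegree := by
  have hB : 0 ≤ B := (norm_nonneg _).trans (hP 0)
  have h1 : P.eval z - P.leadingCoeff * z ^ P.natDegree =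
      ∑ i ∈ Finset.range P.natDegree, P.coeff i * z ^ i := by
    rw [eval_eq_sum_range, Finset.sum_range_succ]
    unfold leadingCoeff
    ring
  rw [h1]
  have h2 : ‖∑ i ∈ Finset.range P.natDegree, P.coeff i * z ^ i‖ ≤
      B * ∑ i ∈ Finset.range P.natDegree, ‖z‖ ^ i := by
    refine (norm_sum_le _ _).trans ?_
    rw [Finset.mul_sum]
    apply Finset.sum_le_sum
    intro i _
    rw [norm_mul, norm_pow]
    exact mul_le_mul_of_nonneg_right (hP i) (by positivity)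
  have h3 : (∑ i ∈ Finset.range P.natDegree, ‖z‖ ^ i) * (‖z‖ - 1) = ‖z‖ ^ P.natDegree - 1 :=
    geom_sum_mul _ _
  have h4 : 0 ≤ ∑ i ∈ Finset.range P.natDegree, ‖z‖ ^ i :=
    Finset.sum_nonneg fun i _ => by positivity
  have h5 : ‖z‖ * ∑ i ∈ Finset.range P.natDegree, ‖z‖ ^ i ≤ 2 * ‖z‖ ^ P.natDegree := by
    nlinarith
  calc ‖z‖ * ‖∑ i ∈ Finset.range P.natDegree, P.coeff i * z ^ i‖
      ≤ ‖z‖ * (B * ∑ i ∈ Finset.range P.natDegree, ‖z‖ ^ i) :=
        mul_le_mul_of_nonneg_left h2 (norm_nonneg _)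
    _ = B * (‖z‖ * ∑ i ∈ Finset.range P.natDegree, ‖z‖ ^ i) := by ring
    _ ≤ B * (2 * ‖z‖ ^ P.natDegree) := mul_le_mul_of_nonneg_left h5 hB
    _ = _ := by ring

/-- the size of a value -/
theorem eval_size {P : ℂ[X]} {B : ℝ} (hB : 1 ≤ B) (hP : ∀ j, ‖P.coeff j‖ ≤ B)
    (hl : 1 ≤ B * ‖P.leadingCoeff‖) {z : ℂ} (hz : 4 * B ^ 2 ≤ ‖z‖) :
    ‖z‖ ^ P.natDegree ≤ 2 * B * ‖P.eval z‖ ∧ ‖P.eval z‖ ≤ 2 * B * ‖z‖ ^ P.natDegree := by
  have hz2 : 2 ≤ ‖z‖ := by nlinarith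
  have h1 := eval_close hP hz2
  obtain ⟨y, hy⟩ : ∃ y, y = ‖P.eval z - P.leadingCoeff * z ^ P.natDegree‖ := ⟨_, rfl⟩
  obtain ⟨Z, hZ⟩ : ∃ Z, Z = ‖z‖ ^ P.natDegree := ⟨_, rfl⟩
  obtain ⟨v, hv⟩ : ∃ v, v = ‖P.eval z‖ := ⟨_, rfl⟩
  obtain ⟨c, hc⟩ : ∃ c, c = ‖P.leadingCoeff‖ := ⟨_, rfl⟩
  have hcB : c ≤ B := by rw [hc]; exact hP _
  have hy0 : 0 ≤ y := by rw [hy]; positivity
  have hZ0 : 0 ≤ Z := by rw [hZ]; positivity
  rw [← hy, ← hZ] at h1
  have h2 : c * Z ≤ v + y := by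
    have e : P.leadingCoeff * z ^ P.natDegree =
        P.eval z - (P.eval z - P.leadingCoeff * z ^ P.natDegree) := by ring
    have h3 := norm_sub_le (P.eval z) (P.eval z - P.leadingCoeff * z ^ P.natDegree)
    rw [← e, norm_mul, norm_pow] at h3
    rw [hc, hZ, hv, hy]
    exact h3
  have h3 : v ≤ c * Z + y := by
    have e : P.eval z = P.leadingCoeff * z ^ P.natDegree +
        (P.eval z - P.leadingCoeff * z ^ P.natDegree) := by ring
    have h4 := norm_add_le (P.leadingCoeff * z ^ P.natDegree)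
      (P.eval z - P.leadingCoeff * z ^ P.natDegree)
    rw [← e, norm_mul, norm_pow] at h4
    rw [hc, hZ, hv, hy]
    exact h4
  have h4 : 2 * B * y ≤ Z := by
    have h5 : 4 * B ^ 2 * y ≤ 2 * B * Z := (mul_le_mul_of_nonneg_right hz hy0).trans h1
    have h6 : (2 * B) * (2 * B * y) ≤ (2 * B) * Z := by nlinarith
    exact le_of_mul_le_mul_left h6 (by linarith)
  rw [← hc] at hl
  rw [← hZ, ← hv]
  constructor
  · have h5 : Z ≤ B * c * Z := by nlinarith
    have h6 : B * (c * Z) ≤ B * (v + y) := mul_le_mul_of_nonneg_left h2 (by linarith)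
    nlinarith
  · have h5 : c * Z ≤ B * Z := mul_le_mul_of_nonneg_right hcB hZ0
    have h6 : y ≤ 2 * B * y := by nlinarith
    nlinarith

/-- the roots are small -/
theorem root_size {P : ℂ[X]} {B : ℝ} (hB : 1 ≤ B) (hP : ∀ j, ‖P.coeff j‖ ≤ B)
    (hl : 1 ≤ B * ‖P.leadingCoeff‖) {z : ℂ} (hz : P.eval z = 0) : ‖z‖ < 4 * B ^ 2 := by
  by_contra h
  push Not at h
  have h1 := (eval_size hB hP hl h).1
  rw [hz, norm_zero, mul_zero] at h1
  have h2 : 0 < ‖z‖ := by nlinarith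
  have : 0 < ‖z‖ ^ P.natDegree := by positivity
  linarith

section

variable {K : Type*} [Field K] [NumberField K]

theorem map_conditions {F : (𝓞 K)[X]} {B : ℝ}
    (hF : ∀ (j : ℕ) (σ : K →+* ℂ), ‖σ (F.coeff j)‖ ≤ B)
    (hl : ∀ σ : K →+* ℂ, 1 ≤ B * ‖σ F.leadingCoeff‖) (σ : K →+* ℂ) :
    (∀ j, ‖(F.map (σ.comp (algebraMap (𝓞 K) K))).coeff j‖ ≤ B) ∧
    1 ≤ B * ‖(F.map (σ.comp (algebraMap (𝓞 K) K))).leadingCoeff‖ ∧
    (F.map (σ.comp (algebraMap (𝓞 K) K))).natDegree = F.natDegree := by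
  have hinj : Function.Injective (σ.comp (algebraMap (𝓞 K) K)) :=
    σ.injective.comp (FaithfulSMul.algebraMap_injective (𝓞 K) K)
  refine ⟨fun j => ?_, ?_, natDegree_map_eq_of_injective hinj F⟩
  · rw [coeff_map]
    exact hF j σ
  · rw [leadingCoeff_map_of_injective hinj]
    exact hl σ

theorem eval_map_sigma (F : (𝓞 K)[X]) (t : 𝓞 K) (σ : K →+* ℂ) :
    (F.map (σ.comp (algebraMap (𝓞 K) K))).eval (σ t) = σ (F.eval t : 𝓞 K) := by
  have h := eval_map_apply (f := σ.comp (algebraMap (𝓞 K) K)) (p := F) t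
  exact h

/-- **Coprime values at a large element come from coprime polynomials.** -/
theorem coprime_poly {F G : (𝓞 K)[X]} {B T : ℝ} (hB : 1 ≤ B) {D : ℕ} (hFD : F.natDegree ≤ D)
    (hGD : G.natDegree ≤ D)
    (hF : ∀ (j : ℕ) (σ : K →+* ℂ), ‖σ (F.coeff j)‖ ≤ B)
    (hG : ∀ (j : ℕ) (σ : K →+* ℂ), ‖σ (G.coeff j)‖ ≤ B)
    (hFl : ∀ σ : K →+* ℂ, 1 ≤ B * ‖σ F.leadingCoeff‖)
    (hGl : ∀ σ : K →+* ℂ, 1 ≤ B * ‖σ G.leadingCoeff‖) (hF0 : F ≠ 0) (hG0 : G ≠ 0)
    {t : 𝓞 K} (ht : ∀ σ : K →+* ℂ, T ≤ ‖σ t‖) (hT : 4 * B ^ 2 + B ^ (4 * D + 2) ≤ T)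
    (hcop : IsCoprime (F.eval t) (G.eval t)) :
    IsCoprime (F.map (algebraMap (𝓞 K) K)) (G.map (algebraMap (𝓞 K) K)) := by
  let L := AlgebraicClosure K
  rw [isCoprime_iff_aeval_ne_zero_of_isAlgClosed K L]
  intro θ
  by_contra hcon
  push Not at hcon
  obtain ⟨h1, h2⟩ := hcon
  rw [aeval_map_algebraMap] at h1 h2
  obtain ⟨c, hc⟩ : ∃ c, c = F.leadingCoeff * G.leadingCoeff := ⟨_, rfl⟩
  have hc0 : c ≠ 0 := by
    rw [hc]
    exact mul_ne_zero (leadingCoeff_ne_zero.mpr hF0) (leadingCoeff_ne_zero.mpr hG0)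
  have hint : IsIntegral (𝓞 K) (algebraMap (𝓞 K) L c * θ) := by
    have h3 := isIntegral_leadingCoeff_smul F θ h1
    rw [Algebra.smul_def] at h3
    have h4 : algebraMap (𝓞 K) L c * θ =
        algebraMap (𝓞 K) L G.leadingCoeff * (algebraMap (𝓞 K) L F.leadingCoeff * θ) := by
      rw [hc, map_mul]
      ring
    rw [h4]
    exact isIntegral_algebraMap.mul h3
  let R := integralClosure (𝓞 K) L
  let y : R := ⟨algebraMap (𝓞 K) L c * θ, hint⟩
  let c' : R := algebraMap (𝓞 K) R c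
  let t' : R := algebraMap (𝓞 K) R t
  have hinjR : Function.Injective (algebraMap R L) := Subtype.val_injective
  have key : ∀ P : (𝓞 K)[X], aeval θ P = 0 →
      c' * t' - y ∣ c' ^ P.natDegree * algebraMap (𝓞 K) R (P.eval t) := by
    intro P hP
    have h5 := sub_dvd_eval_sub (c' * t') y ((scaleRoots P c).map (algebraMap (𝓞 K) R))
    have h6 : ((scaleRoots P c).map (algebraMap (𝓞 K) R)).eval y = 0 := by
      apply hinjR
      rw [map_zero]
      have h7 := scaleRoots_aeval_eq_zero (r := c) hP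
      rw [eval_map, hom_eval₂]
      exact h7
    have h7 : ((scaleRoots P c).map (algebraMap (𝓞 K) R)).eval (c' * t') =
        c' ^ P.natDegree * algebraMap (𝓞 K) R (P.eval t) := by
      rw [eval_map, scaleRoots_eval₂_mul]
      congr 1
      exact eval₂_at_apply (algebraMap (𝓞 K) R) t
    rw [h6, sub_zero, h7] at h5
    exact h5
  obtain ⟨u, v, huv⟩ := hcop
  have hdvd : c' * t' - y ∣ c' ^ (F.natDegree + G.natDegree) := by
    have h8 : c' ^ (F.natDegree + G.natDegree) =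
        c' ^ G.natDegree * algebraMap (𝓞 K) R u * (c' ^ F.natDegree * algebraMap (𝓞 K) R (F.eval t))
        + c' ^ F.natDegree * algebraMap (𝓞 K) R v *
          (c' ^ G.natDegree * algebraMap (𝓞 K) R (G.eval t)) := by
      have h9 := congrArg (algebraMap (𝓞 K) R) huv
      rw [map_add, map_mul, map_mul, map_one] at h9
      rw [pow_add]
      linear_combination (-(c' ^ F.natDegree * c' ^ G.natDegree)) * h9
    rw [h8]
    exact dvd_add (Dvd.dvd.mul_left (key F h1) _) (Dvd.dvd.mul_left (key G h2) _)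
  obtain ⟨w, hw⟩ := hdvd
  have hwL : algebraMap (𝓞 K) L c ^ (F.natDegree + G.natDegree) =
      (algebraMap (𝓞 K) L c * (algebraMap (𝓞 K) L t - θ)) * (w : L) := by
    have h9 := congrArg (algebraMap R L) hw
    rw [map_pow, map_mul, map_sub, map_mul] at h9
    have e1 : algebraMap R L c' = algebraMap (𝓞 K) L c := rfl
    have e2 : algebraMap R L t' = algebraMap (𝓞 K) L t := rfl
    have e3 : algebraMap R L y = algebraMap (𝓞 K) L c * θ := rfl
    have e4 : algebraMap R L w = (w : L) := rfl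
    rw [e1, e2, e3, e4] at h9
    rw [h9]
    ring
  have hinjL : Function.Injective (algebraMap (𝓞 K) L) := by
    rw [IsScalarTower.algebraMap_eq (𝓞 K) K L]
    exact (algebraMap K L).injective.comp (FaithfulSMul.algebraMap_injective (𝓞 K) K)
  have hcL : algebraMap (𝓞 K) L c ≠ 0 := fun h => hc0 (hinjL (by rw [h, map_zero]))
  have hw0 : (w : L) ≠ 0 := by
    intro h
    rw [h, mul_zero] at hwL
    exact hcL (eq_zero_of_pow_eq_zero hwL)
  have hwZ : IsIntegral ℤ (w : L) := isIntegral_trans (R := ℤ) (A := 𝓞 K) _ w.2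
  have : Algebra.IsAlgebraic ℚ L := Algebra.IsAlgebraic.trans ℚ K L
  obtain ⟨ψ, hψ⟩ := exists_embedding hwZ hw0
  obtain ⟨σ, hσ⟩ : ∃ σ : K →+* ℂ, σ = ψ.comp (algebraMap K L) := ⟨_, rfl⟩
  have hψσ : ∀ x : 𝓞 K, ψ (algebraMap (𝓞 K) L x) = σ x := by
    intro x
    rw [hσ, IsScalarTower.algebraMap_apply (𝓞 K) K L]
    rfl
  have hnorm := congrArg (fun x => ‖ψ x‖) hwL
  simp only [map_pow, map_mul, map_sub, norm_pow, norm_mul] at hnorm
  rw [hψσ, hψσ] at hnorm
  obtain ⟨f1, f2, -⟩ := map_conditions hF hFl σ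
  have hroot : ‖ψ θ‖ < 4 * B ^ 2 := by
    refine root_size hB f1 f2 ?_
    have h10 := congrArg ψ h1
    rw [map_zero, aeval_def, hom_eval₂] at h10
    rw [eval_map]
    rw [hσ]
    exact h10
  have hcs : ‖σ c‖ = ‖σ F.leadingCoeff‖ * ‖σ G.leadingCoeff‖ := by
    rw [← norm_mul, ← map_mul, hc]
    rfl
  have hF1 : ‖σ F.leadingCoeff‖ ≤ B := hF _ σ
  have hG1 : ‖σ G.leadingCoeff‖ ≤ B := hG _ σ
  have hcu : ‖σ c‖ ≤ B ^ 2 := by
    rw [hcs, pow_two]
    exact mul_le_mul hF1 hG1 (norm_nonneg _) (by linarith)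
  have hcl : 1 ≤ B ^ 2 * ‖σ c‖ := by
    have h11 := one_le_mul_of_one_le_of_one_le (hFl σ) (hGl σ)
    rw [hcs]
    calc (1 : ℝ) ≤ _ := h11
      _ = _ := by ring
  have h12 : ‖σ c‖ ^ (F.natDegree + G.natDegree) ≤ B ^ (4 * D) := by
    calc ‖σ c‖ ^ (F.natDegree + G.natDegree) ≤ (B ^ 2) ^ (F.natDegree + G.natDegree) :=
          pow_le_pow_left₀ (norm_nonneg _) hcu _
      _ = B ^ (2 * (F.natDegree + G.natDegree)) := by rw [pow_mul]
      _ ≤ B ^ (4 * D) := pow_le_pow_right₀ hB (by omega)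
  have h13 : T - 4 * B ^ 2 < ‖σ t - ψ θ‖ := by
    have h14 := norm_sub_norm_le (σ t) (ψ θ)
    have h15 := ht σ
    linarith
  obtain ⟨x, hx⟩ : ∃ x, x = ‖σ t - ψ θ‖ := ⟨_, rfl⟩
  obtain ⟨q, hq⟩ : ∃ q, q = ‖σ c‖ := ⟨_, rfl⟩
  obtain ⟨ω, hω⟩ : ∃ ω, ω = ‖ψ (w : L)‖ := ⟨_, rfl⟩
  rw [← hx] at h13
  rw [← hω] at hψ
  rw [hnorm, ← hx, ← hq, ← hω] at h12
  rw [← hq] at hcl
  have hq0 : 0 ≤ q := by rw [hq]; positivity
  have hx0 : 0 ≤ x := by rw [hx]; positivity
  have h16 : q * x ≤ B ^ (4 * D) := by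
    have : q * x ≤ q * x * ω := by nlinarith [mul_nonneg hq0 hx0]
    linarith
  have h17 : x ≤ B ^ 2 * q * x := by nlinarith
  have h18 : B ^ 2 * (q * x) ≤ B ^ 2 * B ^ (4 * D) := mul_le_mul_of_nonneg_left h16 (by positivity)
  have h19 : B ^ 2 * B ^ (4 * D) = B ^ (4 * D + 2) := by ring
  nlinarith

end

end Pool.Agent.Q103.SD.NF
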