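import Mathlib
import Pool.Agent.Q103.SD.NF
import Pool.Agent.Q103.SD.Deg

/-!
# Three-term relations between numbers with small digits in number fields
-/

set_option autoImplicit false

namespace Pool.Agent.Q103.SD.NF

open Polynomial Finset NumberField Filter Deg

/-- The hypotheses on the base, the bases of the powers, the coefficients and the exponents. -/
structure DataK {K : Type*} [Field K] [NumberField K] (T B : ℝ) (D : ℕ) (t : 𝓞 K) {n : ℕ}
    (F : Fin n → (𝓞 K)[X]) (α β γ : 𝓞 K) (l b c : Fin n → ℕ) : Prop where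
  big : ∀ σ : K →+* ℂ, T ≤ ‖σ t‖
  pos : ∀ i, 0 < (F i).natDegree
  deg : ∑ i, (F i).natDegree ≤ D
  coeff : ∀ (i : Fin n) (j : ℕ) (σ : K →+* ℂ), ‖σ ((F i).coeff j)‖ ≤ B
  last : ∀ (i : Fin n) (σ : K →+* ℂ), ‖σ ((F i).coeff 0)‖ ≤ 1
  first : ∀ (i : Fin n) (σ : K →+* ℂ), 1 ≤ B * ‖σ (F i).leadingCoeff‖
  α0 : α ≠ 0
  β0 : β ≠ 0
  γ0 : γ ≠ 0
  αH : ∀ σ : K →+* ℂ, ‖σ α‖ ≤ B
  βH : ∀ σ : K →+* ℂ, ‖σ β‖ ≤ B
  γH : ∀ σ : K →+* ℂ, ‖σ γ‖ ≤ B
  lN : ((∑ i, l i : ℕ) : ℝ) ≤ B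
  bN : ((∑ i, b i : ℕ) : ℝ) ≤ B
  cN : ((∑ i, c i : ℕ) : ℝ) ≤ B

section

variable {K : Type*} [Field K] [NumberField K]

theorem house_le {x : K} {B : ℝ} (hB : 0 ≤ B) (h : ∀ σ : K →+* ℂ, ‖σ x‖ ≤ B) : house x ≤ B := by
  unfold house
  rw [pi_norm_le_iff_of_nonneg hB]
  intro σ
  exact h σ

theorem DataK.ne {T B : ℝ} {D : ℕ} {t : 𝓞 K} {n : ℕ} {F : Fin n → (𝓞 K)[X]} {α β γ : 𝓞 K}
    {l b c : Fin n → ℕ} (h : DataK T B D t F α β γ l b c) (i : Fin n) : F i ≠ 0 := by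
  intro h0
  have := h.pos i
  rw [h0, natDegree_zero] at this
  omega

/-- the values of the terms of a three-term relation have no vanishing proper subsum -/
theorem no_subsum {A : Type*} [CommRing A] {v : Fin 3 → A} (hv : ∀ k, v k ≠ 0)
    (hs : ∑ k, v k = 0) (S : Finset (Fin 3)) (h1 : S.Nonempty) (h2 : S ≠ Finset.univ) :
    ∑ k ∈ S, v k ≠ 0 := by
  intro h0
  have h3 : S.card < 3 := by
    have := Finset.card_lt_card (Finset.ssubset_univ_iff.mpr h2)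
    simpa using this
  have h4 : 0 < S.card := Finset.card_pos.mpr h1
  obtain h5 | h5 : S.card = 1 ∨ S.card = 2 := by omega
  · obtain ⟨k, rfl⟩ := Finset.card_eq_one.mp h5
    rw [Finset.sum_singleton] at h0
    exact hv k h0
  · have h6 : Sᶜ.card = 1 := by
      rw [Finset.card_compl, h5]
      rfl
    obtain ⟨k, hk⟩ := Finset.card_eq_one.mp h6
    have h7 := Finset.sum_add_sum_compl S v
    rw [h0, hs, hk, Finset.sum_singleton, zero_add] at h7
    exact hv k h7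

theorem not_unit {T : ℝ} (hT : 1 < T) {t : 𝓞 K} (ht : ∀ σ : K →+* ℂ, T ≤ ‖σ t‖) : ¬ IsUnit t := by
  intro hu
  obtain ⟨u, hu'⟩ := hu.exists_right_inv
  have hu0 : u ≠ 0 := by
    rintro rfl
    rw [mul_zero] at hu'
    exact zero_ne_one hu'
  obtain ⟨σ, hσ⟩ := exists_conjugate_one_le_norm hu0
  have h1 := ht σ
  have h2 : ‖σ t‖ * ‖σ u‖ = 1 := by
    rw [← norm_mul, ← map_mul]
    have : (t : K) * (u : K) = 1 := by
      have := congrArg (algebraMap (𝓞 K) K) hu'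
      simpa using this
    rw [this, map_one, norm_one]
  nlinarith

/-- **Three-term relations come from identities** -/
theorem identity3 {T B : ℝ} {D : ℕ} {t : 𝓞 K} {n : ℕ} {F : Fin n → (𝓞 K)[X]} {α β γ : 𝓞 K}
    {l b c : Fin n → ℕ} (hD : DataK T B D t F α β γ l b c) (hB : 1 ≤ B)
    (hT : 3 * B * (B * B) ^ (JJ D 3) < T)
    (hval : ∀ i, (F i).eval t ≠ 0)
    (hnd : ¬ (t ∣ (PP F α l).eval t ∧ t ∣ (PP F β b).eval t))
    (heq : (PP F α l).eval t + (PP F β b).eval t = (PP F γ c).eval t) :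
    PP F α l + PP F β b = PP F γ c := by
  have hB2 : 1 ≤ B * B := by nlinarith
  have hT1 : 1 < T := by
    have h1 : (1 : ℝ) ≤ (B * B) ^ (JJ D 3) := one_le_pow₀ hB2
    nlinarith
  have ht0 : t ≠ 0 := by
    intro h0
    obtain ⟨σ⟩ : Nonempty (K →+* ℂ) := inferInstance
    have h1 := hD.big σ
    rw [h0] at h1
    simp at h1
    linarith
  obtain ⟨N, hN⟩ : ∃ N, N = max 1 ⌊B⌋₊ := ⟨_, rfl⟩
  have hN1 : 1 ≤ N := by rw [hN]; exact le_max_left _ _
  have hNB : (N : ℝ) ≤ B := by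
    rw [hN]
    push_cast
    exact max_le (by simpa using hB) (Nat.floor_le (by linarith))
  have hle : ∀ m : ℕ, (m : ℝ) ≤ B → m ≤ N := by
    intro m hm
    rw [hN]
    exact (Nat.le_floor hm).trans (le_max_right _ _)
  obtain ⟨a, ha⟩ : ∃ a : Fin 3 → 𝓞 K, a = ![α, β, -γ] := ⟨_, rfl⟩
  obtain ⟨e, he⟩ : ∃ e : Fin 3 → Fin n → ℕ, e = ![l, b, c] := ⟨_, rfl⟩
  have hnegPP : PP F (-γ) c = - PP F γ c := by
    unfold PP
    rw [map_neg, neg_mul]
  have hsum : ∀ x : 𝓞 K, ∑ k, (PP F (a k) (e k)).eval x =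
      (PP F α l).eval x + (PP F β b).eval x - (PP F γ c).eval x := by
    intro x
    rw [Fin.sum_univ_three, ha, he]
    simp only [Matrix.cons_val_zero, Matrix.cons_val_one, Matrix.cons_val_two, Matrix.head_cons,
      Matrix.tail_cons]
    rw [hnegPP, eval_neg]
    ring
  have hPP0 : ∀ (η : 𝓞 K) (m : Fin n → ℕ), η ≠ 0 → (PP F η m).eval t ≠ 0 := by
    intro η m hη
    rw [eval_PP]
    exact mul_ne_zero hη (Finset.prod_ne_zero_iff.mpr fun i _ => pow_ne_zero _ (hval i))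
  have ha0 : ∀ k, a k ≠ 0 := by
    intro k
    rw [ha]
    fin_cases k
    · exact hD.α0
    · exact hD.β0
    · exact neg_ne_zero.mpr hD.γ0
  obtain ⟨k0, hk0⟩ : ∃ k0, ¬ t ∣ (PP F (a k0) (e k0)).eval t := by
    by_contra hcon
    push Not at hcon
    have h1 := hcon 0
    have h2 := hcon 1
    rw [ha, he] at h1 h2
    simp only [Matrix.cons_val_zero, Matrix.cons_val_one] at h1 h2
    exact hnd ⟨h1, h2⟩
  have hid := identity (A := 𝓞 K) (κ := Fin n) (ι := Fin 3) sizeFn_house ht0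
    (fun x hx hx' => small_house hD.big x hx hx') (F := F) hD.ne hD.deg (H := B) hB
    (fun i => house_le (by norm_num) (hD.last i)) (fun i j => house_le (by linarith) (hD.coeff i j))
    (α := a) ha0 (by
      intro k
      rw [ha]
      fin_cases k
      · exact house_le (by linarith) hD.αH
      · exact house_le (by linarith) hD.βH
      · refine house_le (by linarith) fun σ => ?_
        have := hD.γH σ
        simpa using this) e hN1 (by
      intro k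
      rw [he]
      fin_cases k
      · exact hle _ hD.lN
      · exact hle _ hD.bN
      · exact hle _ hD.cN) (by
      rw [Fintype.card_fin]
      push_cast
      refine lt_of_le_of_lt ?_ hT
      have h1 : ((N : ℝ) * B) ^ (JJ D 3) ≤ (B * B) ^ (JJ D 3) :=
        pow_le_pow_left₀ (by positivity) (mul_le_mul_of_nonneg_right hNB (by linarith)) _
      exact mul_le_mul_of_nonneg_left h1 (by positivity)) (by
      rw [hsum t, heq, sub_self]) k0 hk0 (by
      intro S h1 h2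
      refine no_subsum (v := fun k => (PP F (a k) (e k)).eval t) (fun k => ?_) ?_ S h1 h2
      · exact hPP0 _ _ (ha0 k)
      · rw [hsum t, heq, sub_self])
  rw [Fin.sum_univ_three, ha, he] at hid
  simp only [Matrix.cons_val_zero, Matrix.cons_val_one, Matrix.cons_val_two, Matrix.head_cons,
    Matrix.tail_cons] at hid
  rw [hnegPP] at hid
  linear_combination hid

/-- the polynomials of the first two terms are coprime -/
theorem coprime_terms {T B : ℝ} {D : ℕ} {t : 𝓞 K} {n : ℕ} {F : Fin n → (𝓞 K)[X]} {α β γ : 𝓞 K}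
    {l b c : Fin n → ℕ} (hD : DataK T B D t F α β γ l b c) (hB : 1 ≤ B)
    (hT : 4 * B ^ 2 + B ^ (4 * D + 2) ≤ T)
    (hcop : IsCoprime ((PP F α l).eval t) ((PP F β b).eval t)) :
    IsCoprime ((PP F α l).map (algebraMap (𝓞 K) K)) ((PP F β b).map (algebraMap (𝓞 K) K)) := by
  have hinj : Function.Injective (algebraMap (𝓞 K) K) := FaithfulSMul.algebraMap_injective (𝓞 K) K
  have hα : algebraMap (𝓞 K) K α ≠ 0 := fun h => hD.α0 (hinj (by rw [h, map_zero]))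
  have hβ : algebraMap (𝓞 K) K β ≠ 0 := fun h => hD.β0 (hinj (by rw [h, map_zero]))
  have hu1 : IsUnit (C (algebraMap (𝓞 K) K α)) := isUnit_C.mpr (isUnit_iff_ne_zero.mpr hα)
  have hu2 : IsUnit (C (algebraMap (𝓞 K) K β)) := isUnit_C.mpr (isUnit_iff_ne_zero.mpr hβ)
  unfold PP at hcop ⊢
  rw [Polynomial.map_mul, Polynomial.map_mul, map_C, map_C, Polynomial.map_prod,
    Polynomial.map_prod, isCoprime_mul_unit_left_left hu1, isCoprime_mul_unit_left_right hu2]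
  have hdeg : ∀ i, (F i).natDegree ≤ D := fun i =>
    (Finset.single_le_sum (f := fun i => (F i).natDegree) (fun _ _ => Nat.zero_le _)
      (Finset.mem_univ i)).trans hD.deg
  apply IsCoprime.prod_left
  intro i _
  apply IsCoprime.prod_right
  intro j _
  rw [Polynomial.map_pow, Polynomial.map_pow]
  by_cases hi : l i = 0
  · rw [hi, pow_zero]; exact isCoprime_one_left
  by_cases hj : b j = 0
  · rw [hj, pow_zero]; exact isCoprime_one_right
  apply IsCoprime.pow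
  refine coprime_poly hB (hdeg i) (hdeg j) (hD.coeff i) (hD.coeff j) (hD.first i) (hD.first j)
    (hD.ne i) (hD.ne j) hD.big hT ?_
  rw [eval_mul, eval_mul, eval_prod, eval_prod] at hcop
  refine (hcop.of_isCoprime_of_dvd_left ?_).of_isCoprime_of_dvd_right ?_
  · refine Dvd.dvd.mul_left ((dvd_pow_self _ hi).trans ?_) _
    rw [← eval_pow]
    exact Finset.dvd_prod_of_mem (fun i => (F i ^ l i).eval t) (Finset.mem_univ i)
  · refine Dvd.dvd.mul_left ((dvd_pow_self _ hj).trans ?_) _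
    rw [← eval_pow]
    exact Finset.dvd_prod_of_mem (fun i => (F i ^ b i).eval t) (Finset.mem_univ j)

/-- the size of the values of the bases at an embedding -/
theorem value_size {T B : ℝ} {D : ℕ} {t : 𝓞 K} {n : ℕ} {F : Fin n → (𝓞 K)[X]} {α β γ : 𝓞 K}
    {l b c : Fin n → ℕ} (hD : DataK T B D t F α β γ l b c) (hB : 1 ≤ B) (hT : 4 * B ^ 2 ≤ T)
    (i : Fin n) (σ : K →+* ℂ) :
    ‖σ t‖ ^ (F i).natDegree ≤ 2 * B * ‖σ ((F i).eval t : 𝓞 K)‖ ∧
      ‖σ ((F i).eval t : 𝓞 K)‖ ≤ 2 * B * ‖σ t‖ ^ (F i).natDegree := by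
  obtain ⟨h1, h2, h3⟩ := map_conditions (hD.coeff i) (hD.first i) σ
  have h4 := eval_size hB h1 h2 (z := σ t) (hT.trans (hD.big σ))
  rw [h3, eval_map_sigma] at h4
  exact h4

/-- the size of a product of powers at an embedding -/
theorem size_PP {T B : ℝ} {D : ℕ} {t : 𝓞 K} {n : ℕ} {F : Fin n → (𝓞 K)[X]} {α β γ : 𝓞 K}
    {l b c : Fin n → ℕ} (hD : DataK T B D t F α β γ l b c) (hB : 1 ≤ B) (hT : 4 * B ^ 2 ≤ T)
    {η : 𝓞 K} {e : Fin n → ℕ} (σ : K →+* ℂ) (hη : ‖σ η‖ ≤ B) {d : ℕ}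
    (hd : ∑ i, e i * (F i).natDegree ≤ d) :
    ‖σ ((PP F η e).eval t : 𝓞 K)‖ ≤ B * ((2 * B) ^ d * ‖σ t‖ ^ d) := by
  have hσt : 1 ≤ ‖σ t‖ := by
    have := hD.big σ
    nlinarith
  have e1 : σ ((PP F η e).eval t : 𝓞 K) = σ η * ∏ i, σ ((F i).eval t : 𝓞 K) ^ e i := by
    rw [eval_PP]
    push_cast
    rw [map_mul, map_prod]
    simp only [map_pow]
  rw [e1, norm_mul, norm_prod]
  have h1 : ∏ i, ‖σ ((F i).eval t : 𝓞 K) ^ e i‖ ≤
      ∏ i, ((2 * B) ^ (e i * (F i).natDegree) * ‖σ t‖ ^ (e i * (F i).natDegree)) := by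
    apply Finset.prod_le_prod (fun i _ => norm_nonneg _)
    intro i _
    rw [norm_pow, ← mul_pow, mul_comm (e i), pow_mul]
    apply pow_le_pow_left₀ (norm_nonneg _)
    refine (value_size hD hB hT i σ).2.trans ?_
    rw [mul_pow]
    apply mul_le_mul_of_nonneg_right _ (by positivity)
    exact le_self_pow₀ (by linarith) (hD.pos i).ne'
  refine mul_le_mul hη (h1.trans ?_) (Finset.prod_nonneg fun i _ => norm_nonneg _) (by linarith)
  rw [Finset.prod_mul_distrib, Finset.prod_pow_eq_pow_sum, Finset.prod_pow_eq_pow_sum]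
  apply mul_le_mul (pow_le_pow_right₀ (by linarith) hd) (pow_le_pow_right₀ hσt hd)
    (by positivity) (by positivity)

/-- lower bound for the product of the bases at an embedding -/
theorem prod_lower {T B : ℝ} {D : ℕ} {t : 𝓞 K} {n : ℕ} {F : Fin n → (𝓞 K)[X]} {α β γ : 𝓞 K}
    {l b c : Fin n → ℕ} (hD : DataK T B D t F α β γ l b c) (hB : 1 ≤ B) (hT : 4 * B ^ 2 ≤ T)
    (U : Finset (Fin n)) (σ : K →+* ℂ) :
    ‖σ t‖ ^ (∑ i ∈ U, (F i).natDegree) ≤ (2 * B) ^ D * ‖σ (∏ i ∈ U, (F i).eval t : 𝓞 K)‖ := by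
  have e1 : σ (∏ i ∈ U, (F i).eval t : 𝓞 K) = ∏ i ∈ U, σ ((F i).eval t : 𝓞 K) := by
    rw [← map_prod]
    congr 1
    exact map_prod (algebraMap (𝓞 K) K) _ _
  rw [e1, norm_prod, ← Finset.prod_pow_eq_pow_sum]
  have h1 : ∏ i ∈ U, ‖σ t‖ ^ (F i).natDegree ≤ ∏ i ∈ U, (2 * B * ‖σ ((F i).eval t : 𝓞 K)‖) :=
    Finset.prod_le_prod (fun i _ => by positivity) fun i _ => (value_size hD hB hT i σ).1
  refine h1.trans ?_
  rw [Finset.prod_mul_distrib, Finset.prod_const]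
  apply mul_le_mul_of_nonneg_right _ (Finset.prod_nonneg fun i _ => norm_nonneg _)
  apply pow_le_pow_right₀ (by linarith)
  calc U.card = ∑ _i ∈ U, 1 := by simp
    _ ≤ ∑ i ∈ U, (F i).natDegree := Finset.sum_le_sum fun i _ => hD.pos i
    _ ≤ ∑ i, (F i).natDegree := Finset.sum_le_univ_sum_of_nonneg fun _ => Nat.zero_le _
    _ ≤ D := hD.deg

/-- **The inequality at an embedding** -/
theorem abc_sigma_core {T B : ℝ} {D : ℕ} {t : 𝓞 K} {n : ℕ} {F : Fin n → (𝓞 K)[X]} {α β γ : 𝓞 K}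
    {l b c : Fin n → ℕ} (hD : DataK T B D t F α β γ l b c) (hB : 1 ≤ B)
    (hT4 : 4 * B ^ 2 ≤ T)
    (hid : PP F α l + PP F β b = PP F γ c)
    (hco : IsCoprime ((PP F α l).map (algebraMap (𝓞 K) K))
      ((PP F β b).map (algebraMap (𝓞 K) K)))
    (hU : (used l b c).Nonempty) (σ : K →+* ℂ) (x : 𝓞 K)
    (hx : x = (PP F α l).eval t ∨ x = (PP F β b).eval t ∨ x = (PP F γ c).eval t) :
    ‖σ x‖ * ‖σ t‖ ≤ (2 * B) ^ (2 * D + 1) * ‖σ (∏ i ∈ used l b c, (F i).eval t : 𝓞 K)‖ := by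
  classical
  obtain ⟨d1, d2, d3⟩ := degrees (algebraMap (𝓞 K) K) (FaithfulSMul.algebraMap_injective (𝓞 K) K)
    hD.pos hD.α0 hD.β0 hD.γ0 hco hid hU
  obtain ⟨d, hd⟩ : ∃ d, d + 1 = ∑ i ∈ used l b c, (F i).natDegree :=
    ⟨∑ i ∈ used l b c, (F i).natDegree - 1, by omega⟩
  have hdD : d + 1 ≤ D := by
    rw [hd]
    exact (Finset.sum_le_univ_sum_of_nonneg fun _ => Nat.zero_le _).trans hD.deg
  have hxs : ‖σ x‖ ≤ B * ((2 * B) ^ d * ‖σ t‖ ^ d) := by
    rcases hx with rfl | rfl | rfl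
    · exact size_PP hD hB hT4 σ (hD.αH σ) (by omega)
    · exact size_PP hD hB hT4 σ (hD.βH σ) (by omega)
    · exact size_PP hD hB hT4 σ (hD.γH σ) (by omega)
  have hlow := prod_lower hD hB hT4 (used l b c) σ
  rw [← hd] at hlow
  have h5 : B * (2 * B) ^ d ≤ (2 * B) ^ (D + 1) := by
    calc B * (2 * B) ^ d ≤ (2 * B) * (2 * B) ^ d :=
          mul_le_mul_of_nonneg_right (by linarith) (by positivity)
      _ = (2 * B) ^ (d + 1) := by ring
      _ ≤ (2 * B) ^ (D + 1) := pow_le_pow_right₀ (by linarith) (by omega)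
  calc ‖σ x‖ * ‖σ t‖ ≤ (B * ((2 * B) ^ d * ‖σ t‖ ^ d)) * ‖σ t‖ :=
        mul_le_mul_of_nonneg_right hxs (norm_nonneg _)
    _ = (B * (2 * B) ^ d) * ‖σ t‖ ^ (d + 1) := by ring
    _ ≤ (2 * B) ^ (D + 1) * ((2 * B) ^ D * ‖σ (∏ i ∈ used l b c, (F i).eval t : 𝓞 K)‖) :=
        mul_le_mul h5 hlow (by positivity) (by positivity)
    _ = _ := by rw [← mul_assoc, ← pow_add]; congr 2; ring

/-- the values of the bases are not zero -/
theorem value_ne {T B : ℝ} {D : ℕ} {t : 𝓞 K} {n : ℕ} {F : Fin n → (𝓞 K)[X]} {α β γ : 𝓞 K}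
    {l b c : Fin n → ℕ} (hD : DataK T B D t F α β γ l b c) (hB : 1 ≤ B) (hT4 : 4 * B ^ 2 ≤ T)
    (i : Fin n) : (F i).eval t ≠ 0 := by
  intro h0
  obtain ⟨σ⟩ : Nonempty (K →+* ℂ) := inferInstance
  have h1 := (value_size hD hB hT4 i σ).1
  rw [h0] at h1
  have h2 : 0 < ‖σ t‖ := by
    have := hD.big σ
    nlinarith
  have h3 : 0 < ‖σ t‖ ^ (F i).natDegree := by positivity
  simp at h1
  linarith

end

end Pool.Agent.Q103.SD.NF
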