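import Mathlib
import Pool.Agent.Q103.SD.NFMain

/-!
# Pairwise coprime bases in number fields
-/

set_option autoImplicit false

namespace Pool.Agent.Q103.SD.NF

open Polynomial Finset NumberField Filter Deg

variable {K : Type*} [Field K] [NumberField K]

/-- a product of powers whose value is divisible by `t` contains a base divisible by `t` -/
theorem exists_base {T B : ℝ} {t : 𝓞 K} {n : ℕ} {F : Fin n → (𝓞 K)[X]}
    (hbig : ∀ σ : K →+* ℂ, T ≤ ‖σ t‖)
    (hco : ∀ (i : Fin n) (j : ℕ) (σ : K →+* ℂ), ‖σ ((F i).coeff j)‖ ≤ B)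
    (hlast : ∀ (i : Fin n) (σ : K →+* ℂ), ‖σ ((F i).coeff 0)‖ ≤ 1) (hB : 1 ≤ B) (hBT : B < T)
    {η : 𝓞 K} (hη : η ≠ 0) (hηH : ∀ σ : K →+* ℂ, ‖σ η‖ ≤ B) {e : Fin n → ℕ}
    (hdvd : t ∣ (PP F η e).eval t) : ∃ i, e i ≠ 0 ∧ t ∣ (F i).eval t := by
  have h1 : (t - 0) ∣ (PP F η e).eval t - (PP F η e).eval 0 := sub_dvd_eval_sub _ _ _
  rw [sub_zero, ← coeff_zero_eq_eval_zero] at h1
  have h2 : t ∣ (PP F η e).coeff 0 := by
    have := dvd_sub hdvd h1
    rwa [sub_sub_cancel] at this
  have hgeo : ∀ i, Geo (fun x : 𝓞 K => house (x : K)) (F i) B := by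
    intro i j
    rcases Nat.eq_zero_or_pos j with rfl | hj
    · rw [pow_zero]; exact house_le (by norm_num) (hlast i)
    · exact (house_le (by linarith) (hco i j)).trans (le_self_pow₀ hB (by omega))
  have h3 : (PP F η e).coeff 0 = 0 := by
    refine small_house hbig _ h2 ?_
    have h4 := coeff_PP sizeFn_house F η e (by linarith) hgeo 0
    rw [pow_zero, mul_one] at h4
    exact (h4.trans (house_le (by linarith) hηH)).trans_lt hBT
  rw [coeff_zero_eq_eval_zero, eval_PP] at h3
  rcases mul_eq_zero.mp h3 with h4 | h4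
  · exact absurd h4 hη
  · obtain ⟨i, -, hi⟩ := Finset.prod_eq_zero_iff.mp h4
    have hei : e i ≠ 0 := by
      intro h0
      rw [h0, pow_zero] at hi
      exact one_ne_zero hi
    refine ⟨i, hei, ?_⟩
    have h5 := eq_zero_of_pow_eq_zero hi
    have h6 : (t - 0) ∣ (F i).eval t - (F i).eval 0 := sub_dvd_eval_sub _ _ _
    rwa [h5, sub_zero, sub_zero] at h6

/-- **Pairwise coprime bases: the inequality at an embedding.** -/
theorem pair_sigma {T B : ℝ} {D : ℕ} {t : 𝓞 K} {n : ℕ} {F : Fin n → (𝓞 K)[X]} {α β γ : 𝓞 K}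
    {l b c : Fin n → ℕ} (hD : DataK T B D t F α β γ l b c) (hB : 1 ≤ B)
    (hT1 : 3 * B * (B * B) ^ (JJ D 3) < T) (hT2 : 4 * B ^ 2 + B ^ (4 * D + 2) ≤ T)
    (hpw : ∀ i j, i ≠ j → IsCoprime ((F i).eval t) ((F j).eval t))
    (hmin : ∀ i, l i = 0 ∨ b i = 0 ∨ c i = 0)
    (heq : (PP F α l).eval t + (PP F β b).eval t = (PP F γ c).eval t)
    (hU : (used l b c).Nonempty) (σ : K →+* ℂ) (x : 𝓞 K)
    (hx : x = (PP F α l).eval t ∨ x = (PP F β b).eval t ∨ x = (PP F γ c).eval t) :
    ‖σ x‖ * ‖σ t‖ ≤ (2 * B) ^ (2 * D + 1) * ‖σ (∏ i ∈ used l b c, (F i).eval t : 𝓞 K)‖ := by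
  have hT4 : 4 * B ^ 2 ≤ T := by
    have : 0 ≤ B ^ (4 * D + 2) := by positivity
    linarith
  have hBT : B < T := by nlinarith
  have hT0 : 1 < T := by linarith
  have hnu := not_unit hT0 hD.big
  have hsame : ∀ i j, t ∣ (F i).eval t → t ∣ (F j).eval t → i = j := by
    intro i j h1 h2
    by_contra hne
    exact hnu ((hpw i j hne).isUnit_of_dvd' h1 h2)
  have hnd : ¬ (t ∣ (PP F α l).eval t ∧ t ∣ (PP F β b).eval t) := by
    rintro ⟨h1, h2⟩
    have h3 : t ∣ (PP F γ c).eval t := by
      rw [← heq]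
      exact dvd_add h1 h2
    obtain ⟨i1, e1, d1⟩ := exists_base hD.big hD.coeff hD.last hB hBT hD.α0 hD.αH h1
    obtain ⟨i2, e2, d2⟩ := exists_base hD.big hD.coeff hD.last hB hBT hD.β0 hD.βH h2
    obtain ⟨i3, e3, d3⟩ := exists_base hD.big hD.coeff hD.last hB hBT hD.γ0 hD.γH h3
    obtain rfl := hsame i1 i2 d1 d2
    obtain rfl := hsame i1 i3 d1 d3
    rcases hmin i1 with h | h | h
    · exact e1 h
    · exact e2 h
    · exact e3 h
  have hid := identity3 hD hB hT1 (value_ne hD hB hT4) hnd heq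
  have hinj : Function.Injective (algebraMap (𝓞 K) K) := FaithfulSMul.algebraMap_injective (𝓞 K) K
  have hdeg : ∀ i, (F i).natDegree ≤ D := fun i =>
    (Finset.single_le_sum (f := fun i => (F i).natDegree) (fun _ _ => Nat.zero_le _)
      (Finset.mem_univ i)).trans hD.deg
  have hpoly : ∀ i j, i ≠ j →
      IsCoprime ((F i).map (algebraMap (𝓞 K) K)) ((F j).map (algebraMap (𝓞 K) K)) := by
    intro i j hij
    exact coprime_poly hB (hdeg i) (hdeg j) (hD.coeff i) (hD.coeff j) (hD.first i) (hD.first j)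
      (hD.ne i) (hD.ne j) hD.big hT2 (hpw i j hij)
  have hunit : ∀ η : 𝓞 K, η ≠ 0 → IsUnit (C (algebraMap (𝓞 K) K η)) := fun η hη =>
    isUnit_C.mpr (isUnit_iff_ne_zero.mpr fun h => hη (hinj (by rw [h, map_zero])))
  have hmap : ∀ (η : 𝓞 K) (e : Fin n → ℕ), (PP F η e).map (algebraMap (𝓞 K) K) =
      C (algebraMap (𝓞 K) K η) * ∏ i, (F i).map (algebraMap (𝓞 K) K) ^ e i := by
    intro η e
    unfold PP
    rw [Polynomial.map_mul, map_C, Polynomial.map_prod]
    simp only [Polynomial.map_pow]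
  have hco : IsCoprime ((PP F α l).map (algebraMap (𝓞 K) K))
      ((PP F β b).map (algebraMap (𝓞 K) K)) := by
    have hid' := congrArg (Polynomial.map (algebraMap (𝓞 K) K)) hid
    rw [Polynomial.map_add] at hid'
    rw [hmap α l, hmap β b, isCoprime_mul_unit_left_left (hunit α hD.α0),
      isCoprime_mul_unit_left_right (hunit β hD.β0)]
    apply IsCoprime.prod_left
    intro i _
    apply IsCoprime.prod_right
    intro j _
    by_cases hi : l i = 0
    · rw [hi, pow_zero]; exact isCoprime_one_left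
    by_cases hj : b j = 0
    · rw [hj, pow_zero]; exact isCoprime_one_right
    by_cases hij : i = j
    · subst hij
      exfalso
      have hci : c i = 0 := by
        rcases hmin i with h | h | h
        · exact absurd h hi
        · exact absurd h hj
        · exact h
      have d1 : (F i).map (algebraMap (𝓞 K) K) ∣ (PP F α l).map (algebraMap (𝓞 K) K) := by
        rw [hmap]
        exact Dvd.dvd.mul_left ((dvd_pow_self _ hi).trans
          (Finset.dvd_prod_of_mem (fun i => (F i).map (algebraMap (𝓞 K) K) ^ l i)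
            (Finset.mem_univ i))) _
      have d2 : (F i).map (algebraMap (𝓞 K) K) ∣ (PP F β b).map (algebraMap (𝓞 K) K) := by
        rw [hmap]
        exact Dvd.dvd.mul_left ((dvd_pow_self _ hj).trans
          (Finset.dvd_prod_of_mem (fun i => (F i).map (algebraMap (𝓞 K) K) ^ b i)
            (Finset.mem_univ i))) _
      have d3 : (F i).map (algebraMap (𝓞 K) K) ∣ (PP F γ c).map (algebraMap (𝓞 K) K) := by
        rw [← hid']
        exact dvd_add d1 d2
      have c3 : IsCoprime ((F i).map (algebraMap (𝓞 K) K))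
          ((PP F γ c).map (algebraMap (𝓞 K) K)) := by
        rw [hmap, isCoprime_mul_unit_left_right (hunit γ hD.γ0)]
        apply IsCoprime.prod_right
        intro k _
        by_cases hk : c k = 0
        · rw [hk, pow_zero]; exact isCoprime_one_right
        · apply IsCoprime.pow_right
          apply hpoly
          rintro rfl
          exact hk hci
      have hu := c3.isUnit_of_dvd' dvd_rfl d3
      have h1 := natDegree_eq_zero_of_isUnit hu
      rw [natDegree_map_eq_of_injective hinj] at h1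
      have := hD.pos i
      omega
    · exact (hpoly i j hij).pow
  exact abc_sigma_core hD hB hT4 hid hco hU σ x hx

end Pool.Agent.Q103.SD.NF
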