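import Mathlib
import Pool.Agent.Q103.SD.NFPair

/-!
# Heights and radicals in number fields
-/

set_option autoImplicit false

namespace Pool.Agent.Q103.SD.NF

open Finset NumberField IsDedekindDomain

variable {K : Type*} [Field K] [NumberField K]

/-- the finite part of the height of an integral point is at most `1` -/
theorem finite_part (x : Fin 3 → 𝓞 K) :
    ∏ᶠ v : FinitePlace K, ⨆ k, v ((x k : K)) ≤ 1 := by
  refine (finprod_induction (fun y : ℝ => 0 ≤ y ∧ y ≤ 1) (by norm_num) (fun a b ha hb =>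
    ⟨mul_nonneg ha.1 hb.1, mul_le_one₀ ha.2 hb.1 hb.2⟩) fun v => ?_).2
  constructor
  · exact Real.iSup_nonneg fun k => apply_nonneg _ _
  · apply ciSup_le
    intro k
    have h := FinitePlace.norm_le_one (K := K) v.maximalIdeal (x k)
    rw [FinitePlace.norm_embedding_eq] at h
    exact h

theorem log_norm (x : 𝓞 K) (hx : x ≠ 0) :
    ∑ w : InfinitePlace K, (w.mult : ℝ) * Real.log (w (x : K)) =
      Real.log |((Algebra.norm ℚ (x : K) : ℚ) : ℝ)| := by
  have h := InfinitePlace.prod_eq_abs_norm (K := K) (x : K)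
  have hx' : (x : K) ≠ 0 := RingOfIntegers.coe_ne_zero_iff.mpr hx
  have h1 := congrArg Real.log h
  rw [Real.log_prod (fun w _ => pow_ne_zero _ ((InfinitePlace.pos_iff).mpr hx').ne')] at h1
  have h2 : ((|Algebra.norm ℚ (x : K)| : ℚ) : ℝ) = |((Algebra.norm ℚ (x : K) : ℚ) : ℝ)| := by
    push_cast
    rfl
  rw [h2] at h1
  rw [← h1]
  apply Finset.sum_congr rfl
  intro w _
  rw [Real.log_pow]

/-- a bound for the height from bounds at the infinite places -/
theorem logHeight_le {x : Fin 3 → 𝓞 K} (hx : ∀ k, x k ≠ 0) {t Q : 𝓞 K} (ht : t ≠ 0) (hQ : Q ≠ 0)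
    {r : ℝ} (h : ∀ (w : InfinitePlace K) (k : Fin 3), w (x k : K) * w (t : K) ^ r ≤ w (Q : K)) :
    Height.logHeight (fun k => (x k : K)) +
      r * Real.log |((Algebra.norm ℚ (t : K) : ℚ) : ℝ)| ≤
        Real.log |((Algebra.norm ℚ (Q : K) : ℚ) : ℝ)| := by
  have hne : ∀ y : 𝓞 K, y ≠ 0 → (y : K) ≠ 0 := fun y hy => RingOfIntegers.coe_ne_zero_iff.mpr hy
  have hxne : (fun k => (x k : K)) ≠ 0 := fun h0 => hne _ (hx 0) (congrFun h0 0)
  rw [← log_norm t ht, ← log_norm Q hQ, Height.logHeight_eq_log_mulHeight]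
  have h1 : Height.mulHeight (fun k => (x k : K)) ≤
      ∏ w : InfinitePlace K, (⨆ k, w (x k : K)) ^ w.mult := by
    rw [NumberField.mulHeight_eq hxne]
    have h2 : 0 ≤ ∏ w : InfinitePlace K, (⨆ k, w (x k : K)) ^ w.mult :=
      Finset.prod_nonneg fun w _ => pow_nonneg (Real.iSup_nonneg fun k => apply_nonneg _ _) _
    calc _ ≤ (∏ w : InfinitePlace K, (⨆ k, w (x k : K)) ^ w.mult) * 1 :=
          mul_le_mul_of_nonneg_left (finite_part x) h2
      _ = _ := mul_one _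
  have hpos : ∀ w : InfinitePlace K, 0 < ⨆ k, w (x k : K) := by
    intro w
    exact lt_of_lt_of_le (InfinitePlace.pos_iff.mpr (hne _ (hx 0)))
      (le_ciSup (f := fun k => w (x k : K)) (Set.finite_range _).bddAbove 0)
  have h3 : Real.log (Height.mulHeight (fun k => (x k : K))) ≤
      ∑ w : InfinitePlace K, (w.mult : ℝ) * Real.log (⨆ k, w (x k : K)) := by
    refine (Real.log_le_log (Height.mulHeight_pos _) h1).trans (le_of_eq ?_)
    rw [Real.log_prod (fun w _ => pow_ne_zero _ (hpos w).ne')]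
    apply Finset.sum_congr rfl
    intro w _
    rw [Real.log_pow]
  refine (add_le_add_left h3 _).trans ?_
  rw [Finset.mul_sum, ← Finset.sum_add_distrib]
  apply Finset.sum_le_sum
  intro w _
  have h4 : (⨆ k, w (x k : K)) * w (t : K) ^ r ≤ w (Q : K) := by
    obtain ⟨k, hk⟩ := exists_eq_ciSup_of_finite (f := fun k => w (x k : K))
    rw [← hk]
    exact h w k
  have ht' : 0 < w (t : K) := InfinitePlace.pos_iff.mpr (hne _ ht)
  have h5 := Real.log_le_log (mul_pos (hpos w) (Real.rpow_pos_of_pos ht' r)) h4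
  rw [Real.log_mul (hpos w).ne' (Real.rpow_pos_of_pos ht' r).ne', Real.log_rpow ht'] at h5
  have h6 : (0 : ℝ) ≤ w.mult := Nat.cast_nonneg _
  nlinarith

/-- the primes dividing `y` -/
theorem primes_finite {y : 𝓞 K} (hy : y ≠ 0) :
    {v : HeightOneSpectrum (𝓞 K) | y ∈ v.asIdeal}.Finite := by
  have h := Ideal.finite_factors (R := 𝓞 K) (I := Ideal.span {y})
    (by rwa [Ne, Ideal.zero_eq_bot, Ideal.span_singleton_eq_bot])
  refine h.subset ?_
  intro v hv
  exact (Ideal.dvd_span_singleton).mpr hv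

theorem absNorm_eq (y : 𝓞 K) :
    (Ideal.absNorm (Ideal.span {y}) : ℝ) = |((Algebra.norm ℚ (y : K) : ℚ) : ℝ)| := by
  rw [Ideal.absNorm_span_singleton, ← Algebra.coe_norm_int y]
  have : ((Algebra.norm ℤ y).natAbs : ℝ) = |((Algebra.norm ℤ y : ℤ) : ℝ)| := by
    rw [Nat.cast_natAbs]
    push_cast
    rfl
  rw [this]
  push_cast
  rfl

theorem prod_asIdeal_dvd {y : 𝓞 K} (S : Finset (HeightOneSpectrum (𝓞 K)))
    (hS : ∀ v ∈ S, y ∈ v.asIdeal) : ∏ v ∈ S, v.asIdeal ∣ Ideal.span {y} := by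
  classical
  have h1 : ∏ v ∈ S, v.asIdeal = ∏ I ∈ S.image (fun v => v.asIdeal), I := by
    rw [Finset.prod_image]
    intro v _ w _ h
    exact HeightOneSpectrum.ext h
  rw [h1]
  apply Finset.prod_primes_dvd
  · intro I hI
    obtain ⟨v, -, rfl⟩ := Finset.mem_image.mp hI
    exact v.prime
  · intro I hI
    obtain ⟨v, hv, rfl⟩ := Finset.mem_image.mp hI
    exact (Ideal.dvd_span_singleton).mpr (hS v hv)

theorem one_le_absNorm (v : HeightOneSpectrum (𝓞 K)) : (1 : ℝ) ≤ Ideal.absNorm v.asIdeal := by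
  exact_mod_cast (HeightOneSpectrum.one_lt_absNorm v).le

/-- the norms of the primes dividing `y` -/
theorem sum_log_le {y : 𝓞 K} (hy : y ≠ 0) (S : Finset (HeightOneSpectrum (𝓞 K)))
    (hS : ∀ v ∈ S, y ∈ v.asIdeal) :
    ∑ v ∈ S, Real.log (Ideal.absNorm v.asIdeal : ℝ) ≤
      Real.log |((Algebra.norm ℚ (y : K) : ℚ) : ℝ)| := by
  have hne : ∀ v : HeightOneSpectrum (𝓞 K), (Ideal.absNorm v.asIdeal : ℝ) ≠ 0 := fun v => by
    have := one_le_absNorm v
    linarith
  rw [← Real.log_prod (fun v _ => hne v), ← absNorm_eq y]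
  apply Real.log_le_log
  · exact Finset.prod_pos fun v _ => by
      have := one_le_absNorm v
      linarith
  · have h1 : Ideal.absNorm (∏ v ∈ S, v.asIdeal) ∣ Ideal.absNorm (Ideal.span {y}) :=
      map_dvd Ideal.absNorm (prod_asIdeal_dvd S hS)
    rw [map_prod] at h1
    have h2 : 0 < Ideal.absNorm (Ideal.span {y}) := by
      rw [Nat.pos_iff_ne_zero, Ne, Ideal.absNorm_eq_zero_iff, Ideal.span_singleton_eq_bot]
      exact hy
    exact_mod_cast Nat.le_of_dvd h2 h1

/-- squarefree elements -/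
theorem le_sum_log {y : 𝓞 K} (hy : y ≠ 0) (hsq : Squarefree (Ideal.span {y}))
    (S : Finset (HeightOneSpectrum (𝓞 K))) (hS : ∀ v : HeightOneSpectrum (𝓞 K),
      y ∈ v.asIdeal → v ∈ S) :
    Real.log |((Algebra.norm ℚ (y : K) : ℚ) : ℝ)| ≤
      ∑ v ∈ S, Real.log (Ideal.absNorm v.asIdeal : ℝ) := by
  classical
  have hI : Ideal.span {y} ≠ (⊥ : Ideal (𝓞 K)) := by
    rwa [Ne, Ideal.span_singleton_eq_bot]
  have hnd := (UniqueFactorizationMonoid.squarefree_iff_nodup_normalizedFactors hI).mp hsq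
  have hprod := Ideal.prod_normalizedFactors_eq_self hI
  obtain ⟨Z, hZ⟩ : ∃ Z, Z = (UniqueFactorizationMonoid.normalizedFactors
    (Ideal.span {y})).toFinset := ⟨_, rfl⟩
  have h1 : ∏ I ∈ Z, I = Ideal.span {y} := by
    calc ∏ I ∈ Z, I = (Multiset.map (fun I => I) Z.1).prod := rfl
      _ = _ := by rw [hZ, Multiset.toFinset_val, hnd.dedup, Multiset.map_id', hprod]
  have hZp : ∀ I ∈ Z, Prime I := by
    intro I hI
    rw [hZ, Multiset.mem_toFinset] at hI
    exact UniqueFactorizationMonoid.prime_of_normalized_factor I hI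
  have hZd : ∀ I ∈ Z, I ∣ Ideal.span {y} := fun I hI => by
    rw [← h1]
    exact Finset.dvd_prod_of_mem _ hI
  rw [← absNorm_eq y, ← h1, map_prod]
  push_cast
  rw [Real.log_prod (fun I hI => by
    rw [Ne, Nat.cast_eq_zero, Ideal.absNorm_eq_zero_iff]
    exact (hZp I hI).ne_zero)]
  have h2 : ∑ v ∈ S, Real.log (Ideal.absNorm v.asIdeal : ℝ) =
      ∑ I ∈ S.image (fun v => v.asIdeal), Real.log (Ideal.absNorm I : ℝ) := by
    rw [Finset.sum_image]
    intro v _ w _ h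
    exact HeightOneSpectrum.ext h
  rw [h2]
  apply Finset.sum_le_sum_of_subset_of_nonneg
  · intro I hI
    have hp := hZp I hI
    let v : HeightOneSpectrum (𝓞 K) := ⟨I, Ideal.isPrime_of_prime hp, hp.ne_zero⟩
    refine Finset.mem_image.mpr ⟨v, hS v ?_, rfl⟩
    exact (Ideal.dvd_span_singleton).mp (hZd I hI)
  · intro I hI _
    obtain ⟨v, -, rfl⟩ := Finset.mem_image.mp hI
    exact Real.log_nonneg (one_le_absNorm v)

/-- the valuations of a product of powers of pairwise coprime numbers -/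
theorem valuation_ne {n : ℕ} {q : Fin n → 𝓞 K} (hpw : ∀ i j, i ≠ j → IsCoprime (q i) (q j))
    (hq : ∀ i, q i ≠ 0) {a : Fin 3 → 𝓞 K} {e : Fin 3 → Fin n → ℕ} {v : HeightOneSpectrum (𝓞 K)}
    (hv : ∀ k, a k ∉ v.asIdeal) {i : Fin n} (hi : q i ∈ v.asIdeal) {k k' : Fin 3}
    (hk : e k i ≠ e k' i) :
    v.valuation K ((a k * ∏ j, q j ^ e k j : 𝓞 K) : K) ≠
      v.valuation K ((a k' * ∏ j, q j ^ e k' j : 𝓞 K) : K) := by
  have h1 : ∀ k, v.valuation K ((a k * ∏ j, q j ^ e k j : 𝓞 K) : K) =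
      v.intValuation (q i) ^ e k i := by
    intro k
    rw [HeightOneSpectrum.valuation_of_algebraMap, map_mul, map_prod,
      HeightOneSpectrum.intValuation_eq_one_iff.mpr (hv k), one_mul]
    rw [Finset.prod_eq_single i]
    · rw [map_pow]
    · intro j _ hji
      rw [map_pow]
      have h2 : q j ∉ v.asIdeal := by
        intro h3
        obtain ⟨x, y, hxy⟩ := hpw j i hji
        have h4 : (1 : 𝓞 K) ∈ v.asIdeal := by
          rw [← hxy]
          exact v.asIdeal.add_mem (v.asIdeal.mul_mem_left _ h3) (v.asIdeal.mul_mem_left _ hi)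
        exact v.isPrime.ne_top ((Ideal.eq_top_iff_one _).mpr h4)
      rw [HeightOneSpectrum.intValuation_eq_one_iff.mpr h2, one_pow]
    · intro h
      exact absurd (Finset.mem_univ i) h
  rw [h1 k, h1 k']
  have h5 : v.intValuation (q i) < 1 := (v.intValuation_lt_one_iff_mem _).mpr hi
  have h6 : 0 < v.intValuation (q i) := by
    rw [zero_lt_iff]
    exact v.intValuation_ne_zero _ (hq i)
  rcases lt_or_gt_of_ne hk with h | h
  · exact (pow_lt_pow_right_of_lt_one₀ h6 h5 h).ne'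
  · exact (pow_lt_pow_right_of_lt_one₀ h6 h5 h).ne

/-- **The radical**: a squarefree product of pairwise coprime numbers whose exponents are not all
equal -/
theorem le_rad {n : ℕ} {q : Fin n → 𝓞 K} (hpw : ∀ i j, i ≠ j → IsCoprime (q i) (q j))
    (hq : ∀ i, q i ≠ 0) {a : Fin 3 → 𝓞 K} (ha : ∀ k, a k ≠ 0) (e : Fin 3 → Fin n → ℕ)
    {U : Finset (Fin n)} (hU : ∀ i ∈ U, ∃ k k', e k i ≠ e k' i)
    (hsq : Squarefree (Ideal.span {∏ i ∈ U, q i})) :
    Real.log |((Algebra.norm ℚ ((∏ i ∈ U, q i : 𝓞 K) : K) : ℚ) : ℝ)| ≤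
      (∑ᶠ v ∈ {v : HeightOneSpectrum (𝓞 K) | ∃ k k',
        v.valuation K ((a k * ∏ j, q j ^ e k j : 𝓞 K) : K) ≠
          v.valuation K ((a k' * ∏ j, q j ^ e k' j : 𝓞 K) : K)},
        Real.log (Ideal.absNorm v.asIdeal : ℝ)) +
      Real.log |((Algebra.norm ℚ ((∏ k, a k : 𝓞 K) : K) : ℚ) : ℝ)| := by
  classical
  obtain ⟨I, hI⟩ : ∃ I : Set (HeightOneSpectrum (𝓞 K)), I = {v : HeightOneSpectrum (𝓞 K) | ∃ k k',
        v.valuation K ((a k * ∏ j, q j ^ e k j : 𝓞 K) : K) ≠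
          v.valuation K ((a k' * ∏ j, q j ^ e k' j : 𝓞 K) : K)} := ⟨_, rfl⟩
  rw [← hI]
  have hterm : ∀ k, a k * ∏ j, q j ^ e k j ≠ 0 := fun k =>
    mul_ne_zero (ha k) (Finset.prod_ne_zero_iff.mpr fun j _ => pow_ne_zero _ (hq j))
  have hIfin : I.Finite := by
    refine (primes_finite (y := ∏ k, (a k * ∏ j, q j ^ e k j))
      (Finset.prod_ne_zero_iff.mpr fun k _ => hterm k)).subset ?_
    intro v hv
    rw [hI] at hv
    obtain ⟨k, k', hkk⟩ := hv
    by_contra hcon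
    have h1 : ∀ k, v.valuation K ((a k * ∏ j, q j ^ e k j : 𝓞 K) : K) = 1 := by
      intro k
      rw [HeightOneSpectrum.valuation_of_algebraMap, HeightOneSpectrum.intValuation_eq_one_iff]
      intro h2
      apply hcon
      exact v.isPrime.prod_mem_iff.mpr ⟨k, Finset.mem_univ k, h2⟩
    rw [h1 k, h1 k'] at hkk
    exact hkk rfl
  rw [finsum_mem_eq_finite_toFinset_sum _ hIfin]
  have hQ : ∏ i ∈ U, q i ≠ 0 := Finset.prod_ne_zero_iff.mpr fun i _ => hq i
  have hA : ∏ k, a k ≠ 0 := Finset.prod_ne_zero_iff.mpr fun k _ => ha k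
  obtain ⟨SA, hSA⟩ : ∃ SA, SA = (primes_finite hA).toFinset := ⟨_, rfl⟩
  have h1 := sum_log_le hA SA (by
    intro v hv
    rw [hSA, Set.Finite.mem_toFinset] at hv
    exact hv)
  have h2 := le_sum_log hQ hsq (hIfin.toFinset ∪ SA) (by
    intro v hv
    by_cases hvA : ∏ k, a k ∈ v.asIdeal
    · apply Finset.mem_union_right
      rw [hSA, Set.Finite.mem_toFinset]
      exact hvA
    · apply Finset.mem_union_left
      rw [Set.Finite.mem_toFinset, hI]
      obtain ⟨i, hi, hvi⟩ := v.isPrime.prod_mem_iff.mp hv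
      obtain ⟨k, k', hk⟩ := hU i hi
      refine ⟨k, k', valuation_ne hpw hq (fun k hk => hvA ?_) hvi hk⟩
      exact v.isPrime.prod_mem_iff.mpr ⟨k, Finset.mem_univ k, hk⟩)
  have h4 := Finset.sum_union_inter (s₁ := hIfin.toFinset) (s₂ := SA)
    (f := fun v : HeightOneSpectrum (𝓞 K) => Real.log (Ideal.absNorm v.asIdeal : ℝ))
  have h3 : 0 ≤ ∑ v ∈ hIfin.toFinset ∩ SA, Real.log (Ideal.absNorm v.asIdeal : ℝ) :=
    Finset.sum_nonneg fun v _ => Real.log_nonneg (one_le_absNorm v)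
  linarith

end Pool.Agent.Q103.SD.NF
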