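import Mathlib
import Pool.Agent.Q103.SD.Drop
import Pool.Agent.Q103.SD.NFHeight

/-!
# Sums of products of powers of numbers with small digits in number fields: sizes
-/

set_option autoImplicit false

namespace Pool.Agent.Q103.SD.NF

open Polynomial Finset NumberField IsDedekindDomain

variable {K : Type*} [Field K] [NumberField K]

theorem finite_le_one (v : FinitePlace K) (x : 𝓞 K) : v (x : K) ≤ 1 := by
  have h := FinitePlace.norm_le_one (K := K) v.maximalIdeal x
  rw [FinitePlace.norm_embedding_eq] at h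
  exact h

theorem finite_log_le {x : 𝓞 K} (hx : x ≠ 0) (S : Finset (FinitePlace K)) :
    ∑ v ∈ S, -Real.log (v (x : K)) ≤ Real.log |((Algebra.norm ℚ (x : K) : ℚ) : ℝ)| := by
  classical
  have hxK : (x : K) ≠ 0 := RingOfIntegers.coe_ne_zero_iff.mpr hx
  have h1 := FinitePlace.prod_eq_inv_abs_norm hxK
  have hfin : (Function.mulSupport fun v : FinitePlace K => v (x : K)).Finite :=
    FinitePlace.hasFiniteMulSupport_int hx
  obtain ⟨U, hU⟩ : ∃ U : Finset (FinitePlace K), U = hfin.toFinset ∪ S := ⟨_, rfl⟩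
  rw [finprod_eq_prod_of_mulSupport_subset (s := U) _ (by
    rw [hU]
    intro v hv
    rw [Finset.coe_union]
    exact Or.inl (by rw [Set.Finite.coe_toFinset]; exact hv))] at h1
  have h2 := congrArg Real.log h1
  rw [Real.log_prod (fun v _ => (FinitePlace.pos_iff.mpr hxK).ne')] at h2
  have h3 : Real.log ((|Algebra.norm ℚ (x : K)|⁻¹ : ℚ) : ℝ) =
      - Real.log |((Algebra.norm ℚ (x : K) : ℚ) : ℝ)| := by
    push_cast
    rw [Real.log_inv]
  have h4 : ∑ v ∈ U, Real.log (v (x : K)) = - Real.log |((Algebra.norm ℚ (x : K) : ℚ) : ℝ)| := by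
    rw [h2, ← h3]
  have h5 : ∑ v ∈ S, -Real.log (v (x : K)) ≤ ∑ v ∈ U, -Real.log (v (x : K)) := by
    apply Finset.sum_le_sum_of_subset_of_nonneg
    · rw [hU]
      exact Finset.subset_union_right
    · intro v _ _
      have := Real.log_nonpos (apply_nonneg v _) (finite_le_one v x)
      linarith
  rw [Finset.sum_neg_distrib (s := U), h4, neg_neg] at h5
  exact h5

/-- The conditions on the base and the numbers with small digits. -/
structure SumData (T H : ℝ) (D : ℕ) (t : 𝓞 K) {n : ℕ} (F : Fin n → (𝓞 K)[X]) : Prop where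
  base : ∀ σ : K →+* ℂ, T ≤ ‖σ t‖
  deg : ∑ i, (F i).natDegree ≤ D
  digits : ∀ (i : Fin n) (j : ℕ) (σ : K →+* ℂ), ‖σ ((F i).coeff j)‖ ≤ H
  first : ∀ (i : Fin n) (σ : K →+* ℂ), ‖σ (F i).leadingCoeff‖ ≤ 1
  last : ∀ (i : Fin n) (σ : K →+* ℂ), ‖σ ((F i).coeff 0)‖ ≤ 1
  last0 : ∀ i, (F i).coeff 0 ≠ 0

/-- the order -/
def JM (D M : ℕ) : ℕ := ∑ m ∈ Finset.range (M + 1), (JJ D m + JJ (D + 1) m)

theorem JM_ge {D M m : ℕ} (hm : m ≤ M) : JJ D m ≤ JM D M ∧ JJ (D + 1) m ≤ JM D M := by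
  have h : JJ D m + JJ (D + 1) m ≤ JM D M := by
    unfold JM
    exact Finset.single_le_sum (f := fun m => JJ D m + JJ (D + 1) m) (fun _ _ => Nat.zero_le _)
      (Finset.mem_range.mpr (by omega))
  omega

theorem norm_pow_bound {x : 𝓞 K} {C : ℝ} (hx : ∀ σ : K →+* ℂ, ‖σ x‖ ≤ C) :
    |((Algebra.norm ℚ (x : K) : ℚ) : ℝ)| ≤ C ^ Module.finrank ℚ K := by
  have h := InfinitePlace.prod_eq_abs_norm (K := K) (x : K)
  have h2 : ((|Algebra.norm ℚ (x : K)| : ℚ) : ℝ) = |((Algebra.norm ℚ (x : K) : ℚ) : ℝ)| := by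
    push_cast
    rfl
  rw [h2] at h
  rw [← h, ← InfinitePlace.sum_mult_eq, ← Finset.prod_pow_eq_pow_sum]
  apply Finset.prod_le_prod (fun w _ => pow_nonneg (apply_nonneg _ _) _)
  intro w _
  apply pow_le_pow_left₀ (apply_nonneg _ _)
  rw [← InfinitePlace.norm_embedding_eq]
  exact hx _

theorem one_le_norm {x : 𝓞 K} (hx : x ≠ 0) : 1 ≤ |((Algebra.norm ℚ (x : K) : ℚ) : ℝ)| := by
  rw [← absNorm_eq]
  have : Ideal.absNorm (Ideal.span {x}) ≠ 0 := by
    rw [Ne, Ideal.absNorm_eq_zero_iff, Ideal.span_singleton_eq_bot]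
    exact hx
  exact_mod_cast Nat.one_le_iff_ne_zero.mpr this

/-- a conjugate of a nonzero integer with small conjugates is not too small -/
theorem conj_lower {x : 𝓞 K} (hx : x ≠ 0) {C : ℝ} (hC : 1 ≤ C) (hxC : ∀ σ : K →+* ℂ, ‖σ x‖ ≤ C)
    {r : ℕ} (hr : Module.finrank ℚ K ≤ r) (σ : K →+* ℂ) : 1 ≤ ‖σ x‖ * C ^ (r - 1) := by
  have h1 := norm_norm_le_norm_mul_house_pow (x : K) σ
  have h2 : house (x : K) ≤ C := house_le (by linarith) hxC
  have h3 : (1 : ℝ) ≤ ‖Algebra.norm ℚ (x : K)‖ := by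
    have h4 := one_le_norm hx
    have h5 : ‖Algebra.norm ℚ (x : K)‖ = |((Algebra.norm ℚ (x : K) : ℚ) : ℝ)| := rfl
    rw [h5]
    exact h4
  have h6 : house (x : K) ^ (Module.finrank ℚ K - 1) ≤ C ^ (r - 1) :=
    (pow_le_pow_left₀ (house_nonneg _) h2 _).trans (pow_le_pow_right₀ hC (by omega))
  calc (1 : ℝ) ≤ ‖Algebra.norm ℚ (x : K)‖ := h3
    _ ≤ ‖σ x‖ * house (x : K) ^ (Module.finrank ℚ K - 1) := h1
    _ ≤ _ := mul_le_mul_of_nonneg_left h6 (norm_nonneg _)

/-- **Sums of products of powers of numbers with small digits**, at the infinite places and at the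
finite places at which the base is small. -/
theorem nf_sum {D M r : ℕ} {T H : ℝ} (hH : 1 ≤ H) (hM : 1 ≤ M)
    (hr : Module.finrank ℚ K ≤ r)
    (hT : 4 * H * (M * H ^ (2 * JM D M + 1)) ^ r * H ^ 2 ≤ T) {t : 𝓞 K} {n : ℕ}
    {F : Fin n → (𝓞 K)[X]} (hD : SumData T H D t F) {ι : Type*} [Fintype ι] [Nonempty ι]
    (hι : Fintype.card ι ≤ M) {α : ι → 𝓞 K} (hα : ∀ k, α k ≠ 0)
    (hαH : ∀ (k : ι) (σ : K →+* ℂ), ‖σ (α k)‖ ≤ H) (e : ι → Fin n → ℕ)
    (he : ∀ k, ((∑ i, e k i : ℕ) : ℝ) ≤ H) {w : 𝓞 K}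
    (hw : w = ∑ k, (PP F (α k) (e k)).eval t)
    (hno : ∀ L : Finset ι, L.Nonempty → ∑ k ∈ L, (PP F (α k) (e k)).eval t ≠ 0) :
    (∀ (σ : K →+* ℂ) (k : ι), ‖σ ((PP F (α k) (e k)).eval t : 𝓞 K)‖ ≤
      ‖σ t‖ ^ (JM D M + 1) * ‖σ w‖) ∧
    ∀ S : Finset (FinitePlace K), (∀ v ∈ S, T * v (t : K) ≤ 1) →
      ∑ v ∈ S, -Real.log (v (w : K)) ≤
        (JM D M + 1) * Real.log |((Algebra.norm ℚ (t : K) : ℚ) : ℝ)| := by
  classical
  obtain ⟨J, hJ⟩ : ∃ J, J = JM D M := ⟨_, rfl⟩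
  have hJ1 := (JM_ge (D := D) hι).1
  have hJ2 := (JM_ge (D := D) hι).2
  rw [← hJ] at hJ1 hJ2 hT ⊢
  have hd1 : 1 ≤ Module.finrank ℚ K := Module.finrank_pos
  have hr1 : 1 ≤ r := by omega
  have hM1 : (1 : ℝ) ≤ M := by exact_mod_cast hM
  obtain ⟨C, hC⟩ : ∃ C : ℝ, C = M * H ^ (2 * J + 1) := ⟨_, rfl⟩
  rw [← hC] at hT
  have hC1 : 1 ≤ C := by
    rw [hC]
    exact one_le_mul_of_one_le_of_one_le hM1 (one_le_pow₀ hH)
  have hCr : 1 ≤ C ^ r := one_le_pow₀ hC1
  have hCCr : C ≤ C ^ r := le_self_pow₀ hC1 (by omega)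
  have hH2 : 1 ≤ H ^ 2 := one_le_pow₀ hH
  have hT4 : 4 * H * C ^ r ≤ T := by
    have : 4 * H * C ^ r * 1 ≤ 4 * H * C ^ r * H ^ 2 :=
      mul_le_mul_of_nonneg_left hH2 (by positivity)
    linarith
  have hTC : 4 * C ^ r ≤ T := by
    have : 4 * 1 * C ^ r ≤ 4 * H * C ^ r := by
      apply mul_le_mul_of_nonneg_right _ (by positivity)
      linarith
    linarith
  have hT1 : 1 < T := by linarith
  obtain ⟨N, hN⟩ : ∃ N, N = max 1 ⌊H⌋₊ := ⟨_, rfl⟩
  have hN1 : 1 ≤ N := by rw [hN]; exact le_max_left _ _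
  have hNH : (N : ℝ) ≤ H := by
    rw [hN]
    push_cast
    exact max_le (by simpa using hH) (Nat.floor_le (by linarith))
  have hleN : ∀ m : ℕ, (m : ℝ) ≤ H → m ≤ N := by
    intro m hm
    rw [hN]
    exact (Nat.le_floor hm).trans (le_max_right _ _)
  have hN1' : (1 : ℝ) ≤ N := by exact_mod_cast hN1
  have hNHH : (N : ℝ) * H ≤ H ^ 2 := by
    rw [pow_two]
    exact mul_le_mul_of_nonneg_right hNH (by linarith)
  have hCle : (Fintype.card ι : ℝ) * H * ((N : ℝ) * H) ^ J ≤ C := by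
    rw [hC]
    calc (Fintype.card ι : ℝ) * H * ((N : ℝ) * H) ^ J ≤ M * H * (H ^ 2) ^ J := by
          apply mul_le_mul _ (pow_le_pow_left₀ (by positivity) hNHH J) (by positivity)
            (by positivity)
          apply mul_le_mul_of_nonneg_right _ (by linarith)
          exact_mod_cast hι
      _ = M * H ^ (2 * J + 1) := by rw [← pow_mul, pow_succ]; ring
  have hnoP : ∀ L : Finset ι, L.Nonempty → ∑ k ∈ L, PP F (α k) (e k) ≠ 0 := by
    intro L hL h0
    apply hno L hL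
    rw [← eval_finsetSum, h0, eval_zero]
  obtain ⟨i, j, q, p, hi, hj, hq0, hp0, hq, hp, ⟨y, hy⟩, hend⟩ := two_ends sizeFn_house
    (fun i h => hD.last0 i (by rw [h, coeff_zero])) hD.deg hH
    (fun i => house_le (by norm_num) (hD.last i)) hD.last0
    (fun i => house_le (by norm_num) (hD.first i))
    (fun i j => house_le (by linarith) (hD.digits i j)) hα
    (fun k => house_le (by linarith) (hαH k)) e hN1 (fun k => hleN _ (he k)) hnoP hJ1 hJ2 t
  rw [eval_finsetSum, ← hw] at hy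
  have hqC : ∀ σ : K →+* ℂ, ‖σ q‖ ≤ C := fun σ =>
    (norm_embedding_le_house _ σ).trans (hq.trans hCle)
  have hpC : ∀ σ : K →+* ℂ, ‖σ p‖ ≤ C := fun σ =>
    (norm_embedding_le_house _ σ).trans (hp.trans hCle)
  constructor
  · intro σ k
    have hz := hD.base σ
    have hz0 : 0 < ‖σ t‖ := by linarith
    have hz1 : 1 ≤ ‖σ t‖ := by linarith
    have h1 := hend (σ.comp (algebraMap (𝓞 K) K)) (fun x => norm_embedding_le_house _ σ) (by
      show 2 * ((N : ℝ) * H) ≤ ‖σ t‖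
      have : H ^ 2 ≤ C ^ r * H ^ 2 := by nlinarith
      nlinarith) k
    rw [eval_finsetSum, ← hw] at h1
    have h2 : ‖σ ((PP F (α k) (e k)).eval t : 𝓞 K)‖ *
          (‖σ p‖ - 2 * (Fintype.card ι * H * (N * H) ^ J) * (N * H) / ‖σ t‖) ≤
        2 * H * ‖σ t‖ ^ j * ‖σ w‖ := h1
    have h3 := conj_lower hp0 hC1 hpC hr σ
    -- the correction is small
    have h4 : 2 * (Fintype.card ι * H * (N * H) ^ J) * (N * H) / ‖σ t‖ * C ^ (r - 1) ≤ 1 / 2 := by
      rw [div_mul_eq_mul_div, div_le_iff₀ hz0]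
      have h5 : 2 * (Fintype.card ι * H * (N * H) ^ J) * (N * H) * C ^ (r - 1) ≤
          2 * C * H ^ 2 * C ^ (r - 1) := by
        apply mul_le_mul_of_nonneg_right _ (by positivity)
        apply mul_le_mul _ hNHH (by positivity) (by positivity)
        linarith
      have h6 : 2 * C * H ^ 2 * C ^ (r - 1) = 2 * C ^ r * H ^ 2 := by
        obtain ⟨r', rfl⟩ : ∃ r', r = r' + 1 := ⟨r - 1, by omega⟩
        rw [Nat.add_sub_cancel, pow_succ]
        ring
      have h7 : 4 * C ^ r * H ^ 2 ≤ 4 * H * C ^ r * H ^ 2 := by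
        apply mul_le_mul_of_nonneg_right _ (by positivity)
        nlinarith
      linarith
    obtain ⟨a, ha⟩ : ∃ a, a = ‖σ p‖ := ⟨_, rfl⟩
    obtain ⟨b, hb⟩ : ∃ b, b = 2 * (Fintype.card ι * H * (N * H) ^ J) * (N * H) / ‖σ t‖ := ⟨_, rfl⟩
    obtain ⟨c, hc⟩ : ∃ c, c = C ^ (r - 1) := ⟨_, rfl⟩
    obtain ⟨x, hx⟩ : ∃ x, x = ‖σ ((PP F (α k) (e k)).eval t : 𝓞 K)‖ := ⟨_, rfl⟩
    obtain ⟨z, hzz⟩ : ∃ z, z = ‖σ t‖ := ⟨_, rfl⟩
    obtain ⟨ω, hω⟩ : ∃ ω, ω = ‖σ w‖ := ⟨_, rfl⟩
    rw [← ha, ← hb, ← hx, ← hzz, ← hω] at h2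
    rw [← ha, ← hc] at h3
    rw [← hb, ← hc] at h4
    rw [← hzz] at hz hz0 hz1
    rw [← hx, ← hzz, ← hω]
    have hx0 : 0 ≤ x := by rw [hx]; positivity
    have hω0 : 0 ≤ ω := by rw [hω]; positivity
    have hc1 : 1 ≤ c := by rw [hc]; exact one_le_pow₀ hC1
    have hcC : c ≤ C ^ r := by rw [hc]; exact pow_le_pow_right₀ hC1 (by omega)
    have h8 : x ≤ 2 * (x * (a - b)) * c := by
      have h9 : 1 ≤ 2 * ((a - b) * c) := by linarith
      calc x = x * 1 := (mul_one x).symm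
        _ ≤ x * (2 * ((a - b) * c)) := mul_le_mul_of_nonneg_left h9 hx0
        _ = _ := by ring
    have h10 : 2 * (x * (a - b)) * c ≤ 2 * (2 * H * z ^ j * ω) * c := by
      apply mul_le_mul_of_nonneg_right _ (by linarith)
      linarith
    have h11 : z ^ j ≤ z ^ J := pow_le_pow_right₀ hz1 (by omega)
    have h12 : 4 * H * c ≤ z := by
      have : 4 * H * c ≤ 4 * H * C ^ r := mul_le_mul_of_nonneg_left hcC (by positivity)
      linarith
    calc x ≤ 2 * (2 * H * z ^ j * ω) * c := h8.trans h10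
      _ = (4 * H * c) * (z ^ j * ω) := by ring
      _ ≤ z * (z ^ J * ω) := by
          apply mul_le_mul h12 (mul_le_mul_of_nonneg_right h11 hω0) (by positivity) hz0.le
      _ = _ := by ring
  · intro S hS
    have ht0 : t ≠ 0 := by
      rintro rfl
      obtain ⟨σ⟩ : Nonempty (K →+* ℂ) := inferInstance
      have h1 := hD.base σ
      simp at h1
      linarith
    have htK : (t : K) ≠ 0 := RingOfIntegers.coe_ne_zero_iff.mpr ht0
    have hqK : (q : K) ≠ 0 := RingOfIntegers.coe_ne_zero_iff.mpr hq0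
    have hNq : |((Algebra.norm ℚ (q : K) : ℚ) : ℝ)| ≤ C ^ r :=
      (norm_pow_bound hqC).trans (pow_le_pow_right₀ hC1 hr)
    have hNt : T ≤ |((Algebra.norm ℚ (t : K) : ℚ) : ℝ)| := by
      have h := InfinitePlace.prod_eq_abs_norm (K := K) (t : K)
      have h2 : ((|Algebra.norm ℚ (t : K)| : ℚ) : ℝ) = |((Algebra.norm ℚ (t : K) : ℚ) : ℝ)| := by
        push_cast
        rfl
      rw [h2] at h
      rw [← h]
      have h3 : T ≤ T ^ Module.finrank ℚ K := le_self_pow₀ hT1.le (by omega)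
      refine h3.trans ?_
      rw [← InfinitePlace.sum_mult_eq, ← Finset.prod_pow_eq_pow_sum]
      apply Finset.prod_le_prod (fun w _ => by positivity)
      intro w _
      apply pow_le_pow_left₀ (by linarith)
      rw [← InfinitePlace.norm_embedding_eq]
      exact hD.base _
    have hv : ∀ v ∈ S, -Real.log (v (w : K)) ≤
        J * (-Real.log (v (t : K))) + (-Real.log (v (q : K))) := by
      intro v hvS
      have hvt := hS v hvS
      have hvt0 : 0 < v (t : K) := FinitePlace.pos_iff.mpr htK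
      have hvq0 : 0 < v (q : K) := FinitePlace.pos_iff.mpr hqK
      have h1 := finite_log_le hq0 {v}
      rw [Finset.sum_singleton] at h1
      have h2 : -Real.log (v (q : K)) ≤ Real.log (C ^ r) :=
        h1.trans (Real.log_le_log (by linarith [one_le_norm hq0]) hNq)
      have h3 : 1 ≤ C ^ r * v (q : K) := by
        have h4 : 0 ≤ Real.log (C ^ r * v (q : K)) := by
          rw [Real.log_mul (by positivity) hvq0.ne']
          linarith
        by_contra hcon
        push Not at hcon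
        have := Real.log_neg (by positivity) hcon
        linarith
      have h5 : v (t : K) < v (q : K) := by
        by_contra hcon
        push Not at hcon
        have h6 : C ^ r * v (q : K) ≤ C ^ r * v (t : K) :=
          mul_le_mul_of_nonneg_left hcon (by positivity)
        have h7 : 4 * C ^ r * v (t : K) ≤ T * v (t : K) :=
          mul_le_mul_of_nonneg_right hTC hvt0.le
        linarith
      have h8 : v (q : K) ≤ v ((q + t * y : 𝓞 K) : K) := by
        have h9 := FinitePlace.add_le v ((q + t * y : 𝓞 K) : K) (-((t * y : 𝓞 K) : K))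
        have h10 : ((q + t * y : 𝓞 K) : K) + -((t * y : 𝓞 K) : K) = (q : K) := by
          push_cast
          ring
        rw [h10] at h9
        have h11 : v (-((t * y : 𝓞 K) : K)) < v (q : K) := by
          have h12 : v (-((t * y : 𝓞 K) : K)) = v (t : K) * v (y : K) := by
            have h19 : v (-((t * y : 𝓞 K) : K)) = v ((t * y : 𝓞 K) : K) := v.1.map_neg _
            rw [h19, ← map_mul v]
            push_cast
            rfl
          rw [h12]
          calc v (t : K) * v (y : K) ≤ v (t : K) * 1 :=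
                mul_le_mul_of_nonneg_left (finite_le_one v y) hvt0.le
            _ < v (q : K) := by linarith
        rcases le_max_iff.mp h9 with h13 | h13
        · exact h13
        · linarith
      have h14 : v (w : K) = v (t : K) ^ i * v ((q + t * y : 𝓞 K) : K) := by
        rw [hy, ← map_pow, ← map_mul]
        congr 1
      have h15 : 0 < v ((q + t * y : 𝓞 K) : K) := lt_of_lt_of_le hvq0 h8
      rw [h14, Real.log_mul (by positivity) h15.ne', Real.log_pow]
      have h16 := Real.log_le_log hvq0 h8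
      have h17 : Real.log (v (t : K)) ≤ 0 := Real.log_nonpos hvt0.le (finite_le_one v t)
      have h18 : (i : ℝ) ≤ J := by exact_mod_cast hi.le
      nlinarith
    refine (Finset.sum_le_sum hv).trans ?_
    rw [Finset.sum_add_distrib, ← Finset.mul_sum]
    have h1 := finite_log_le ht0 S
    have h2 := finite_log_le hq0 S
    have h3 : Real.log |((Algebra.norm ℚ (q : K) : ℚ) : ℝ)| ≤
        Real.log |((Algebra.norm ℚ (t : K) : ℚ) : ℝ)| := by
      apply Real.log_le_log (by linarith [one_le_norm hq0])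
      linarith
    have h4 : (J : ℝ) * ∑ v ∈ S, -Real.log (v (t : K)) ≤
        J * Real.log |((Algebra.norm ℚ (t : K) : ℚ) : ℝ)| :=
      mul_le_mul_of_nonneg_left h1 (Nat.cast_nonneg _)
    linarith

end Pool.Agent.Q103.SD.NF
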