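import Mathlib
import Pool.Agent.Q103.SD.NFSum

/-!
# The choice of the constants
-/

set_option autoImplicit false

namespace Pool.Agent.Q103.SD.NF

open Filter

/-- a power of `T ^ δ` is small if `δ` is small -/
theorem exists_small (c : ℝ) (m : ℕ) {ε : ℝ} (hε : 0 < ε) : ∃ δ₀ : ℝ, 0 < δ₀ ∧
    ∀ δ : ℝ, 0 < δ → δ ≤ δ₀ → ∀ᶠ T : ℝ in atTop, c * (T ^ δ) ^ m ≤ T ^ ε := by
  obtain ⟨A, hA⟩ : ∃ A : ℝ, A = m + 1 := ⟨_, rfl⟩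
  have hA0 : 0 < A := by rw [hA]; positivity
  refine ⟨ε / (2 * A), by positivity, ?_⟩
  intro δ hδ hδ0
  have h1 := (tendsto_rpow_atTop (show 0 < ε / 2 by positivity)).eventually_ge_atTop c
  filter_upwards [h1, eventually_ge_atTop (1 : ℝ)] with T hT hT1
  have hT0 : 0 < T := by linarith
  have h2 : (T ^ δ) ^ m ≤ T ^ (ε / 2) := by
    rw [← Real.rpow_mul_natCast hT0.le]
    apply Real.rpow_le_rpow_of_exponent_le hT1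
    have h3 : δ * A ≤ ε / 2 := by
      calc δ * A ≤ ε / (2 * A) * A := mul_le_mul_of_nonneg_right hδ0 hA0.le
        _ = ε / 2 := by field_simp
    have h4 : δ * m ≤ δ * A := by
      apply mul_le_mul_of_nonneg_left _ hδ.le
      rw [hA]
      linarith
    linarith
  have h5 : 0 < T ^ (ε / 2) := Real.rpow_pos_of_pos hT0 _
  calc c * (T ^ δ) ^ m ≤ T ^ (ε / 2) * (T ^ δ) ^ m :=
        mul_le_mul_of_nonneg_right hT (by positivity)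
    _ ≤ T ^ (ε / 2) * T ^ (ε / 2) := mul_le_mul_of_nonneg_left h2 h5.le
    _ = T ^ ε := by rw [← Real.rpow_add hT0]; congr 1; ring

/-- the constants for sums with one free term -/
theorem choose_free (D r : ℕ) {ε : ℝ} (hε : 0 < ε) : ∃ δ₀ : ℝ, 0 < δ₀ ∧
    ∀ δ : ℝ, 0 < δ → δ ≤ δ₀ → ∀ᶠ T : ℝ in atTop, 1 ≤ T ∧ 1 ≤ T ^ δ ∧
      4 * T ^ δ * (2 * (T ^ δ) ^ (2 * JM D 2 + 1)) ^ r * (T ^ δ) ^ 2 ≤ T ∧
      2 * (4 * T ^ δ * (2 * (T ^ δ) ^ (2 * JM D 2 + 1)) ^ (2 * r) * (2 * T ^ δ) ^ D) ≤ T ^ ε := by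
  obtain ⟨J, hJ⟩ : ∃ J, J = JM D 2 := ⟨_, rfl⟩
  rw [← hJ]
  obtain ⟨d1, hd1, h1⟩ := exists_small (4 * 2 ^ r) (1 + (2 * J + 1) * r + 2) (one_pos)
  obtain ⟨d2, hd2, h2⟩ := exists_small (8 * 2 ^ (2 * r) * 2 ^ D) (1 + (2 * J + 1) * (2 * r) + D) hε
  refine ⟨min d1 d2, lt_min hd1 hd2, ?_⟩
  intro δ hδ hδ0
  filter_upwards [h1 δ hδ (hδ0.trans (min_le_left _ _)), h2 δ hδ (hδ0.trans (min_le_right _ _)),
    eventually_ge_atTop (1 : ℝ)] with T e1 e2 hT1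
  refine ⟨hT1, Real.one_le_rpow hT1 hδ.le, ?_, ?_⟩
  · rw [Real.rpow_one] at e1
    calc 4 * T ^ δ * (2 * (T ^ δ) ^ (2 * J + 1)) ^ r * (T ^ δ) ^ 2
        = 4 * 2 ^ r * (T ^ δ) ^ (1 + (2 * J + 1) * r + 2) := by
          rw [mul_pow, ← pow_mul]
          ring
      _ ≤ T := e1
  · calc 2 * (4 * T ^ δ * (2 * (T ^ δ) ^ (2 * J + 1)) ^ (2 * r) * (2 * T ^ δ) ^ D)
        = 8 * 2 ^ (2 * r) * 2 ^ D * (T ^ δ) ^ (1 + (2 * J + 1) * (2 * r) + D) := by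
          rw [mul_pow, mul_pow, ← pow_mul]
          ring
      _ ≤ T ^ ε := e2

/-- the constants for three composed terms -/
theorem choose_three (D : ℕ) {ε : ℝ} (hε : 0 < ε) : ∃ δ₀ : ℝ, 0 < δ₀ ∧
    ∀ δ : ℝ, 0 < δ → δ ≤ δ₀ → ∀ᶠ T : ℝ in atTop, 1 ≤ T ∧ 1 ≤ T ^ δ ∧
      3 * T ^ δ * (T ^ δ * T ^ δ) ^ (JJ D 3) < T ∧
      4 * (T ^ δ) ^ 2 + (T ^ δ) ^ (4 * D + 2) ≤ T ∧
      (2 * T ^ δ) ^ (2 * D + 1) ≤ T ^ ε := by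
  obtain ⟨J, hJ⟩ : ∃ J, J = JJ D 3 := ⟨_, rfl⟩
  rw [← hJ]
  obtain ⟨d1, hd1, h1⟩ := exists_small 4 (2 * J + 1) (one_pos)
  obtain ⟨d2, hd2, h2⟩ := exists_small 5 (4 * D + 2) (one_pos)
  obtain ⟨d3, hd3, h3⟩ := exists_small (2 ^ (2 * D + 1)) (2 * D + 1) hε
  refine ⟨min d1 (min d2 d3), lt_min hd1 (lt_min hd2 hd3), ?_⟩
  intro δ hδ hδ0
  filter_upwards [h1 δ hδ (hδ0.trans (min_le_left _ _)),
    h2 δ hδ (hδ0.trans ((min_le_right _ _).trans (min_le_left _ _))),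
    h3 δ hδ (hδ0.trans ((min_le_right _ _).trans (min_le_right _ _))),
    eventually_ge_atTop (1 : ℝ)] with T e1 e2 e3 hT1
  have hH : 1 ≤ T ^ δ := Real.one_le_rpow hT1 hδ.le
  refine ⟨hT1, hH, ?_, ?_, ?_⟩
  · rw [Real.rpow_one] at e1
    have h4 : 1 ≤ (T ^ δ) ^ (2 * J + 1) := one_le_pow₀ hH
    calc 3 * T ^ δ * (T ^ δ * T ^ δ) ^ J = 3 * (T ^ δ) ^ (2 * J + 1) := by
          rw [← pow_two, ← pow_mul]
          ring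
      _ < T := by linarith
  · rw [Real.rpow_one] at e2
    have h4 : (T ^ δ) ^ 2 ≤ (T ^ δ) ^ (4 * D + 2) := pow_le_pow_right₀ hH (by omega)
    linarith
  · rw [mul_pow]
    exact e3

end Pool.Agent.Q103.SD.NF
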