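import Mathlib
import Pool.Agent.Q103.SD.Drop

/-!
# Sums of products of powers without vanishing subsums: the degrees
-/

set_option autoImplicit false

namespace Pool.Agent.Q103.SD

open Polynomial Finset

section

variable {A : Type*} [CommRing A] [IsDomain A] [CharZero A] {κ ι : Type*} [Fintype κ] [Fintype ι]
  {s : A → ℝ}

/-- The two ends of a sum of products of powers without vanishing subsums, with the degrees. -/
theorem two_ends_deg (hs : SizeFn s) {F : κ → A[X]} (hF : ∀ i, F i ≠ 0) {D : ℕ}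
    (hD : ∑ i, (F i).natDegree ≤ D) {H : ℝ} (hH : 1 ≤ H) (hF0 : ∀ i, s ((F i).coeff 0) ≤ 1)
    (hF00 : ∀ i, (F i).coeff 0 ≠ 0) (hlc : ∀ i, s (F i).leadingCoeff ≤ 1)
    (hFH : ∀ i j, s ((F i).coeff j) ≤ H) {α : ι → A} (hα : ∀ k, α k ≠ 0)
    (hαH : ∀ k, s (α k) ≤ H) (e : ι → κ → ℕ) {N : ℕ} (hN : 1 ≤ N) (heN : ∀ k, ∑ i, e k i ≤ N)
    [Nonempty ι] (hno : ∀ L : Finset ι, L.Nonempty → ∑ k ∈ L, PP F (α k) (e k) ≠ 0)
    {J : ℕ} (hJ1 : JJ D (Fintype.card ι) ≤ J) (hJ2 : JJ (D + 1) (Fintype.card ι) ≤ J) (t : A) :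
    ∃ (i j : ℕ) (q r : A), i = (∑ k, PP F (α k) (e k)).natTrailingDegree ∧
      (∃ k, j + (∑ k, PP F (α k) (e k)).natDegree ≤ (PP F (α k) (e k)).natDegree) ∧
      i < J ∧ j < J ∧ q ≠ 0 ∧ r ≠ 0 ∧
      s q ≤ Fintype.card ι * H * (N * H) ^ J ∧ s r ≤ Fintype.card ι * H * (N * H) ^ J ∧
      (∃ y, (∑ k, PP F (α k) (e k)).eval t = t ^ i * (q + t * y)) ∧
      ∀ σ : A →+* ℂ, (∀ x, ‖σ x‖ ≤ s x) → 2 * (N * H) ≤ ‖σ t‖ → ∀ k,
        ‖σ ((PP F (α k) (e k)).eval t)‖ *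
          (‖σ r‖ - 2 * (Fintype.card ι * H * (N * H) ^ J) * (N * H) / ‖σ t‖) ≤
        2 * H * ‖σ t‖ ^ j * ‖σ ((∑ k, PP F (α k) (e k)).eval t)‖ := by
  classical
  have hN1 : (1 : ℝ) ≤ N := by exact_mod_cast hN
  have hNH : 1 ≤ (N : ℝ) * H := by nlinarith
  obtain ⟨P, hP⟩ : ∃ P, P = ∑ k, PP F (α k) (e k) := ⟨_, rfl⟩
  have hcard : (1 : ℝ) ≤ Fintype.card ι := by exact_mod_cast Fintype.card_pos
  obtain ⟨C, hC⟩ : ∃ C : ℝ, C = Fintype.card ι * H := ⟨_, rfl⟩
  have hC0 : 0 ≤ C := by rw [hC]; positivity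
  have hmono : ∀ m, m ≤ J → C * (N * H) ^ m ≤ C * (N * H) ^ J := fun m hm =>
    mul_le_mul_of_nonneg_left (pow_le_pow_right₀ hNH hm) hC0
  have hk0 : ∀ k, (PP F (α k) (e k)).coeff 0 ≠ 0 := by
    intro k
    rw [coeff_zero_eq_eval_zero, eval_PP]
    refine mul_ne_zero (hα k) (Finset.prod_ne_zero_iff.mpr fun i _ => pow_ne_zero _ ?_)
    rw [← coeff_zero_eq_eval_zero]
    exact hF00 i
  obtain ⟨k0⟩ := ‹Nonempty ι›
  -- the last coefficients
  have hPne : ¬ X ^ (JJ D (Fintype.card ι)) ∣ P := by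
    intro h
    rw [hP] at h
    obtain ⟨L, hL, hL0⟩ := gap_subsum hF hD hα e k0 (hk0 k0) h
    exact hno L ⟨k0, hL⟩ hL0
  have hP0 : P ≠ 0 := by
    rintro rfl
    exact hPne (dvd_zero _)
  have hi : P.natTrailingDegree < JJ D (Fintype.card ι) := by
    by_contra hcon
    push Not at hcon
    apply hPne
    rw [X_pow_dvd_iff]
    intro d hd
    exact coeff_eq_zero_of_lt_natTrailingDegree (hd.trans_le hcon)
  have hcP : ∀ j, s (P.coeff j) ≤ C * (N * H) ^ j := by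
    intro j
    rw [hP, hC]
    exact coeff_sum_le hs (fun k j => coeff_PP' hs hH hFH hF0 (hαH k) (e k) (heN k) j) j
  -- the first coefficients
  obtain ⟨k1, -, hk1⟩ := Finset.exists_max_image Finset.univ
    (fun k => ∑ i, e k i * (F i).natDegree) ⟨k0, Finset.mem_univ _⟩
  obtain ⟨E, hE⟩ : ∃ E, E = ∑ i, e k1 i * (F i).natDegree := ⟨_, rfl⟩
  have hEk : ∀ k, ∑ i, e k i * (F i).natDegree ≤ E := fun k => by
    rw [hE]
    exact hk1 k (Finset.mem_univ _)
  obtain ⟨R, hR⟩ : ∃ R, R = ∑ k, PP (RF F) (α k) (RE E F (e k)) := ⟨_, rfl⟩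
  have hRF : ∀ i, RF F i ≠ 0 := by
    intro i
    rcases i with _ | i
    · exact X_ne_zero
    · simp only [RF]
      rw [Ne, reverse_eq_zero]
      exact hF i
  have hRD : ∑ i, (RF F i).natDegree ≤ D + 1 := by
    rw [Fintype.sum_option]
    simp only [RF]
    rw [natDegree_X, add_comm]
    apply Nat.add_le_add_right
    refine le_trans (Finset.sum_le_sum fun i _ => ?_) hD
    exact reverse_natDegree_le _
  have hRne : ¬ X ^ (JJ (D + 1) (Fintype.card ι)) ∣ R := by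
    intro h
    rw [hR] at h
    obtain ⟨L, hL, hL0⟩ := gap_subsum hRF hRD hα (fun k => RE E F (e k)) k1 (by
      rw [PP_RF, ← hE, Nat.sub_self, pow_zero, one_mul, coeff_zero_reverse]
      exact leadingCoeff_ne_zero.mpr (PP_ne_zero hF (hα k1) _)) h
    exact hno L ⟨k1, hL⟩ (subsum_of_RF hF hα e hEk L hL0)
  have hR0 : R ≠ 0 := by
    rintro rfl
    exact hRne (dvd_zero _)
  have hj : R.natTrailingDegree < JJ (D + 1) (Fintype.card ι) := by
    by_contra hcon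
    push Not at hcon
    apply hRne
    rw [X_pow_dvd_iff]
    intro d hd
    exact coeff_eq_zero_of_lt_natTrailingDegree (hd.trans_le hcon)
  have hcRk : ∀ k j, s ((PP (RF F) (α k) (RE E F (e k))).coeff j) ≤ H * (N * H) ^ j :=
    fun k j => coeff_RF hs hH hFH hlc (hαH k) (e k) hN (heN k) E j
  have hcR : ∀ j, s (R.coeff j) ≤ C * (N * H) ^ j := by
    intro j
    rw [hR, hC]
    exact coeff_sum_le hs hcRk j
  obtain ⟨i, hii⟩ : ∃ i, i = P.natTrailingDegree := ⟨_, rfl⟩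
  obtain ⟨j, hjj⟩ : ∃ j, j = R.natTrailingDegree := ⟨_, rfl⟩
  rw [← hii] at hi
  rw [← hjj] at hj
  refine ⟨i, j, P.coeff i, R.coeff j, by rw [hii, hP], ?_, by omega, by omega, ?_, ?_, ?_, ?_,
    ?_, ?_⟩
  · refine ⟨k1, ?_⟩
    rw [natDegree_PP hF (hα k1), ← hE, ← hP, hjj]
    have h1 : ∀ k, PP (RF F) (α k) (RE E F (e k)) = reflect E (PP F (α k) (e k)) := by
      intro k
      rw [PP_RF, reflect_eq _ (by rw [natDegree_PP hF (hα k)]; exact hEk k),
        natDegree_PP hF (hα k)]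
    have h2 : ∀ L : Finset ι, reflect E (∑ k ∈ L, PP F (α k) (e k)) =
        ∑ k ∈ L, reflect E (PP F (α k) (e k)) := by
      intro L
      induction L using Finset.induction_on with
      | empty => simp
      | insert k L hk ih => rw [Finset.sum_insert hk, Finset.sum_insert hk, reflect_add, ih]
    have h3 : R = reflect E P := by
      rw [hR, hP, h2]
      exact Finset.sum_congr rfl fun k _ => h1 k
    have h4 : P.natDegree ≤ E := by
      rw [hP]
      refine natDegree_sum_le_of_forall_le _ _ fun k _ => ?_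
      rw [natDegree_PP hF (hα k)]
      exact hEk k
    have h5 : R.coeff (E - P.natDegree) ≠ 0 := by
      rw [h3, coeff_reflect, revAt_le (Nat.sub_le _ _), Nat.sub_sub_self h4]
      exact leadingCoeff_ne_zero.mpr hP0
    have h6 := natTrailingDegree_le_of_ne_zero h5
    omega
  · rw [hii]; exact trailingCoeff_nonzero_iff_nonzero.mpr hP0
  · rw [hjj]; exact trailingCoeff_nonzero_iff_nonzero.mpr hR0
  · rw [← hC]; exact (hcP i).trans (hmono i (by omega))
  · rw [← hC]; exact (hcR j).trans (hmono j (by omega))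
  · rw [← hP]
    obtain ⟨Q, hQ⟩ : X ^ i ∣ P := by
      rw [X_pow_dvd_iff]
      intro d hd
      exact coeff_eq_zero_of_lt_natTrailingDegree (by omega)
    have hQ0 : Q.coeff 0 = P.coeff i := by
      rw [hQ]
      have := coeff_X_pow_mul Q i 0
      rw [zero_add] at this
      exact this.symm
    obtain ⟨y, hy⟩ : (t - 0) ∣ Q.eval t - Q.eval 0 := sub_dvd_eval_sub _ _ _
    rw [← coeff_zero_eq_eval_zero, sub_zero, hQ0] at hy
    refine ⟨y, ?_⟩
    have h1 : P.eval t = t ^ i * Q.eval t := by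
      conv_lhs => rw [hQ]
      rw [eval_mul, eval_pow, eval_X]
    rw [h1]
    linear_combination (t ^ i) * hy
  · intro σ hσ hσt k
    have hZ0 : 0 < ‖σ t‖ := by linarith
    have hz : σ t ≠ 0 := norm_pos_iff.mp hZ0
    obtain ⟨u, hu⟩ : ∃ u, u = (σ t)⁻¹ := ⟨_, rfl⟩
    have hun : ‖u‖ = ‖σ t‖⁻¹ := by rw [hu, norm_inv]
    have hus : 2 * (N * H) * ‖u‖ ≤ 1 := by
      rw [hun, ← div_eq_mul_inv, div_le_one hZ0]
      exact hσt
    have hNH0 : 0 ≤ (N : ℝ) * H := by linarith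
    -- the term
    have hT : ‖σ ((PP F (α k) (e k)).eval t)‖ ≤ 2 * H * ‖σ t‖ ^ E := by
      rw [← eval_RF hF (hα k) (e k) (hEk k) σ hz, norm_mul, norm_pow, ← hu, mul_comm]
      apply mul_le_mul_of_nonneg_right _ (by positivity)
      have h1 := eval_near hσ (by linarith : 0 ≤ H) hNH0 (hcRk k) hus
      have h2 := hcRk k 0
      rw [pow_zero, mul_one] at h2
      have h3 := norm_le_norm_add_norm_sub' ((PP (RF F) (α k) (RE E F (e k))).eval₂ σ u)
        (σ ((PP (RF F) (α k) (RE E F (e k))).coeff 0))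
      have h4 : ‖σ ((PP (RF F) (α k) (RE E F (e k))).coeff 0)‖ ≤ H := (hσ _).trans h2
      have h5 : 2 * H * (N * H) * ‖u‖ ≤ H := by nlinarith
      linarith
    -- the sum
    have hsum : ‖σ t‖ ^ E * ‖R.eval₂ σ u‖ = ‖σ (P.eval t)‖ := by
      have h1 : σ t ^ E * R.eval₂ σ u = σ (P.eval t) := by
        rw [hR, hP, eval₂_finset_sum, Finset.mul_sum, eval_finset_sum, map_sum]
        apply Finset.sum_congr rfl
        intro k _
        rw [hu]
        exact eval_RF hF (hα k) (e k) (hEk k) σ hz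
      rw [← h1, norm_mul, norm_pow]
    obtain ⟨Q, hQ⟩ : X ^ j ∣ R := by
      rw [X_pow_dvd_iff]
      intro d hd
      exact coeff_eq_zero_of_lt_natTrailingDegree (by omega)
    have hQc : ∀ m, Q.coeff m = R.coeff (m + j) := by
      intro m
      rw [hQ, coeff_X_pow_mul]
    have hQb : ∀ m, s (Q.coeff m) ≤ (C * (N * H) ^ j) * (N * H) ^ m := by
      intro m
      rw [hQc, mul_assoc, ← pow_add, add_comm j m]
      exact hcR _
    have h6 := eval_near hσ (by positivity : 0 ≤ C * ((N : ℝ) * H) ^ j) hNH0 hQb hus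
    have hQ0 : Q.coeff 0 = R.coeff j := by rw [hQc, zero_add]
    rw [hQ0] at h6
    have h7 : ‖σ (R.coeff j)‖ - 2 * (C * (N * H) ^ J) * (N * H) / ‖σ t‖ ≤ ‖Q.eval₂ σ u‖ := by
      have h8 : ‖σ (R.coeff j)‖ ≤ ‖Q.eval₂ σ u‖ + ‖Q.eval₂ σ u - σ (R.coeff j)‖ :=
        norm_le_norm_add_norm_sub _ _
      have h9 : 2 * (C * (N * H) ^ j) * (N * H) * ‖u‖ ≤
          2 * (C * (N * H) ^ J) * (N * H) / ‖σ t‖ := by
        rw [hun, ← div_eq_mul_inv]
        apply div_le_div_of_nonneg_right _ hZ0.le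
        have := hmono j (by omega)
        nlinarith
      linarith
    have h10 : ‖R.eval₂ σ u‖ * ‖σ t‖ ^ j = ‖Q.eval₂ σ u‖ := by
      rw [hQ, eval₂_mul, eval₂_pow, eval₂_X, norm_mul, norm_pow, hun, inv_pow]
      field_simp
    rw [← hP, ← hC, ← hsum]
    have hT0 : 0 ≤ ‖σ ((PP F (α k) (e k)).eval t)‖ := norm_nonneg _
    calc ‖σ ((PP F (α k) (e k)).eval t)‖ *
          (‖σ (R.coeff j)‖ - 2 * (C * (N * H) ^ J) * (N * H) / ‖σ t‖)
        ≤ ‖σ ((PP F (α k) (e k)).eval t)‖ * ‖Q.eval₂ σ u‖ := mul_le_mul_of_nonneg_left h7 hT0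
      _ ≤ (2 * H * ‖σ t‖ ^ E) * ‖Q.eval₂ σ u‖ := mul_le_mul_of_nonneg_right hT (norm_nonneg _)
      _ = 2 * H * ‖σ t‖ ^ j * (‖σ t‖ ^ E * ‖R.eval₂ σ u‖) := by rw [← h10]; ring

end

end Pool.Agent.Q103.SD
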