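import Mathlib
import Pool.Agent.Q103.SD.Size

/-!
# The difference of two products of powers, at zero and at infinity
-/

set_option autoImplicit false

namespace Pool.Agent.Q103.SD

open Polynomial Finset

section

variable {K : Type*} [Field K] [CharZero K]

theorem degree_eq {a b : K[X]} (ha : a ≠ 0) (hb : b ≠ 0)
    (h : derivative a * b = a * derivative b) : a.natDegree = b.natDegree := by
  have key : ∀ {a b : K[X]}, a ≠ 0 → b ≠ 0 → derivative a * b = a * derivative b →
      b.natDegree < a.natDegree → False := by
    intro a b ha hb h hlt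
    obtain ⟨m, hm⟩ : ∃ m, a.natDegree = m + 1 := ⟨a.natDegree - 1, by omega⟩
    have h1 : (derivative a * b).coeff (m + b.natDegree) =
        (derivative a).coeff m * b.coeff b.natDegree :=
      coeff_mul_add_eq_of_natDegree_le (by
        have := natDegree_derivative_le a
        omega) le_rfl
    have hla : a.leadingCoeff ≠ 0 := leadingCoeff_ne_zero.mpr ha
    have hlb : b.leadingCoeff ≠ 0 := leadingCoeff_ne_zero.mpr hb
    rw [coeff_derivative, coeff_natDegree, ← hm, coeff_natDegree, h] at h1
    rcases Nat.eq_zero_or_pos b.natDegree with hb0 | hb0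
    · have h2 : derivative b = 0 := by
        rw [eq_C_of_natDegree_eq_zero hb0, derivative_C]
      rw [h2, mul_zero, coeff_zero] at h1
      have h3 : (0 : K) ≠ a.leadingCoeff * ((m : K) + 1) * b.leadingCoeff := by
        have : ((m : K) + 1) ≠ 0 := by exact_mod_cast Nat.succ_ne_zero m
        exact (mul_ne_zero (mul_ne_zero hla this) hlb).symm
      exact h3 h1
    · obtain ⟨n, hn⟩ : ∃ n, b.natDegree = n + 1 := ⟨b.natDegree - 1, by omega⟩
      have h2 : (a * derivative b).coeff (a.natDegree + n) =
          a.coeff a.natDegree * (derivative b).coeff n :=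
        coeff_mul_add_eq_of_natDegree_le le_rfl (by
          have := natDegree_derivative_le b
          omega)
      have e : a.natDegree + n = m + b.natDegree := by omega
      rw [e, h1, coeff_derivative, coeff_natDegree, ← hn, coeff_natDegree] at h2
      have h3 : a.leadingCoeff * b.leadingCoeff * ((m : K) - n) = 0 := by
        linear_combination h2
      have h4 : ((m : K) - n) ≠ 0 := by
        intro h0
        have h5 : (m : K) = n := sub_eq_zero.mp h0
        have h6 : m = n := by exact_mod_cast h5
        omega
      exact (mul_ne_zero (mul_ne_zero hla hlb) h4) h3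
  rcases lt_trichotomy a.natDegree b.natDegree with h1 | h1 | h1
  · exact (key hb ha (by rw [mul_comm, ← h, mul_comm]) h1).elim
  · exact h1
  · exact (key ha hb h h1).elim

/-- degree of the Wronskian -/
theorem degree_wr {a b : K[X]} {d : ℕ} (hd : 0 < d) (h : a.natDegree + b.natDegree ≤ d) :
    (a * derivative b - derivative a * b).natDegree + 1 ≤ d := by
  have hder : ∀ p : K[X], p.natDegree = 0 → derivative p = 0 := fun p hp => by
    rw [eq_C_of_natDegree_eq_zero hp, derivative_C]
  have h1 : (a * derivative b).natDegree + 1 ≤ d := by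
    rcases Nat.eq_zero_or_pos b.natDegree with hb | hb
    · rw [hder b hb, mul_zero, natDegree_zero]
      omega
    · have := natDegree_derivative_le b
      have := natDegree_mul_le (p := a) (q := derivative b)
      omega
  have h2 : (derivative a * b).natDegree + 1 ≤ d := by
    rcases Nat.eq_zero_or_pos a.natDegree with ha | ha
    · rw [hder a ha, zero_mul, natDegree_zero]
      omega
    · have := natDegree_derivative_le a
      have := natDegree_mul_le (p := derivative a) (q := b)
      omega
  have := natDegree_sub_le (a * derivative b) (derivative a * b)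
  omega

/-- **The difference of two products of powers at zero and at infinity.** -/
theorem two_places {R B G N N' : K[X]} (hR : R ≠ 0) (hB : B ≠ 0) (hG : G ≠ 0) (hne : G ≠ B)
    (hRd : 0 < R.natDegree)
    (h1 : R * derivative B = B * N) (h2 : R * derivative G = G * N') :
    max B.natDegree G.natDegree + 1 ≤ (G - B).natDegree + R.natDegree ∧
    (R.coeff 0 ≠ 0 → B.coeff 0 ≠ 0 → G.coeff 0 ≠ 0 →
      (G - B).natTrailingDegree + max B.natDegree G.natDegree ≤
        (G - B).natDegree + R.natDegree) := by
  obtain ⟨P, hP⟩ : ∃ P, P = G - B := ⟨_, rfl⟩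
  have hP0 : P ≠ 0 := by rw [hP]; exact sub_ne_zero.mpr hne
  rw [← hP]
  obtain ⟨W, hW⟩ : ∃ W, W = B * derivative P - derivative B * P := ⟨_, rfl⟩
  have hRW : R * W = B * G * (N' - N) := by
    rw [hW, hP, derivative_sub]
    linear_combination B * h2 - G * h1
  have hW2 : W = G * derivative P - derivative G * P := by
    rw [hW, hP, derivative_sub]
    ring
  by_cases hNN : N' - N = 0
  · rw [hNN, mul_zero] at hRW
    have hW0 : W = 0 := by
      rcases mul_eq_zero.mp hRW with h3 | h3
      · exact absurd h3 hR
      · exact h3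
    have hdB : B.natDegree = P.natDegree := by
      apply degree_eq hB hP0
      rw [hW0] at hW
      linear_combination hW
    have hdG : G.natDegree = P.natDegree := by
      apply degree_eq hG hP0
      rw [hW0] at hW2
      linear_combination hW2
    refine ⟨by omega, fun _ hB0 _ => ?_⟩
    have htr : B.natTrailingDegree = P.natTrailingDegree := by
      apply trailing_eq hB hP0
      rw [hW0] at hW
      linear_combination hW
    have h3 : B.natTrailingDegree ≤ 0 := natTrailingDegree_le_of_ne_zero hB0
    omega
  · have hW0 : W ≠ 0 := by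
      rintro rfl
      rw [mul_zero] at hRW
      exact (mul_ne_zero (mul_ne_zero hB hG) hNN) hRW.symm
    have hdeg : R.natDegree + W.natDegree = B.natDegree + G.natDegree + (N' - N).natDegree := by
      rw [← natDegree_mul hR hW0, hRW, natDegree_mul (mul_ne_zero hB hG) hNN, natDegree_mul hB hG]
    have hd1 : W.natDegree + 1 ≤ B.natDegree + P.natDegree := by
      rcases Nat.eq_zero_or_pos (B.natDegree + P.natDegree) with h0 | h0
      · exfalso
        apply hW0
        have e1 : B.natDegree = 0 := by omega
        have e2 : P.natDegree = 0 := by omega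
        rw [hW, eq_C_of_natDegree_eq_zero e1, eq_C_of_natDegree_eq_zero e2, derivative_C,
          derivative_C]
        ring
      · rw [hW]
        exact degree_wr h0 le_rfl
    have hd2 : W.natDegree + 1 ≤ G.natDegree + P.natDegree := by
      rcases Nat.eq_zero_or_pos (G.natDegree + P.natDegree) with h0 | h0
      · exfalso
        apply hW0
        have e1 : G.natDegree = 0 := by omega
        have e2 : P.natDegree = 0 := by omega
        rw [hW2, eq_C_of_natDegree_eq_zero e1, eq_C_of_natDegree_eq_zero e2, derivative_C,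
          derivative_C]
        ring
      · rw [hW2]
        exact degree_wr h0 le_rfl
    refine ⟨by omega, fun hR0 hB0 hG0 => ?_⟩
    have htr : R.natTrailingDegree + W.natTrailingDegree =
        B.natTrailingDegree + G.natTrailingDegree + (N' - N).natTrailingDegree := by
      rw [← natTrailingDegree_mul hR hW0, hRW, natTrailingDegree_mul (mul_ne_zero hB hG) hNN,
        natTrailingDegree_mul hB hG]
    have t1 : R.natTrailingDegree ≤ 0 := natTrailingDegree_le_of_ne_zero hR0
    have t2 : B.natTrailingDegree ≤ 0 := natTrailingDegree_le_of_ne_zero hB0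
    have t3 : G.natTrailingDegree ≤ 0 := natTrailingDegree_le_of_ne_zero hG0
    have t4 := natTrailingDegree_le_natDegree (N' - N)
    have t5 : P.natTrailingDegree ≤ W.natTrailingDegree + 1 := by
      rcases Nat.eq_zero_or_pos P.natTrailingDegree with h0 | h0
      · omega
      · obtain ⟨m, hm⟩ : ∃ m, P.natTrailingDegree = m + 1 := ⟨P.natTrailingDegree - 1, by omega⟩
        have h3 : X ^ (m + 1) ∣ P := by
          rw [X_pow_dvd_iff]
          intro d hd
          exact coeff_eq_zero_of_lt_natTrailingDegree (by omega)
        have h4 : X ^ m ∣ W := by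
          rw [hW]
          exact dvd_sub (Dvd.dvd.mul_left (X_pow_dvd_derivative h3) _)
            (Dvd.dvd.mul_left ((pow_dvd_pow X (Nat.le_succ m)).trans h3) _)
        have h5 : m ≤ W.natTrailingDegree :=
          le_natTrailingDegree hW0 fun d hd => (X_pow_dvd_iff.mp h4) d hd
        omega
    omega

end

/-- `natTrailingDegree` version over a domain, for power products -/
theorem two_places_PP {A : Type*} [CommRing A] [IsDomain A] [CharZero A] {κ : Type*} [Fintype κ]
    [DecidableEq κ] {F : κ → A[X]} (hF : ∀ i, F i ≠ 0) {β γ : A} (hβ : β ≠ 0) (hγ : γ ≠ 0)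
    (b c : κ → ℕ) (U : Finset κ) (hU : ∀ i, b i ≠ 0 ∨ c i ≠ 0 → i ∈ U) (hU0 : 0 < ∑ i ∈ U, (F i).natDegree)
    (hne : PP F γ c ≠ PP F β b) :
    max (PP F β b).natDegree (PP F γ c).natDegree + 1 ≤
      (PP F γ c - PP F β b).natDegree + ∑ i ∈ U, (F i).natDegree ∧
    ((∀ i ∈ U, (F i).coeff 0 ≠ 0) →
      (PP F γ c - PP F β b).natTrailingDegree + max (PP F β b).natDegree (PP F γ c).natDegree ≤
        (PP F γ c - PP F β b).natDegree + ∑ i ∈ U, (F i).natDegree) := by
  let φ : A →+* FractionRing A := algebraMap A (FractionRing A)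
  have hφ : Function.Injective φ := IsFractionRing.injective A (FractionRing A)
  have : CharZero (FractionRing A) := charZero_of_injective_algebraMap hφ
  have hne' : ∀ {P : A[X]}, P ≠ 0 → P.map φ ≠ 0 := fun h => (Polynomial.map_ne_zero_iff hφ).mpr h
  have hprod : ∀ e : κ → ℕ, (∀ i, e i ≠ 0 → i ∈ U) → ∏ i, F i ^ e i = ∏ i ∈ U, F i ^ e i := by
    intro e he
    symm
    apply Finset.prod_subset (Finset.subset_univ _)
    intro i _ hi
    have : e i = 0 := by
      by_contra h
      exact hi (he i h)
    rw [this, pow_zero]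
  have hlog : ∀ (η : A) (e : κ → ℕ), (∀ i, e i ≠ 0 → i ∈ U) → ∃ N : A[X],
      (∏ i ∈ U, F i) * derivative (PP F η e) = PP F η e * N := by
    intro η e he
    obtain ⟨N, -, h⟩ := exists_log F e U
    refine ⟨N, ?_⟩
    unfold PP
    rw [hprod e he, derivative_C_mul]
    linear_combination (C η) * h
  obtain ⟨N, hN⟩ := hlog β b fun i hi => hU i (Or.inl hi)
  obtain ⟨N', hN'⟩ := hlog γ c fun i hi => hU i (Or.inr hi)
  have hRne : ∏ i ∈ U, F i ≠ 0 := Finset.prod_ne_zero_iff.mpr fun i _ => hF i
  have hRdeg : (∏ i ∈ U, F i).natDegree = ∑ i ∈ U, (F i).natDegree :=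
    natDegree_prod _ _ fun i _ => hF i
  have h := two_places (R := (∏ i ∈ U, F i).map φ) (B := (PP F β b).map φ) (G := (PP F γ c).map φ)
    (N := N.map φ) (N' := N'.map φ) (hne' hRne) (hne' (PP_ne_zero hF hβ b))
    (hne' (PP_ne_zero hF hγ c)) (fun h => hne (Polynomial.map_injective φ hφ h))
    (by rw [natDegree_map_eq_of_injective hφ, hRdeg]; exact hU0)
    (by rw [derivative_map, ← Polynomial.map_mul, ← Polynomial.map_mul, hN])
    (by rw [derivative_map, ← Polynomial.map_mul, ← Polynomial.map_mul, hN'])
  rw [← Polynomial.map_sub] at h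
  simp only [natDegree_map_eq_of_injective hφ, trailing_map hφ, coeff_map, hRdeg] at h
  refine ⟨h.1, fun hU1 => h.2 ?_ ?_ ?_⟩
  · rw [coeff_zero_eq_eval_zero, eval_prod]
    rw [Ne, map_eq_zero_iff φ hφ]
    refine Finset.prod_ne_zero_iff.mpr fun i hi => ?_
    rw [← coeff_zero_eq_eval_zero]
    exact hU1 i hi
  · rw [Ne, map_eq_zero_iff φ hφ, coeff_zero_eq_eval_zero, eval_PP]
    refine mul_ne_zero hβ (Finset.prod_ne_zero_iff.mpr fun i _ => ?_)
    by_cases hi : b i = 0
    · rw [hi, pow_zero]; exact one_ne_zero
    · rw [← coeff_zero_eq_eval_zero]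
      exact pow_ne_zero _ (hU1 i (hU i (Or.inl hi)))
  · rw [Ne, map_eq_zero_iff φ hφ, coeff_zero_eq_eval_zero, eval_PP]
    refine mul_ne_zero hγ (Finset.prod_ne_zero_iff.mpr fun i _ => ?_)
    by_cases hi : c i = 0
    · rw [hi, pow_zero]; exact one_ne_zero
    · rw [← coeff_zero_eq_eval_zero]
      exact pow_ne_zero _ (hU1 i (hU i (Or.inr hi)))

end Pool.Agent.Q103.SD
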