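import Mathlib
import Pool.Agent.Q103.SD.DropDeg
import Pool.Agent.Q103.SD.NFSum
import Pool.Agent.Q103.SD.Places

/-!
# The difference of two products of powers of numbers with small digits in number fields
-/

set_option autoImplicit false

namespace Pool.Agent.Q103.SD.NF

open Polynomial Finset NumberField IsDedekindDomain

variable {K : Type*} [Field K] [NumberField K]

/-- the bases that occur -/
def used2 {n : ℕ} (b c : Fin n → ℕ) : Finset (Fin n) :=
  Finset.univ.filter (fun i => b i ≠ 0 ∨ c i ≠ 0)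

theorem SumData.dataK {T H : ℝ} {D : ℕ} {t : 𝓞 K} {n : ℕ} {F : Fin n → (𝓞 K)[X]} (hH : 1 ≤ H)
    (hD : SumData T H D t F) (hpos : ∀ i, 0 < (F i).natDegree) :
    DataK T H D t F 1 1 1 (fun _ => 0) (fun _ => 0) (fun _ => 0) := by
  have hone : ∀ σ : K →+* ℂ, ‖σ ((1 : 𝓞 K) : K)‖ ≤ H := by
    intro σ
    have : ((1 : 𝓞 K) : K) = 1 := by simp
    rw [this, map_one, norm_one]
    exact hH
  refine ⟨hD.base, hpos, hD.deg, hD.digits, hD.last, ?_, one_ne_zero, one_ne_zero, one_ne_zero,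
    hone, hone, hone, ?_, ?_, ?_⟩
  · intro i σ
    have h0 : (F i).leadingCoeff ≠ 0 := by
      rw [Ne, leadingCoeff_eq_zero]
      intro h
      exact hD.last0 i (by rw [h, coeff_zero])
    have h1 := conj_lower h0 le_rfl (hD.first i) le_rfl σ
    rw [one_pow, mul_one] at h1
    nlinarith
  all_goals simp; linarith

/-- **The difference of two products of powers of numbers with small digits**, at the infinite places
and at the finite places at which the base is small. -/
theorem nf_two {D r : ℕ} {T H : ℝ} (hH : 1 ≤ H) (hr : Module.finrank ℚ K ≤ r)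
    (hT : 4 * H * (2 * H ^ (2 * JM D 2 + 1)) ^ r * H ^ 2 ≤ T) {t : 𝓞 K} {n : ℕ}
    {F : Fin n → (𝓞 K)[X]} (hD : SumData T H D t F) (hpos : ∀ i, 0 < (F i).natDegree)
    {β γ : 𝓞 K} (hβ : β ≠ 0) (hγ : γ ≠ 0) (hβH : ∀ σ : K →+* ℂ, ‖σ β‖ ≤ H)
    (hγH : ∀ σ : K →+* ℂ, ‖σ γ‖ ≤ H) {b c : Fin n → ℕ} (hb : ((∑ i, b i : ℕ) : ℝ) ≤ H)
    (hc : ((∑ i, c i : ℕ) : ℝ) ≤ H) (hU : (used2 b c).Nonempty) {B G a Q : 𝓞 K}
    (hB : B = (PP F β b).eval t) (hG : G = (PP F γ c).eval t) (ha : a = G - B) (ha0 : a ≠ 0)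
    (hQ : Q = ∏ i ∈ used2 b c, (F i).eval t) {Y : ℝ}
    (hY : Y = 4 * H * (2 * H ^ (2 * JM D 2 + 1)) ^ (2 * r) * (2 * H) ^ D) :
    (∀ (σ : K →+* ℂ) (x : 𝓞 K), x = B ∨ x = G → ‖σ x‖ * ‖σ t‖ ≤ Y * (‖σ a‖ * ‖σ Q‖)) ∧
    ∀ S : Finset (FinitePlace K), (∀ v ∈ S, T * v (t : K) ≤ 1) →
      ∑ w : InfinitePlace K, (w.mult : ℝ) * Real.log (max (w (B : K)) (w (G : K))) +
        ∑ v ∈ S, -Real.log (v (a : K)) ≤
      Real.log |((Algebra.norm ℚ (a : K) : ℚ) : ℝ)| + Real.log |((Algebra.norm ℚ (Q : K) : ℚ) : ℝ)| +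
        Module.finrank ℚ K * Real.log Y := by
  classical
  obtain ⟨J, hJ⟩ : ∃ J, J = JM D 2 := ⟨_, rfl⟩
  have hJ1 := (JM_ge (D := D) (le_refl 2)).1
  have hJ2 := (JM_ge (D := D) (le_refl 2)).2
  rw [← hJ] at hJ1 hJ2 hT hY
  have hd1 : 1 ≤ Module.finrank ℚ K := Module.finrank_pos
  have hr1 : 1 ≤ r := by omega
  obtain ⟨C, hC⟩ : ∃ C : ℝ, C = 2 * H ^ (2 * J + 1) := ⟨_, rfl⟩
  rw [← hC] at hT hY
  have hC1 : 1 ≤ C := by
    rw [hC]
    exact one_le_mul_of_one_le_of_one_le (by norm_num) (one_le_pow₀ hH)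
  have hCr : 1 ≤ C ^ r := one_le_pow₀ hC1
  have hH2 : 1 ≤ H ^ 2 := one_le_pow₀ hH
  have hT4 : 4 * H * C ^ r ≤ T := by
    have : 4 * H * C ^ r * 1 ≤ 4 * H * C ^ r * H ^ 2 :=
      mul_le_mul_of_nonneg_left hH2 (by positivity)
    linarith
  have hTC : 4 * C ^ r ≤ T := by
    have : 4 * 1 * C ^ r ≤ 4 * H * C ^ r := by
      apply mul_le_mul_of_nonneg_right _ (by positivity)
      linarith
    linarith
  have hTH : 4 * H ^ 2 ≤ T := by
    have h1 : 4 * 1 * 1 * H ^ 2 ≤ 4 * H * C ^ r * H ^ 2 := by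
      apply mul_le_mul_of_nonneg_right _ (by positivity)
      exact mul_le_mul (by linarith) hCr (by norm_num) (by linarith)
    linarith
  have hT1 : 1 < T := by linarith
  obtain ⟨N, hN⟩ : ∃ N, N = max 1 ⌊H⌋₊ := ⟨_, rfl⟩
  have hN1 : 1 ≤ N := by rw [hN]; exact le_max_left _ _
  have hNH : (N : ℝ) ≤ H := by
    rw [hN]
    push_cast
    exact max_le (by simpa using hH) (Nat.floor_le (by linarith))
  have hleN : ∀ m : ℕ, (m : ℝ) ≤ H → m ≤ N := by
    intro m hm
    rw [hN]
    exact (Nat.le_floor hm).trans (le_max_right _ _)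
  have hN1' : (1 : ℝ) ≤ N := by exact_mod_cast hN1
  have hNHH : (N : ℝ) * H ≤ H ^ 2 := by
    rw [pow_two]
    exact mul_le_mul_of_nonneg_right hNH (by linarith)
  have hCle : (Fintype.card (Fin 2) : ℝ) * H * ((N : ℝ) * H) ^ J ≤ C := by
    rw [hC, Fintype.card_fin]
    calc ((2 : ℕ) : ℝ) * H * ((N : ℝ) * H) ^ J ≤ 2 * H * (H ^ 2) ^ J := by
          push_cast
          exact mul_le_mul_of_nonneg_left (pow_le_pow_left₀ (by positivity) hNHH J) (by positivity)
      _ = 2 * H ^ (2 * J + 1) := by rw [← pow_mul, pow_succ]; ring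
  have hF0 : ∀ i, F i ≠ 0 := fun i h => hD.last0 i (by rw [h, coeff_zero])
  obtain ⟨PB, hPB⟩ : ∃ PB, PB = PP F β b := ⟨_, rfl⟩
  obtain ⟨PG, hPG⟩ : ∃ PG, PG = PP F γ c := ⟨_, rfl⟩
  have hPB0 : PB ≠ 0 := by rw [hPB]; exact PP_ne_zero hF0 hβ b
  have hPG0 : PG ≠ 0 := by rw [hPG]; exact PP_ne_zero hF0 hγ c
  have hne : PG ≠ PB := by
    intro h
    apply ha0
    rw [ha, hG, hB, ← hPG, ← hPB, h, sub_self]
  obtain ⟨αs, hαs⟩ : ∃ αs : Fin 2 → 𝓞 K, αs = ![γ, -β] := ⟨_, rfl⟩
  obtain ⟨es, hes⟩ : ∃ es : Fin 2 → Fin n → ℕ, es = ![c, b] := ⟨_, rfl⟩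
  have t0 : PP F (αs 0) (es 0) = PG := by rw [hαs, hes, hPG]; rfl
  have t1 : PP F (αs 1) (es 1) = -PB := by
    rw [hαs, hes, hPB]
    show PP F (-β) b = -PP F β b
    unfold PP
    rw [map_neg, neg_mul]
  have hsum : ∑ k, PP F (αs k) (es k) = PG - PB := by
    rw [Fin.sum_univ_two, t0, t1]
    ring
  have hnoP : ∀ L : Finset (Fin 2), L.Nonempty → ∑ k ∈ L, PP F (αs k) (es k) ≠ 0 := by
    intro L hL h0
    have h1 : L.card ≤ 2 := (Finset.card_le_univ L).trans (by simp)
    have h2 : 0 < L.card := Finset.card_pos.mpr hL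
    obtain h3 | h3 : L.card = 1 ∨ L.card = 2 := by omega
    · obtain ⟨k, rfl⟩ := Finset.card_eq_one.mp h3
      rw [Finset.sum_singleton] at h0
      fin_cases k
      · exact hPG0 (by rw [← t0]; exact h0)
      · have h4 : -PB = 0 := by rw [← t1]; exact h0
        exact hPB0 (neg_eq_zero.mp h4)
    · have h4 : L = Finset.univ := Finset.eq_univ_of_card L (by simpa using h3)
      rw [h4, hsum, sub_eq_zero] at h0
      exact hne h0
  obtain ⟨i, j, q, p, hi, ⟨k1, hj⟩, hiJ, hjJ, hq0, hp0, hq, hp, ⟨y, hy⟩, hend⟩ :=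
    two_ends_deg sizeFn_house hF0 hD.deg hH
    (fun i => house_le (by norm_num) (hD.last i)) hD.last0
    (fun i => house_le (by norm_num) (hD.first i))
    (fun i j => house_le (by linarith) (hD.digits i j)) (α := αs) (by
      intro k
      rw [hαs]
      fin_cases k
      · exact hγ
      · exact neg_ne_zero.mpr hβ)
    (by
      intro k
      rw [hαs]
      fin_cases k
      · exact house_le (by linarith) hγH
      · refine house_le (by linarith) fun σ => ?_
        have := hβH σ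
        simpa using this) es hN1 (by
      intro k
      rw [hes]
      fin_cases k
      · exact hleN _ hc
      · exact hleN _ hb) hnoP
    (show JJ D (Fintype.card (Fin 2)) ≤ J by rw [Fintype.card_fin]; exact hJ1)
    (show JJ (D + 1) (Fintype.card (Fin 2)) ≤ J by rw [Fintype.card_fin]; exact hJ2) t
  rw [hsum] at hi hj hy hend
  have haP : (PG - PB).eval t = a := by rw [eval_sub, ha, hG, hB, hPG, hPB]
  rw [haP] at hy hend
  -- the degrees
  obtain ⟨d, hd⟩ : ∃ d, d = ∑ i ∈ used2 b c, (F i).natDegree := ⟨_, rfl⟩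
  have hd0 : 0 < d := by
    obtain ⟨i, hi⟩ := hU
    rw [hd]
    exact lt_of_lt_of_le (hpos i)
      (Finset.single_le_sum (f := fun i => (F i).natDegree) (fun _ _ => Nat.zero_le _) hi)
  obtain ⟨p1, p2⟩ := two_places_PP hF0 hβ hγ b c (used2 b c)
    (fun i hi => Finset.mem_filter.mpr ⟨Finset.mem_univ _, hi⟩) (by rw [← hd]; exact hd0)
    (by rw [← hPB, ← hPG]; exact hne)
  rw [← hPB, ← hPG, ← hd] at p1 p2
  have p2' := p2 fun i _ => hD.last0 i
  have hmaxdeg : (PP F (αs k1) (es k1)).natDegree ≤ max PB.natDegree PG.natDegree := by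
    fin_cases k1
    · show (PP F (αs 0) (es 0)).natDegree ≤ _
      rw [t0]
      exact le_max_right _ _
    · show (PP F (αs 1) (es 1)).natDegree ≤ _
      rw [t1, natDegree_neg]
      exact le_max_left _ _
  have hj1 : j + 1 ≤ d := by omega
  have hij : i + j ≤ d := by omega
  have hpC : ∀ σ : K →+* ℂ, ‖σ p‖ ≤ C := fun σ =>
    (norm_embedding_le_house _ σ).trans (hp.trans hCle)
  have hqC : ∀ σ : K →+* ℂ, ‖σ q‖ ≤ C := fun σ =>
    (norm_embedding_le_house _ σ).trans (hq.trans hCle)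
  have hDK := hD.dataK hH hpos
  -- the infinite places
  have harch : ∀ (σ : K →+* ℂ) (x : 𝓞 K), x = B ∨ x = G →
      ‖σ x‖ ≤ 4 * H * C ^ r * (‖σ t‖ ^ j * ‖σ a‖) := by
    intro σ x hx
    have hz := hD.base σ
    have hz0 : 0 < ‖σ t‖ := by linarith
    have h3 := conj_lower hp0 hC1 hpC hr σ
    have h4 : 2 * (Fintype.card (Fin 2) * H * (N * H) ^ J) * (N * H) / ‖σ t‖ * C ^ (r - 1) ≤
        1 / 2 := by
      rw [div_mul_eq_mul_div, div_le_iff₀ hz0]
      have h5 : 2 * (Fintype.card (Fin 2) * H * (N * H) ^ J) * (N * H) * C ^ (r - 1) ≤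
          2 * C * H ^ 2 * C ^ (r - 1) := by
        apply mul_le_mul_of_nonneg_right _ (by positivity)
        apply mul_le_mul _ hNHH (by positivity) (by positivity)
        linarith
      have h6 : 2 * C * H ^ 2 * C ^ (r - 1) = 2 * C ^ r * H ^ 2 := by
        obtain ⟨r', rfl⟩ : ∃ r', r = r' + 1 := ⟨r - 1, by omega⟩
        rw [Nat.add_sub_cancel, pow_succ]
        ring
      have h7 : 4 * C ^ r * H ^ 2 ≤ 4 * H * C ^ r * H ^ 2 := by
        apply mul_le_mul_of_nonneg_right _ (by positivity)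
        nlinarith
      linarith
    have key : ∀ k : Fin 2, ‖σ ((PP F (αs k) (es k)).eval t : 𝓞 K)‖ ≤
        4 * H * C ^ r * (‖σ t‖ ^ j * ‖σ a‖) := by
      intro k
      have h2 : ‖σ ((PP F (αs k) (es k)).eval t : 𝓞 K)‖ *
            (‖σ p‖ - 2 * (Fintype.card (Fin 2) * H * (N * H) ^ J) * (N * H) / ‖σ t‖) ≤
          2 * H * ‖σ t‖ ^ j * ‖σ a‖ := hend (σ.comp (algebraMap (𝓞 K) K))
        (fun x => norm_embedding_le_house _ σ) (by
          show 2 * ((N : ℝ) * H) ≤ ‖σ t‖
          nlinarith) k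
      obtain ⟨a', ha'⟩ : ∃ a', a' = ‖σ p‖ := ⟨_, rfl⟩
      obtain ⟨b', hb'⟩ : ∃ b', b' = 2 * (Fintype.card (Fin 2) * H * (N * H) ^ J) * (N * H) / ‖σ t‖ :=
        ⟨_, rfl⟩
      obtain ⟨c', hc'⟩ : ∃ c', c' = C ^ (r - 1) := ⟨_, rfl⟩
      obtain ⟨x', hx'⟩ : ∃ x', x' = ‖σ ((PP F (αs k) (es k)).eval t : 𝓞 K)‖ := ⟨_, rfl⟩
      obtain ⟨z, hzz⟩ : ∃ z, z = ‖σ t‖ := ⟨_, rfl⟩
      obtain ⟨ω, hω⟩ : ∃ ω, ω = ‖σ a‖ := ⟨_, rfl⟩
      rw [← ha', ← hb', ← hx', ← hzz, ← hω] at h2
      rw [← ha', ← hc'] at h3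
      rw [← hb', ← hc'] at h4
      rw [← hx', ← hzz, ← hω]
      rw [← hzz] at hz0
      have hx0 : 0 ≤ x' := by rw [hx']; positivity
      have hω0 : 0 ≤ ω := by rw [hω]; positivity
      have hc1 : 1 ≤ c' := by rw [hc']; exact one_le_pow₀ hC1
      have hcC : c' ≤ C ^ r := by rw [hc']; exact pow_le_pow_right₀ hC1 (by omega)
      have h8 : x' ≤ 2 * (x' * (a' - b')) * c' := by
        have h9 : 1 ≤ 2 * ((a' - b') * c') := by linarith
        calc x' = x' * 1 := (mul_one x').symm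
          _ ≤ x' * (2 * ((a' - b') * c')) := mul_le_mul_of_nonneg_left h9 hx0
          _ = _ := by ring
      have h10 : 2 * (x' * (a' - b')) * c' ≤ 2 * (2 * H * z ^ j * ω) * c' := by
        apply mul_le_mul_of_nonneg_right _ (by linarith)
        linarith
      calc x' ≤ 2 * (2 * H * z ^ j * ω) * c' := h8.trans h10
        _ = (4 * H * c') * (z ^ j * ω) := by ring
        _ ≤ (4 * H * C ^ r) * (z ^ j * ω) := by
            apply mul_le_mul_of_nonneg_right _ (by positivity)
            exact mul_le_mul_of_nonneg_left hcC (by positivity)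
    rcases hx with rfl | rfl
    · have := key 1
      rw [t1, eval_neg] at this
      have h5 : ‖σ ((-(PB.eval t) : 𝓞 K) : K)‖ = ‖σ (PB.eval t : 𝓞 K)‖ := by
        rw [← norm_neg (σ (PB.eval t : 𝓞 K)), ← map_neg]
        rfl
      rw [h5] at this
      rw [hB, ← hPB]
      exact this
    · have := key 0
      rw [t0] at this
      rw [hG, ← hPG]
      exact this
  have hlow : ∀ σ : K →+* ℂ, ‖σ t‖ ^ d ≤ (2 * H) ^ D * ‖σ (Q : 𝓞 K)‖ := by
    intro σ
    have := prod_lower hDK hH hTH (used2 b c) σ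
    rw [← hd, ← hQ] at this
    exact this
  have hval : ∀ i, (F i).eval t ≠ 0 := value_ne hDK hH hTH
  have hQ0 : Q ≠ 0 := by rw [hQ]; exact Finset.prod_ne_zero_iff.mpr fun i _ => hval i
  have hBne : B ≠ 0 := by
    rw [hB, eval_PP]
    exact mul_ne_zero hβ (Finset.prod_ne_zero_iff.mpr fun i _ => pow_ne_zero _ (hval i))
  have hY1 : 4 * H * C ^ r * (2 * H) ^ D ≤ Y := by
    rw [hY]
    apply mul_le_mul_of_nonneg_right _ (by positivity)
    apply mul_le_mul_of_nonneg_left _ (by positivity)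
    exact pow_le_pow_right₀ hC1 (by omega)
  constructor
  · intro σ x hx
    have h1 := harch σ x hx
    have hz := hD.base σ
    have hz1 : 1 ≤ ‖σ t‖ := by linarith
    have h2 : ‖σ t‖ ^ j * ‖σ t‖ ≤ (2 * H) ^ D * ‖σ (Q : 𝓞 K)‖ := by
      rw [← pow_succ]
      exact (pow_le_pow_right₀ hz1 hj1).trans (hlow σ)
    calc ‖σ x‖ * ‖σ t‖ ≤ (4 * H * C ^ r * (‖σ t‖ ^ j * ‖σ a‖)) * ‖σ t‖ :=
          mul_le_mul_of_nonneg_right h1 (norm_nonneg _)
      _ = 4 * H * C ^ r * ‖σ a‖ * (‖σ t‖ ^ j * ‖σ t‖) := by ring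
      _ ≤ 4 * H * C ^ r * ‖σ a‖ * ((2 * H) ^ D * ‖σ (Q : 𝓞 K)‖) :=
          mul_le_mul_of_nonneg_left h2 (by positivity)
      _ = (4 * H * C ^ r * (2 * H) ^ D) * (‖σ a‖ * ‖σ Q‖) := by ring
      _ ≤ _ := mul_le_mul_of_nonneg_right hY1 (by positivity)
  · intro S hS
    have ht0 : t ≠ 0 := by
      rintro rfl
      obtain ⟨σ⟩ : Nonempty (K →+* ℂ) := inferInstance
      have h1 := hD.base σ
      simp at h1
      linarith
    have htK : (t : K) ≠ 0 := RingOfIntegers.coe_ne_zero_iff.mpr ht0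
    have hqK : (q : K) ≠ 0 := RingOfIntegers.coe_ne_zero_iff.mpr hq0
    have haK : (a : K) ≠ 0 := RingOfIntegers.coe_ne_zero_iff.mpr ha0
    have hQK : (Q : K) ≠ 0 := RingOfIntegers.coe_ne_zero_iff.mpr hQ0
    have hBK : (B : K) ≠ 0 := RingOfIntegers.coe_ne_zero_iff.mpr hBne
    have hNq : |((Algebra.norm ℚ (q : K) : ℚ) : ℝ)| ≤ C ^ r :=
      (norm_pow_bound hqC).trans (pow_le_pow_right₀ hC1 hr)
    have hv : ∀ v ∈ S, -Real.log (v (a : K)) ≤
        i * (-Real.log (v (t : K))) + (-Real.log (v (q : K))) := by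
      intro v hvS
      have hvt := hS v hvS
      have hvt0 : 0 < v (t : K) := FinitePlace.pos_iff.mpr htK
      have hvq0 : 0 < v (q : K) := FinitePlace.pos_iff.mpr hqK
      have h1 := finite_log_le hq0 {v}
      rw [Finset.sum_singleton] at h1
      have h2 : -Real.log (v (q : K)) ≤ Real.log (C ^ r) :=
        h1.trans (Real.log_le_log (by linarith [one_le_norm hq0]) hNq)
      have h3 : 1 ≤ C ^ r * v (q : K) := by
        have h4 : 0 ≤ Real.log (C ^ r * v (q : K)) := by
          rw [Real.log_mul (by positivity) hvq0.ne']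
          linarith
        by_contra hcon
        push Not at hcon
        have := Real.log_neg (by positivity) hcon
        linarith
      have h5 : v (t : K) < v (q : K) := by
        by_contra hcon
        push Not at hcon
        have h6 : C ^ r * v (q : K) ≤ C ^ r * v (t : K) :=
          mul_le_mul_of_nonneg_left hcon (by positivity)
        have h7 : 4 * C ^ r * v (t : K) ≤ T * v (t : K) :=
          mul_le_mul_of_nonneg_right hTC hvt0.le
        linarith
      have h8 : v (q : K) ≤ v ((q + t * y : 𝓞 K) : K) := by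
        have h9 := FinitePlace.add_le v ((q + t * y : 𝓞 K) : K) (-((t * y : 𝓞 K) : K))
        have h10 : ((q + t * y : 𝓞 K) : K) + -((t * y : 𝓞 K) : K) = (q : K) := by
          push_cast
          ring
        rw [h10] at h9
        have h11 : v (-((t * y : 𝓞 K) : K)) < v (q : K) := by
          have h12 : v (-((t * y : 𝓞 K) : K)) = v (t : K) * v (y : K) := by
            have h19 : v (-((t * y : 𝓞 K) : K)) = v ((t * y : 𝓞 K) : K) := v.1.map_neg _
            rw [h19, ← map_mul v]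
            push_cast
            rfl
          rw [h12]
          calc v (t : K) * v (y : K) ≤ v (t : K) * 1 :=
                mul_le_mul_of_nonneg_left (finite_le_one v y) hvt0.le
            _ < v (q : K) := by linarith
        rcases le_max_iff.mp h9 with h13 | h13
        · exact h13
        · linarith
      have h14 : v (a : K) = v (t : K) ^ i * v ((q + t * y : 𝓞 K) : K) := by
        rw [hy, ← map_pow, ← map_mul]
        congr 1
      have h15 : 0 < v ((q + t * y : 𝓞 K) : K) := lt_of_lt_of_le hvq0 h8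
      rw [h14, Real.log_mul (by positivity) h15.ne', Real.log_pow]
      have h16 := Real.log_le_log hvq0 h8
      linarith
    have hSsum : ∑ v ∈ S, -Real.log (v (a : K)) ≤
        i * Real.log |((Algebra.norm ℚ (t : K) : ℚ) : ℝ)| + r * Real.log C := by
      refine (Finset.sum_le_sum hv).trans ?_
      rw [Finset.sum_add_distrib, ← Finset.mul_sum]
      have h1 := finite_log_le ht0 S
      have h2 := finite_log_le hq0 S
      have h3 : Real.log |((Algebra.norm ℚ (q : K) : ℚ) : ℝ)| ≤ r * Real.log C := by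
        rw [← Real.log_pow]
        exact Real.log_le_log (by linarith [one_le_norm hq0]) hNq
      have h4 : (i : ℝ) * ∑ v ∈ S, -Real.log (v (t : K)) ≤
          i * Real.log |((Algebra.norm ℚ (t : K) : ℚ) : ℝ)| :=
        mul_le_mul_of_nonneg_left h1 (Nat.cast_nonneg _)
      linarith
    have hwpl : ∀ w : InfinitePlace K, Real.log (max (w (B : K)) (w (G : K))) ≤
        Real.log (4 * H * C ^ r) + j * Real.log (w (t : K)) + Real.log (w (a : K)) := by
      intro w
      have h1 : max (w (B : K)) (w (G : K)) ≤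
          4 * H * C ^ r * (w (t : K) ^ j * w (a : K)) := by
        have e1 := harch w.embedding B (Or.inl rfl)
        have e2 := harch w.embedding G (Or.inr rfl)
        rw [InfinitePlace.norm_embedding_eq, InfinitePlace.norm_embedding_eq,
          InfinitePlace.norm_embedding_eq] at e1 e2
        exact max_le e1 e2
      have hB0 : 0 < max (w (B : K)) (w (G : K)) :=
        lt_max_of_lt_left (InfinitePlace.pos_iff.mpr hBK)
      have hwt0 : 0 < w (t : K) := InfinitePlace.pos_iff.mpr htK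
      have hwa0 : 0 < w (a : K) := InfinitePlace.pos_iff.mpr haK
      have h2 := Real.log_le_log hB0 h1
      rw [Real.log_mul (by positivity) (by positivity), Real.log_mul (by positivity) hwa0.ne',
        Real.log_pow] at h2
      linarith
    have hwd : ∀ w : InfinitePlace K, (d : ℝ) * Real.log (w (t : K)) ≤
        Real.log ((2 * H) ^ D) + Real.log (w (Q : K)) := by
      intro w
      have e1 := hlow w.embedding
      rw [InfinitePlace.norm_embedding_eq, InfinitePlace.norm_embedding_eq] at e1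
      have hwt0 : 0 < w (t : K) := InfinitePlace.pos_iff.mpr htK
      have hwQ0 : 0 < w (Q : K) := InfinitePlace.pos_iff.mpr hQK
      have h2 := Real.log_le_log (by positivity) e1
      rw [Real.log_mul (by positivity) hwQ0.ne', Real.log_pow] at h2
      exact h2
    have hlogt : 0 ≤ Real.log |((Algebra.norm ℚ (t : K) : ℚ) : ℝ)| :=
      Real.log_nonneg (one_le_norm ht0)
    have hsum1 : ∑ w : InfinitePlace K, (w.mult : ℝ) * Real.log (max (w (B : K)) (w (G : K))) ≤
        Module.finrank ℚ K * Real.log (4 * H * C ^ r) +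
          j * Real.log |((Algebra.norm ℚ (t : K) : ℚ) : ℝ)| +
          Real.log |((Algebra.norm ℚ (a : K) : ℚ) : ℝ)| := by
      rw [← log_norm t ht0, ← log_norm a ha0, ← InfinitePlace.sum_mult_eq, Finset.mul_sum]
      push_cast
      rw [Finset.sum_mul, ← Finset.sum_add_distrib, ← Finset.sum_add_distrib]
      apply Finset.sum_le_sum
      intro w _
      have h3 : (0 : ℝ) ≤ w.mult := Nat.cast_nonneg _
      calc (w.mult : ℝ) * Real.log (max (w (B : K)) (w (G : K))) ≤ w.mult *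
            (Real.log (4 * H * C ^ r) + j * Real.log (w (t : K)) + Real.log (w (a : K))) :=
            mul_le_mul_of_nonneg_left (hwpl w) h3
        _ = _ := by ring
    have hsum2 : (d : ℝ) * Real.log |((Algebra.norm ℚ (t : K) : ℚ) : ℝ)| ≤
        Module.finrank ℚ K * Real.log ((2 * H) ^ D) +
          Real.log |((Algebra.norm ℚ (Q : K) : ℚ) : ℝ)| := by
      rw [← log_norm t ht0, ← log_norm Q hQ0, ← InfinitePlace.sum_mult_eq, Finset.mul_sum]
      push_cast
      rw [Finset.sum_mul, ← Finset.sum_add_distrib]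
      apply Finset.sum_le_sum
      intro w _
      have h3 : (0 : ℝ) ≤ w.mult := Nat.cast_nonneg _
      calc (d : ℝ) * ((w.mult : ℝ) * Real.log (w (t : K))) =
            w.mult * (d * Real.log (w (t : K))) := by ring
        _ ≤ w.mult * (Real.log ((2 * H) ^ D) + Real.log (w (Q : K))) :=
            mul_le_mul_of_nonneg_left (hwd w) h3
        _ = _ := by ring
    have hijR : (i : ℝ) + j ≤ d := by exact_mod_cast hij
    have hlogC : 0 ≤ Real.log C := Real.log_nonneg hC1
    have hlogY : Real.log Y = Real.log (4 * H * C ^ r) + r * Real.log C +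
        Real.log ((2 * H) ^ D) := by
      have e1 : Y = 4 * H * C ^ r * C ^ r * (2 * H) ^ D := by
        rw [hY, two_mul r, pow_add]
        ring
      rw [e1, Real.log_mul (by positivity) (by positivity),
        Real.log_mul (by positivity) (by positivity), Real.log_pow C r]
    have hdR : (1 : ℝ) ≤ Module.finrank ℚ K := by exact_mod_cast hd1
    have hrC : (r : ℝ) * Real.log C ≤ Module.finrank ℚ K * (r * Real.log C) := by
      have : 0 ≤ (r : ℝ) * Real.log C := by positivity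
      nlinarith
    rw [hlogY]
    have h9 : ((i : ℝ) + j) * Real.log |((Algebra.norm ℚ (t : K) : ℚ) : ℝ)| ≤
        d * Real.log |((Algebra.norm ℚ (t : K) : ℚ) : ℝ)| :=
      mul_le_mul_of_nonneg_right hijR hlogt
    have h10 : (Module.finrank ℚ K : ℝ) * (Real.log (4 * H * C ^ r) + r * Real.log C +
        Real.log ((2 * H) ^ D)) = Module.finrank ℚ K * Real.log (4 * H * C ^ r) +
        Module.finrank ℚ K * (r * Real.log C) + Module.finrank ℚ K * Real.log ((2 * H) ^ D) := by
      ring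
    rw [h10]
    linarith

end Pool.Agent.Q103.SD.NF
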