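import Mathlib
import Pool.Agent.Q103.SD.NFTwo

/-!
# The abc inequality in number fields when one of the three terms is free
-/

set_option autoImplicit false

namespace Pool.Agent.Q103.SD.NF

open Polynomial Finset NumberField IsDedekindDomain

variable {K : Type*} [Field K] [NumberField K]

theorem finite_mul_absNorm_le {v : FinitePlace K} {x : 𝓞 K} (hx0 : x ≠ 0)
    (hx : x ∈ v.maximalIdeal.asIdeal) :
    v (x : K) * (Ideal.absNorm v.maximalIdeal.asIdeal : ℝ) ≤ 1 := by
  have h1 := FinitePlace.apply_mul_absNorm_pow_eq_one v hx0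
  have h2 : 1 ≤ multiplicity v.maximalIdeal.asIdeal (Ideal.span {x}) := by
    rw [Nat.one_le_iff_ne_zero, multiplicity_ne_zero]
    exact (Ideal.dvd_span_singleton).mpr hx
  have h3 := one_le_absNorm v.maximalIdeal
  calc v (x : K) * (Ideal.absNorm v.maximalIdeal.asIdeal : ℝ) ≤
        v (x : K) * (Ideal.absNorm v.maximalIdeal.asIdeal : ℝ) ^
          multiplicity v.maximalIdeal.asIdeal (Ideal.span {x}) :=
        mul_le_mul_of_nonneg_left (le_self_pow₀ h3 (by omega)) (apply_nonneg _ _)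
    _ = 1 := h1

/-- **One free term.** -/
theorem nf_free {D r : ℕ} {T H ε : ℝ} (hH : 1 ≤ H) (hr : Module.finrank ℚ K ≤ r)
    (hT : 4 * H * (2 * H ^ (2 * JM D 2 + 1)) ^ r * H ^ 2 ≤ T) {t : 𝓞 K} {n : ℕ}
    {F : Fin n → (𝓞 K)[X]} (hD : SumData T H D t F) (hpos : ∀ i, 0 < (F i).natDegree)
    {β γ : 𝓞 K} (hβ : β ≠ 0) (hγ : γ ≠ 0) (hβH : ∀ σ : K →+* ℂ, ‖σ β‖ ≤ H)
    (hγH : ∀ σ : K →+* ℂ, ‖σ γ‖ ≤ H) {b c : Fin n → ℕ} (hb : ((∑ i, b i : ℕ) : ℝ) ≤ H)
    (hc : ((∑ i, c i : ℕ) : ℝ) ≤ H) (hU : (used2 b c).Nonempty) {B G a Q : 𝓞 K}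
    (hB : B = (PP F β b).eval t) (hG : G = (PP F γ c).eval t) (ha : a = G - B) (ha0 : a ≠ 0)
    (hQ : Q = ∏ i ∈ used2 b c, (F i).eval t)
    (hY : 2 * (4 * H * (2 * H ^ (2 * JM D 2 + 1)) ^ (2 * r) * (2 * H) ^ D) ≤ T ^ ε)
    (hε : 0 ≤ ε) :
    (∀ w : InfinitePlace K, max (w (a : K)) (max (w (B : K)) (w (G : K))) * w (t : K) ^ (1 - ε) ≤
      w (a : K) * w (Q : K)) ∧
    ∀ (π a' : 𝓞 K) (v m : ℕ), Prime π → t = π ^ v → a = π ^ m * a' →
      ∑ w : InfinitePlace K, (w.mult : ℝ) * Real.log (max (w (a : K)) (max (w (B : K)) (w (G : K)))) ≤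
      Real.log |((Algebra.norm ℚ (a' : K) : ℚ) : ℝ)| + Real.log |((Algebra.norm ℚ (Q : K) : ℚ) : ℝ)| +
        ε * Real.log |((Algebra.norm ℚ (t : K) : ℚ) : ℝ)| := by
  classical
  obtain ⟨Y, hYd⟩ : ∃ Y : ℝ, Y = 4 * H * (2 * H ^ (2 * JM D 2 + 1)) ^ (2 * r) * (2 * H) ^ D :=
    ⟨_, rfl⟩
  rw [← hYd] at hY
  obtain ⟨g1, g2⟩ := nf_two hH hr hT hD hpos hβ hγ hβH hγH hb hc hU hB hG ha ha0 hQ hYd
  have hC1 : 1 ≤ 2 * H ^ (2 * JM D 2 + 1) :=
    one_le_mul_of_one_le_of_one_le (by norm_num) (one_le_pow₀ hH)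
  have hY1 : 1 ≤ Y := by
    rw [hYd]
    have e1 : 1 ≤ 4 * H := by linarith
    have e2 : 1 ≤ (2 * H ^ (2 * JM D 2 + 1)) ^ (2 * r) := one_le_pow₀ hC1
    have e3 : 1 ≤ (2 * H) ^ D := one_le_pow₀ (by linarith)
    exact one_le_mul_of_one_le_of_one_le (one_le_mul_of_one_le_of_one_le e1 e2) e3
  have hH2 : 1 ≤ H ^ 2 := one_le_pow₀ hH
  have hTbig : 4 * H ^ 2 ≤ T := by
    have h1 : 4 * 1 * 1 * H ^ 2 ≤ 4 * H * (2 * H ^ (2 * JM D 2 + 1)) ^ r * H ^ 2 := by
      apply mul_le_mul_of_nonneg_right _ (by positivity)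
      exact mul_le_mul (by linarith) (one_le_pow₀ hC1) (by norm_num) (by linarith)
    linarith
  have hT1 : 1 < T := by linarith
  have hT0 : 0 < T := by linarith
  have ht0 : t ≠ 0 := by
    rintro rfl
    obtain ⟨σ⟩ : Nonempty (K →+* ℂ) := inferInstance
    have h1 := hD.base σ
    simp at h1
    linarith
  have hwt : ∀ w : InfinitePlace K, T ≤ w (t : K) := by
    intro w
    rw [← InfinitePlace.norm_embedding_eq]
    exact hD.base _
  have hval := value_ne (hD.dataK hH hpos) hH hTbig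
  have hQ0 : Q ≠ 0 := by rw [hQ]; exact Finset.prod_ne_zero_iff.mpr fun i _ => hval i
  have hBne : B ≠ 0 := by
    rw [hB, eval_PP]
    exact mul_ne_zero hβ (Finset.prod_ne_zero_iff.mpr fun i _ => pow_ne_zero _ (hval i))
  have hBK : (B : K) ≠ 0 := RingOfIntegers.coe_ne_zero_iff.mpr hBne
  have haw : ∀ w : InfinitePlace K, max (w (a : K)) (max (w (B : K)) (w (G : K))) ≤
      2 * max (w (B : K)) (w (G : K)) := by
    intro w
    have h0 : 0 ≤ max (w (B : K)) (w (G : K)) := le_max_of_le_left (apply_nonneg _ _)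
    refine max_le ?_ (by linarith)
    have h1 : (a : K) = (G : K) - (B : K) := by rw [ha]; push_cast; rfl
    have h2 : w (a : K) ≤ w (G : K) + w (B : K) := by
      rw [h1]
      exact w.1.sub_le_add _ _
    have h3 := le_max_left (w (B : K)) (w (G : K))
    have h4 := le_max_right (w (B : K)) (w (G : K))
    linarith
  constructor
  · intro w
    have hwt0 : 0 < w (t : K) := by linarith [hwt w]
    have e1 := g1 w.embedding B (Or.inl rfl)
    have e2 := g1 w.embedding G (Or.inr rfl)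
    rw [InfinitePlace.norm_embedding_eq, InfinitePlace.norm_embedding_eq,
      InfinitePlace.norm_embedding_eq, InfinitePlace.norm_embedding_eq] at e1 e2
    have h1 : max (w (B : K)) (w (G : K)) * w (t : K) ≤ Y * (w (a : K) * w (Q : K)) := by
      rw [max_mul_of_nonneg _ _ hwt0.le]
      exact max_le e1 e2
    have h2 : 2 * Y ≤ w (t : K) ^ ε := hY.trans (Real.rpow_le_rpow hT0.le (hwt w) hε)
    have h3 : w (t : K) = w (t : K) ^ (1 - ε) * w (t : K) ^ ε := by
      rw [← Real.rpow_add hwt0]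
      have : 1 - ε + ε = 1 := by ring
      rw [this, Real.rpow_one]
    have h4 : 0 < w (t : K) ^ ε := Real.rpow_pos_of_pos hwt0 _
    have h5 : 0 ≤ w (a : K) * w (Q : K) := mul_nonneg (apply_nonneg _ _) (apply_nonneg _ _)
    have h6 : w (t : K) ^ ε * (max (w (a : K)) (max (w (B : K)) (w (G : K))) *
        w (t : K) ^ (1 - ε)) ≤ w (t : K) ^ ε * (w (a : K) * w (Q : K)) := by
      calc w (t : K) ^ ε * (max (w (a : K)) (max (w (B : K)) (w (G : K))) * w (t : K) ^ (1 - ε))
          = max (w (a : K)) (max (w (B : K)) (w (G : K))) *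
            (w (t : K) ^ (1 - ε) * w (t : K) ^ ε) := by ring
        _ = max (w (a : K)) (max (w (B : K)) (w (G : K))) * w (t : K) := by rw [← h3]
        _ ≤ (2 * max (w (B : K)) (w (G : K))) * w (t : K) :=
            mul_le_mul_of_nonneg_right (haw w) hwt0.le
        _ = 2 * (max (w (B : K)) (w (G : K)) * w (t : K)) := by ring
        _ ≤ 2 * (Y * (w (a : K) * w (Q : K))) := by linarith
        _ = 2 * Y * (w (a : K) * w (Q : K)) := by ring
        _ ≤ _ := mul_le_mul_of_nonneg_right h2 h5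
    exact le_of_mul_le_mul_left h6 h4
  · intro π a' v m hπ ht haπ
    have hπ0 : π ≠ 0 := hπ.ne_zero
    have ha'0 : a' ≠ 0 := by
      rintro rfl
      rw [mul_zero] at haπ
      exact ha0 haπ
    have hprime : (Ideal.span {π} : Ideal (𝓞 K)).IsPrime :=
      (Ideal.span_singleton_prime hπ0).mpr hπ
    have hbot : (Ideal.span {π} : Ideal (𝓞 K)) ≠ ⊥ := by
      rw [Ne, Ideal.span_singleton_eq_bot]
      exact hπ0
    let P : HeightOneSpectrum (𝓞 K) := ⟨Ideal.span {π}, hprime, hbot⟩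
    obtain ⟨u, hu⟩ : ∃ u : FinitePlace K, u.maximalIdeal = P :=
      ⟨FinitePlace.mk P, FinitePlace.maximalIdeal_mk P⟩
    have hNP : (Ideal.absNorm u.maximalIdeal.asIdeal : ℝ) =
        |((Algebra.norm ℚ (π : K) : ℚ) : ℝ)| := by
      rw [hu]
      exact absNorm_eq π
    have hπu : u (π : K) * |((Algebra.norm ℚ (π : K) : ℚ) : ℝ)| ≤ 1 := by
      rw [← hNP]
      refine finite_mul_absNorm_le hπ0 ?_
      rw [hu]
      exact Ideal.mem_span_singleton_self π
    obtain ⟨Nπ, hNπ⟩ : ∃ x, x = |((Algebra.norm ℚ (π : K) : ℚ) : ℝ)| := ⟨_, rfl⟩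
    rw [← hNπ] at hπu
    have hNπ1 : 1 ≤ Nπ := by rw [hNπ]; exact one_le_norm hπ0
    have hupi0 : 0 < u (π : K) := FinitePlace.pos_iff.mpr (RingOfIntegers.coe_ne_zero_iff.mpr hπ0)
    have hNt : |((Algebra.norm ℚ (t : K) : ℚ) : ℝ)| = Nπ ^ v := by
      rw [ht, hNπ]
      push_cast
      rw [map_pow]
      push_cast
      rw [abs_pow]
    have hNa : |((Algebra.norm ℚ (a : K) : ℚ) : ℝ)| =
        Nπ ^ m * |((Algebra.norm ℚ (a' : K) : ℚ) : ℝ)| := by
      rw [haπ, hNπ]
      push_cast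
      rw [map_mul, map_pow]
      push_cast
      rw [abs_mul, abs_pow]
    have hTN : T ≤ |((Algebra.norm ℚ (t : K) : ℚ) : ℝ)| := by
      have h := InfinitePlace.prod_eq_abs_norm (K := K) (t : K)
      have h2 : ((|Algebra.norm ℚ (t : K)| : ℚ) : ℝ) = |((Algebra.norm ℚ (t : K) : ℚ) : ℝ)| := by
        push_cast
        rfl
      rw [h2] at h
      rw [← h]
      have hd1 : 1 ≤ Module.finrank ℚ K := Module.finrank_pos
      have h3 : T ≤ T ^ Module.finrank ℚ K := le_self_pow₀ hT1.le (by omega)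
      refine h3.trans ?_
      rw [← InfinitePlace.sum_mult_eq, ← Finset.prod_pow_eq_pow_sum]
      apply Finset.prod_le_prod (fun w _ => by positivity)
      intro w _
      exact pow_le_pow_left₀ (by linarith) (hwt w) _
    have h1 := g2 {u} (by
      intro u' hu'
      rw [Finset.mem_singleton] at hu'
      subst hu'
      have h2 : u' (t : K) = u' (π : K) ^ v := by
        rw [ht, ← map_pow]
        congr 1
      calc T * u' (t : K) ≤ Nπ ^ v * u' (π : K) ^ v := by
            rw [h2]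
            apply mul_le_mul_of_nonneg_right _ (by positivity)
            rw [← hNt]
            exact hTN
        _ = (u' (π : K) * Nπ) ^ v := by rw [mul_pow]; ring
        _ ≤ 1 := pow_le_one₀ (by positivity) hπu)
    rw [Finset.sum_singleton] at h1
    have h2 : (m : ℝ) * Real.log Nπ ≤ -Real.log (u (a : K)) := by
      have h3 : u (a : K) = u (π : K) ^ m * u (a' : K) := by
        rw [haπ, ← map_pow, ← map_mul]
        congr 1
      have hua' : 0 < u (a' : K) := FinitePlace.pos_iff.mpr (RingOfIntegers.coe_ne_zero_iff.mpr ha'0)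
      rw [h3, Real.log_mul (by positivity) hua'.ne', Real.log_pow]
      have h4 := Real.log_nonpos hua'.le (finite_le_one u a')
      have h5 : Real.log (u (π : K)) + Real.log Nπ ≤ 0 := by
        rw [← Real.log_mul hupi0.ne' (by linarith)]
        exact Real.log_nonpos (by positivity) hπu
      have h6 : (0 : ℝ) ≤ m := Nat.cast_nonneg _
      nlinarith
    have hla : Real.log |((Algebra.norm ℚ (a : K) : ℚ) : ℝ)| = m * Real.log Nπ +
        Real.log |((Algebra.norm ℚ (a' : K) : ℚ) : ℝ)| := by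
      rw [hNa, Real.log_mul (by positivity) (by linarith [one_le_norm ha'0]), Real.log_pow]
    have hlY : (Module.finrank ℚ K : ℝ) * (Real.log 2 + Real.log Y) ≤
        ε * Real.log |((Algebra.norm ℚ (t : K) : ℚ) : ℝ)| := by
      have h3 : Real.log 2 + Real.log Y ≤ ε * Real.log T := by
        rw [← Real.log_mul (by norm_num) (by linarith), ← Real.log_rpow hT0]
        exact Real.log_le_log (by linarith) hY
      have h4 : (Module.finrank ℚ K : ℝ) * Real.log T ≤
          Real.log |((Algebra.norm ℚ (t : K) : ℚ) : ℝ)| := by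
        rw [← log_norm t ht0, ← InfinitePlace.sum_mult_eq]
        push_cast
        rw [Finset.sum_mul]
        apply Finset.sum_le_sum
        intro w _
        exact mul_le_mul_of_nonneg_left (Real.log_le_log hT0 (hwt w)) (Nat.cast_nonneg _)
      have h5 : (0 : ℝ) ≤ Module.finrank ℚ K := Nat.cast_nonneg _
      calc (Module.finrank ℚ K : ℝ) * (Real.log 2 + Real.log Y) ≤
            Module.finrank ℚ K * (ε * Real.log T) := mul_le_mul_of_nonneg_left h3 h5
        _ = ε * (Module.finrank ℚ K * Real.log T) := by ring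
        _ ≤ _ := mul_le_mul_of_nonneg_left h4 hε
    have hsum : ∑ w : InfinitePlace K, (w.mult : ℝ) *
        Real.log (max (w (a : K)) (max (w (B : K)) (w (G : K)))) ≤
        Module.finrank ℚ K * Real.log 2 +
          ∑ w : InfinitePlace K, (w.mult : ℝ) * Real.log (max (w (B : K)) (w (G : K))) := by
      rw [← InfinitePlace.sum_mult_eq]
      push_cast
      rw [Finset.sum_mul, ← Finset.sum_add_distrib]
      apply Finset.sum_le_sum
      intro w _
      have hB0 : 0 < max (w (B : K)) (w (G : K)) :=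
        lt_max_of_lt_left (InfinitePlace.pos_iff.mpr hBK)
      have h3 := Real.log_le_log (lt_max_of_lt_right hB0) (haw w)
      rw [Real.log_mul (by norm_num) hB0.ne'] at h3
      have h4 : (0 : ℝ) ≤ w.mult := Nat.cast_nonneg _
      calc (w.mult : ℝ) * Real.log (max (w (a : K)) (max (w (B : K)) (w (G : K)))) ≤
            w.mult * (Real.log 2 + Real.log (max (w (B : K)) (w (G : K)))) :=
            mul_le_mul_of_nonneg_left h3 h4
        _ = _ := by ring
    linarith

end Pool.Agent.Q103.SD.NF
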