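import Mathlib
import Pool.Agent.Q103.SD.NFFree
import Pool.Agent.Q103.SD.NFChoose

/-!
# The abc inequality in number fields with one free term: radicals
-/

set_option autoImplicit false

namespace Pool.Agent.Q103.SD.NF

open Polynomial Finset NumberField IsDedekindDomain

variable {K : Type*} [Field K] [NumberField K]

/-- `|N(y)|` -/
noncomputable def nrm (y : 𝓞 K) : ℝ := |((Algebra.norm ℚ (y : K) : ℚ) : ℝ)|

/-- the product of the norms of the prime ideals dividing `y` -/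
noncomputable def radK (y : 𝓞 K) : ℝ :=
  ∏ᶠ (v : HeightOneSpectrum (𝓞 K)) (_ : y ∈ v.asIdeal), (Ideal.absNorm v.asIdeal : ℝ)

theorem nrm_mul (x y : 𝓞 K) : nrm (x * y) = nrm x * nrm y := by
  unfold nrm
  push_cast
  rw [map_mul]
  push_cast
  rw [abs_mul]

theorem one_le_nrm {x : 𝓞 K} (hx : x ≠ 0) : 1 ≤ nrm x := one_le_norm hx

theorem nrm_pos {x : 𝓞 K} (hx : x ≠ 0) : 0 < nrm x := by linarith [one_le_nrm hx]

theorem radK_eq {y : 𝓞 K} (hy : y ≠ 0) :
    radK y = ∏ v ∈ (primes_finite hy).toFinset, (Ideal.absNorm v.asIdeal : ℝ) := by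
  unfold radK
  have h1 : ∀ v : HeightOneSpectrum (𝓞 K), (∏ᶠ (_ : y ∈ v.asIdeal), (Ideal.absNorm v.asIdeal : ℝ)) =
      ∏ᶠ (_ : v ∈ (primes_finite hy).toFinset), (Ideal.absNorm v.asIdeal : ℝ) := by
    intro v
    have : (y ∈ v.asIdeal) = (v ∈ (primes_finite hy).toFinset) := by
      rw [Set.Finite.mem_toFinset]
      rfl
    rw [this]
  rw [finprod_congr h1]
  exact finprod_mem_finset_eq_prod _ _

theorem one_le_prod (S : Finset (HeightOneSpectrum (𝓞 K))) :
    1 ≤ ∏ v ∈ S, (Ideal.absNorm v.asIdeal : ℝ) := by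
  calc (1 : ℝ) = ∏ v ∈ S, (1 : ℝ) := Finset.prod_const_one.symm
    _ ≤ _ := Finset.prod_le_prod (fun _ _ => zero_le_one) fun v _ => one_le_absNorm v

theorem one_le_radK {y : 𝓞 K} (hy : y ≠ 0) : 1 ≤ radK y := by
  rw [radK_eq hy]
  exact one_le_prod _

theorem radK_le_of_dvd {x y : 𝓞 K} (hy : y ≠ 0) (h : x ∣ y) : radK x ≤ radK y := by
  classical
  have hx : x ≠ 0 := by
    rintro rfl
    exact hy (zero_dvd_iff.mp h)
  rw [radK_eq hx, radK_eq hy]
  have hsub : (primes_finite hx).toFinset ⊆ (primes_finite hy).toFinset := by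
    intro v hv
    rw [Set.Finite.mem_toFinset] at hv ⊢
    obtain ⟨z, rfl⟩ := h
    exact Ideal.mul_mem_right _ _ hv
  rw [← Finset.prod_sdiff hsub]
  exact le_mul_of_one_le_left (by linarith [one_le_prod (primes_finite hx).toFinset])
    (one_le_prod _)

theorem radK_mul_le {a z Q : 𝓞 K} (ha : a ≠ 0) (hz : z ≠ 0) (hco : IsCoprime a z) (hQz : Q ∣ z)
    (hsq : Squarefree (Ideal.span {Q})) : nrm Q * radK a ≤ radK (a * z) := by
  classical
  have hQ : Q ≠ 0 := by
    rintro rfl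
    exact hz (zero_dvd_iff.mp hQz)
  have haz : a * z ≠ 0 := mul_ne_zero ha hz
  have h1 : nrm Q ≤ radK z := by
    have h2 := le_sum_log hQ hsq (primes_finite hz).toFinset (by
      intro v hv
      rw [Set.Finite.mem_toFinset]
      obtain ⟨y, rfl⟩ := hQz
      exact Ideal.mul_mem_right _ _ hv)
    rw [← Real.log_prod (fun v _ => by
      have := one_le_absNorm v
      linarith), ← radK_eq hz] at h2
    exact (Real.log_le_log_iff (nrm_pos hQ) (by linarith [one_le_radK hz])).mp h2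
  have h3 : radK a * radK z = radK (a * z) := by
    rw [radK_eq ha, radK_eq hz, radK_eq haz, ← Finset.prod_union]
    · congr 1
      ext v
      rw [Finset.mem_union, Set.Finite.mem_toFinset, Set.Finite.mem_toFinset,
        Set.Finite.mem_toFinset]
      constructor
      · rintro (h | h)
        · exact Ideal.mul_mem_right _ _ h
        · exact Ideal.mul_mem_left _ _ h
      · intro h
        exact v.isPrime.mem_or_mem h
    · rw [Finset.disjoint_left]
      intro v hv1 hv2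
      rw [Set.Finite.mem_toFinset] at hv1 hv2
      obtain ⟨x, y, hxy⟩ := hco
      apply v.isPrime.ne_top
      rw [Ideal.eq_top_iff_one, ← hxy]
      exact Ideal.add_mem _ (Ideal.mul_mem_left _ _ hv1) (Ideal.mul_mem_left _ _ hv2)
  rw [← h3, mul_comm]
  exact mul_le_mul_of_nonneg_left h1 (by linarith [one_le_radK ha])

/-- the product over the embeddings -/
theorem prod_embeddings (f : InfinitePlace K → ℝ) :
    ∏ σ : K →+* ℂ, f (InfinitePlace.mk σ) = ∏ w : InfinitePlace K, f w ^ w.mult := by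
  classical
  rw [← Finset.prod_fiberwise Finset.univ InfinitePlace.mk]
  apply Finset.prod_congr rfl
  intro w _
  rw [← InfinitePlace.card_filter_mk_eq, Finset.prod_congr rfl (g := fun _ => f w)]
  · rw [Finset.prod_const]
  · intro σ hσ
    rw [(Finset.mem_filter.mp hσ).2]

/-- the height `∏ max(|σ a|, |σ b|, |σ c|)` -/
noncomputable def HH (a b c : 𝓞 K) : ℝ := ∏ σ : K →+* ℂ, max ‖σ a‖ (max ‖σ b‖ ‖σ c‖)

theorem HH_eq (a b c : 𝓞 K) : HH a b c =
    ∏ w : InfinitePlace K, (max (w (a : K)) (max (w (b : K)) (w (c : K)))) ^ w.mult := by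
  rw [← prod_embeddings]
  rfl

theorem nrm_eq (y : 𝓞 K) : nrm y = ∏ w : InfinitePlace K, w (y : K) ^ w.mult := by
  have h := InfinitePlace.prod_eq_abs_norm (K := K) (y : K)
  have h2 : ((|Algebra.norm ℚ (y : K)| : ℚ) : ℝ) = |((Algebra.norm ℚ (y : K) : ℚ) : ℝ)| := by
    push_cast
    rfl
  rw [h2] at h
  exact h.symm

/-- **The abc inequality with one free term.** -/
theorem free_main (D r : ℕ) {ε : ℝ} (hε : 0 < ε) : ∃ δ₀ : ℝ, 0 < δ₀ ∧ ∀ δ : ℝ, 0 < δ → δ ≤ δ₀ →
    ∃ T₀ : ℝ, 1 ≤ T₀ ∧ ∀ T : ℝ, T₀ ≤ T → ∀ (K : Type) [Field K] [NumberField K],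
      Module.finrank ℚ K ≤ r → ∀ (n : ℕ) (t : 𝓞 K) (F : Fin n → (𝓞 K)[X]),
      SumData T (T ^ δ) D t F → (∀ i, 0 < (F i).natDegree) → ∀ (β γ : 𝓞 K), β ≠ 0 → γ ≠ 0 →
      (∀ σ : K →+* ℂ, ‖σ β‖ ≤ T ^ δ) → (∀ σ : K →+* ℂ, ‖σ γ‖ ≤ T ^ δ) → ∀ b c : Fin n → ℕ,
      ((∑ i, b i : ℕ) : ℝ) ≤ T ^ δ → ((∑ i, c i : ℕ) : ℝ) ≤ T ^ δ → (used2 b c).Nonempty →
      ∀ a B G Q : 𝓞 K, B = β * ∏ i, (F i).eval t ^ b i → G = γ * ∏ i, (F i).eval t ^ c i →
      a + B = G → a ≠ 0 → Q = ∏ i ∈ used2 b c, (F i).eval t →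
      (∀ i, (F i).eval t ≠ 0) ∧
      (∀ w : InfinitePlace K, max (w (a : K)) (max (w (B : K)) (w (G : K))) * w (t : K) ^ (1 - ε) ≤
        w (a : K) * w (Q : K)) ∧
      HH a B G * nrm t ^ (1 - ε) ≤ nrm a * nrm Q ∧
      (∀ (π a' : 𝓞 K) (v m : ℕ), Prime π → t = π ^ v → a = π ^ m * a' →
        HH a B G ≤ nrm t ^ ε * (nrm a' * nrm Q)) ∧
      (IsCoprime B G → Squarefree (Ideal.span {Q}) →
        HH a B G * nrm t ^ (1 - ε) * radK a ≤ nrm a * radK (a * B * G) ∧
        ∀ (π a' : 𝓞 K) (v m : ℕ), Prime π → t = π ^ v → a = π ^ m * a' →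
          HH a B G * radK a' ≤ nrm t ^ ε * (nrm a' * radK (a * B * G))) := by
  classical
  obtain ⟨δ₀, hδ₀, hch⟩ := choose_free D r hε
  refine ⟨δ₀, hδ₀, ?_⟩
  intro δ hδ hδδ
  obtain ⟨T₀, hT₀⟩ := Filter.eventually_atTop.mp (hch δ hδ hδδ)
  refine ⟨max T₀ 1, le_max_right _ _, ?_⟩
  intro T hTT K _ _ hr n t F hD hpos β γ hβ hγ hβH hγH b c hb hc hU a B G Q hB hG hsum ha0 hQ
  obtain ⟨hT1, hH, hT, hY⟩ := hT₀ T ((le_max_left _ _).trans hTT)
  have hT0 : 0 < T := by linarith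
  have haeq : a = G - B := by rw [← hsum]; ring
  have hB' : B = (PP F β b).eval t := by rw [eval_PP, hB]
  have hG' : G = (PP F γ c).eval t := by rw [eval_PP, hG]
  obtain ⟨g1, g2⟩ := nf_free hH hr hT hD hpos hβ hγ hβH hγH hb hc hU hB' hG' haeq ha0 hQ hY hε.le
  have hC1 : 1 ≤ 2 * (T ^ δ) ^ (2 * JM D 2 + 1) :=
    one_le_mul_of_one_le_of_one_le (by norm_num) (one_le_pow₀ hH)
  have hTbig : 4 * (T ^ δ) ^ 2 ≤ T := by
    have h1 : 4 * 1 * 1 * (T ^ δ) ^ 2 ≤
        4 * T ^ δ * (2 * (T ^ δ) ^ (2 * JM D 2 + 1)) ^ r * (T ^ δ) ^ 2 := by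
      apply mul_le_mul_of_nonneg_right _ (by positivity)
      exact mul_le_mul (by linarith) (one_le_pow₀ hC1) (by norm_num) (by positivity)
    linarith
  have hval := value_ne (hD.dataK hH hpos) hH hTbig
  have hQ0 : Q ≠ 0 := by rw [hQ]; exact Finset.prod_ne_zero_iff.mpr fun i _ => hval i
  have hB0 : B ≠ 0 := by
    rw [hB]
    exact mul_ne_zero hβ (Finset.prod_ne_zero_iff.mpr fun i _ => pow_ne_zero _ (hval i))
  have hG0 : G ≠ 0 := by
    rw [hG]
    exact mul_ne_zero hγ (Finset.prod_ne_zero_iff.mpr fun i _ => pow_ne_zero _ (hval i))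
  have ht0 : t ≠ 0 := by
    rintro rfl
    obtain ⟨σ⟩ : Nonempty (K →+* ℂ) := inferInstance
    have h1 := hD.base σ
    simp at h1
    linarith
  have haK : (a : K) ≠ 0 := RingOfIntegers.coe_ne_zero_iff.mpr ha0
  have hnt : 0 < nrm t := nrm_pos ht0
  have hmaxpos : ∀ w : InfinitePlace K, 0 < max (w (a : K)) (max (w (B : K)) (w (G : K))) :=
    fun w => lt_max_of_lt_left (InfinitePlace.pos_iff.mpr haK)
  have hHH0 : 0 < HH a B G := by
    rw [HH_eq]
    exact Finset.prod_pos fun w _ => pow_pos (hmaxpos w) _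
  have p1 : HH a B G * nrm t ^ (1 - ε) ≤ nrm a * nrm Q := by
    rw [HH_eq, nrm_eq t, nrm_eq a, nrm_eq Q, ← Real.finsetProd_rpow _ _ (fun w _ => by positivity),
      ← Finset.prod_mul_distrib, ← Finset.prod_mul_distrib]
    apply Finset.prod_le_prod (fun w _ => by positivity)
    intro w _
    have h1 := pow_le_pow_left₀ (by positivity) (g1 w) w.mult
    rw [mul_pow, mul_pow] at h1
    have h2 : (w (t : K) ^ w.mult) ^ (1 - ε) = (w (t : K) ^ (1 - ε)) ^ w.mult := by
      rw [← Real.rpow_natCast_mul (apply_nonneg _ _), ← Real.rpow_mul_natCast (apply_nonneg _ _),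
        mul_comm]
    rw [h2]
    exact h1
  have p2 : ∀ (π a' : 𝓞 K) (v m : ℕ), Prime π → t = π ^ v → a = π ^ m * a' →
        HH a B G ≤ nrm t ^ ε * (nrm a' * nrm Q) := by
    intro π a' v m hπ ht haπ
    have ha'0 : a' ≠ 0 := by
      rintro rfl
      rw [mul_zero] at haπ
      exact ha0 haπ
    have h1 := g2 π a' v m hπ ht haπ
    have h2 : ∑ w : InfinitePlace K, (w.mult : ℝ) *
        Real.log (max (w (a : K)) (max (w (B : K)) (w (G : K)))) = Real.log (HH a B G) := by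
      rw [HH_eq, Real.log_prod (fun w _ => (pow_pos (hmaxpos w) _).ne')]
      exact Finset.sum_congr rfl fun w _ => (Real.log_pow _ _).symm
    rw [h2] at h1
    have h3 : Real.log (nrm t ^ ε * (nrm a' * nrm Q)) = Real.log (nrm a') + Real.log (nrm Q) +
        ε * Real.log (nrm t) := by
      rw [Real.log_mul (Real.rpow_pos_of_pos hnt _).ne'
        (mul_pos (nrm_pos ha'0) (nrm_pos hQ0)).ne', Real.log_rpow hnt,
        Real.log_mul (nrm_pos ha'0).ne' (nrm_pos hQ0).ne']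
      ring
    rw [← Real.log_le_log_iff hHH0 (mul_pos (Real.rpow_pos_of_pos hnt _)
      (mul_pos (nrm_pos ha'0) (nrm_pos hQ0))), h3]
    exact h1
  refine ⟨hval, g1, p1, p2, ?_⟩
  intro hco hsq
  have hQBG : Q ∣ B * G := by
    have hsub : used2 b c = (Finset.univ.filter fun i => b i ≠ 0) ∪
        (Finset.univ.filter fun i => b i = 0 ∧ c i ≠ 0) := by
      ext i
      unfold used2
      rw [Finset.mem_union, Finset.mem_filter, Finset.mem_filter, Finset.mem_filter]
      tauto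
    have hdisj : Disjoint (Finset.univ.filter fun i => b i ≠ 0)
        (Finset.univ.filter fun i => b i = 0 ∧ c i ≠ 0) := by
      rw [Finset.disjoint_left]
      intro i h1 h2
      exact (Finset.mem_filter.mp h1).2 (Finset.mem_filter.mp h2).2.1
    have hd : ∀ (e : Fin n → ℕ) (U : Finset (Fin n)), (∀ i ∈ U, e i ≠ 0) →
        ∏ i ∈ U, (F i).eval t ∣ ∏ i, (F i).eval t ^ e i := by
      intro e U hU'
      refine dvd_trans (Finset.prod_dvd_prod_of_dvd _ (fun i => (F i).eval t ^ e i) ?_)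
        (Finset.prod_dvd_prod_of_subset _ _ _ (Finset.subset_univ U))
      intro i hi
      exact dvd_pow_self _ (hU' i hi)
    rw [hQ, hsub, Finset.prod_union hdisj, hB, hG]
    apply mul_dvd_mul
    · exact (hd b _ (fun i hi => (Finset.mem_filter.mp hi).2)).trans (dvd_mul_left _ _)
    · exact (hd c _ (fun i hi => (Finset.mem_filter.mp hi).2.2)).trans (dvd_mul_left _ _)
  have hcoa : IsCoprime a (B * G) := by
    rw [haeq]
    apply IsCoprime.mul_right
    · have h1 : IsCoprime (G - B) B := by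
        have h2 := (hco.symm).add_mul_left_left (-1)
        have h3 : G + B * (-1) = G - B := by ring
        rw [h3] at h2
        exact h2
      exact h1
    · have h2 := (hco.neg_left).add_mul_left_left 1
      have h3 : -B + G * 1 = G - B := by ring
      rw [h3] at h2
      exact h2
  have hBG0 : B * G ≠ 0 := mul_ne_zero hB0 hG0
  have h5 := radK_mul_le ha0 hBG0 hcoa hQBG hsq
  rw [← mul_assoc] at h5
  constructor
  · calc HH a B G * nrm t ^ (1 - ε) * radK a ≤ (nrm a * nrm Q) * radK a :=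
          mul_le_mul_of_nonneg_right p1 (by linarith [one_le_radK ha0])
      _ = nrm a * (nrm Q * radK a) := by ring
      _ ≤ _ := mul_le_mul_of_nonneg_left h5 (by linarith [one_le_nrm ha0])
  · intro π a' v m hπ ht haπ
    have ha'0 : a' ≠ 0 := by
      rintro rfl
      rw [mul_zero] at haπ
      exact ha0 haπ
    have h6 : radK a' ≤ radK a := radK_le_of_dvd ha0 ⟨π ^ m, by rw [haπ]; ring⟩
    have h7 : 0 < nrm t ^ ε := Real.rpow_pos_of_pos hnt _
    have h8 : 0 < nrm a' := nrm_pos ha'0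
    have h9 : 0 < nrm Q := nrm_pos hQ0
    calc HH a B G * radK a' ≤ nrm t ^ ε * (nrm a' * nrm Q) * radK a' :=
          mul_le_mul_of_nonneg_right (p2 π a' v m hπ ht haπ) (by linarith [one_le_radK ha'0])
      _ ≤ nrm t ^ ε * (nrm a' * nrm Q) * radK a := mul_le_mul_of_nonneg_left h6 (by positivity)
      _ = nrm t ^ ε * (nrm a' * (nrm Q * radK a)) := by ring
      _ ≤ nrm t ^ ε * (nrm a' * radK (a * B * G)) :=
          mul_le_mul_of_nonneg_left (mul_le_mul_of_nonneg_left h5 h8.le) h7.le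

end Pool.Agent.Q103.SD.NF
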