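import Mathlib
import Pool.Agent.TH888.W2.Weak2

/-!
# Numbers congruent to `1` or `-1` modulo `t`: products of powers that are congruent modulo a power of
a prime divisor of `t`
-/

set_option autoImplicit false

namespace Pool.Agent.Q103.SD

open Finset

theorem exists_prime_case {t : ℕ} (ht : 16 ≤ t) :
    (∃ p, p.Prime ∧ p ≠ 2 ∧ p ∣ t) ∨ 2 ^ 4 ∣ t := by
  by_cases h : ∃ p, p.Prime ∧ p ≠ 2 ∧ p ∣ t
  · exact Or.inl h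
  · right
    push Not at h
    have h1 : t = 2 ^ t.primeFactorsList.length :=
      Nat.eq_prime_pow_of_unique_prime_dvd (by omega) (by
        intro d hd hdt
        by_contra hne
        exact h d hd hne hdt)
    have h2 : 4 ≤ t.primeFactorsList.length := by
      by_contra hcon
      have h3 : 2 ^ t.primeFactorsList.length ≤ 2 ^ 3 := Nat.pow_le_pow_right (by norm_num) (by omega)
      omega
    rw [h1]
    exact pow_dvd_pow 2 h2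

theorem rel_units {n p M : ℕ} {Q b c : Fin n → ℕ} (hp : p.Prime) (hQ : ∀ i, ¬ p ∣ Q i)
    (hdvd : (p : ℤ) ^ M ∣ (∏ i, (Q i : ℤ) ^ c i) ^ 2 - (∏ i, (Q i : ℤ) ^ b i) ^ 2) :
    ∃ u : Fin n → (ZMod (p ^ M))ˣ, (∀ i, (u i : ZMod (p ^ M)) = ((Q i ^ 2 : ℕ) : ZMod (p ^ M))) ∧
      ∏ i, (u i) ^ ((c i : ℤ) - (b i : ℤ)) = 1 := by
  have hco : ∀ i, Nat.Coprime (Q i ^ 2) (p ^ M) := fun i =>
    Nat.Coprime.pow_left 2 ((((Nat.Prime.coprime_iff_not_dvd hp).mpr (hQ i)).symm).pow_right M)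
  refine ⟨fun i => ZMod.unitOfCoprime _ (hco i), fun i => by rw [ZMod.coe_unitOfCoprime], ?_⟩
  have h1 : ∏ i, (ZMod.unitOfCoprime _ (hco i)) ^ ((c i : ℤ) - (b i : ℤ)) =
      (∏ i, (ZMod.unitOfCoprime _ (hco i)) ^ (c i)) / ∏ i, (ZMod.unitOfCoprime _ (hco i)) ^ (b i) := by
    rw [← Finset.prod_div_distrib]
    apply Finset.prod_congr rfl
    intro i _
    rw [zpow_sub, zpow_natCast, zpow_natCast, div_eq_mul_inv]
  rw [h1, div_eq_one]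
  apply Units.ext
  rw [Units.coe_prod, Units.coe_prod]
  have h2 : (((p ^ M : ℕ) : ℤ)) ∣ (∏ i, (Q i : ℤ) ^ c i) ^ 2 - (∏ i, (Q i : ℤ) ^ b i) ^ 2 := by
    exact_mod_cast hdvd
  rw [← ZMod.intCast_zmod_eq_zero_iff_dvd] at h2
  push_cast at h2
  have h3 := sub_eq_zero.mp h2
  have h4 : ∀ e : Fin n → ℕ, ∏ i, (((ZMod.unitOfCoprime _ (hco i)) ^ (e i) : (ZMod (p ^ M))ˣ) :
      ZMod (p ^ M)) = (∏ i, (Q i : ZMod (p ^ M)) ^ e i) ^ 2 := by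
    intro e
    rw [← Finset.prod_pow]
    apply Finset.prod_congr rfl
    intro i _
    rw [Units.val_pow_eq_pow_val, ZMod.coe_unitOfCoprime]
    push_cast
    rw [← pow_mul, ← pow_mul, mul_comm]
  rw [h4, h4, h3]

theorem prod_ne {n : ℕ} {Q b c : Fin n → ℕ} (hQ : ∀ i, 0 < Q i)
    (hne : ∏ i, Q i ^ c i ≠ ∏ i, Q i ^ b i) :
    ∏ i, (((Q i ^ 2 : ℕ) : ℚ)) ^ ((c i : ℤ) - (b i : ℤ)) ≠ 1 := by
  have hQ0 : ∀ i, (((Q i ^ 2 : ℕ) : ℚ)) ≠ 0 := fun i => by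
    have := hQ i
    positivity
  have h1 : ∏ i, (((Q i ^ 2 : ℕ) : ℚ)) ^ ((c i : ℤ) - (b i : ℤ)) =
      (∏ i, (((Q i ^ 2 : ℕ) : ℚ)) ^ (c i)) / ∏ i, (((Q i ^ 2 : ℕ) : ℚ)) ^ (b i) := by
    rw [← Finset.prod_div_distrib]
    apply Finset.prod_congr rfl
    intro i _
    rw [zpow_sub₀ (hQ0 i), zpow_natCast, zpow_natCast]
  rw [h1]
  have hb : ∏ i, (((Q i ^ 2 : ℕ) : ℚ)) ^ (b i) ≠ 0 :=
    Finset.prod_ne_zero_iff.mpr fun i _ => pow_ne_zero _ (hQ0 i)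
  intro h
  rw [div_eq_one_iff_eq hb] at h
  have h4 : ∀ e : Fin n → ℕ, ∏ i, (((Q i ^ 2 : ℕ) : ℚ)) ^ (e i) =
      (((∏ i, Q i ^ e i : ℕ) : ℚ)) ^ 2 := by
    intro e
    push_cast
    rw [← Finset.prod_pow]
    apply Finset.prod_congr rfl
    intro i _
    rw [← pow_mul, ← pow_mul, mul_comm]
  rw [h4, h4] at h
  have h5 : (((∏ i, Q i ^ c i : ℕ) : ℚ)) = (((∏ i, Q i ^ b i : ℕ) : ℚ)) :=
    (pow_left_inj₀ (by positivity) (by positivity) (by norm_num)).mp h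
  exact hne (by exact_mod_cast h5)

/-- **`p`-adic bound without dependence on `p`.** -/
theorem padic (n : ℕ) : ∃ C κ : ℕ, ∀ t : ℕ, 16 ≤ t → ∃ p : ℕ, p.Prime ∧ p ∣ t ∧ ∀ S : ℕ, 1 ≤ S →
    ∀ (Q b c : Fin n → ℕ) (M : ℕ), (∀ i, 0 < Q i) → (∀ i, (t : ℤ) ∣ (Q i : ℤ) ^ 2 - 1) →
      (∀ i, Q i ≤ 2 ^ S) → (∀ i, b i ≤ 2 ^ S) → (∀ i, c i ≤ 2 ^ S) →
      ∏ i, Q i ^ c i ≠ ∏ i, Q i ^ b i →
      (p : ℤ) ^ M ∣ (∏ i, (Q i : ℤ) ^ c i) ^ 2 - (∏ i, (Q i : ℤ) ^ b i) ^ 2 → M ≤ C * S ^ κ := by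
  obtain ⟨C₁, κ₁, h₁⟩ := Pool.Agent.TH907.Bak.wb1 n
  obtain ⟨C₂, κ₂, h₂⟩ := Pool.Agent.TH888.W2.wb1 n
  refine ⟨C₁ * 2 ^ κ₁ + C₂ * 2 ^ κ₂, κ₁ + κ₂, ?_⟩
  intro t ht
  have hnd : ∀ (p : ℕ), p.Prime → p ∣ t → ∀ Q : ℕ, (t : ℤ) ∣ (Q : ℤ) ^ 2 - 1 → ¬ p ∣ Q := by
    intro p hp hpt Q hQ h
    have h1 : (p : ℤ) ∣ (Q : ℤ) ^ 2 - 1 := (Int.natCast_dvd_natCast.mpr hpt).trans hQ
    have h2 : (p : ℤ) ∣ (Q : ℤ) ^ 2 := dvd_pow (Int.natCast_dvd_natCast.mpr h) two_ne_zero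
    have h3 : (p : ℤ) ∣ 1 := by
      have := dvd_sub h2 h1
      rwa [sub_sub_cancel] at this
    have h4 := Int.le_of_dvd (by norm_num) h3
    have := hp.two_le
    omega
  have hexp : ∀ {S : ℕ} {b c : ℕ}, b ≤ 2 ^ S → c ≤ 2 ^ S → |(c : ℤ) - (b : ℤ)| ≤ 2 ^ (2 * S) := by
    intro S b c hb hc
    have h1 : (b : ℤ) ≤ 2 ^ S := by exact_mod_cast hb
    have h2 : (c : ℤ) ≤ 2 ^ S := by exact_mod_cast hc
    have h3 : (2 : ℤ) ^ S ≤ 2 ^ (2 * S) := pow_le_pow_right₀ (by norm_num) (by omega)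
    rw [abs_le]
    constructor <;> omega
  have hsq : ∀ {S Q : ℕ}, Q ≤ 2 ^ S → Q ^ 2 ≤ 2 ^ (2 * S) := by
    intro S Q h
    calc Q ^ 2 ≤ (2 ^ S) ^ 2 := Nat.pow_le_pow_left h 2
      _ = 2 ^ (2 * S) := by rw [← pow_mul, mul_comm]
  rcases exists_prime_case ht with ⟨p, hp, hp2, hpt⟩ | h16
  · refine ⟨p, hp, hpt, ?_⟩
    intro S hS Q b c M hQ0 hQt hQS hbS hcS hne hdvd
    have : Fact p.Prime := ⟨hp⟩
    obtain ⟨u, hu, hrel⟩ := rel_units (Q := Q) (b := b) (c := c) hp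
      (fun i => hnd p hp hpt _ (hQt i)) hdvd
    have h := h₁ p hp2 (2 * S) (by omega) (fun i => Q i ^ 2) (fun i => (c i : ℤ) - (b i : ℤ)) M u hu
      (fun i => pow_pos (hQ0 i) 2)
      (fun i => by
        have h1 : (p : ℤ) ∣ (Q i : ℤ) ^ 2 - 1 := (Int.natCast_dvd_natCast.mpr hpt).trans (hQt i)
        have h2 : (1 : ℤ) ≡ ((Q i ^ 2 : ℕ) : ℤ) [ZMOD (p : ℤ)] := by
          rw [Int.modEq_iff_dvd]
          push_cast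
          exact h1
        have h3 : 1 ≡ Q i ^ 2 [MOD p] := by
          exact (Int.natCast_modEq_iff).mp (by exact_mod_cast h2)
        exact h3.symm)
      (fun i => hsq (hQS i)) (fun i => hexp (hbS i) (hcS i)) (prod_ne hQ0 hne) hrel
    calc M ≤ C₁ * (2 * S) ^ κ₁ := h
      _ = C₁ * 2 ^ κ₁ * S ^ κ₁ := by rw [mul_pow, mul_assoc]
      _ ≤ C₁ * 2 ^ κ₁ * S ^ (κ₁ + κ₂) := Nat.mul_le_mul_left _ (Nat.pow_le_pow_right hS (by omega))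
      _ ≤ _ := Nat.mul_le_mul_right _ (by omega)
  · have h2t : 2 ∣ t := (by norm_num : (2 : ℕ) ∣ 2 ^ 4).trans h16
    refine ⟨2, Nat.prime_two, h2t, ?_⟩
    intro S hS Q b c M hQ0 hQt hQS hbS hcS hne hdvd
    have : Fact (Nat.Prime 2) := ⟨Nat.prime_two⟩
    obtain ⟨u, hu, hrel⟩ := rel_units (Q := Q) (b := b) (c := c) Nat.prime_two
      (fun i => hnd 2 Nat.prime_two h2t _ (hQt i)) hdvd
    have h := h₂ 2 rfl (2 * S) (by omega) (fun i => Q i ^ 2) (fun i => (c i : ℤ) - (b i : ℤ)) M u hu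
      (fun i => pow_pos (hQ0 i) 2)
      (fun i => by
        have h1 : (((2 ^ 4 : ℕ) : ℕ) : ℤ) ∣ (Q i : ℤ) ^ 2 - 1 :=
          (Int.natCast_dvd_natCast.mpr h16).trans (hQt i)
        push_cast at h1 ⊢
        exact h1)
      (fun i => hsq (hQS i)) (fun i => hexp (hbS i) (hcS i)) (prod_ne hQ0 hne) hrel
    calc M ≤ C₂ * (2 * S) ^ κ₂ := h
      _ = C₂ * 2 ^ κ₂ * S ^ κ₂ := by rw [mul_pow, mul_assoc]
      _ ≤ C₂ * 2 ^ κ₂ * S ^ (κ₁ + κ₂) := Nat.mul_le_mul_left _ (Nat.pow_le_pow_right hS (by omega))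
      _ ≤ _ := Nat.mul_le_mul_right _ (by omega)

end Pool.Agent.Q103.SD
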