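import Mathlib
import Pool.Agent.Q103.SD.Pad
import Pool.Agent.Y913.Nb.WBdep

/-!
# Bounds for the exponents
-/

set_option autoImplicit false

namespace Pool.Agent.Q103.SD

open Finset

theorem WB_option (n : ℕ) : ∃ κ g0 : ℕ, ∀ g, g0 ≤ g → ∀ (x : Option (Option (Fin n)) → ℕ)
    (b : Option (Option (Fin n)) → ℤ),
    (∀ j, 1 ≤ x j ∧ x j ≤ 2 ^ g) → (∀ j, |b j| ≤ 2 ^ g) →
    ∑ j, (b j : ℝ) * Real.log (x j) ≠ 0 →
    (1 / 2 : ℝ) ^ (g ^ κ) ≤ |∑ j, (b j : ℝ) * Real.log (x j)| := by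
  obtain ⟨κ, g0, h⟩ := Pool.Agent.Y913.Nb.WB_dep (Fintype.card (Option (Option (Fin n))))
  refine ⟨κ, g0, fun g hg x b hx hb hne => ?_⟩
  let e : Fin (Fintype.card (Option (Option (Fin n)))) ≃ Option (Option (Fin n)) :=
    (Fintype.equivFin _).symm
  have e1 : ∑ j, ((b (e j)) : ℝ) * Real.log (x (e j)) = ∑ j, (b j : ℝ) * Real.log (x j) :=
    Fintype.sum_equiv e _ _ (fun _ => rfl)
  have := h g hg (x ∘ e) (b ∘ e) (fun j => hx _) (fun j => hb _) (by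
    simp only [Function.comp]
    rwa [e1])
  simp only [Function.comp] at this
  rwa [e1] at this

/-- **archimedean bound** -/
theorem arch (n : ℕ) : ∃ κ g0 : ℕ, ∀ S L W : ℕ, ∀ (Q b c : Fin n → ℕ) (β γ : ℕ), 1 ≤ β → 1 ≤ γ →
    β ≤ 2 ^ S → γ ≤ 2 ^ S → (∀ i, 1 ≤ Q i) → (∀ i, Q i ≤ 2 ^ S) → (∀ i, b i ≤ 2 ^ L) →
    (∀ i, c i ≤ 2 ^ L) → γ * ∏ i, Q i ^ c i ≠ β * ∏ i, Q i ^ b i →
    |((γ * ∏ i, Q i ^ c i : ℕ) : ℤ) - ((β * ∏ i, Q i ^ b i : ℕ) : ℤ)| ≤ 2 ^ W →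
    γ * ∏ i, Q i ^ c i ≤ 2 ^ (W + 1 + (S + L + g0) ^ κ) ∧
      β * ∏ i, Q i ^ b i ≤ 2 ^ (W + 1 + (S + L + g0) ^ κ) := by
  obtain ⟨κ, g0, h⟩ := WB_option n
  refine ⟨κ, g0, ?_⟩
  intro S L W Q b c β γ hβ hγ hβS hγS hQ hQS hbL hcL hne hW
  obtain ⟨x, hx⟩ : ∃ x, x = γ * ∏ i, Q i ^ c i := ⟨_, rfl⟩
  obtain ⟨y, hy⟩ : ∃ y, y = β * ∏ i, Q i ^ b i := ⟨_, rfl⟩
  have hpp : ∀ e : Fin n → ℕ, 0 < ∏ i, Q i ^ e i := fun e =>
    Finset.prod_pos fun i _ => pow_pos (hQ i) _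
  have hx1 : 1 ≤ x := by rw [hx]; exact Nat.mul_pos hγ (hpp c)
  have hy1 : 1 ≤ y := by rw [hy]; exact Nat.mul_pos hβ (hpp b)
  rw [← hx, ← hy] at hne hW ⊢
  have hlog : ∀ (η : ℕ) (e : Fin n → ℕ), 1 ≤ η → Real.log ((η * ∏ i, Q i ^ e i : ℕ) : ℝ) =
      Real.log η + ∑ i, (e i : ℝ) * Real.log (Q i) := by
    intro η e hη
    push_cast
    rw [Real.log_mul (by positivity) (by
      have := hpp e
      have h2 : (0 : ℝ) < ((∏ i, Q i ^ e i : ℕ) : ℝ) := by exact_mod_cast this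
      push_cast at h2
      exact h2.ne')]
    congr 1
    rw [Real.log_prod (fun i _ => pow_ne_zero _ (by
      have := hQ i
      exact_mod_cast (show Q i ≠ 0 by omega)))]
    apply Finset.sum_congr rfl
    intro i _
    rw [Real.log_pow]
  obtain ⟨Λ, hΛ⟩ : ∃ Λ, Λ = Real.log x - Real.log y := ⟨_, rfl⟩
  have hx0 : (0 : ℝ) < x := by exact_mod_cast hx1
  have hy0 : (0 : ℝ) < y := by exact_mod_cast hy1
  have hΛ0 : Λ ≠ 0 := by
    intro h0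
    rw [hΛ, sub_eq_zero] at h0
    have := Real.log_injOn_pos hx0 hy0 h0
    exact hne (by exact_mod_cast this)
  have hsum : ∑ j : Option (Option (Fin n)), ((j.elim (1 : ℤ) (fun j' => j'.elim (-1 : ℤ)
      (fun i => (c i : ℤ) - (b i : ℤ))) : ℤ) : ℝ) *
      Real.log ((j.elim γ (fun j' => j'.elim β Q) : ℕ) : ℝ) = Λ := by
    rw [Fintype.sum_option, Fintype.sum_option, hΛ, hx, hy, hlog γ c hγ, hlog β b hβ]
    simp only [Option.elim]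
    push_cast
    have : ∑ i, ((c i : ℝ) - (b i : ℝ)) * Real.log (Q i) =
        ∑ i, (c i : ℝ) * Real.log (Q i) - ∑ i, (b i : ℝ) * Real.log (Q i) := by
      rw [← Finset.sum_sub_distrib]
      exact Finset.sum_congr rfl fun i _ => by ring
    rw [this]
    ring
  have hg : (2 : ℕ) ^ S ≤ 2 ^ (S + L + g0) := Nat.pow_le_pow_right (by norm_num) (by omega)
  have hgL : (2 : ℤ) ^ L ≤ 2 ^ (S + L + g0) := pow_le_pow_right₀ (by norm_num) (by omega)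
  have hlow := h (S + L + g0) (by omega) (fun j => j.elim γ (fun j' => j'.elim β Q))
    (fun j => j.elim (1 : ℤ) (fun j' => j'.elim (-1 : ℤ) (fun i => (c i : ℤ) - (b i : ℤ))))
    (by
      intro j
      rcases j with _ | _ | i
      · exact ⟨hγ, hγS.trans hg⟩
      · exact ⟨hβ, hβS.trans hg⟩
      · exact ⟨hQ i, (hQS i).trans hg⟩)
    (by
      intro j
      have h1 : (1 : ℤ) ≤ 2 ^ (S + L + g0) := one_le_pow₀ (by norm_num)
      rcases j with _ | _ | i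
      · simpa using h1
      · simpa using h1
      · simp only [Option.elim]
        have h2 : (b i : ℤ) ≤ 2 ^ L := by exact_mod_cast hbL i
        have h3 : (c i : ℤ) ≤ 2 ^ L := by exact_mod_cast hcL i
        rw [abs_le]
        constructor <;> omega)
    (by rw [hsum]; exact hΛ0)
  rw [hsum] at hlow
  obtain ⟨G, hG⟩ : ∃ G, G = (S + L + g0) ^ κ := ⟨_, rfl⟩
  rw [← hG] at hlow ⊢
  -- the smaller of the two numbers
  have key : ∀ {u v : ℕ}, 1 ≤ v → v < u → ((u : ℝ) - v ≤ 2 ^ W) →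
      ((1 / 2 : ℝ) ^ G ≤ |Real.log u - Real.log v|) →
      (u ≤ 2 ^ (W + 1 + G) ∧ v ≤ 2 ^ (W + 1 + G)) := by
    intro u v hv huv hW' hl
    have hv0 : (0 : ℝ) < v := by exact_mod_cast hv
    have huvR : (v : ℝ) < u := by exact_mod_cast huv
    have hu0 : (0 : ℝ) < u := hv0.trans huvR
    have h1 : Real.log u - Real.log v ≤ (u - v) / v := by
      rw [← Real.log_div hu0.ne' hv0.ne']
      refine (Real.log_le_sub_one_of_pos (by positivity)).trans (le_of_eq ?_)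
      field_simp
    have h2 : 0 ≤ Real.log u - Real.log v := by
      have := Real.log_le_log hv0 huvR.le
      linarith
    rw [abs_of_nonneg h2] at hl
    have h3 : (1 / 2 : ℝ) ^ G ≤ 2 ^ W / v :=
      hl.trans (h1.trans (div_le_div_of_nonneg_right hW' hv0.le))
    have h4 : (v : ℝ) ≤ 2 ^ W * 2 ^ G := by
      rw [le_div_iff₀ hv0] at h3
      have h5 : (2 : ℝ) ^ G * ((1 / 2) ^ G * v) ≤ 2 ^ G * 2 ^ W :=
        mul_le_mul_of_nonneg_left h3 (by positivity)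
      rw [← mul_assoc, ← mul_pow, mul_one_div_cancel (by norm_num), one_pow, one_mul] at h5
      linarith
    have h6 : (2 : ℝ) ^ W ≤ 2 ^ W * 2 ^ G := by
      have h7 : (1 : ℝ) ≤ 2 ^ G := one_le_pow₀ (by norm_num)
      have h8 : (0 : ℝ) < 2 ^ W := by positivity
      nlinarith
    have h9 : (2 : ℝ) ^ (W + 1 + G) = 2 * (2 ^ W * 2 ^ G) := by
      rw [pow_add, pow_succ]
      ring
    constructor
    · have : (u : ℝ) ≤ 2 ^ (W + 1 + G) := by rw [h9]; linarith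
      exact_mod_cast this
    · have : (v : ℝ) ≤ 2 ^ (W + 1 + G) := by rw [h9]; nlinarith
      exact_mod_cast this
  have hWR : |(x : ℝ) - y| ≤ 2 ^ W := by exact_mod_cast hW
  rcases Nat.lt_or_gt_of_ne hne with hlt | hlt
  · have h1 := key hx1 hlt (by
      have := (abs_le.mp hWR).1
      linarith) (by
      rw [abs_sub_comm, ← hΛ]
      exact hlow)
    exact ⟨h1.2, h1.1⟩
  · exact key hy1 hlt (by
      have := (abs_le.mp hWR).2
      linarith) (by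
      rw [← hΛ]
      exact hlow)

theorem two_pow_sum_le {n : ℕ} {Q e : Fin n → ℕ} (hQ : ∀ i, 2 ≤ Q i) :
    2 ^ (∑ i, e i) ≤ ∏ i, Q i ^ e i := by
  rw [← Finset.prod_pow_eq_pow_sum]
  exact Finset.prod_le_prod' fun i _ => Nat.pow_le_pow_left (hQ i) _

theorem exists_pow_le (k : ℕ) : ∃ L₀ : ℕ, ∀ L, L₀ ≤ L → L ^ k ≤ 2 ^ L := by
  have h := tendsto_pow_const_div_const_pow_of_one_lt k (r := (2 : ℝ)) (by norm_num)
  have h2 := h.eventually (gt_mem_nhds (show (0 : ℝ) < 1 by norm_num))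
  obtain ⟨L₀, hL₀⟩ := Filter.eventually_atTop.mp h2
  refine ⟨L₀, fun L hL => ?_⟩
  have h3 := hL₀ L hL
  rw [div_lt_one (by positivity)] at h3
  have h4 : ((L ^ k : ℕ) : ℝ) ≤ ((2 ^ L : ℕ) : ℝ) := by push_cast; exact h3.le
  exact_mod_cast h4

theorem grow (C κ : ℕ) : ∃ C' κ' : ℕ, ∀ S L : ℕ, 1 ≤ S → 1 ≤ L → 2 ^ L ≤ C * (S + L) ^ κ →
    2 ^ L ≤ C' * S ^ κ' := by
  obtain ⟨L₀, hL₀⟩ := exists_pow_le (2 * κ)
  refine ⟨2 ^ L₀ + (C * 2 ^ κ) ^ 2, 2 * κ, fun S L hS hL h => ?_⟩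
  have hSp : 1 ≤ S ^ (2 * κ) := Nat.one_le_pow _ _ hS
  rcases Nat.lt_or_ge L L₀ with hlt | hge
  · calc 2 ^ L ≤ 2 ^ L₀ := Nat.pow_le_pow_right (by norm_num) hlt.le
      _ ≤ 2 ^ L₀ + (C * 2 ^ κ) ^ 2 := Nat.le_add_right _ _
      _ ≤ _ := Nat.le_mul_of_pos_right _ hSp
  · have h1 : S + L ≤ 2 * (S * L) := by nlinarith
    have h2 : 2 ^ L ≤ C * 2 ^ κ * (S ^ κ * L ^ κ) := by
      calc 2 ^ L ≤ C * (S + L) ^ κ := h
        _ ≤ C * (2 * (S * L)) ^ κ := Nat.mul_le_mul_left _ (Nat.pow_le_pow_left h1 _)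
        _ = _ := by rw [mul_pow, mul_pow]; ring
    have h3 : 2 ^ L * 2 ^ L ≤ (C * 2 ^ κ) ^ 2 * S ^ (2 * κ) * 2 ^ L := by
      calc 2 ^ L * 2 ^ L ≤ (C * 2 ^ κ * (S ^ κ * L ^ κ)) * (C * 2 ^ κ * (S ^ κ * L ^ κ)) :=
            Nat.mul_le_mul h2 h2
        _ = (C * 2 ^ κ) ^ 2 * S ^ (2 * κ) * L ^ (2 * κ) := by ring
        _ ≤ _ := Nat.mul_le_mul_left _ (hL₀ L hge)
    have h4 : 2 ^ L ≤ (C * 2 ^ κ) ^ 2 * S ^ (2 * κ) :=
      Nat.le_of_mul_le_mul_right h3 (by positivity)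
    exact h4.trans (Nat.mul_le_mul_right _ (Nat.le_add_left _ _))

end Pool.Agent.Q103.SD
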