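import Mathlib
import Pool.Agent.Q103.SD.Exp

/-!
# The exponents are bounded by a power of the logarithm
-/

set_option autoImplicit false

namespace Pool.Agent.Q103.SD

open Finset

theorem unit_prod {n : ℕ} {t : ℤ} {q : Fin n → ℤ} {c : Fin n → ℕ}
    (h : ∀ i, c i ≠ 0 → t ∣ q i - 1 ∨ t ∣ q i + 1) :
    ∃ s : ℤ, (s = 1 ∨ s = -1) ∧ t ∣ ∏ i, q i ^ c i - s := by
  have hmul : ∀ x y : ℤ, (∃ s : ℤ, (s = 1 ∨ s = -1) ∧ t ∣ x - s) →
      (∃ s : ℤ, (s = 1 ∨ s = -1) ∧ t ∣ y - s) → ∃ s : ℤ, (s = 1 ∨ s = -1) ∧ t ∣ x * y - s := by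
    rintro x y ⟨s, hs, h1⟩ ⟨s', hs', h2⟩
    refine ⟨s * s', ?_, ?_⟩
    · rcases hs with rfl | rfl <;> rcases hs' with rfl | rfl <;> simp
    · have : x * y - s * s' = (x - s) * y + s * (y - s') := by ring
      rw [this]
      exact dvd_add (Dvd.dvd.mul_right h1 _) (Dvd.dvd.mul_left h2 _)
  have hone : ∃ s : ℤ, (s = 1 ∨ s = -1) ∧ t ∣ (1 : ℤ) - s := ⟨1, Or.inl rfl, by simp⟩
  refine Finset.prod_induction (fun i => q i ^ c i)
    (fun x => ∃ s : ℤ, (s = 1 ∨ s = -1) ∧ t ∣ x - s) hmul hone ?_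
  intro i _
  by_cases hi : c i = 0
  · rw [hi, pow_zero]; exact hone
  have hbase : ∃ s : ℤ, (s = 1 ∨ s = -1) ∧ t ∣ q i - s := by
    rcases h i hi with h1 | h1
    · exact ⟨1, Or.inl rfl, h1⟩
    · exact ⟨-1, Or.inr rfl, by rwa [sub_neg_eq_add]⟩
  clear hi
  induction c i with
  | zero => rw [pow_zero]; exact hone
  | succ k ih =>
    rw [pow_succ]
    exact hmul _ _ ih hbase

theorem pow_dvd_of_mul {p m S : ℕ} (hp : p.Prime) {x y : ℤ} (hx : x ≠ 0) (hxS : |x| ≤ 2 ^ S)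
    (h : (p : ℤ) ^ m ∣ x * y) : (p : ℤ) ^ (m - S) ∣ y := by
  have h1 : p ^ m ∣ x.natAbs * y.natAbs := by
    have := Int.natAbs_dvd_natAbs.mpr h
    rwa [Int.natAbs_mul, Int.natAbs_pow, Int.natAbs_natCast] at this
  obtain ⟨k₁, k₂, hk₁, hk₂, hk⟩ := (dvd_mul).mp h1
  obtain ⟨i, hi, rfl⟩ := (Nat.dvd_prime_pow hp).mp (Dvd.intro _ hk.symm)
  have hk₂' : k₂ = p ^ (m - i) := by
    have hpi : 0 < p ^ i := pow_pos hp.pos _
    have h2 : p ^ i * k₂ = p ^ i * p ^ (m - i) := by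
      rw [← hk, ← pow_add]
      congr 1
      omega
    exact Nat.eq_of_mul_eq_mul_left hpi h2
  have hiS : i ≤ S := by
    have h2 := Nat.le_of_dvd (Int.natAbs_pos.mpr hx) hk₁
    have h3 : (x.natAbs : ℤ) ≤ 2 ^ S := by rwa [Int.natCast_natAbs]
    have h4 : x.natAbs ≤ 2 ^ S := by exact_mod_cast h3
    have h5 : 2 ^ i ≤ p ^ i := Nat.pow_le_pow_left hp.two_le _
    exact (Nat.pow_le_pow_iff_right (by norm_num)).mp (h5.trans (h2.trans h4))
  have h6 : p ^ (m - S) ∣ y.natAbs := (pow_dvd_pow p (by omega)).trans (hk₂' ▸ hk₂)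
  exact Int.natCast_dvd.mpr h6 |> fun h => by exact_mod_cast h

/-- **The exponents are bounded by a power of the logarithm.** -/
theorem exps (n : ℕ) : ∃ C κ : ℕ, ∀ t S : ℕ, 16 ≤ t → 1 ≤ S → ∀ (q : Fin n → ℤ)
    (l b c : Fin n → ℕ) (α β γ : ℤ), (∀ i, 2 ≤ |q i|) → (∀ i, |q i| ≤ 2 ^ S) →
    α ≠ 0 → β ≠ 0 → γ ≠ 0 → |α| ≤ 2 ^ S → |β| ≤ 2 ^ S → |γ| ≤ 2 ^ S → |β| + |γ| < t →
    (∀ i, l i ≠ 0 → (t : ℤ) ∣ q i) → (∀ i, b i ≠ 0 → (t : ℤ) ∣ q i - 1 ∨ (t : ℤ) ∣ q i + 1) →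
    (∀ i, c i ≠ 0 → (t : ℤ) ∣ q i - 1 ∨ (t : ℤ) ∣ q i + 1) →
    α * ∏ i, q i ^ l i + β * ∏ i, q i ^ b i = γ * ∏ i, q i ^ c i →
    ∑ i, l i + ∑ i, b i + ∑ i, c i ≤ C * S ^ κ := by
  obtain ⟨C1, κ1, hpad⟩ := padic n
  obtain ⟨κ2, g0, harch⟩ := arch n
  obtain ⟨C', κ', hgrow⟩ := grow (2 * ((6 + C1) + 2 * (6 + C1) + 2 + 2 * (1 + g0) ^ κ2) + 2)
    (κ1 + κ2 + 2)
  refine ⟨C', κ', ?_⟩
  intro t S ht hS q l b c α β γ hq2 hqS hα hβ hγ hαS hβS hγS hβγ hl hb hc heq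
  obtain ⟨m, hm⟩ : ∃ m, m = ∑ i, l i := ⟨_, rfl⟩
  obtain ⟨E, hE⟩ : ∃ E, E = ∑ i, l i + ∑ i, b i + ∑ i, c i := ⟨_, rfl⟩
  obtain ⟨L, hL⟩ : ∃ L, L = Nat.log 2 E + 1 := ⟨_, rfl⟩
  have hEL : E < 2 ^ L := by
    rw [hL]
    exact Nat.lt_pow_succ_log_self (by norm_num) _
  have hLE : 2 ^ L ≤ 2 * E + 2 := by
    rcases Nat.eq_zero_or_pos E with h0 | h0
    · rw [hL, h0]; simp
    · have := Nat.pow_log_le_self 2 h0.ne'
      rw [hL, pow_succ]
      omega
  have hbi : ∀ i, b i ≤ 2 ^ L := fun i => by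
    have := Finset.single_le_sum (f := b) (fun _ _ => Nat.zero_le _) (Finset.mem_univ i)
    omega
  have hci : ∀ i, c i ≤ 2 ^ L := fun i => by
    have := Finset.single_le_sum (f := c) (fun _ _ => Nat.zero_le _) (Finset.mem_univ i)
    omega
  obtain ⟨u, hu⟩ : ∃ u, u = ∏ i, q i ^ c i := ⟨_, rfl⟩
  obtain ⟨v, hv⟩ : ∃ v, v = ∏ i, q i ^ b i := ⟨_, rfl⟩
  obtain ⟨a, ha⟩ : ∃ a, a = α * ∏ i, q i ^ l i := ⟨_, rfl⟩
  have hq0 : ∀ i, q i ≠ 0 := fun i h => by
    have := hq2 i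
    rw [h, abs_zero] at this
    omega
  have hpp0 : ∀ e : Fin n → ℕ, ∏ i, q i ^ e i ≠ 0 := fun e =>
    Finset.prod_ne_zero_iff.mpr fun i _ => pow_ne_zero _ (hq0 i)
  have ha0 : a ≠ 0 := by rw [ha]; exact mul_ne_zero hα (hpp0 l)
  have hu0 : u ≠ 0 := by rw [hu]; exact hpp0 c
  have hv0 : v ≠ 0 := by rw [hv]; exact hpp0 b
  have haeq : a = γ * u - β * v := by rw [ha, hu, hv]; linarith
  have habs : ∀ e : Fin n → ℕ, |∏ i, q i ^ e i| = ((∏ i, (q i).natAbs ^ e i : ℕ) : ℤ) := by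
    intro e
    rw [Finset.abs_prod]
    push_cast
    apply Finset.prod_congr rfl
    intro i _
    rw [abs_pow]
  have hQ2 : ∀ i, 2 ≤ (q i).natAbs := fun i => by
    have h1 := hq2 i
    rw [← Int.natCast_natAbs] at h1
    exact_mod_cast h1
  have hQS : ∀ i, (q i).natAbs ≤ 2 ^ S := fun i => by
    have h1 : ((q i).natAbs : ℤ) ≤ 2 ^ S := by rw [Int.natCast_natAbs]; exact hqS i
    exact_mod_cast h1
  -- the `p`-adic bound
  have hmb : m ≤ 3 * S + 2 + C1 * (S + L) ^ κ1 := by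
    rcases Nat.eq_zero_or_pos m with h0 | h0
    · omega
    obtain ⟨p, hp, hpt, hpadic⟩ := hpad t ht
    have hpt' : (p : ℤ) ∣ t := Int.natCast_dvd_natCast.mpr hpt
    have hpp : Prime (p : ℤ) := Nat.prime_iff_prime_int.mp hp
    obtain ⟨i0, hi0⟩ : ∃ i, l i ≠ 0 := by
      by_contra hcon
      push Not at hcon
      rw [hm, Finset.sum_eq_zero fun i _ => hcon i] at h0
      omega
    have hta : (t : ℤ) ∣ a := by
      rw [ha]
      apply Dvd.dvd.mul_left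
      exact ((hl i0 hi0).trans (dvd_pow_self _ hi0)).trans (Finset.dvd_prod_of_mem _ (Finset.mem_univ i0))
    obtain ⟨s, hs, hs1⟩ := unit_prod (t := (t : ℤ)) hc
    obtain ⟨s', hs', hs1'⟩ := unit_prod (t := (t : ℤ)) hb
    rw [← hu] at hs1
    rw [← hv] at hs1'
    have hgb : γ * s = β * s' := by
      have h1 : (t : ℤ) ∣ γ * s - β * s' := by
        have : γ * s - β * s' = a - γ * (u - s) + β * (v - s') := by rw [haeq]; ring
        rw [this]
        exact dvd_add (dvd_sub hta (Dvd.dvd.mul_left hs1 _)) (Dvd.dvd.mul_left hs1' _)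
      by_contra hne
      have h2 := Int.le_of_dvd (abs_pos.mpr (sub_ne_zero.mpr hne)) ((dvd_abs _ _).mpr h1)
      have h3 : |γ * s - β * s'| ≤ |γ| + |β| := by
        refine (abs_sub _ _).trans (le_of_eq ?_)
        rw [abs_mul, abs_mul]
        have e1 : |s| = 1 := by rcases hs with rfl | rfl <;> simp
        have e2 : |s'| = 1 := by rcases hs' with rfl | rfl <;> simp
        rw [e1, e2, mul_one, mul_one]
      omega
    have hs2 : s * s = 1 := by rcases hs with rfl | rfl <;> norm_num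
    have hs2' : s' * s' = 1 := by rcases hs' with rfl | rfl <;> norm_num
    have hgb2 : γ ^ 2 = β ^ 2 := by
      have : (γ * s) * (γ * s) = (β * s') * (β * s') := by rw [hgb]
      linear_combination this + (-γ ^ 2) * hs2 + β ^ 2 * hs2'
    have hpm : (p : ℤ) ^ m ∣ a := by
      rw [ha]
      apply Dvd.dvd.mul_left
      rw [hm, ← Finset.prod_pow_eq_pow_sum]
      apply Finset.prod_dvd_prod_of_dvd
      intro i _
      by_cases hi : l i = 0
      · rw [hi, pow_zero, pow_zero]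
      · exact pow_dvd_pow_of_dvd (hpt'.trans (hl i hi)) _
    by_cases huv : u ^ 2 = v ^ 2
    · have h1 : (γ * u - β * v) * (γ * u + β * v) = 0 := by
        linear_combination γ ^ 2 * huv + v ^ 2 * hgb2
      have h2 : γ * u + β * v = 0 := by
        rcases mul_eq_zero.mp h1 with h3 | h3
        · exact absurd (haeq.trans h3) ha0
        · exact h3
      have h3 : a = (2 * γ) * u := by rw [haeq]; linarith
      have hpu : ¬ (p : ℤ) ∣ u := by
        intro h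
        have h4 : (p : ℤ) ∣ s := by
          have := dvd_sub h (hpt'.trans hs1)
          rwa [sub_sub_cancel] at this
        have h5 : (p : ℤ) ∣ 1 := by
          rw [← hs2]
          exact Dvd.dvd.mul_left h4 _
        exact hpp.not_dvd_one h5
      rw [h3] at hpm
      have h6 : (p : ℤ) ^ m ∣ 2 * γ := (hpp.pow_dvd_of_dvd_mul_right m hpu hpm)
      have h7 := Int.le_of_dvd (abs_pos.mpr (mul_ne_zero two_ne_zero hγ)) ((dvd_abs _ _).mpr h6)
      have h8 : |2 * γ| ≤ 2 ^ (S + 1) := by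
        rw [abs_mul, pow_succ]
        have : |(2 : ℤ)| = 2 := by norm_num
        rw [this]
        linarith
      have h9 : (2 : ℤ) ^ m ≤ (p : ℤ) ^ m :=
        pow_le_pow_left₀ (by norm_num) (by exact_mod_cast hp.two_le) _
      have h10 : m ≤ S + 1 := by
        by_contra hcon
        have h11 : (2 : ℤ) ^ (S + 1) < 2 ^ m := pow_lt_pow_right₀ (by norm_num) (by omega)
        linarith
      have : 0 ≤ C1 * (S + L) ^ κ1 := Nat.zero_le _
      omega
    · have h1 : (p : ℤ) ^ m ∣ γ ^ 2 * (u ^ 2 - v ^ 2) := by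
        have : γ ^ 2 * (u ^ 2 - v ^ 2) = a * (γ * u + β * v) := by
          rw [haeq]
          linear_combination (-v ^ 2) * hgb2
        rw [this]
        exact Dvd.dvd.mul_right hpm _
      have h2 := pow_dvd_of_mul (S := 2 * S) hp (pow_ne_zero 2 hγ) (by
        rw [abs_pow]
        calc |γ| ^ 2 ≤ (2 ^ S) ^ 2 := pow_le_pow_left₀ (abs_nonneg _) hγS 2
          _ = 2 ^ (2 * S) := by rw [← pow_mul, mul_comm]) h1
      classical
      obtain ⟨Q', hQ'⟩ : ∃ Q' : Fin n → ℕ, ∀ i, Q' i =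
          if (t : ℤ) ∣ q i - 1 ∨ (t : ℤ) ∣ q i + 1 then (q i).natAbs else 1 := ⟨_, fun i => rfl⟩
      have hprod : ∀ e : Fin n → ℕ, (∀ i, e i ≠ 0 → (t : ℤ) ∣ q i - 1 ∨ (t : ℤ) ∣ q i + 1) →
          ∏ i, Q' i ^ e i = ∏ i, (q i).natAbs ^ e i := by
        intro e he
        apply Finset.prod_congr rfl
        intro i _
        by_cases hi : e i = 0
        · rw [hi, pow_zero, pow_zero]
        · rw [hQ' i, if_pos (he i hi)]
      have habsQ : ∀ e : Fin n → ℕ, (∀ i, e i ≠ 0 → (t : ℤ) ∣ q i - 1 ∨ (t : ℤ) ∣ q i + 1) →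
          (∏ i, (Q' i : ℤ) ^ e i) = |∏ i, q i ^ e i| := by
        intro e he
        rw [habs e, ← hprod e he]
        push_cast
        rfl
      have h3 := hpadic (S + L) (by omega) Q' b c (m - 2 * S)
        (fun i => by
          rw [hQ' i]
          split_ifs
          · have := hQ2 i; omega
          · norm_num)
        (fun i => by
          rw [hQ' i]
          split_ifs with hi
          · rw [Int.natCast_natAbs, sq_abs]
            have : q i ^ 2 - 1 = (q i - 1) * (q i + 1) := by ring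
            rw [this]
            rcases hi with h4 | h4
            · exact Dvd.dvd.mul_right h4 _
            · exact Dvd.dvd.mul_left h4 _
          · simp)
        (fun i => by
          rw [hQ' i]
          split_ifs
          · exact (hQS i).trans (Nat.pow_le_pow_right (by norm_num) (by omega))
          · exact Nat.one_le_pow _ _ (by norm_num))
        (fun i => (hbi i).trans (Nat.pow_le_pow_right (by norm_num) (by omega)))
        (fun i => (hci i).trans (Nat.pow_le_pow_right (by norm_num) (by omega)))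
        (by
          intro h4
          apply huv
          have h5 : (∏ i, (Q' i : ℤ) ^ c i) = ∏ i, (Q' i : ℤ) ^ b i := by exact_mod_cast h4
          rw [habsQ c hc, habsQ b hb, ← hu, ← hv] at h5
          rw [← sq_abs u, h5, sq_abs])
        (by
          rw [habsQ c hc, habsQ b hb, ← hu, ← hv, sq_abs, sq_abs]
          exact h2)
      omega
  -- the archimedean bound
  obtain ⟨W, hW⟩ : ∃ W, W = S * (1 + m) := ⟨_, rfl⟩
  have haW : |a| ≤ 2 ^ W := by
    rw [ha, abs_mul, habs]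
    have h1 : ∏ i, (q i).natAbs ^ l i ≤ 2 ^ (S * m) := by
      rw [hm, Finset.mul_sum, ← Finset.prod_pow_eq_pow_sum]
      apply Finset.prod_le_prod'
      intro i _
      rw [pow_mul]
      exact Nat.pow_le_pow_left (hQS i) _
    have h2 : ((∏ i, (q i).natAbs ^ l i : ℕ) : ℤ) ≤ 2 ^ (S * m) := by exact_mod_cast h1
    rw [hW, mul_add, mul_one, pow_add]
    exact mul_le_mul hαS h2 (by positivity) (by positivity)
  obtain ⟨G, hG⟩ : ∃ G, G = (S + L + g0) ^ κ2 := ⟨_, rfl⟩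
  have hxy : γ.natAbs * ∏ i, (q i).natAbs ^ c i ≤ 2 ^ (W + 1 + G) ∧
      β.natAbs * ∏ i, (q i).natAbs ^ b i ≤ 2 ^ (W + 1 + G) := by
    have ex : ((γ.natAbs * ∏ i, (q i).natAbs ^ c i : ℕ) : ℤ) = |γ * u| := by
      rw [abs_mul, hu, habs, Nat.cast_mul, Int.natCast_natAbs]
    have ey : ((β.natAbs * ∏ i, (q i).natAbs ^ b i : ℕ) : ℤ) = |β * v| := by
      rw [abs_mul, hv, habs, Nat.cast_mul, Int.natCast_natAbs]
    by_cases hne : γ.natAbs * ∏ i, (q i).natAbs ^ c i = β.natAbs * ∏ i, (q i).natAbs ^ b i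
    · have h1 : |γ * u| = |β * v| := by rw [← ex, ← ey, hne]
      have h2 : γ * u = -(β * v) := by
        rcases abs_eq_abs.mp h1 with h3 | h3
        · exfalso
          apply ha0
          rw [haeq, h3, sub_self]
        · exact h3
      have h3 : |γ * u| ≤ 2 ^ W := by
        have h4 : a = 2 * (γ * u) := by rw [haeq]; linarith
        rw [h4, abs_mul] at haW
        have : |(2 : ℤ)| = 2 := by norm_num
        rw [this] at haW
        have := abs_nonneg (γ * u)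
        linarith
      have h5 : γ.natAbs * ∏ i, (q i).natAbs ^ c i ≤ 2 ^ (W + 1 + G) := by
        have h6 : ((γ.natAbs * ∏ i, (q i).natAbs ^ c i : ℕ) : ℤ) ≤ 2 ^ W := by rw [ex]; exact h3
        have h7 : γ.natAbs * ∏ i, (q i).natAbs ^ c i ≤ 2 ^ W := by exact_mod_cast h6
        exact h7.trans (Nat.pow_le_pow_right (by norm_num) (by omega))
      exact ⟨h5, hne ▸ h5⟩
    · rw [hG]
      refine harch S L W (fun i => (q i).natAbs) b c β.natAbs γ.natAbs (Int.natAbs_pos.mpr hβ)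
        (Int.natAbs_pos.mpr hγ) ?_ ?_ (fun i => by have := hQ2 i; omega) hQS hbi hci hne ?_
      · have : (β.natAbs : ℤ) ≤ 2 ^ S := by rw [Int.natCast_natAbs]; exact hβS
        exact_mod_cast this
      · have : (γ.natAbs : ℤ) ≤ 2 ^ S := by rw [Int.natCast_natAbs]; exact hγS
        exact_mod_cast this
      · rw [ex, ey]
        refine (abs_abs_sub_abs_le_abs_sub _ _).trans ?_
        rw [← haeq]
        exact haW
  have hsc : ∑ i, c i ≤ W + 1 + G := by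
    have h1 := two_pow_sum_le (e := c) hQ2
    have h2 : ∏ i, (q i).natAbs ^ c i ≤ γ.natAbs * ∏ i, (q i).natAbs ^ c i :=
      Nat.le_mul_of_pos_left _ (Int.natAbs_pos.mpr hγ)
    exact (Nat.pow_le_pow_iff_right (by norm_num)).mp (h1.trans (h2.trans hxy.1))
  have hsb : ∑ i, b i ≤ W + 1 + G := by
    have h1 := two_pow_sum_le (e := b) hQ2
    have h2 : ∏ i, (q i).natAbs ^ b i ≤ β.natAbs * ∏ i, (q i).natAbs ^ b i :=
      Nat.le_mul_of_pos_left _ (Int.natAbs_pos.mpr hβ)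
    exact (Nat.pow_le_pow_iff_right (by norm_num)).mp (h1.trans (h2.trans hxy.2))
  -- collecting
  obtain ⟨R, hR⟩ : ∃ R, R = S + L := ⟨_, rfl⟩
  have hL1 : 1 ≤ L := by omega
  have hR1 : 1 ≤ R := by omega
  have hSR : S ≤ R := by omega
  rw [← hR] at hmb hG
  have hp1 : ∀ {j k : ℕ}, j ≤ k → R ^ j ≤ R ^ k := fun h => Nat.pow_le_pow_right hR1 h
  obtain ⟨Z, hZ⟩ : ∃ Z, Z = R ^ (κ1 + κ2 + 2) := ⟨_, rfl⟩
  have hm2 : m + 1 ≤ (6 + C1) * R ^ (κ1 + 1) := by
    have h1 : R ≤ R ^ (κ1 + 1) := by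
      calc R = R ^ 1 := (pow_one R).symm
        _ ≤ _ := hp1 (by omega)
    have h2 : C1 * R ^ κ1 ≤ C1 * R ^ (κ1 + 1) := Nat.mul_le_mul_left _ (hp1 (by omega))
    have h3 : (6 + C1) * R ^ (κ1 + 1) = 6 * R ^ (κ1 + 1) + C1 * R ^ (κ1 + 1) := by ring
    omega
  have hW2 : W ≤ (6 + C1) * Z := by
    rw [hW, hZ]
    calc S * (1 + m) ≤ R * ((6 + C1) * R ^ (κ1 + 1)) := Nat.mul_le_mul hSR (by omega)
      _ = (6 + C1) * R ^ (κ1 + 2) := by ring
      _ ≤ _ := Nat.mul_le_mul_left _ (hp1 (by omega))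
  have hm3 : m ≤ (6 + C1) * Z := by
    calc m ≤ (6 + C1) * R ^ (κ1 + 1) := by omega
      _ ≤ (6 + C1) * Z := by
        rw [hZ]
        exact Nat.mul_le_mul_left _ (hp1 (by omega))
  have hG2 : G ≤ (1 + g0) ^ κ2 * Z := by
    rw [hG, hZ]
    calc (R + g0) ^ κ2 ≤ ((1 + g0) * R) ^ κ2 := Nat.pow_le_pow_left (by nlinarith) _
      _ = (1 + g0) ^ κ2 * R ^ κ2 := by rw [mul_pow]
      _ ≤ _ := Nat.mul_le_mul_left _ (hp1 (by omega))
  have hZ1 : 1 ≤ Z := by rw [hZ]; exact Nat.one_le_pow _ _ hR1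
  have hEb : E ≤ (6 + C1 + 2 * (6 + C1) + 2 + 2 * (1 + g0) ^ κ2) * Z := by
    have e : (6 + C1 + 2 * (6 + C1) + 2 + 2 * (1 + g0) ^ κ2) * Z =
        (6 + C1) * Z + 2 * ((6 + C1) * Z) + 2 * Z + 2 * ((1 + g0) ^ κ2 * Z) := by ring
    rw [e, hE]
    omega
  have hfin := hgrow S L hS hL1 (by
    rw [← hR, ← hZ]
    calc 2 ^ L ≤ 2 * E + 2 := hLE
      _ ≤ 2 * ((6 + C1 + 2 * (6 + C1) + 2 + 2 * (1 + g0) ^ κ2) * Z) + 2 * Z := by omega
      _ = _ := by ring)
  rw [← hE]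
  exact hEL.le.trans hfin

end Pool.Agent.Q103.SD
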