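import Mathlib
import Pool.Agent.Q103.SD.Main
import Pool.Agent.Q103.SD.Exps
import Pool.Agent.Q103.FC.Poly

/-!
# Three-term relations between numbers with small digits
-/

set_option autoImplicit false

namespace Pool.Agent.Q103.SD

open Polynomial Finset Filter

theorem uniform_le {P : ℕ → ℕ → ℕ → Prop} (hP : ∀ n C κ C' κ', C ≤ C' → κ ≤ κ' → P n C κ → P n C' κ')
    (h : ∀ n, ∃ C κ, P n C κ) (K : ℕ) : ∃ C κ, ∀ n, n ≤ K → P n C κ := by
  induction K with
  | zero =>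
    obtain ⟨C, κ, h0⟩ := h 0
    exact ⟨C, κ, fun n hn => by obtain rfl : n = 0 := by omega
                                exact h0⟩
  | succ K ih =>
    obtain ⟨C, κ, h1⟩ := ih
    obtain ⟨C', κ', h2⟩ := h (K + 1)
    refine ⟨C + C', κ + κ', fun n hn => ?_⟩
    rcases Nat.lt_or_ge K n with h3 | h3
    · obtain rfl : n = K + 1 := by omega
      exact hP _ _ _ _ _ (by omega) (by omega) h2
    · exact hP _ _ _ _ _ (by omega) (by omega) (h1 n h3)

theorem ev_poly (C κ k : ℕ) {δ : ℝ} (hδ : 0 < δ) :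
    ∀ᶠ t : ℕ in atTop, ((C * (k * (Nat.log 2 t + 1)) ^ κ + 1 : ℕ) : ℝ) ≤ (t : ℝ) ^ δ := by
  obtain ⟨δ', hδ'⟩ : ∃ δ' : ℝ, δ' = δ / (2 * (κ + 1)) := ⟨_, rfl⟩
  have hδ0 : 0 < δ' := by rw [hδ']; positivity
  have hw : Tendsto (fun t : ℕ => (t : ℝ) ^ (δ / 2)) atTop atTop :=
    (tendsto_rpow_atTop (by positivity)).comp tendsto_natCast_atTop_atTop
  have hw' : Tendsto (fun t : ℕ => (t : ℝ) ^ δ') atTop atTop :=
    (tendsto_rpow_atTop hδ0).comp tendsto_natCast_atTop_atTop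
  have h1 := (isLittleO_log_rpow_atTop hδ0).bound (show (0 : ℝ) < 1 / (4 * (k + 1)) by positivity)
  have h2 := tendsto_natCast_atTop_atTop.eventually h1
  filter_upwards [h2, hw.eventually_ge_atTop ((C : ℝ) + 1), hw'.eventually_ge_atTop (2 * (k : ℝ)),
    eventually_ge_atTop 1] with t ht h3 h4 ht1
  have ht1' : (1 : ℝ) ≤ t := by exact_mod_cast ht1
  have ht0 : (0 : ℝ) < t := by linarith
  rw [Real.norm_of_nonneg (Real.log_nonneg ht1'), Real.norm_of_nonneg (by positivity)] at ht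
  have hlog : (Nat.log 2 t : ℝ) ≤ 2 * Real.log t := by
    have g3 : (2 : ℝ) ^ (Nat.log 2 t) ≤ t := by
      exact_mod_cast Nat.pow_log_le_self 2 (by omega)
    have g4 := Real.log_le_log (by positivity) g3
    rw [Real.log_pow] at g4
    have hlog2 : (0.6931471803 : ℝ) < Real.log 2 := Real.log_two_gt_d9
    have hl : (0 : ℝ) ≤ (Nat.log 2 t : ℝ) := by positivity
    nlinarith
  have hk : (k : ℝ) * ((Nat.log 2 t : ℝ) + 1) ≤ (t : ℝ) ^ δ' := by
    have hk0 : (0 : ℝ) ≤ k := by positivity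
    have h5 : (k : ℝ) * (Nat.log 2 t : ℝ) ≤ (t : ℝ) ^ δ' / 2 := by
      calc (k : ℝ) * (Nat.log 2 t : ℝ) ≤ k * (2 * (1 / (4 * (k + 1)) * (t : ℝ) ^ δ')) :=
            mul_le_mul_of_nonneg_left (hlog.trans (by linarith)) hk0
        _ = (k / (k + 1)) * ((t : ℝ) ^ δ' / 2) := by field_simp; norm_num
        _ ≤ 1 * ((t : ℝ) ^ δ' / 2) := by
            apply mul_le_mul_of_nonneg_right _ (by positivity)
            rw [div_le_one (by positivity)]
            linarith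
        _ = _ := one_mul _
    linarith
  have hpow : ((k : ℝ) * ((Nat.log 2 t : ℝ) + 1)) ^ κ ≤ (t : ℝ) ^ (δ / 2) := by
    calc ((k : ℝ) * ((Nat.log 2 t : ℝ) + 1)) ^ κ ≤ ((t : ℝ) ^ δ') ^ κ :=
          pow_le_pow_left₀ (by positivity) hk κ
      _ = (t : ℝ) ^ (δ' * κ) := by rw [Real.rpow_mul_natCast ht0.le]
      _ ≤ _ := by
        apply Real.rpow_le_rpow_of_exponent_le ht1'
        rw [hδ', div_mul_eq_mul_div, div_le_div_iff₀ (by positivity) (by norm_num)]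
        have hκ : (0 : ℝ) ≤ κ := by positivity
        nlinarith
  push_cast
  have h6 : (1 : ℝ) ≤ (t : ℝ) ^ (δ / 2) := Real.one_le_rpow ht1' (by positivity)
  calc (C : ℝ) * ((k : ℝ) * ((Nat.log 2 t : ℝ) + 1)) ^ κ + 1
      ≤ C * (t : ℝ) ^ (δ / 2) + (t : ℝ) ^ (δ / 2) :=
        add_le_add (mul_le_mul_of_nonneg_left hpow (by positivity)) h6
    _ = (C + 1) * (t : ℝ) ^ (δ / 2) := by ring
    _ ≤ (t : ℝ) ^ (δ / 2) * (t : ℝ) ^ (δ / 2) := mul_le_mul_of_nonneg_right h3 (by positivity)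
    _ = (t : ℝ) ^ δ := by rw [← Real.rpow_add ht0]; congr 1; ring

theorem sizeZ : SizeFn (fun x : ℤ => |(x : ℝ)|) where
  nonneg := fun x => abs_nonneg _
  zero := by simp
  one := by simp
  add := fun x y => by push_cast; exact abs_add_le _ _
  mul := fun x y => by push_cast; exact (abs_mul _ _).le

theorem smallZ {t : ℕ} (x : ℤ) (h : (t : ℤ) ∣ x) (hx : |(x : ℝ)| < t) : x = 0 := by
  by_contra hne
  have h1 := Int.le_of_dvd (abs_pos.mpr hne) ((dvd_abs _ _).mpr h)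
  have h2 : |x| < t := by exact_mod_cast hx
  omega

/-- size of the value of a polynomial with small coefficients -/
theorem value_size {P : ℤ[X]} {B : ℝ} {t : ℕ} (ht : 2 ≤ t) (hB : 0 ≤ B) (hBt : 4 * B ≤ t)
    (h : ∀ n, |(P.coeff n : ℝ)| ≤ B) (hP : P ≠ 0) :
    (t : ℝ) ^ P.natDegree / 2 ≤ |((P.eval (t : ℤ) : ℤ) : ℝ)| ∧
      |((P.eval (t : ℤ) : ℤ) : ℝ)| ≤ (B + 1 / 2) * (t : ℝ) ^ P.natDegree := by
  have hT : (2 : ℝ) ≤ t := by exact_mod_cast ht
  have hT0 : (0 : ℝ) < t := by linarith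
  have hs := Pool.Agent.Q103.FC.size hT hB h
  rw [Pool.Agent.Q103.FC.eval_real] at hs
  obtain ⟨v, hv⟩ : ∃ v : ℝ, v = ((P.eval (t : ℤ) : ℤ) : ℝ) := ⟨_, rfl⟩
  rw [← hv] at hs ⊢
  obtain ⟨w, hw⟩ : ∃ w : ℝ, w = (t : ℝ) ^ P.natDegree := ⟨_, rfl⟩
  rw [← hw] at hs ⊢
  have hw0 : 0 < w := by rw [hw]; positivity
  have hl : P.leadingCoeff ≠ 0 := leadingCoeff_ne_zero.mpr hP
  have hl1 : 1 ≤ |(P.leadingCoeff : ℝ)| := by exact_mod_cast Int.one_le_abs hl
  have hl2 : |(P.leadingCoeff : ℝ)| ≤ B := h _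
  have h1 : |v - P.leadingCoeff * w| ≤ w / 2 := by
    have h2 : 2 * B * w ≤ (w / 2) * t := by nlinarith
    exact le_of_mul_le_mul_right (hs.trans h2) hT0
  have h3 : |(P.leadingCoeff : ℝ) * w| = |(P.leadingCoeff : ℝ)| * w := by
    rw [abs_mul, abs_of_pos hw0]
  have h4 := abs_sub_abs_le_abs_sub ((P.leadingCoeff : ℝ) * w) v
  have h5 := abs_sub_abs_le_abs_sub v ((P.leadingCoeff : ℝ) * w)
  rw [abs_sub_comm] at h4
  rw [h3] at h4 h5
  constructor
  · nlinarith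
  · nlinarith

/-- The hypotheses on the bases, the coefficients and the exponents. -/
structure Data (t : ℕ) (K : ℕ) (H : ℝ) {n : ℕ} (F : Fin n → ℤ[X]) (α β γ : ℤ)
    (l b c : Fin n → ℕ) : Prop where
  pos : ∀ i, 0 < (F i).natDegree
  deg : ∑ i, (F i).natDegree ≤ K
  coeff : ∀ i j, |((F i).coeff j : ℝ)| ≤ H
  unit : ∀ i, |(F i).coeff 0| ≤ 1
  α0 : α ≠ 0
  β0 : β ≠ 0
  γ0 : γ ≠ 0
  αH : |(α : ℝ)| ≤ H
  βH : |(β : ℝ)| ≤ H
  γH : |(γ : ℝ)| ≤ H
  l0 : ∀ i, l i ≠ 0 → (F i).coeff 0 = 0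
  b0 : ∀ i, b i ≠ 0 → (F i).coeff 0 ≠ 0
  c0 : ∀ i, c i ≠ 0 → (F i).coeff 0 ≠ 0

/-- **Three-term relations come from identities.** -/
theorem three (K : ℕ) : ∃ δ : ℝ, 0 < δ ∧ δ ≤ 1 / 2 ∧ ∃ t₀ : ℕ, 64 ≤ t₀ ∧ ∀ t : ℕ, t₀ ≤ t →
    ∀ (n : ℕ) (F : Fin n → ℤ[X]) (α β γ : ℤ) (l b c : Fin n → ℕ),
      Data t K ((t : ℝ) ^ δ) F α β γ l b c →
      α * ∏ i, (F i).eval (t : ℤ) ^ l i + β * ∏ i, (F i).eval (t : ℤ) ^ b i =
        γ * ∏ i, (F i).eval (t : ℤ) ^ c i →
      C α * ∏ i, F i ^ l i + C β * ∏ i, F i ^ b i = C γ * ∏ i, F i ^ c i := by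
  obtain ⟨Cc, κ, hexp⟩ := uniform_le (P := fun n C κ => ∀ t S : ℕ, 16 ≤ t → 1 ≤ S →
    ∀ (q : Fin n → ℤ) (l b c : Fin n → ℕ) (α β γ : ℤ), (∀ i, 2 ≤ |q i|) → (∀ i, |q i| ≤ 2 ^ S) →
    α ≠ 0 → β ≠ 0 → γ ≠ 0 → |α| ≤ 2 ^ S → |β| ≤ 2 ^ S → |γ| ≤ 2 ^ S → |β| + |γ| < t →
    (∀ i, l i ≠ 0 → (t : ℤ) ∣ q i) → (∀ i, b i ≠ 0 → (t : ℤ) ∣ q i - 1 ∨ (t : ℤ) ∣ q i + 1) →
    (∀ i, c i ≠ 0 → (t : ℤ) ∣ q i - 1 ∨ (t : ℤ) ∣ q i + 1) →
    α * ∏ i, q i ^ l i + β * ∏ i, q i ^ b i = γ * ∏ i, q i ^ c i →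
    ∑ i, l i + ∑ i, b i + ∑ i, c i ≤ C * S ^ κ) (by
      intro n C κ C' κ' hC hκ h t S ht hS q l b c α β γ h1 h2 h3 h4 h5 h6 h7 h8 h9 h10 h11 h12 h13
      refine (h t S ht hS q l b c α β γ h1 h2 h3 h4 h5 h6 h7 h8 h9 h10 h11 h12 h13).trans ?_
      exact Nat.mul_le_mul hC (Nat.pow_le_pow_right hS hκ)) exps K
  obtain ⟨J, hJ⟩ : ∃ J, J = JJ K 3 := ⟨_, rfl⟩
  obtain ⟨δ, hδ⟩ : ∃ δ : ℝ, δ = 1 / (2 * (1 + 2 * J)) := ⟨_, rfl⟩
  have hδ0 : 0 < δ := by rw [hδ]; positivity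
  have hδ1 : δ ≤ 1 / 2 := by
    rw [hδ, div_le_div_iff₀ (by positivity) (by norm_num)]
    have : (0 : ℝ) ≤ J := by positivity
    linarith
  obtain ⟨t₁, ht₁⟩ := eventually_atTop.mp (ev_poly Cc κ (K + 1) hδ0)
  refine ⟨δ, hδ0, hδ1, max t₁ 64, le_max_right _ _, ?_⟩
  intro t ht n F α β γ l b c hD heq
  have ht64 : 64 ≤ t := (le_max_right _ _).trans ht
  have hN := ht₁ t ((le_max_left _ _).trans ht)
  have htR : (64 : ℝ) ≤ t := by exact_mod_cast ht64
  have ht0 : (0 : ℝ) < t := by linarith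
  obtain ⟨B, hB⟩ : ∃ B : ℝ, B = (t : ℝ) ^ δ := ⟨_, rfl⟩
  rw [← hB] at hD hN
  have hB1 : 1 ≤ B := by rw [hB]; exact Real.one_le_rpow (by linarith) hδ0.le
  obtain ⟨r, hr⟩ : ∃ r : ℝ, r = (t : ℝ) ^ (1 / 2 : ℝ) := ⟨_, rfl⟩
  have hrr : r * r = t := by
    rw [hr, ← Real.rpow_add ht0]
    norm_num
  have hr8 : 8 ≤ r := by
    have hr0 : 0 ≤ r := by rw [hr]; positivity
    nlinarith
  have hBr : B ≤ r := by
    rw [hB, hr]
    exact Real.rpow_le_rpow_of_exponent_le (by linarith) hδ1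
  have hBt : 4 * B ≤ t := by nlinarith
  have hBt2 : B + B < t := by nlinarith
  obtain ⟨q, hq⟩ : ∃ q : Fin n → ℤ, ∀ i, q i = (F i).eval (t : ℤ) := ⟨_, fun i => rfl⟩
  have hF0 : ∀ i, F i ≠ 0 := fun i h => by
    have := hD.pos i
    rw [h, natDegree_zero] at this
    omega
  have hval := fun i => value_size (t := t) (by omega) (by linarith) hBt (hD.coeff i) (hF0 i)
  have hdegK : ∀ i, (F i).natDegree ≤ K := fun i =>
    (Finset.single_le_sum (f := fun i => (F i).natDegree) (fun _ _ => Nat.zero_le _)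
      (Finset.mem_univ i)).trans hD.deg
  have hnK : n ≤ K := by
    calc n = ∑ _i : Fin n, 1 := by simp
      _ ≤ ∑ i, (F i).natDegree := Finset.sum_le_sum fun i _ => hD.pos i
      _ ≤ K := hD.deg
  obtain ⟨S, hS⟩ : ∃ S, S = (K + 1) * (Nat.log 2 t + 1) := ⟨_, rfl⟩
  have hS1 : 1 ≤ S := by rw [hS]; exact Nat.mul_pos (by omega) (by omega)
  have htS : t ^ (K + 1) ≤ 2 ^ S := by
    rw [hS, mul_comm, pow_mul]
    exact Nat.pow_le_pow_left (Nat.lt_pow_succ_log_self (by norm_num) _).le _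
  have htSZ : (t : ℤ) ^ (K + 1) ≤ 2 ^ S := by exact_mod_cast htS
  have httK : (t : ℤ) ≤ (t : ℤ) ^ (K + 1) := by
    have h1 : (1 : ℤ) ≤ t := by exact_mod_cast (show 1 ≤ t by omega)
    exact le_self_pow₀ h1 (by omega)
  have hcoefS : ∀ x : ℤ, |(x : ℝ)| ≤ B → |x| ≤ 2 ^ S := by
    intro x hx
    have h1 : |(x : ℝ)| ≤ t := hx.trans (by linarith)
    have h2 : |x| ≤ t := by exact_mod_cast h1
    exact h2.trans (httK.trans htSZ)
  have hq2 : ∀ i, 2 ≤ |q i| := by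
    intro i
    have h1 := (hval i).1
    rw [← hq i] at h1
    have h2 : (t : ℝ) ≤ (t : ℝ) ^ (F i).natDegree := le_self_pow₀ (by linarith) (hD.pos i).ne'
    have h3 : (2 : ℝ) ≤ |(q i : ℝ)| := by linarith
    exact_mod_cast h3
  have hqS : ∀ i, |q i| ≤ 2 ^ S := by
    intro i
    have h1 := (hval i).2
    rw [← hq i] at h1
    have h2 : (B + 1 / 2) * (t : ℝ) ^ (F i).natDegree ≤ (t : ℝ) ^ (K + 1) := by
      calc (B + 1 / 2) * (t : ℝ) ^ (F i).natDegree ≤ t * (t : ℝ) ^ K := by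
            apply mul_le_mul (by nlinarith) _ (by positivity) (by linarith)
            exact pow_le_pow_right₀ (by linarith) (hdegK i)
        _ = _ := by ring
    have h3 : |(q i : ℝ)| ≤ (t : ℝ) ^ (K + 1) := h1.trans h2
    have h4 : |q i| ≤ (t : ℤ) ^ (K + 1) := by exact_mod_cast h3
    exact h4.trans htSZ
  have hmod : ∀ i, (t : ℤ) ∣ q i - (F i).coeff 0 := by
    intro i
    have h2 : ((t : ℤ) - 0) ∣ (F i).eval (t : ℤ) - (F i).eval 0 := sub_dvd_eval_sub _ _ _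
    rwa [← coeff_zero_eq_eval_zero, ← hq i, sub_zero] at h2
  have hunit : ∀ i, (F i).coeff 0 ≠ 0 → (t : ℤ) ∣ q i - 1 ∨ (t : ℤ) ∣ q i + 1 := by
    intro i hi
    have h1 := hD.unit i
    have h2 := abs_le.mp h1
    have h3 : (F i).coeff 0 = 1 ∨ (F i).coeff 0 = -1 := by omega
    have h4 := hmod i
    rcases h3 with h3 | h3
    · left; rwa [h3] at h4
    · right; rwa [h3, sub_neg_eq_add] at h4
  have heq' : α * ∏ i, q i ^ l i + β * ∏ i, q i ^ b i = γ * ∏ i, q i ^ c i := by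
    simp only [hq]
    exact heq
  have hE := hexp n hnK t S (by omega) hS1 q l b c α β γ hq2 hqS hD.α0 hD.β0 hD.γ0 (hcoefS _ hD.αH)
    (hcoefS _ hD.βH) (hcoefS _ hD.γH) (by
      have h1 : |(β : ℝ)| + |(γ : ℝ)| < t := by
        have := hD.βH
        have := hD.γH
        linarith
      exact_mod_cast h1)
    (fun i hi => by
      have := hmod i
      rwa [hD.l0 i hi, sub_zero] at this)
    (fun i hi => hunit i (hD.b0 i hi)) (fun i hi => hunit i (hD.c0 i hi)) heq'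
  obtain ⟨N, hNd⟩ : ∃ N, N = Cc * S ^ κ + 1 := ⟨_, rfl⟩
  have hNB : (N : ℝ) ≤ B := by rw [hNd, hS]; exact hN
  have hqne : ∀ i, q i ≠ 0 := fun i h => by
    have := hq2 i
    rw [h, abs_zero] at this
    omega
  have hev : ∀ (η : ℤ) (e : Fin n → ℕ), (PP F η e).eval (t : ℤ) = η * ∏ i, q i ^ e i := by
    intro η e
    rw [eval_PP]
    simp only [hq]
  have hevne : ∀ (η : ℤ) (e : Fin n → ℕ), η ≠ 0 → (PP F η e).eval (t : ℤ) ≠ 0 := by
    intro η e hη
    rw [hev]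
    exact mul_ne_zero hη (Finset.prod_ne_zero_iff.mpr fun i _ => pow_ne_zero _ (hqne i))
  have hid := identity (A := ℤ) (κ := Fin n) (ι := Fin 3) sizeZ (t := (t : ℤ))
    (by exact_mod_cast (show t ≠ 0 by omega)) (T := (t : ℝ)) (fun x h1 h2 => smallZ x h1 h2) hF0
    (D := K) hD.deg (H := B) hB1
    (fun i => by
      have h1 := hD.unit i
      show |((F i).coeff 0 : ℝ)| ≤ 1
      exact_mod_cast h1)
    hD.coeff (α := ![α, β, -γ])
    (by
      intro k
      fin_cases k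
      · exact hD.α0
      · exact hD.β0
      · exact neg_ne_zero.mpr hD.γ0)
    (by
      intro k
      fin_cases k
      · exact hD.αH
      · exact hD.βH
      · show |((-γ : ℤ) : ℝ)| ≤ B
        push_cast
        rw [abs_neg]
        exact hD.γH)
    ![l, b, c] (N := N) (by omega)
    (by
      intro k
      fin_cases k
      · show ∑ i, l i ≤ N
        omega
      · show ∑ i, b i ≤ N
        omega
      · show ∑ i, c i ≤ N
        omega)
    (by
      rw [Fintype.card_fin, ← hJ]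
      have h1 : ((3 : ℕ) : ℝ) * B * (N * B) ^ J ≤ 3 * B * (B * B) ^ J := by
        push_cast
        apply mul_le_mul_of_nonneg_left _ (by positivity)
        apply pow_le_pow_left₀ (by positivity)
        exact mul_le_mul_of_nonneg_right hNB (by linarith)
      have h2 : B * (B * B) ^ J = r := by
        have : B * (B * B) ^ J = B ^ (1 + 2 * J) := by
          rw [pow_add, pow_mul, pow_one, sq]
        rw [this, hB, hr, ← Real.rpow_mul_natCast ht0.le]
        congr 1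
        rw [hδ]
        push_cast
        field_simp
      have h3 : 3 * B * (B * B) ^ J = 3 * r := by rw [mul_assoc, h2]
      rw [h3] at h1
      refine h1.trans_lt ?_
      nlinarith)
    (by
      rw [Fin.sum_univ_three]
      show (PP F α l).eval (t : ℤ) + (PP F β b).eval (t : ℤ) + (PP F (-γ) c).eval (t : ℤ) = 0
      rw [hev, hev, hev]
      linarith)
    1
    (by
      show ¬ (t : ℤ) ∣ (PP F β b).eval (t : ℤ)
      rw [hev]
      obtain ⟨s, hs, hs1⟩ := unit_prod (t := (t : ℤ)) (fun i (hi : b i ≠ 0) => hunit i (hD.b0 i hi))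
      intro h
      have h1 : (t : ℤ) ∣ β * s := by
        have : β * s = β * ∏ i, q i ^ b i - β * (∏ i, q i ^ b i - s) := by ring
        rw [this]
        exact dvd_sub h (Dvd.dvd.mul_left hs1 _)
      have h2 : β * s = 0 := by
        apply smallZ _ h1
        push_cast
        rw [abs_mul]
        have : |(s : ℝ)| = 1 := by rcases hs with rfl | rfl <;> simp
        rw [this, mul_one]
        have := hD.βH
        linarith
      rcases mul_eq_zero.mp h2 with h3 | h3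
      · exact hD.β0 h3
      · rcases hs with rfl | rfl <;> norm_num at h3)
    (by
      intro T hT hTu hsum
      have hA := hevne α l hD.α0
      have hBn := hevne β b hD.β0
      have hCn := hevne (-γ) c (neg_ne_zero.mpr hD.γ0)
      have htot : (PP F α l).eval (t : ℤ) + (PP F β b).eval (t : ℤ) +
          (PP F (-γ) c).eval (t : ℤ) = 0 := by
        rw [hev, hev, hev]
        linarith
      obtain ⟨X0, hX0⟩ : ∃ X0, X0 = (PP F α l).eval (t : ℤ) := ⟨_, rfl⟩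
      obtain ⟨X1, hX1⟩ : ∃ X1, X1 = (PP F β b).eval (t : ℤ) := ⟨_, rfl⟩
      obtain ⟨X2, hX2⟩ : ∃ X2, X2 = (PP F (-γ) c).eval (t : ℤ) := ⟨_, rfl⟩
      rw [← hX0] at hA htot
      rw [← hX1] at hBn htot
      rw [← hX2] at hCn htot
      have hfun : ∀ k : Fin 3, (PP F (![α, β, -γ] k) (![l, b, c] k)).eval (t : ℤ) = ![X0, X1, X2] k := by
        intro k
        fin_cases k
        · exact hX0.symm
        · exact hX1.symm
        · exact hX2.symm
      simp only [hfun] at hsum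
      clear hfun hX0 hX1 hX2
      revert hsum hT hTu
      have hall : ∀ T : Finset (Fin 3), T.Nonempty → T ≠ Finset.univ →
          ∑ k ∈ T, ![X0, X1, X2] k = 0 → False := by
        intro T hT hTu hsum
        have hcases : T = {0} ∨ T = {1} ∨ T = {2} ∨ T = {0, 1} ∨ T = {0, 2} ∨ T = {1, 2} := by
          revert hT hTu
          clear hsum
          revert T
          decide
        rcases hcases with rfl | rfl | rfl | rfl | rfl | rfl
        · simp at hsum; exact hA hsum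
        · simp at hsum; exact hBn hsum
        · simp at hsum; exact hCn hsum
        · rw [Finset.sum_pair (by decide)] at hsum
          simp at hsum
          apply hCn
          linarith
        · rw [Finset.sum_pair (by decide)] at hsum
          simp at hsum
          apply hBn
          linarith
        · rw [Finset.sum_pair (by decide)] at hsum
          simp at hsum
          apply hA
          linarith
      exact hall T)
  rw [Fin.sum_univ_three] at hid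
  have hid' : PP F α l + PP F β b + PP F (-γ) c = 0 := hid
  unfold PP at hid'
  rw [C_neg] at hid'
  linear_combination hid'

end Pool.Agent.Q103.SD
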