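import Mathlib
import Pool.Agent.Q103.SD.Three

/-!
# The size of the terms of a three-term relation between numbers with small digits
-/

set_option autoImplicit false

namespace Pool.Agent.Q103.SD

open Polynomial Finset Filter

/-- the product of the distinct primes dividing `n` -/
def rad (n : ℤ) : ℕ := ∏ p ∈ n.natAbs.primeFactors, p

/-- the bases that occur -/
def used {n : ℕ} (l b c : Fin n → ℕ) : Finset (Fin n) :=
  Finset.univ.filter (fun i => l i ≠ 0 ∨ b i ≠ 0 ∨ c i ≠ 0)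

theorem coprime_poly {t K : ℕ} {H : ℝ} {n : ℕ} {F : Fin n → ℤ[X]} {α β γ : ℤ} {l b c : Fin n → ℕ}
    (hD : Data t K H F α β γ l b c) (hH : 1 ≤ H) (hHt : H + 3 ≤ t)
    (hcop : IsCoprime (α * ∏ i, (F i).eval (t : ℤ) ^ l i) (β * ∏ i, (F i).eval (t : ℤ) ^ b i)) :
    IsCoprime ((C α * ∏ i, F i ^ l i).map (Int.castRingHom ℚ))
      ((C β * ∏ i, F i ^ b i).map (Int.castRingHom ℚ)) := by
  have hF0 : ∀ i, F i ≠ 0 := fun i h => by
    have := hD.pos i
    rw [h, natDegree_zero] at this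
    omega
  have hα : ((α : ℤ) : ℚ) ≠ 0 := by exact_mod_cast hD.α0
  have hβ : ((β : ℤ) : ℚ) ≠ 0 := by exact_mod_cast hD.β0
  rw [Polynomial.map_mul, Polynomial.map_mul, map_C, map_C, Polynomial.map_prod,
    Polynomial.map_prod]
  have hu1 : IsUnit (C ((Int.castRingHom ℚ) α)) := isUnit_C.mpr (isUnit_iff_ne_zero.mpr hα)
  have hu2 : IsUnit (C ((Int.castRingHom ℚ) β)) := isUnit_C.mpr (isUnit_iff_ne_zero.mpr hβ)
  rw [isCoprime_mul_unit_left_left hu1, isCoprime_mul_unit_left_right hu2]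
  apply IsCoprime.prod_left
  intro i _
  apply IsCoprime.prod_right
  intro j _
  rw [Polynomial.map_pow, Polynomial.map_pow]
  by_cases hi : l i = 0
  · rw [hi, pow_zero]; exact isCoprime_one_left
  by_cases hj : b j = 0
  · rw [hj, pow_zero]; exact isCoprime_one_right
  apply IsCoprime.pow
  refine Pool.Agent.Q103.FC.coprime_of_eval (hF0 i) (by linarith) (hD.coeff i) hHt ?_
  refine (hcop.of_isCoprime_of_dvd_left ?_).of_isCoprime_of_dvd_right ?_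
  · exact Dvd.dvd.mul_left ((dvd_pow_self _ hi).trans
      (Finset.dvd_prod_of_mem (fun i => (F i).eval (t : ℤ) ^ l i) (Finset.mem_univ i))) _
  · exact Dvd.dvd.mul_left ((dvd_pow_self _ hj).trans
      (Finset.dvd_prod_of_mem (fun i => (F i).eval (t : ℤ) ^ b i) (Finset.mem_univ j))) _

theorem radical_deg {n : ℕ} {F : Fin n → ℤ[X]} {U : Finset (Fin n)} {P : ℚ[X]} (hP : P ≠ 0)
    (hF0 : ∀ i, F i ≠ 0)
    (h : ∃ m, P ∣ (∏ i ∈ U, (F i).map (Int.castRingHom ℚ)) ^ m) :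
    (UniqueFactorizationMonoid.radical P).natDegree ≤ ∑ i ∈ U, (F i).natDegree := by
  have hinj : Function.Injective (Int.castRingHom ℚ) := Int.cast_injective
  have h1 := (UniqueFactorizationMonoid.exists_dvd_pow_iff_radical_dvd hP).mp h
  have h2 : ∏ i ∈ U, (F i).map (Int.castRingHom ℚ) ≠ 0 :=
    Finset.prod_ne_zero_iff.mpr fun i _ => (Polynomial.map_ne_zero_iff hinj).mpr (hF0 i)
  refine (natDegree_le_of_dvd h1 h2).trans ((natDegree_prod_le _ _).trans ?_)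
  apply Finset.sum_le_sum
  intro i _
  exact natDegree_map_le

/-- **The degrees in the identity.** -/
theorem degrees {t K : ℕ} {H : ℝ} {n : ℕ} {F : Fin n → ℤ[X]} {α β γ : ℤ} {l b c : Fin n → ℕ}
    (hD : Data t K H F α β γ l b c) (hH : 1 ≤ H) (hHt : H + 3 ≤ t)
    (hcop : IsCoprime (α * ∏ i, (F i).eval (t : ℤ) ^ l i) (β * ∏ i, (F i).eval (t : ℤ) ^ b i))
    (hid : C α * ∏ i, F i ^ l i + C β * ∏ i, F i ^ b i = C γ * ∏ i, F i ^ c i)
    (hU : (used l b c).Nonempty) :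
    ∑ i, l i * (F i).natDegree + 1 ≤ ∑ i ∈ used l b c, (F i).natDegree ∧
    ∑ i, b i * (F i).natDegree + 1 ≤ ∑ i ∈ used l b c, (F i).natDegree ∧
    ∑ i, c i * (F i).natDegree + 1 ≤ ∑ i ∈ used l b c, (F i).natDegree := by
  have hinj : Function.Injective (Int.castRingHom ℚ) := Int.cast_injective
  have hF0 : ∀ i, F i ≠ 0 := fun i h => by
    have := hD.pos i
    rw [h, natDegree_zero] at this
    omega
  have hco := coprime_poly hD hH hHt hcop
  have hnz : ∀ (η : ℤ) (e : Fin n → ℕ), η ≠ 0 →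
      (C η * ∏ i, F i ^ e i).map (Int.castRingHom ℚ) ≠ 0 := fun η e hη =>
    (Polynomial.map_ne_zero_iff hinj).mpr (mul_ne_zero (C_ne_zero.mpr hη)
      (Finset.prod_ne_zero_iff.mpr fun i _ => pow_ne_zero _ (hF0 i)))
  have hdeg : ∀ (η : ℤ) (e : Fin n → ℕ), η ≠ 0 →
      ((C η * ∏ i, F i ^ e i).map (Int.castRingHom ℚ)).natDegree = ∑ i, e i * (F i).natDegree := by
    intro η e hη
    rw [natDegree_map_eq_of_injective hinj, natDegree_C_mul hη,
      natDegree_prod _ _ (fun i _ => pow_ne_zero _ (hF0 i))]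
    apply Finset.sum_congr rfl
    intro i _
    rw [natDegree_pow]
  obtain ⟨P, hP⟩ : ∃ P, P = (C α * ∏ i, F i ^ l i).map (Int.castRingHom ℚ) := ⟨_, rfl⟩
  obtain ⟨Q, hQ⟩ : ∃ Q, Q = (C β * ∏ i, F i ^ b i).map (Int.castRingHom ℚ) := ⟨_, rfl⟩
  obtain ⟨R, hR⟩ : ∃ R, R = (C γ * ∏ i, F i ^ c i).map (Int.castRingHom ℚ) := ⟨_, rfl⟩
  have hsum : P + Q + -R = 0 := by
    rw [hP, hQ, hR, ← Polynomial.map_add, hid]
    ring
  have hP0 : P ≠ 0 := by rw [hP]; exact hnz α l hD.α0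
  have hQ0 : Q ≠ 0 := by rw [hQ]; exact hnz β b hD.β0
  have hR0 : R ≠ 0 := by rw [hR]; exact hnz γ c hD.γ0
  have hdvd : ∀ (η : ℤ) (e : Fin n → ℕ), η ≠ 0 → (∀ i, e i ≠ 0 → i ∈ used l b c) →
      (C η * ∏ i, F i ^ e i).map (Int.castRingHom ℚ) ∣
        (∏ i ∈ used l b c, (F i).map (Int.castRingHom ℚ)) ^ (∑ i, e i) := by
    intro η e hη he
    rw [Polynomial.map_mul, map_C, Polynomial.map_prod]
    have hη' : ((η : ℤ) : ℚ) ≠ 0 := by exact_mod_cast hη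
    have hu1 : IsUnit (C ((Int.castRingHom ℚ) η)) := isUnit_C.mpr (isUnit_iff_ne_zero.mpr hη')
    refine (hu1.mul_left_dvd).mpr ?_
    rw [← Finset.prod_pow_eq_pow_sum]
    apply Finset.prod_dvd_prod_of_dvd
    intro i _
    rw [Polynomial.map_pow]
    by_cases hi : e i = 0
    · rw [hi, pow_zero, pow_zero]
    · exact pow_dvd_pow_of_dvd (Finset.dvd_prod_of_mem _ (he i hi)) _
  have hrad : (UniqueFactorizationMonoid.radical (P * Q * -R)).natDegree ≤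
      ∑ i ∈ used l b c, (F i).natDegree := by
    refine radical_deg (mul_ne_zero (mul_ne_zero hP0 hQ0) (neg_ne_zero.mpr hR0)) hF0
      ⟨∑ i, l i + ∑ i, b i + ∑ i, c i, ?_⟩
    rw [pow_add, pow_add, mul_neg, neg_dvd, hP, hQ, hR]
    refine mul_dvd_mul (mul_dvd_mul ?_ ?_) ?_
    · exact hdvd α l hD.α0 fun i hi => Finset.mem_filter.mpr ⟨Finset.mem_univ _, Or.inl hi⟩
    · exact hdvd β b hD.β0 fun i hi => Finset.mem_filter.mpr ⟨Finset.mem_univ _, Or.inr (Or.inl hi)⟩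
    · exact hdvd γ c hD.γ0 fun i hi => Finset.mem_filter.mpr ⟨Finset.mem_univ _, Or.inr (Or.inr hi)⟩
  have hcoPQ : IsCoprime P Q := by rw [hP, hQ]; exact hco
  rcases Polynomial.abc hP0 hQ0 (neg_ne_zero.mpr hR0) hcoPQ hsum with ⟨h1, h2, h3⟩ | ⟨h1, h2, h3⟩
  · rw [natDegree_neg] at h3
    have e1 := hdeg α l hD.α0
    have e2 := hdeg β b hD.β0
    have e3 := hdeg γ c hD.γ0
    rw [← hP] at e1
    rw [← hQ] at e2
    rw [← hR] at e3
    omega
  · exfalso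
    rw [derivative_neg, neg_eq_zero] at h3
    obtain ⟨i, hi⟩ := hU
    have z1 := derivative_eq_zero.mp h1
    have z2 := derivative_eq_zero.mp h2
    have z3 := derivative_eq_zero.mp h3
    rw [hP, hdeg α l hD.α0] at z1
    rw [hQ, hdeg β b hD.β0] at z2
    rw [hR, hdeg γ c hD.γ0] at z3
    have hone : ∀ e : Fin n → ℕ, ∑ i, e i * (F i).natDegree = 0 → e i = 0 := by
      intro e he
      have h4 := (Finset.sum_eq_zero_iff.mp he) i (Finset.mem_univ i)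
      rcases Nat.mul_eq_zero.mp h4 with h5 | h5
      · exact h5
      · have := hD.pos i
        omega
    rcases (Finset.mem_filter.mp hi).2 with h4 | h4 | h4
    · exact h4 (hone l z1)
    · exact h4 (hone b z2)
    · exact h4 (hone c z3)

/-- size of a product of powers -/
theorem size_PP {t : ℕ} {B : ℝ} {n : ℕ} {F : Fin n → ℤ[X]} (ht : 2 ≤ t) (hB : 1 ≤ B)
    (hBt : 4 * B ≤ t) (hF : ∀ i j, |((F i).coeff j : ℝ)| ≤ B) (hpos : ∀ i, 0 < (F i).natDegree)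
    {η : ℤ} (hη : |(η : ℝ)| ≤ B) (e : Fin n → ℕ) {d : ℕ} (hd : ∑ i, e i * (F i).natDegree ≤ d) :
    |((η * ∏ i, (F i).eval (t : ℤ) ^ e i : ℤ) : ℝ)| ≤ B * ((2 * B) ^ d * (t : ℝ) ^ d) := by
  have hT : (2 : ℝ) ≤ t := by exact_mod_cast ht
  push_cast
  rw [abs_mul, Finset.abs_prod]
  have hF0 : ∀ i, F i ≠ 0 := fun i h => by
    have := hpos i
    rw [h, natDegree_zero] at this
    omega
  have h1 : ∏ i, |(((F i).eval (t : ℤ) : ℤ) : ℝ) ^ e i| ≤
      ∏ i, ((2 * B) ^ (e i * (F i).natDegree) * (t : ℝ) ^ (e i * (F i).natDegree)) := by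
    apply Finset.prod_le_prod (fun i _ => abs_nonneg _)
    intro i _
    have h2 := (value_size ht (by linarith) hBt (hF i) (hF0 i)).2
    rw [abs_pow, ← mul_pow, mul_comm (e i), pow_mul]
    apply pow_le_pow_left₀ (abs_nonneg _)
    refine h2.trans ?_
    rw [mul_pow]
    apply mul_le_mul_of_nonneg_right _ (by positivity)
    calc B + 1 / 2 ≤ 2 * B := by linarith
      _ ≤ (2 * B) ^ (F i).natDegree := le_self_pow₀ (by linarith) (hpos i).ne'
  have h2 : ∏ i, ((2 * B) ^ (e i * (F i).natDegree) * (t : ℝ) ^ (e i * (F i).natDegree)) ≤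
      (2 * B) ^ d * (t : ℝ) ^ d := by
    rw [Finset.prod_mul_distrib, Finset.prod_pow_eq_pow_sum, Finset.prod_pow_eq_pow_sum]
    apply mul_le_mul (pow_le_pow_right₀ (by linarith) hd) (pow_le_pow_right₀ (by linarith) hd)
      (by positivity) (by positivity)
  exact mul_le_mul hη (h1.trans h2) (Finset.prod_nonneg fun i _ => abs_nonneg _) (by linarith)

/-- lower bound for the product of the bases -/
theorem prod_lower {t : ℕ} {B : ℝ} {n : ℕ} {F : Fin n → ℤ[X]} (ht : 2 ≤ t) (hB : 0 ≤ B)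
    (hBt : 4 * B ≤ t) (hF : ∀ i j, |((F i).coeff j : ℝ)| ≤ B) (hpos : ∀ i, 0 < (F i).natDegree)
    {K : ℕ} (hK : ∑ i, (F i).natDegree ≤ K) (U : Finset (Fin n)) :
    (t : ℝ) ^ (∑ i ∈ U, (F i).natDegree) ≤ 2 ^ K * |((∏ i ∈ U, (F i).eval (t : ℤ) : ℤ) : ℝ)| := by
  have hT : (2 : ℝ) ≤ t := by exact_mod_cast ht
  have hF0 : ∀ i, F i ≠ 0 := fun i h => by
    have := hpos i
    rw [h, natDegree_zero] at this
    omega
  push_cast
  rw [Finset.abs_prod, ← Finset.prod_pow_eq_pow_sum]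
  have h1 : ∏ i ∈ U, (t : ℝ) ^ (F i).natDegree ≤ ∏ i ∈ U, (2 * |(((F i).eval (t : ℤ) : ℤ) : ℝ)|) := by
    apply Finset.prod_le_prod (fun i _ => by positivity)
    intro i _
    have := (value_size ht hB hBt (hF i) (hF0 i)).1
    linarith
  refine h1.trans ?_
  rw [Finset.prod_mul_distrib, Finset.prod_const]
  apply mul_le_mul_of_nonneg_right _ (Finset.prod_nonneg fun i _ => abs_nonneg _)
  apply pow_le_pow_right₀ (by norm_num)
  calc U.card = ∑ _i ∈ U, 1 := by simp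
    _ ≤ ∑ i ∈ U, (F i).natDegree := Finset.sum_le_sum fun i _ => hpos i
    _ ≤ ∑ i, (F i).natDegree := Finset.sum_le_univ_sum_of_nonneg fun _ => Nat.zero_le _
    _ ≤ K := hK

theorem rad_le {x y : ℤ} (hy : y ≠ 0) (h : ∀ p : ℕ, p.Prime → (p : ℤ) ∣ x → (p : ℤ) ∣ y) :
    rad x ≤ rad y := by
  unfold rad
  apply Finset.prod_le_prod_of_subset_of_one_le'
  · intro p hp
    have hp1 := Nat.prime_of_mem_primeFactors hp
    have hp2 := Nat.dvd_of_mem_primeFactors hp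
    rw [Nat.mem_primeFactors]
    refine ⟨hp1, ?_, Int.natAbs_ne_zero.mpr hy⟩
    exact Int.natCast_dvd.mp (h p hp1 (Int.natCast_dvd.mpr hp2))
  · intro p hp _
    exact (Nat.prime_of_mem_primeFactors hp).one_lt.le

/-- **Numbers with small digits: the inequality.** -/
theorem abc_size (K : ℕ) (ε : ℝ) (hε : 0 < ε) : ∃ δ : ℝ, 0 < δ ∧ ∃ t₀ : ℕ, ∀ t : ℕ, t₀ ≤ t →
    ∀ (n : ℕ) (F : Fin n → ℤ[X]) (α β γ : ℤ) (l b c : Fin n → ℕ),
      Data t K ((t : ℝ) ^ δ) F α β γ l b c →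
      IsCoprime (α * ∏ i, (F i).eval (t : ℤ) ^ l i) (β * ∏ i, (F i).eval (t : ℤ) ^ b i) →
      C α * ∏ i, F i ^ l i + C β * ∏ i, F i ^ b i = C γ * ∏ i, F i ^ c i →
      (used l b c).Nonempty →
      ∀ x : ℤ, x = α * ∏ i, (F i).eval (t : ℤ) ^ l i ∨ x = β * ∏ i, (F i).eval (t : ℤ) ^ b i ∨
          x = γ * ∏ i, (F i).eval (t : ℤ) ^ c i →
        |(x : ℝ)| * (t : ℝ) ^ (1 - ε) ≤ |((∏ i ∈ used l b c, (F i).eval (t : ℤ) : ℤ) : ℝ)| := by
  obtain ⟨δ, hδ⟩ : ∃ δ : ℝ, δ = min (1 / 2) (ε / (2 * (K + 1))) := ⟨_, rfl⟩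
  have hδ0 : 0 < δ := by rw [hδ]; exact lt_min (by norm_num) (by positivity)
  have hδ1 : δ ≤ 1 / 2 := by rw [hδ]; exact min_le_left _ _
  have hδ2 : δ * (K + 1) ≤ ε / 2 := by
    have h1 : δ ≤ ε / (2 * (K + 1)) := by rw [hδ]; exact min_le_right _ _
    calc δ * (K + 1) ≤ ε / (2 * (K + 1)) * (K + 1) := mul_le_mul_of_nonneg_right h1 (by positivity)
      _ = ε / 2 := by field_simp
  have hw : Tendsto (fun t : ℕ => (t : ℝ) ^ (ε / 2)) atTop atTop :=
    (tendsto_rpow_atTop (by positivity)).comp tendsto_natCast_atTop_atTop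
  obtain ⟨t₀, ht₀⟩ := eventually_atTop.mp
    ((hw.eventually_ge_atTop ((4 : ℝ) ^ K)).and (eventually_ge_atTop 64))
  refine ⟨δ, hδ0, t₀, ?_⟩
  intro t ht n F α β γ l b c hD hcop hid hU x hx
  obtain ⟨h4, ht64⟩ := ht₀ t ht
  have htR : (64 : ℝ) ≤ t := by exact_mod_cast ht64
  have ht0 : (0 : ℝ) < t := by linarith
  obtain ⟨B, hB⟩ : ∃ B : ℝ, B = (t : ℝ) ^ δ := ⟨_, rfl⟩
  rw [← hB] at hD
  have hB1 : 1 ≤ B := by rw [hB]; exact Real.one_le_rpow (by linarith) hδ0.le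
  obtain ⟨r, hr⟩ : ∃ r : ℝ, r = (t : ℝ) ^ (1 / 2 : ℝ) := ⟨_, rfl⟩
  have hrr : r * r = t := by
    rw [hr, ← Real.rpow_add ht0]
    norm_num
  have hr8 : 8 ≤ r := by
    have hr0 : 0 ≤ r := by rw [hr]; positivity
    nlinarith
  have hBr : B ≤ r := by
    rw [hB, hr]
    exact Real.rpow_le_rpow_of_exponent_le (by linarith) hδ1
  have hBt : 4 * B ≤ t := by nlinarith
  obtain ⟨d1, d2, d3⟩ := degrees hD hB1 (by nlinarith) hcop hid hU
  obtain ⟨d, hd⟩ : ∃ d, d + 1 = ∑ i ∈ used l b c, (F i).natDegree := by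
    refine ⟨∑ i ∈ used l b c, (F i).natDegree - 1, ?_⟩
    omega
  have hdK : d + 1 ≤ K := by
    rw [hd]
    exact (Finset.sum_le_univ_sum_of_nonneg fun _ => Nat.zero_le _).trans hD.deg
  have hxs : |(x : ℝ)| ≤ B * ((2 * B) ^ d * (t : ℝ) ^ d) := by
    rcases hx with rfl | rfl | rfl
    · exact size_PP (by omega) hB1 hBt hD.coeff hD.pos hD.αH l (by omega)
    · exact size_PP (by omega) hB1 hBt hD.coeff hD.pos hD.βH b (by omega)
    · exact size_PP (by omega) hB1 hBt hD.coeff hD.pos hD.γH c (by omega)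
  have hlow := prod_lower (t := t) (by omega) (by linarith) hBt hD.coeff hD.pos hD.deg (used l b c)
  rw [← hd] at hlow
  obtain ⟨Q, hQ⟩ : ∃ Q, Q = |((∏ i ∈ used l b c, (F i).eval (t : ℤ) : ℤ) : ℝ)| := ⟨_, rfl⟩
  rw [← hQ] at hlow ⊢
  have hBK : B ^ (K + 1) ≤ (t : ℝ) ^ (ε / 2) := by
    rw [hB, ← Real.rpow_mul_natCast ht0.le]
    apply Real.rpow_le_rpow_of_exponent_le (by linarith)
    push_cast
    exact hδ2
  have h5 : B * (2 * B) ^ d ≤ 2 ^ K * (t : ℝ) ^ (ε / 2) := by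
    calc B * (2 * B) ^ d = 2 ^ d * B ^ (d + 1) := by rw [mul_pow]; ring
      _ ≤ 2 ^ K * B ^ (K + 1) := by
          apply mul_le_mul (pow_le_pow_right₀ (by norm_num) (by omega))
            (pow_le_pow_right₀ hB1 (by omega)) (by positivity) (by positivity)
      _ ≤ _ := mul_le_mul_of_nonneg_left hBK (by positivity)
  have h6 : (t : ℝ) ^ (1 - ε) * ((t : ℝ) ^ (ε / 2) * (t : ℝ) ^ (ε / 2)) = t := by
    rw [← Real.rpow_add ht0, ← Real.rpow_add ht0]
    have : 1 - ε + (ε / 2 + ε / 2) = 1 := by ring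
    rw [this, Real.rpow_one]
  obtain ⟨τ, hτ⟩ : ∃ τ : ℝ, τ = (t : ℝ) ^ (ε / 2) := ⟨_, rfl⟩
  obtain ⟨τ', hτ'⟩ : ∃ τ' : ℝ, τ' = (t : ℝ) ^ (1 - ε) := ⟨_, rfl⟩
  rw [← hτ, ← hτ'] at h6
  rw [← hτ] at h4 h5
  rw [← hτ']
  have hτ0 : 0 < τ := by rw [hτ]; positivity
  have hτ'0 : 0 < τ' := by rw [hτ']; positivity
  have h7 : |(x : ℝ)| * τ' * 4 ^ K ≤ 4 ^ K * Q := by
    calc |(x : ℝ)| * τ' * 4 ^ K ≤ (B * ((2 * B) ^ d * (t : ℝ) ^ d)) * τ' * τ := by
          apply mul_le_mul _ h4 (by positivity) (by positivity)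
          exact mul_le_mul_of_nonneg_right hxs hτ'0.le
      _ = (B * (2 * B) ^ d) * (t : ℝ) ^ d * τ' * τ := by ring
      _ ≤ (2 ^ K * τ) * (t : ℝ) ^ d * τ' * τ := by
          apply mul_le_mul_of_nonneg_right _ hτ0.le
          apply mul_le_mul_of_nonneg_right _ hτ'0.le
          exact mul_le_mul_of_nonneg_right h5 (by positivity)
      _ = 2 ^ K * (t : ℝ) ^ (d + 1) := by
          rw [pow_succ]
          linear_combination (2 ^ K * (t : ℝ) ^ d) * h6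
      _ ≤ 2 ^ K * (2 ^ K * Q) := mul_le_mul_of_nonneg_left hlow (by positivity)
      _ = 4 ^ K * Q := by
          rw [← mul_assoc, ← mul_pow]
          norm_num
  have h8 : (0 : ℝ) < 4 ^ K := by positivity
  have h9 : 4 ^ K * (|(x : ℝ)| * τ') ≤ 4 ^ K * Q := by linarith
  exact le_of_mul_le_mul_left h9 h8

end Pool.Agent.Q103.SD
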