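import Mathlib
import Pool.Agent.Q103.SD.Places
import Pool.Agent.Q103.SD.Three

/-!
# Sizes from the leading coefficients
-/

set_option autoImplicit false

namespace Pool.Agent.Q103.SD

open Polynomial Finset

theorem reverse_prod {A : Type*} [CommRing A] [IsDomain A] {κ : Type*} (S : Finset κ) (F : κ → A[X])
    (e : κ → ℕ) : (∏ i ∈ S, F i ^ e i).reverse = ∏ i ∈ S, (F i).reverse ^ e i := by
  classical
  have hpow : ∀ (P : A[X]) (k : ℕ), (P ^ k).reverse = P.reverse ^ k := by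
    intro P k
    induction k with
    | zero => rw [pow_zero, pow_zero, ← C_1, reverse_C]
    | succ k ih => rw [pow_succ, pow_succ, reverse_mul_of_domain, ih]
  induction S using Finset.induction_on with
  | empty => rw [Finset.prod_empty, Finset.prod_empty, ← C_1, reverse_C]
  | insert i S hi ih =>
    rw [Finset.prod_insert hi, Finset.prod_insert hi, reverse_mul_of_domain, ih, hpow]

theorem reverse_PP {A : Type*} [CommRing A] [IsDomain A] {κ : Type*} [Fintype κ] (F : κ → A[X])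
    (α : A) (e : κ → ℕ) : (PP F α e).reverse = PP (fun i => (F i).reverse) α e := by
  unfold PP
  rw [reverse_mul_of_domain, reverse_C, reverse_prod]

/-- the coefficients from the top -/
theorem top_coeff {n : ℕ} {F : Fin n → ℤ[X]} {H : ℝ} (hH : 1 ≤ H)
    (hFH : ∀ i j, |((F i).coeff j : ℝ)| ≤ H) (hlc : ∀ i, |(F i).leadingCoeff| ≤ 1) {η : ℤ}
    (hη : |(η : ℝ)| ≤ H) (e : Fin n → ℕ) {N : ℕ} (hN : 1 ≤ N) (he : ∑ i, e i ≤ N) {D : ℕ}
    (hD : (PP F η e).natDegree ≤ D) (i : ℕ) (hi : i ≤ D) :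
    |((PP F η e).coeff i : ℝ)| ≤ H * (N * H) ^ (D - i) := by
  have hN1 : (1 : ℝ) ≤ N := by exact_mod_cast hN
  have hNH : 1 ≤ (N : ℝ) * H := by nlinarith
  rcases Nat.lt_or_ge (PP F η e).natDegree i with h | h
  · rw [coeff_eq_zero_of_natDegree_lt h]
    simp only [Int.cast_zero, abs_zero]
    positivity
  · obtain ⟨j, hj⟩ : ∃ j, j = (PP F η e).natDegree - i := ⟨_, rfl⟩
    have h1 : (PP F η e).coeff i = (PP F η e).reverse.coeff j := by
      rw [coeff_reverse, revAt_le (by omega)]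
      congr 1
      omega
    have hgeo : ∀ k, Geo (fun x : ℤ => |(x : ℝ)|) ((F k).reverse) H := by
      intro k m
      rcases Nat.eq_zero_or_pos m with rfl | hm
      · rw [pow_zero, coeff_zero_reverse]
        have h2 : |((F k).leadingCoeff : ℝ)| ≤ 1 := by exact_mod_cast hlc k
        exact h2
      · refine le_trans ?_ (le_self_pow₀ hH (by omega))
        show |(((F k).reverse.coeff m : ℤ) : ℝ)| ≤ H
        rw [coeff_reverse]
        exact hFH k _
    rw [h1, reverse_PP]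
    refine (coeff_PP sizeZ (fun i => (F i).reverse) η e (by linarith) hgeo j).trans ?_
    apply mul_le_mul hη _ (by positivity) (by linarith)
    refine (pow_le_pow_left₀ (by positivity) ?_ j).trans (pow_le_pow_right₀ hNH (by omega))
    apply mul_le_mul_of_nonneg_right _ (by linarith)
    exact_mod_cast he

theorem geo_sum {W T : ℝ} (hW : 0 ≤ W) (h : 2 * W ≤ T) (n : ℕ) :
    (∑ i ∈ range n, W ^ (n - i) * T ^ i) * T ≤ 2 * W * T ^ n := by
  have hT : 0 ≤ T := by linarith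
  induction n with
  | zero => simp; exact hW
  | succ n ih =>
    rw [Finset.sum_range_succ, add_mul]
    have e1 : ∑ i ∈ range n, W ^ (n + 1 - i) * T ^ i = W * ∑ i ∈ range n, W ^ (n - i) * T ^ i := by
      rw [Finset.mul_sum]
      apply Finset.sum_congr rfl
      intro i hi
      rw [Finset.mem_range] at hi
      rw [Nat.sub_add_comm hi.le, pow_succ]
      ring
    rw [e1, Nat.add_sub_cancel_left, pow_one]
    have h2 : W * (∑ i ∈ range n, W ^ (n - i) * T ^ i) * T ≤ W * (2 * W * T ^ n) := by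
      rw [mul_assoc]
      exact mul_le_mul_of_nonneg_left ih hW
    have h3 : W * (2 * W * T ^ n) ≤ W * T ^ (n + 1) := by
      rw [pow_succ]
      have h4 : 0 ≤ W * T ^ n := by positivity
      nlinarith
    have h5 : W * T ^ n * T = W * T ^ (n + 1) := by rw [pow_succ]; ring
    linarith

theorem eval_int_real (P : ℤ[X]) (t : ℕ) :
    ((P.eval (t : ℤ) : ℤ) : ℝ) = ∑ i ∈ range (P.natDegree + 1), (P.coeff i : ℝ) * (t : ℝ) ^ i := by
  rw [← Pool.Agent.Q103.FC.eval_real, eval_map, eval₂_eq_sum_range]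
  simp

theorem lower_part {P : ℤ[X]} {D : ℕ} {Y W : ℝ} {t : ℕ} (hY : 0 ≤ Y) (hW : 0 ≤ W)
    (hWt : 2 * W ≤ t) (h : ∀ i, i ≤ D → |(P.coeff i : ℝ)| ≤ Y * W ^ (D - i)) {n : ℕ} (hn : n ≤ D) :
    |∑ i ∈ range n, (P.coeff i : ℝ) * (t : ℝ) ^ i| * t ≤ Y * W ^ (D - n) * (2 * W * (t : ℝ) ^ n) := by
  have h1 : |∑ i ∈ range n, (P.coeff i : ℝ) * (t : ℝ) ^ i| ≤
      Y * W ^ (D - n) * ∑ i ∈ range n, W ^ (n - i) * (t : ℝ) ^ i := by
    rw [Finset.mul_sum]
    refine (Finset.abs_sum_le_sum_abs _ _).trans (Finset.sum_le_sum fun i hi => ?_)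
    rw [Finset.mem_range] at hi
    rw [abs_mul, abs_of_nonneg (by positivity : 0 ≤ (t : ℝ) ^ i)]
    refine (mul_le_mul_of_nonneg_right (h i (by omega)) (by positivity)).trans (le_of_eq ?_)
    have : D - i = (D - n) + (n - i) := by omega
    rw [this, pow_add]
    ring
  calc |∑ i ∈ range n, (P.coeff i : ℝ) * (t : ℝ) ^ i| * t
      ≤ (Y * W ^ (D - n) * ∑ i ∈ range n, W ^ (n - i) * (t : ℝ) ^ i) * t :=
        mul_le_mul_of_nonneg_right h1 (by positivity)
    _ = Y * W ^ (D - n) * ((∑ i ∈ range n, W ^ (n - i) * (t : ℝ) ^ i) * t) := by ring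
    _ ≤ _ := mul_le_mul_of_nonneg_left (geo_sum hW hWt n) (by positivity)

theorem top_lower {P : ℤ[X]} (hP : P ≠ 0) {D : ℕ} {Y W : ℝ} {t : ℕ} (hY : 0 ≤ Y) (hW : 0 ≤ W)
    (hWt : 2 * W ≤ t) (ht : 0 < t) (hD : P.natDegree ≤ D)
    (h : ∀ i, i ≤ D → |(P.coeff i : ℝ)| ≤ Y * W ^ (D - i))
    (hs : 4 * Y * W ^ (D - P.natDegree + 1) ≤ t) :
    (t : ℝ) ^ P.natDegree ≤ 2 * |((P.eval (t : ℤ) : ℤ) : ℝ)| := by
  have ht0 : (0 : ℝ) < t := by exact_mod_cast ht
  have h1 := lower_part hY hW hWt h hD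
  rw [eval_int_real, Finset.sum_range_succ]
  obtain ⟨Z, hZ⟩ : ∃ Z, Z = ∑ i ∈ range P.natDegree, (P.coeff i : ℝ) * (t : ℝ) ^ i := ⟨_, rfl⟩
  rw [← hZ] at h1 ⊢
  have hl : (1 : ℝ) ≤ |(P.coeff P.natDegree : ℝ)| := by
    have h2 : P.coeff P.natDegree ≠ 0 := by
      rw [coeff_natDegree]
      exact leadingCoeff_ne_zero.mpr hP
    exact_mod_cast Int.one_le_abs h2
  obtain ⟨w, hw⟩ : ∃ w, w = (t : ℝ) ^ P.natDegree := ⟨_, rfl⟩
  rw [← hw] at h1 ⊢
  have hw0 : 0 < w := by rw [hw]; positivity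
  have h3 : |Z| ≤ w / 2 := by
    have h4 : Y * W ^ (D - P.natDegree) * (2 * W * w) = 2 * Y * W ^ (D - P.natDegree + 1) * w := by
      rw [pow_succ]; ring
    rw [h4] at h1
    have h5 : 2 * Y * W ^ (D - P.natDegree + 1) * w ≤ w / 2 * t := by nlinarith
    exact le_of_mul_le_mul_right (h1.trans h5) ht0
  have h6 : |(P.coeff P.natDegree : ℝ) * w| = |(P.coeff P.natDegree : ℝ)| * w := by
    rw [abs_mul, abs_of_pos hw0]
  have h7 := abs_sub_abs_le_abs_sub ((P.coeff P.natDegree : ℝ) * w) (-Z)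
  rw [sub_neg_eq_add, abs_neg, h6] at h7
  have h8 : Z + (P.coeff P.natDegree : ℝ) * w = (P.coeff P.natDegree : ℝ) * w + Z := add_comm _ _
  rw [h8]
  nlinarith

theorem top_upper {P : ℤ[X]} {D : ℕ} {Y W : ℝ} {t : ℕ} (hY : 0 ≤ Y) (hW : 0 ≤ W)
    (hWt : 2 * W ≤ t) (ht : 0 < t) (hD : P.natDegree ≤ D)
    (h : ∀ i, i ≤ D → |(P.coeff i : ℝ)| ≤ Y * W ^ (D - i)) :
    |((P.eval (t : ℤ) : ℤ) : ℝ)| ≤ 2 * Y * (t : ℝ) ^ D := by
  have ht0 : (0 : ℝ) < t := by exact_mod_cast ht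
  have e : ((P.eval (t : ℤ) : ℤ) : ℝ) = ∑ i ∈ range D, (P.coeff i : ℝ) * (t : ℝ) ^ i +
      (P.coeff D : ℝ) * (t : ℝ) ^ D := by
    rw [← Finset.sum_range_succ (fun i => (P.coeff i : ℝ) * (t : ℝ) ^ i), eval_int_real]
    apply Finset.sum_subset (Finset.range_mono (by omega))
    intro i _ hi
    rw [Finset.mem_range, not_lt] at hi
    rw [coeff_eq_zero_of_natDegree_lt (by omega)]
    simp
  have h1 := lower_part hY hW hWt h (le_refl D)
  rw [Nat.sub_self, pow_zero, mul_one] at h1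
  have h2 := h D le_rfl
  rw [Nat.sub_self, pow_zero, mul_one] at h2
  rw [e]
  obtain ⟨Z, hZ⟩ : ∃ Z, Z = ∑ i ∈ range D, (P.coeff i : ℝ) * (t : ℝ) ^ i := ⟨_, rfl⟩
  rw [← hZ] at h1 ⊢
  obtain ⟨w, hw⟩ : ∃ w, w = (t : ℝ) ^ D := ⟨_, rfl⟩
  rw [← hw] at h1 ⊢
  have hw0 : 0 < w := by rw [hw]; positivity
  have h3 : |Z| ≤ Y * w := by
    have h5 : Y * (2 * W * w) ≤ Y * w * t := by
      have : 0 ≤ Y * w := by positivity
      nlinarith
    exact le_of_mul_le_mul_right (h1.trans h5) ht0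
  have h6 : |(P.coeff D : ℝ) * w| ≤ Y * w := by
    rw [abs_mul, abs_of_pos hw0]
    exact mul_le_mul_of_nonneg_right h2 hw0.le
  have h7 := abs_add_le Z ((P.coeff D : ℝ) * w)
  linarith

/-- the bottom: divisibility of the value by powers of a prime -/
theorem bottom {P : ℤ[X]} (hP : P ≠ 0) {p v t : ℕ} (ht : t = p ^ v)
    (hsmall : |(P.coeff P.natTrailingDegree : ℝ)| < t) {m : ℕ}
    (h : (p : ℤ) ^ m ∣ P.eval (t : ℤ)) :
    ((p : ℝ) ^ m) ≤ (t : ℝ) ^ P.natTrailingDegree * |(P.coeff P.natTrailingDegree : ℝ)| := by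
  obtain ⟨r, hr⟩ : ∃ r, r = P.natTrailingDegree := ⟨_, rfl⟩
  rw [← hr] at hsmall ⊢
  have hc : P.coeff r ≠ 0 := by
    rw [hr]
    exact trailingCoeff_nonzero_iff_nonzero.mpr hP
  have hc1 : (1 : ℝ) ≤ |(P.coeff r : ℝ)| := by exact_mod_cast Int.one_le_abs hc
  have ht0 : (t : ℝ) > 0 := by linarith
  have htne : t ≠ 0 := by
    rintro rfl
    simp at ht0
  obtain ⟨Q, hQ⟩ : X ^ r ∣ P := by
    rw [X_pow_dvd_iff]
    intro d hd
    exact coeff_eq_zero_of_lt_natTrailingDegree (by omega)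
  have hQ0 : Q.coeff 0 = P.coeff r := by
    rw [hQ]
    have := coeff_X_pow_mul Q r 0
    rw [zero_add] at this
    exact this.symm
  have hev : P.eval (t : ℤ) = (t : ℤ) ^ r * Q.eval (t : ℤ) := by
    rw [hQ, eval_mul, eval_pow, eval_X]
  have hmod : (t : ℤ) ∣ Q.eval (t : ℤ) - P.coeff r := by
    have h2 : ((t : ℤ) - 0) ∣ Q.eval (t : ℤ) - Q.eval 0 := sub_dvd_eval_sub _ _ _
    rwa [← coeff_zero_eq_eval_zero, sub_zero, hQ0] at h2
  have htr : (t : ℤ) ^ r = (p : ℤ) ^ (v * r) := by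
    rw [ht]
    push_cast
    rw [pow_mul]
  have hp0 : p ≠ 0 ∨ v = 0 := by
    by_contra hcon
    push Not at hcon
    rw [hcon.1, zero_pow hcon.2] at ht
    exact htne ht
  have htR : (t : ℝ) ^ r = (p : ℝ) ^ (v * r) := by
    rw [ht]
    push_cast
    rw [pow_mul]
  rcases Nat.eq_zero_or_pos p with hp | hp
  · have hv : v = 0 := by
      rcases hp0 with h1 | h1
      · exact absurd hp h1
      · exact h1
    rw [hp]
    rcases Nat.eq_zero_or_pos m with rfl | hm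
    · rw [pow_zero]
      have : (1 : ℝ) ≤ (t : ℝ) ^ r := by
        rw [ht, hv, pow_zero]; simp
      nlinarith
    · push_cast
      rw [zero_pow (by omega)]
      positivity
  have hp1 : (1 : ℝ) ≤ p := by exact_mod_cast hp
  rcases Nat.lt_or_ge (v * r) m with hlt | hge
  · obtain ⟨j, hj⟩ : ∃ j, m = v * r + j := ⟨m - v * r, by omega⟩
    rw [hev, htr, hj, pow_add] at h
    have h3 : (p : ℤ) ^ j ∣ Q.eval (t : ℤ) := by
      refine (mul_dvd_mul_iff_left (pow_ne_zero _ ?_)).mp h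
      exact_mod_cast hp.ne'
    rcases Nat.lt_or_ge v j with h4 | h4
    · exfalso
      have h5 : (t : ℤ) ∣ Q.eval (t : ℤ) := by
        refine dvd_trans ?_ h3
        rw [ht]
        push_cast
        exact pow_dvd_pow _ h4.le
      have h6 : (t : ℤ) ∣ P.coeff r := by
        have := dvd_sub h5 hmod
        rwa [sub_sub_cancel] at this
      exact hc (smallZ _ h6 hsmall)
    · have h5 : (p : ℤ) ^ j ∣ (t : ℤ) := by
        rw [ht]
        push_cast
        exact pow_dvd_pow _ h4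
      have h6 : (p : ℤ) ^ j ∣ P.coeff r := by
        have := dvd_sub h3 (h5.trans hmod)
        rwa [sub_sub_cancel] at this
      have h7 := Int.le_of_dvd (abs_pos.mpr hc) ((dvd_abs _ _).mpr h6)
      have h8 : (p : ℝ) ^ j ≤ |(P.coeff r : ℝ)| := by exact_mod_cast h7
      rw [hj, pow_add, ← htR]
      exact mul_le_mul_of_nonneg_left h8 (by positivity)
  · have h9 : (p : ℝ) ^ m ≤ (t : ℝ) ^ r := by
      rw [htR]
      exact pow_le_pow_right₀ hp1 hge
    have h10 : (0 : ℝ) < (t : ℝ) ^ r := by positivity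
    nlinarith

end Pool.Agent.Q103.SD
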