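import Mathlib
import Pool.Agent.Q103.SD.Top
import Pool.Agent.Q103.SD.Abc

/-!
# The difference of two products of powers of numbers with small digits
-/

set_option autoImplicit false

namespace Pool.Agent.Q103.SD

open Polynomial Finset Filter

/-- The hypotheses on the bases and the coefficients. -/
structure Data2 (t : ℕ) (K : ℕ) (H : ℝ) {n : ℕ} (F : Fin n → ℤ[X]) (β γ : ℤ) : Prop where
  pos : ∀ i, 0 < (F i).natDegree
  deg : ∑ i, (F i).natDegree ≤ K
  coeff : ∀ i j, |((F i).coeff j : ℝ)| ≤ H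
  unit : ∀ i, (F i).coeff 0 = 1 ∨ (F i).coeff 0 = -1
  lead : ∀ i, (F i).leadingCoeff = 1 ∨ (F i).leadingCoeff = -1
  β0 : β ≠ 0
  γ0 : γ ≠ 0
  βH : |(β : ℝ)| ≤ H
  γH : |(γ : ℝ)| ≤ H

/-- the bases that occur -/
def used2 {n : ℕ} (b c : Fin n → ℕ) : Finset (Fin n) :=
  Finset.univ.filter (fun i => b i ≠ 0 ∨ c i ≠ 0)

theorem small_case {p v t K : ℕ} (ht : t = p ^ v) {H : ℝ} {n : ℕ} {F : Fin n → ℤ[X]} {β γ : ℤ}
    (hD : Data2 t K H F β γ) (hH : 1 ≤ H) (ht16 : 16 ≤ t) (hHt : 4 * H ≤ t) (b c : Fin n → ℕ)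
    {N : ℕ} (hN : 1 ≤ N) (hb : ∑ i, b i ≤ N) (hc : ∑ i, c i ≤ N)
    (hs : 8 * H * (N * H) ^ (K + 1) ≤ t) {m : ℕ} {w : ℤ} (hw : w ≠ 0) (hp : p ≠ 0)
    (heq : γ * ∏ i, (F i).eval (t : ℤ) ^ c i - β * ∏ i, (F i).eval (t : ℤ) ^ b i = (p : ℤ) ^ m * w)
    (hU : (used2 b c).Nonempty) {x : ℤ}
    (hx : x = γ * ∏ i, (F i).eval (t : ℤ) ^ c i ∨ x = β * ∏ i, (F i).eval (t : ℤ) ^ b i) :
    |(x : ℝ)| ≤ 8 * H ^ 2 * (N * H) ^ K * 2 ^ K *
      (|(w : ℝ)| * |((∏ i ∈ used2 b c, (F i).eval (t : ℤ) : ℤ) : ℝ)|) := by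
  have hF0 : ∀ i, F i ≠ 0 := fun i h => by
    have := hD.pos i
    rw [h, natDegree_zero] at this
    omega
  have ht0 : (0 : ℝ) < t := by exact_mod_cast (show 0 < t by omega)
  have ht1 : (1 : ℝ) ≤ t := by exact_mod_cast (show 1 ≤ t by omega)
  have hN1 : (1 : ℝ) ≤ N := by exact_mod_cast hN
  obtain ⟨W, hW⟩ : ∃ W : ℝ, W = N * H := ⟨_, rfl⟩
  have hW1 : 1 ≤ W := by rw [hW]; nlinarith
  rw [← hW] at hs ⊢
  have hWK : W ≤ W ^ (K + 1) := le_self_pow₀ hW1 (by omega)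
  have hWt : 2 * W ≤ t := by
    have h1 : W ≤ H * W ^ (K + 1) := by
      have : 0 ≤ W ^ (K + 1) := by positivity
      nlinarith
    nlinarith
  obtain ⟨B, hB⟩ : ∃ B, B = PP F β b := ⟨_, rfl⟩
  obtain ⟨G, hG⟩ : ∃ G, G = PP F γ c := ⟨_, rfl⟩
  have hBe : B.eval (t : ℤ) = β * ∏ i, (F i).eval (t : ℤ) ^ b i := by rw [hB, eval_PP]
  have hGe : G.eval (t : ℤ) = γ * ∏ i, (F i).eval (t : ℤ) ^ c i := by rw [hG, eval_PP]
  have ha : (G - B).eval (t : ℤ) = (p : ℤ) ^ m * w := by rw [eval_sub, hBe, hGe, heq]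
  have ha0 : (G - B).eval (t : ℤ) ≠ 0 := by
    rw [ha]
    exact mul_ne_zero (pow_ne_zero _ (by exact_mod_cast hp)) hw
  have hGB : G ≠ B := by
    intro h
    apply ha0
    rw [h, sub_self, eval_zero]
  obtain ⟨P, hP⟩ : ∃ P, P = G - B := ⟨_, rfl⟩
  have hP0 : P ≠ 0 := by rw [hP]; exact sub_ne_zero.mpr hGB
  obtain ⟨d, hd⟩ : ∃ d, d = ∑ i ∈ used2 b c, (F i).natDegree := ⟨_, rfl⟩
  have hd0 : 0 < d := by
    obtain ⟨i, hi⟩ := hU
    rw [hd]
    exact lt_of_lt_of_le (hD.pos i)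
      (Finset.single_le_sum (f := fun i => (F i).natDegree) (fun _ _ => Nat.zero_le _) hi)
  have hdK : d ≤ K := by
    rw [hd]
    exact (Finset.sum_le_univ_sum_of_nonneg fun _ => Nat.zero_le _).trans hD.deg
  obtain ⟨h1, h2⟩ := two_places_PP hF0 hD.β0 hD.γ0 b c (used2 b c)
    (fun i hi => Finset.mem_filter.mpr ⟨Finset.mem_univ _, hi⟩) (by rw [← hd]; exact hd0)
    (by rw [← hB, ← hG]; exact hGB)
  rw [← hB, ← hG, ← hP, ← hd] at h1 h2
  have h2' := h2 fun i _ => by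
    rcases hD.unit i with h | h <;> rw [h] <;> norm_num
  obtain ⟨D, hDd⟩ : ∃ D, D = max B.natDegree G.natDegree := ⟨_, rfl⟩
  rw [← hDd] at h1 h2'
  have hBD : B.natDegree ≤ D := by rw [hDd]; exact le_max_left _ _
  have hGD : G.natDegree ≤ D := by rw [hDd]; exact le_max_right _ _
  have hPD : P.natDegree ≤ D := by
    rw [hP]
    exact (natDegree_sub_le _ _).trans (max_le hGD hBD)
  have hlc : ∀ i, |(F i).leadingCoeff| ≤ 1 := fun i => by
    rcases hD.lead i with h | h <;> rw [h] <;> norm_num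
  have hBc : ∀ i, i ≤ D → |(B.coeff i : ℝ)| ≤ H * W ^ (D - i) := fun i hi => by
    rw [hB, hW]
    exact top_coeff hH hD.coeff hlc hD.βH b hN hb (by rw [← hB]; exact hBD) i hi
  have hGc : ∀ i, i ≤ D → |(G.coeff i : ℝ)| ≤ H * W ^ (D - i) := fun i hi => by
    rw [hG, hW]
    exact top_coeff hH hD.coeff hlc hD.γH c hN hc (by rw [← hG]; exact hGD) i hi
  have hPc : ∀ i, i ≤ D → |(P.coeff i : ℝ)| ≤ (2 * H) * W ^ (D - i) := fun i hi => by
    rw [hP, coeff_sub]
    push_cast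
    refine (abs_sub _ _).trans ?_
    have := hBc i hi
    have := hGc i hi
    linarith
  have hlow := top_lower hP0 (D := D) (Y := 2 * H) (W := W) (t := t) (by linarith) (by linarith) hWt
    (by omega) hPD hPc (by
      refine le_trans ?_ hs
      have : W ^ (D - P.natDegree + 1) ≤ W ^ (K + 1) := pow_le_pow_right₀ hW1 (by omega)
      nlinarith)
  have hgeo : ∀ i, Geo (fun x : ℤ => |(x : ℝ)|) (F i) H := by
    intro i j
    rcases Nat.eq_zero_or_pos j with rfl | hj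
    · rw [pow_zero]
      show |((F i).coeff 0 : ℝ)| ≤ 1
      rcases hD.unit i with h | h <;> rw [h] <;> norm_num
    · exact (hD.coeff i j).trans (le_self_pow₀ hH (by omega))
  have hlowc : ∀ (η : ℤ) (e : Fin n → ℕ), |(η : ℝ)| ≤ H → ∑ i, e i ≤ N → ∀ j,
      |((PP F η e).coeff j : ℝ)| ≤ H * W ^ j := by
    intro η e hη he j
    refine (coeff_PP sizeZ F η e (by linarith) hgeo j).trans ?_
    apply mul_le_mul hη _ (by positivity) (by linarith)
    apply pow_le_pow_left₀ (by positivity)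
    rw [hW]
    apply mul_le_mul_of_nonneg_right _ (by linarith)
    exact_mod_cast he
  obtain ⟨r, hr⟩ : ∃ r, r = P.natTrailingDegree := ⟨_, rfl⟩
  have hrK : r ≤ K := by omega
  have hPr : |(P.coeff r : ℝ)| ≤ 2 * H * W ^ K := by
    rw [hP, coeff_sub, hB, hG]
    push_cast
    refine (abs_sub _ _).trans ?_
    have e1 := hlowc β b hD.βH hb r
    have e2 := hlowc γ c hD.γH hc r
    have e3 : W ^ r ≤ W ^ K := pow_le_pow_right₀ hW1 hrK
    nlinarith
  have hbot := bottom hP0 ht (by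
    rw [← hr]
    refine lt_of_le_of_lt hPr ?_
    have e4 : 2 * H * W ^ K ≤ 2 * H * W ^ (K + 1) :=
      mul_le_mul_of_nonneg_left (pow_le_pow_right₀ hW1 (by omega)) (by linarith)
    have e5 : 0 < H * W ^ (K + 1) := by positivity
    nlinarith) (m := m) (by rw [hP, ha]; exact dvd_mul_right _ _)
  rw [← hr] at hbot h2'
  have hxb : |(x : ℝ)| ≤ 2 * H * (t : ℝ) ^ D := by
    rcases hx with h | h
    · rw [h, ← hGe]
      exact top_upper (by linarith) (by linarith) hWt (by omega) hGD hGc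
    · rw [h, ← hBe]
      exact top_upper (by linarith) (by linarith) hWt (by omega) hBD hBc
  have hQ := prod_lower (t := t) (B := H) (by omega) (by linarith) hHt hD.coeff hD.pos hD.deg
    (used2 b c)
  rw [← hd] at hQ
  obtain ⟨Q, hQd⟩ : ∃ Q, Q = |((∏ i ∈ used2 b c, (F i).eval (t : ℤ) : ℤ) : ℝ)| := ⟨_, rfl⟩
  rw [← hQd] at hQ ⊢
  have haabs : |((P.eval (t : ℤ) : ℤ) : ℝ)| = (p : ℝ) ^ m * |(w : ℝ)| := by
    rw [hP, ha]
    push_cast
    rw [abs_mul, abs_of_nonneg (by positivity : (0 : ℝ) ≤ (p : ℝ) ^ m)]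
  rw [haabs] at hlow
  have hr0 : (0 : ℝ) < (t : ℝ) ^ r := by positivity
  have hfin : (t : ℝ) ^ r * |(x : ℝ)| ≤ (t : ℝ) ^ r *
      (8 * H ^ 2 * W ^ K * 2 ^ K * (|(w : ℝ)| * Q)) := by
    calc (t : ℝ) ^ r * |(x : ℝ)| ≤ (t : ℝ) ^ r * (2 * H * (t : ℝ) ^ D) :=
          mul_le_mul_of_nonneg_left hxb hr0.le
      _ = 2 * H * (t : ℝ) ^ (r + D) := by rw [pow_add]; ring
      _ ≤ 2 * H * (t : ℝ) ^ (P.natDegree + d) :=
          mul_le_mul_of_nonneg_left (pow_le_pow_right₀ ht1 h2') (by linarith)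
      _ = 2 * H * (t : ℝ) ^ d * (t : ℝ) ^ P.natDegree := by rw [pow_add]; ring
      _ ≤ 2 * H * (t : ℝ) ^ d * (2 * ((p : ℝ) ^ m * |(w : ℝ)|)) :=
          mul_le_mul_of_nonneg_left hlow (by positivity)
      _ = 4 * H * |(w : ℝ)| * (t : ℝ) ^ d * (p : ℝ) ^ m := by ring
      _ ≤ 4 * H * |(w : ℝ)| * (t : ℝ) ^ d * ((t : ℝ) ^ r * |(P.coeff r : ℝ)|) :=
          mul_le_mul_of_nonneg_left hbot (by positivity)
      _ ≤ 4 * H * |(w : ℝ)| * (2 ^ K * Q) * ((t : ℝ) ^ r * (2 * H * W ^ K)) := by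
          apply mul_le_mul (mul_le_mul_of_nonneg_left hQ (by positivity))
            (mul_le_mul_of_nonneg_left hPr hr0.le) (by positivity)
          have : 0 ≤ Q := by rw [hQd]; exact abs_nonneg _
          positivity
      _ = _ := by ring
  exact le_of_mul_le_mul_left hfin hr0

/-- **Large exponents**: Baker's method. -/
theorem large_case (n : ℕ) : ∃ C κ : ℕ, ∀ p v t S L : ℕ, t = p ^ v → p.Prime → 16 ≤ t → 1 ≤ S →
    t ≤ 2 ^ S → ∀ (q : Fin n → ℤ) (b c : Fin n → ℕ) (β γ : ℤ), (∀ i, 2 ≤ |q i|) →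
    (∀ i, |q i| ≤ 2 ^ S) → β ≠ 0 → γ ≠ 0 → |β| ≤ 2 ^ S → |γ| ≤ 2 ^ S → |β| + |γ| < t →
    (∀ i, (t : ℤ) ∣ q i - 1 ∨ (t : ℤ) ∣ q i + 1) → (∀ i, b i ≤ 2 ^ L) → (∀ i, c i ≤ 2 ^ L) →
    ∀ (m : ℕ) (w : ℤ), w ≠ 0 → γ * ∏ i, q i ^ c i - β * ∏ i, q i ^ b i = (p : ℤ) ^ m * w →
    ∀ x : ℤ, (x = γ * ∏ i, q i ^ c i ∨ x = β * ∏ i, q i ^ b i) →
      |x| ≤ |w| * 2 ^ (C * (S + L) ^ κ) := by
  obtain ⟨C1, κ1, hpad⟩ := padic n
  obtain ⟨κ2, g0, harch⟩ := arch n
  refine ⟨(5 + C1) + 2 + (1 + g0) ^ κ2, κ1 + κ2 + 2, ?_⟩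
  intro p v t S L htp hp ht hS htS q b c β γ hq2 hqS hβ hγ hβS hγS hβγ hunit hbL hcL m w hw heq x hx
  obtain ⟨u, hu⟩ : ∃ u, u = ∏ i, q i ^ c i := ⟨_, rfl⟩
  obtain ⟨y, hy⟩ : ∃ y, y = ∏ i, q i ^ b i := ⟨_, rfl⟩
  obtain ⟨a, ha⟩ : ∃ a, a = (p : ℤ) ^ m * w := ⟨_, rfl⟩
  have hp0 : (p : ℤ) ≠ 0 := by exact_mod_cast hp.ne_zero
  have ha0 : a ≠ 0 := by rw [ha]; exact mul_ne_zero (pow_ne_zero _ hp0) hw
  rw [← hu, ← hy, ← ha] at heq
  rw [← hu, ← hy] at hx
  have hQ2 : ∀ i, 2 ≤ (q i).natAbs := fun i => by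
    have h1 := hq2 i
    rw [← Int.natCast_natAbs] at h1
    exact_mod_cast h1
  have hQS : ∀ i, (q i).natAbs ≤ 2 ^ S := fun i => by
    have h1 : ((q i).natAbs : ℤ) ≤ 2 ^ S := by rw [Int.natCast_natAbs]; exact hqS i
    exact_mod_cast h1
  have habs : ∀ e : Fin n → ℕ, |∏ i, q i ^ e i| = ((∏ i, (q i).natAbs ^ e i : ℕ) : ℤ) := by
    intro e
    rw [Finset.abs_prod]
    push_cast
    apply Finset.prod_congr rfl
    intro i _
    rw [abs_pow]
  have hpp : Prime (p : ℤ) := Nat.prime_iff_prime_int.mp hp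
  have hpt : p ∣ t := by
    rw [htp]
    apply dvd_pow_self
    rintro rfl
    rw [pow_zero] at htp
    omega
  have hpt' : (p : ℤ) ∣ t := Int.natCast_dvd_natCast.mpr hpt
  -- the `p`-part
  have hmb : m ≤ S ∨ m ≤ 3 * S + 2 + C1 * (S + L) ^ κ1 := by
    obtain ⟨s, hs, hs1⟩ := unit_prod (t := (t : ℤ)) (c := c) fun i _ => hunit i
    obtain ⟨s', hs', hs1'⟩ := unit_prod (t := (t : ℤ)) (c := b) fun i _ => hunit i
    rw [← hu] at hs1
    rw [← hy] at hs1'
    have hs2 : s * s = 1 := by rcases hs with rfl | rfl <;> norm_num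
    have hs2' : s' * s' = 1 := by rcases hs' with rfl | rfl <;> norm_num
    by_cases hgb : γ * s = β * s'
    · right
      have hgb2 : γ ^ 2 = β ^ 2 := by
        have : (γ * s) * (γ * s) = (β * s') * (β * s') := by rw [hgb]
        linear_combination this + (-γ ^ 2) * hs2 + β ^ 2 * hs2'
      have hpm : (p : ℤ) ^ m ∣ a := by rw [ha]; exact dvd_mul_right _ _
      by_cases huv : u ^ 2 = y ^ 2
      · have h1 : (γ * u - β * y) * (γ * u + β * y) = 0 := by
          linear_combination γ ^ 2 * huv + y ^ 2 * hgb2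
        have h2 : γ * u + β * y = 0 := by
          rcases mul_eq_zero.mp h1 with h3 | h3
          · exact absurd (heq.symm.trans h3) ha0
          · exact h3
        have h3 : a = (2 * γ) * u := by rw [← heq]; linarith
        have hpu : ¬ (p : ℤ) ∣ u := by
          intro h
          have h4 : (p : ℤ) ∣ s := by
            have := dvd_sub h (hpt'.trans hs1)
            rwa [sub_sub_cancel] at this
          have h5 : (p : ℤ) ∣ 1 := by
            rw [← hs2]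
            exact Dvd.dvd.mul_left h4 _
          exact hpp.not_dvd_one h5
        rw [h3] at hpm
        have h6 : (p : ℤ) ^ m ∣ 2 * γ := (hpp.pow_dvd_of_dvd_mul_right m hpu hpm)
        have h7 := Int.le_of_dvd (abs_pos.mpr (mul_ne_zero two_ne_zero hγ)) ((dvd_abs _ _).mpr h6)
        have h8 : |2 * γ| ≤ 2 ^ (S + 1) := by
          rw [abs_mul, pow_succ]
          have : |(2 : ℤ)| = 2 := by norm_num
          rw [this]
          linarith
        have h9 : (2 : ℤ) ^ m ≤ (p : ℤ) ^ m :=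
          pow_le_pow_left₀ (by norm_num) (by exact_mod_cast hp.two_le) _
        have h10 : m ≤ S + 1 := by
          by_contra hcon
          have h11 : (2 : ℤ) ^ (S + 1) < 2 ^ m := pow_lt_pow_right₀ (by norm_num) (by omega)
          linarith
        have : 0 ≤ C1 * (S + L) ^ κ1 := Nat.zero_le _
        omega
      · have h1 : (p : ℤ) ^ m ∣ γ ^ 2 * (u ^ 2 - y ^ 2) := by
          have : γ ^ 2 * (u ^ 2 - y ^ 2) = a * (γ * u + β * y) := by
            rw [← heq]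
            linear_combination (-y ^ 2) * hgb2
          rw [this]
          exact Dvd.dvd.mul_right hpm _
        have h2 := pow_dvd_of_mul (S := 2 * S) hp (pow_ne_zero 2 hγ) (by
          rw [abs_pow]
          calc |γ| ^ 2 ≤ (2 ^ S) ^ 2 := pow_le_pow_left₀ (abs_nonneg _) hγS 2
            _ = 2 ^ (2 * S) := by rw [← pow_mul, mul_comm]) h1
        obtain ⟨p', hp', hpt2, hpadic⟩ := hpad t ht
        have hpe : p' = p := by
          rw [htp] at hpt2
          exact (Nat.prime_dvd_prime_iff_eq hp' hp).mp (hp'.dvd_of_dvd_pow hpt2)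
        rw [hpe] at hpadic
        have habsQ : ∀ e : Fin n → ℕ, (∏ i, ((q i).natAbs : ℤ) ^ e i) = |∏ i, q i ^ e i| := by
          intro e
          rw [habs e]
          push_cast
          rfl
        have h3 := hpadic (S + L) (by omega) (fun i => (q i).natAbs) b c (m - 2 * S)
          (fun i => by have := hQ2 i; omega)
          (fun i => by
            rw [Int.natCast_natAbs, sq_abs]
            have : q i ^ 2 - 1 = (q i - 1) * (q i + 1) := by ring
            rw [this]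
            rcases hunit i with h4 | h4
            · exact Dvd.dvd.mul_right h4 _
            · exact Dvd.dvd.mul_left h4 _)
          (fun i => (hQS i).trans (Nat.pow_le_pow_right (by norm_num) (by omega)))
          (fun i => (hbL i).trans (Nat.pow_le_pow_right (by norm_num) (by omega)))
          (fun i => (hcL i).trans (Nat.pow_le_pow_right (by norm_num) (by omega)))
          (by
            intro h4
            apply huv
            have h5 : (∏ i, ((q i).natAbs : ℤ) ^ c i) = ∏ i, ((q i).natAbs : ℤ) ^ b i := by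
              exact_mod_cast h4
            rw [habsQ c, habsQ b, ← hu, ← hy] at h5
            rw [← sq_abs u, h5, sq_abs])
          (by
            rw [habsQ c, habsQ b, ← hu, ← hy, sq_abs, sq_abs]
            exact h2)
        omega
    · left
      by_contra hcon
      push Not at hcon
      have h1 : t ∣ p ^ m := by
        rw [htp]
        apply pow_dvd_pow
        by_contra hv
        push Not at hv
        have h2 : 2 ^ m ≤ p ^ m := Nat.pow_le_pow_left hp.two_le _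
        have h3 : p ^ m < p ^ v := Nat.pow_lt_pow_right hp.one_lt hv
        have h4 : 2 ^ S < 2 ^ m := Nat.pow_lt_pow_right (by norm_num) hcon
        omega
      have h2 : (t : ℤ) ∣ a := by
        rw [ha]
        apply Dvd.dvd.mul_right
        have : ((t : ℕ) : ℤ) ∣ ((p ^ m : ℕ) : ℤ) := Int.natCast_dvd_natCast.mpr h1
        exact_mod_cast this
      have h1 : (t : ℤ) ∣ γ * s - β * s' := by
        have : γ * s - β * s' = a - γ * (u - s) + β * (y - s') := by rw [← heq]; ring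
        rw [this]
        exact dvd_add (dvd_sub h2 (Dvd.dvd.mul_left hs1 _)) (Dvd.dvd.mul_left hs1' _)
      have h2 := Int.le_of_dvd (abs_pos.mpr (sub_ne_zero.mpr hgb)) ((dvd_abs _ _).mpr h1)
      have h3 : |γ * s - β * s'| ≤ |γ| + |β| := by
        refine (abs_sub _ _).trans (le_of_eq ?_)
        rw [abs_mul, abs_mul]
        have e1 : |s| = 1 := by rcases hs with rfl | rfl <;> simp
        have e2 : |s'| = 1 := by rcases hs' with rfl | rfl <;> simp
        rw [e1, e2, mul_one, mul_one]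
      omega
  have hm2 : m ≤ 3 * S + 2 + C1 * (S + L) ^ κ1 := by
    rcases hmb with h | h
    · have : 0 ≤ C1 * (S + L) ^ κ1 := Nat.zero_le _
      omega
    · exact h
  -- the archimedean bound
  obtain ⟨V, hV⟩ : ∃ V, V = Nat.log 2 a.natAbs + 1 := ⟨_, rfl⟩
  have haV : |a| ≤ 2 ^ V := by
    have h1 : a.natAbs < 2 ^ V := by
      rw [hV]
      exact Nat.lt_pow_succ_log_self (by norm_num) _
    have h2 : (a.natAbs : ℤ) < 2 ^ V := by exact_mod_cast h1
    rw [Int.natCast_natAbs] at h2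
    exact h2.le
  have hVa : (2 : ℤ) ^ V ≤ 2 * |a| := by
    have h1 : 2 ^ (Nat.log 2 a.natAbs) ≤ a.natAbs :=
      Nat.pow_log_le_self 2 (Int.natAbs_pos.mpr ha0).ne'
    have h2 : (2 : ℤ) ^ (Nat.log 2 a.natAbs) ≤ (a.natAbs : ℤ) := by exact_mod_cast h1
    rw [Int.natCast_natAbs] at h2
    rw [hV, pow_succ]
    linarith
  obtain ⟨G, hG⟩ : ∃ G, G = (S + L + g0) ^ κ2 := ⟨_, rfl⟩
  have ex : ((γ.natAbs * ∏ i, (q i).natAbs ^ c i : ℕ) : ℤ) = |γ * u| := by
    rw [abs_mul, hu, habs, Nat.cast_mul, Int.natCast_natAbs]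
  have ey : ((β.natAbs * ∏ i, (q i).natAbs ^ b i : ℕ) : ℤ) = |β * y| := by
    rw [abs_mul, hy, habs, Nat.cast_mul, Int.natCast_natAbs]
  have hxy : |γ * u| ≤ 2 ^ (V + 1 + G) ∧ |β * y| ≤ 2 ^ (V + 1 + G) := by
    by_cases hne : γ.natAbs * ∏ i, (q i).natAbs ^ c i = β.natAbs * ∏ i, (q i).natAbs ^ b i
    · have h1 : |γ * u| = |β * y| := by rw [← ex, ← ey, hne]
      have h2 : γ * u = -(β * y) := by
        rcases abs_eq_abs.mp h1 with h3 | h3
        · exfalso
          apply ha0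
          rw [← heq, h3, sub_self]
        · exact h3
      have h3 : |γ * u| ≤ 2 ^ V := by
        have h4 : a = 2 * (γ * u) := by rw [← heq]; linarith
        rw [h4, abs_mul] at haV
        have : |(2 : ℤ)| = 2 := by norm_num
        rw [this] at haV
        have := abs_nonneg (γ * u)
        linarith
      have h5 : |γ * u| ≤ 2 ^ (V + 1 + G) :=
        h3.trans (pow_le_pow_right₀ (by norm_num) (by omega))
      exact ⟨h5, h1 ▸ h5⟩
    · have h1 := harch S L V (fun i => (q i).natAbs) b c β.natAbs γ.natAbs (Int.natAbs_pos.mpr hβ)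
        (Int.natAbs_pos.mpr hγ) (by
          have : (β.natAbs : ℤ) ≤ 2 ^ S := by rw [Int.natCast_natAbs]; exact hβS
          exact_mod_cast this) (by
          have : (γ.natAbs : ℤ) ≤ 2 ^ S := by rw [Int.natCast_natAbs]; exact hγS
          exact_mod_cast this) (fun i => by have := hQ2 i; omega) hQS hbL hcL hne (by
          rw [ex, ey]
          refine (abs_abs_sub_abs_le_abs_sub _ _).trans ?_
          rw [heq]
          exact haV)
      rw [← hG] at h1
      constructor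
      · rw [← ex]; exact_mod_cast h1.1
      · rw [← ey]; exact_mod_cast h1.2
  have hxb : |x| ≤ 2 ^ (V + 1 + G) := by
    rcases hx with rfl | rfl
    · exact hxy.1
    · exact hxy.2
  have hpm : (p : ℤ) ^ m ≤ 2 ^ (S * m) := by
    rw [pow_mul]
    apply pow_le_pow_left₀ (by positivity)
    have h1 : p ≤ t := Nat.le_of_dvd (by omega) hpt
    have h2 : p ≤ 2 ^ S := h1.trans htS
    exact_mod_cast h2
  have hfin : |x| ≤ |w| * 2 ^ (S * m + 2 + G) := by
    calc |x| ≤ 2 ^ (V + 1 + G) := hxb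
      _ = 2 ^ V * 2 ^ (1 + G) := by rw [← pow_add]; congr 1; omega
      _ ≤ (2 * |a|) * 2 ^ (1 + G) := mul_le_mul_of_nonneg_right hVa (by positivity)
      _ = |w| * ((p : ℤ) ^ m * 2 ^ (2 + G)) := by
          rw [ha, abs_mul, abs_of_nonneg (by positivity : (0 : ℤ) ≤ (p : ℤ) ^ m), pow_add, pow_add]
          ring
      _ ≤ |w| * (2 ^ (S * m) * 2 ^ (2 + G)) := by
          apply mul_le_mul_of_nonneg_left _ (abs_nonneg _)
          exact mul_le_mul_of_nonneg_right hpm (by positivity)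
      _ = _ := by rw [← pow_add]; congr 2; omega
  refine hfin.trans (mul_le_mul_of_nonneg_left (pow_le_pow_right₀ (by norm_num) ?_) (abs_nonneg _))
  obtain ⟨R, hR⟩ : ∃ R, R = S + L := ⟨_, rfl⟩
  have hR1 : 1 ≤ R := by omega
  rw [← hR] at hm2 hG ⊢
  have hp1 : ∀ {j k : ℕ}, j ≤ k → R ^ j ≤ R ^ k := fun h => Nat.pow_le_pow_right hR1 h
  obtain ⟨Z, hZ⟩ : ∃ Z, Z = R ^ (κ1 + κ2 + 2) := ⟨_, rfl⟩
  rw [← hZ]
  have hZ1 : 1 ≤ Z := by rw [hZ]; exact Nat.one_le_pow _ _ hR1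
  have hm3 : m ≤ (5 + C1) * R ^ (κ1 + 1) := by
    have h1 : R ≤ R ^ (κ1 + 1) := by
      calc R = R ^ 1 := (pow_one R).symm
        _ ≤ _ := hp1 (by omega)
    have h2 : C1 * R ^ κ1 ≤ C1 * R ^ (κ1 + 1) := Nat.mul_le_mul_left _ (hp1 (by omega))
    have h3 : (5 + C1) * R ^ (κ1 + 1) = 5 * R ^ (κ1 + 1) + C1 * R ^ (κ1 + 1) := by ring
    omega
  have hSm : S * m ≤ (5 + C1) * Z := by
    rw [hZ]
    calc S * m ≤ R * ((5 + C1) * R ^ (κ1 + 1)) := Nat.mul_le_mul (by omega) hm3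
      _ = (5 + C1) * R ^ (κ1 + 2) := by ring
      _ ≤ _ := Nat.mul_le_mul_left _ (hp1 (by omega))
  have hG2 : G ≤ (1 + g0) ^ κ2 * Z := by
    rw [hG, hZ]
    calc (R + g0) ^ κ2 ≤ ((1 + g0) * R) ^ κ2 := Nat.pow_le_pow_left (by nlinarith) _
      _ = (1 + g0) ^ κ2 * R ^ κ2 := by rw [mul_pow]
      _ ≤ _ := Nat.mul_le_mul_left _ (hp1 (by omega))
  have e : (5 + C1 + 2 + (1 + g0) ^ κ2) * Z = (5 + C1) * Z + 2 * Z + (1 + g0) ^ κ2 * Z := by ring
  rw [e]
  omega

end Pool.Agent.Q103.SD
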