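import Mathlib
import Pool.Agent.Q103.SD.Two

/-!
# abc for a power of a prime times a free factor and two products of numbers with small digits
-/

set_option autoImplicit false

namespace Pool.Agent.Q103.SD

open Polynomial Finset Filter

theorem large_uniform (K : ℕ) : ∃ C κ : ℕ, ∀ n, n ≤ K → ∀ p v t S L : ℕ, t = p ^ v → p.Prime →
    16 ≤ t → 1 ≤ S →
    t ≤ 2 ^ S → ∀ (q : Fin n → ℤ) (b c : Fin n → ℕ) (β γ : ℤ), (∀ i, 2 ≤ |q i|) →
    (∀ i, |q i| ≤ 2 ^ S) → β ≠ 0 → γ ≠ 0 → |β| ≤ 2 ^ S → |γ| ≤ 2 ^ S → |β| + |γ| < t →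
    (∀ i, (t : ℤ) ∣ q i - 1 ∨ (t : ℤ) ∣ q i + 1) → (∀ i, b i ≤ 2 ^ L) → (∀ i, c i ≤ 2 ^ L) →
    ∀ (m : ℕ) (w : ℤ), w ≠ 0 → γ * ∏ i, q i ^ c i - β * ∏ i, q i ^ b i = (p : ℤ) ^ m * w →
    ∀ x : ℤ, (x = γ * ∏ i, q i ^ c i ∨ x = β * ∏ i, q i ^ b i) →
      |x| ≤ |w| * 2 ^ (C * (S + L) ^ κ) := by
  refine uniform_le (P := fun n C κ => ∀ p v t S L : ℕ, t = p ^ v → p.Prime → 16 ≤ t → 1 ≤ S →
    t ≤ 2 ^ S → ∀ (q : Fin n → ℤ) (b c : Fin n → ℕ) (β γ : ℤ), (∀ i, 2 ≤ |q i|) →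
    (∀ i, |q i| ≤ 2 ^ S) → β ≠ 0 → γ ≠ 0 → |β| ≤ 2 ^ S → |γ| ≤ 2 ^ S → |β| + |γ| < t →
    (∀ i, (t : ℤ) ∣ q i - 1 ∨ (t : ℤ) ∣ q i + 1) → (∀ i, b i ≤ 2 ^ L) → (∀ i, c i ≤ 2 ^ L) →
    ∀ (m : ℕ) (w : ℤ), w ≠ 0 → γ * ∏ i, q i ^ c i - β * ∏ i, q i ^ b i = (p : ℤ) ^ m * w →
    ∀ x : ℤ, (x = γ * ∏ i, q i ^ c i ∨ x = β * ∏ i, q i ^ b i) →
      |x| ≤ |w| * 2 ^ (C * (S + L) ^ κ)) ?_ large_case K
  intro n C κ C' κ' hC hκ h p v t S L h1 h2 h3 h4 h5 q b c β γ h6 h7 h8 h9 h10 h11 h12 h13 h14 h15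
    m w h16 h17 x h18
  refine (h p v t S L h1 h2 h3 h4 h5 q b c β γ h6 h7 h8 h9 h10 h11 h12 h13 h14 h15 m w h16 h17 x
    h18).trans ?_
  apply mul_le_mul_of_nonneg_left _ (abs_nonneg _)
  apply pow_le_pow_right₀ (by norm_num)
  exact Nat.mul_le_mul hC (Nat.pow_le_pow_right (by omega) hκ)

/-- The values of the bases. -/
theorem values {t K : ℕ} {H : ℝ} {n : ℕ} {F : Fin n → ℤ[X]} {β γ : ℤ} (hD : Data2 t K H F β γ)
    (ht : 64 ≤ t) (hH : 1 ≤ H) (hHt : 8 * H ≤ t) :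
    n ≤ K ∧ (∀ i, (t : ℝ) / 2 ≤ |(((F i).eval (t : ℤ) : ℤ) : ℝ)|) ∧
      (∀ i, |(F i).eval (t : ℤ)| ≤ 2 ^ ((K + 1) * (Nat.log 2 t + 1))) ∧
      (∀ i, (t : ℤ) ∣ (F i).eval (t : ℤ) - 1 ∨ (t : ℤ) ∣ (F i).eval (t : ℤ) + 1) ∧
      (∀ x : ℤ, |(x : ℝ)| ≤ H → |x| ≤ 2 ^ ((K + 1) * (Nat.log 2 t + 1))) ∧
      t ≤ 2 ^ ((K + 1) * (Nat.log 2 t + 1)) := by
  have htR : (64 : ℝ) ≤ t := by exact_mod_cast ht
  have ht0 : (0 : ℝ) < t := by linarith
  have hF0 : ∀ i, F i ≠ 0 := fun i h => by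
    have := hD.pos i
    rw [h, natDegree_zero] at this
    omega
  have hval := fun i => value_size (t := t) (by omega) (by linarith) (by linarith) (hD.coeff i)
    (hF0 i)
  have hdegK : ∀ i, (F i).natDegree ≤ K := fun i =>
    (Finset.single_le_sum (f := fun i => (F i).natDegree) (fun _ _ => Nat.zero_le _)
      (Finset.mem_univ i)).trans hD.deg
  have hnK : n ≤ K := by
    calc n = ∑ _i : Fin n, 1 := by simp
      _ ≤ ∑ i, (F i).natDegree := Finset.sum_le_sum fun i _ => hD.pos i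
      _ ≤ K := hD.deg
  have htS : t ^ (K + 1) ≤ 2 ^ ((K + 1) * (Nat.log 2 t + 1)) := by
    rw [mul_comm, pow_mul]
    exact Nat.pow_le_pow_left (Nat.lt_pow_succ_log_self (by norm_num) _).le _
  have htSZ : (t : ℤ) ^ (K + 1) ≤ 2 ^ ((K + 1) * (Nat.log 2 t + 1)) := by exact_mod_cast htS
  have httK : (t : ℤ) ≤ (t : ℤ) ^ (K + 1) := by
    have h1 : (1 : ℤ) ≤ t := by exact_mod_cast (show 1 ≤ t by omega)
    exact le_self_pow₀ h1 (by omega)
  refine ⟨hnK, ?_, ?_, ?_, ?_, ?_⟩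
  · intro i
    have h1 := (hval i).1
    have h2 : (t : ℝ) ≤ (t : ℝ) ^ (F i).natDegree := le_self_pow₀ (by linarith) (hD.pos i).ne'
    linarith
  · intro i
    have h1 := (hval i).2
    have h2 : (H + 1 / 2) * (t : ℝ) ^ (F i).natDegree ≤ (t : ℝ) ^ (K + 1) := by
      calc (H + 1 / 2) * (t : ℝ) ^ (F i).natDegree ≤ t * (t : ℝ) ^ K := by
            apply mul_le_mul (by linarith) _ (by positivity) (by linarith)
            exact pow_le_pow_right₀ (by linarith) (hdegK i)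
        _ = _ := by ring
    have h3 : |(((F i).eval (t : ℤ) : ℤ) : ℝ)| ≤ (t : ℝ) ^ (K + 1) := h1.trans h2
    have h4 : |(F i).eval (t : ℤ)| ≤ (t : ℤ) ^ (K + 1) := by exact_mod_cast h3
    exact h4.trans htSZ
  · intro i
    have h2 : ((t : ℤ) - 0) ∣ (F i).eval (t : ℤ) - (F i).eval 0 := sub_dvd_eval_sub _ _ _
    rw [← coeff_zero_eq_eval_zero, sub_zero] at h2
    rcases hD.unit i with h3 | h3
    · left; rwa [h3] at h2
    · right; rwa [h3, sub_neg_eq_add] at h2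
  · intro x hx
    have h1 : |(x : ℝ)| ≤ t := hx.trans (by linarith)
    have h2 : |x| ≤ t := by exact_mod_cast h1
    exact h2.trans (httK.trans htSZ)
  · have : t ≤ t ^ (K + 1) := le_self_pow₀ (by omega) (by omega)
    exact this.trans htS

/-- **The difference of two products of powers of numbers with small digits.** -/
theorem sparse (K : ℕ) (ε : ℝ) (hε : 0 < ε) : ∃ δ : ℝ, 0 < δ ∧ δ ≤ 1 / 4 ∧ ∃ t₀ : ℕ, 64 ≤ t₀ ∧
    ∀ p v t : ℕ, p.Prime → t = p ^ v → t₀ ≤ t →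
    ∀ (n : ℕ) (F : Fin n → ℤ[X]) (β γ : ℤ), Data2 t K ((t : ℝ) ^ δ) F β γ →
    ∀ b c : Fin n → ℕ, (used2 b c).Nonempty → ∀ (m : ℕ) (w : ℤ), w ≠ 0 →
      γ * ∏ i, (F i).eval (t : ℤ) ^ c i - β * ∏ i, (F i).eval (t : ℤ) ^ b i = (p : ℤ) ^ m * w →
      (max |((γ * ∏ i, (F i).eval (t : ℤ) ^ c i : ℤ) : ℝ)|
        |((β * ∏ i, (F i).eval (t : ℤ) ^ b i : ℤ) : ℝ)|) ^ (1 - ε) ≤
        |(w : ℝ)| * |((∏ i ∈ used2 b c, (F i).eval (t : ℤ) : ℤ) : ℝ)| := by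
  obtain ⟨Cc, κ, hlarge⟩ := large_uniform K
  obtain ⟨δ, hδ⟩ : ∃ δ : ℝ, δ = min ((1 : ℝ) / (4 * ((K : ℝ) + 2))) (ε / (16 * ((K : ℝ) + 2))) :=
    ⟨_, rfl⟩
  have hδ0 : 0 < δ := by rw [hδ]; exact lt_min (by positivity) (by positivity)
  have hδ1 : δ * (2 * K + 3) ≤ 1 / 2 := by
    have h1 : δ ≤ (1 : ℝ) / (4 * ((K : ℝ) + 2)) := by rw [hδ]; exact min_le_left _ _
    calc δ * (2 * K + 3) ≤ (1 : ℝ) / (4 * ((K : ℝ) + 2)) * (2 * K + 4) := by
          apply mul_le_mul h1 (by linarith) (by positivity) (by positivity)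
      _ = 1 / 2 := by field_simp; ring
  have hδ2 : δ * (2 + 2 * K) ≤ ε / 8 := by
    have h1 : δ ≤ ε / (16 * (K + 2)) := by rw [hδ]; exact min_le_right _ _
    calc δ * (2 + 2 * K) ≤ ε / (16 * (K + 2)) * (2 * K + 4) := by
          apply mul_le_mul h1 (by linarith) (by positivity) (by positivity)
      _ = ε / 8 := by field_simp; ring
  have hδ4 : δ ≤ 1 / 4 := by
    have h1 : δ ≤ (1 : ℝ) / (4 * ((K : ℝ) + 2)) := by rw [hδ]; exact min_le_left _ _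
    refine h1.trans ?_
    rw [div_le_div_iff₀ (by positivity) (by norm_num)]
    have : (0 : ℝ) ≤ K := by positivity
    linarith
  obtain ⟨k1, hk1⟩ : ∃ k1 : ℕ, k1 = ⌈1 / δ⌉₊ := ⟨_, rfl⟩
  have hk1' : 1 / δ ≤ k1 := by rw [hk1]; exact Nat.le_ceil _
  obtain ⟨k2, hk2⟩ : ∃ k2 : ℕ, k2 = (K + 1) * (k1 + 1) + 1 := ⟨_, rfl⟩
  obtain ⟨E₀, hE₀⟩ := eventually_atTop.mp ((ev_poly Cc κ k2 (δ := 1 / 2) (by norm_num)).and
    (((tendsto_rpow_atTop (show (0 : ℝ) < 1 / 2 by norm_num)).comp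
      tendsto_natCast_atTop_atTop).eventually_ge_atTop (2 / ε)))
  have hwt : Tendsto (fun t : ℕ => (t : ℝ) ^ δ) atTop atTop :=
    (tendsto_rpow_atTop hδ0).comp tendsto_natCast_atTop_atTop
  have hwe : Tendsto (fun t : ℕ => (t : ℝ) ^ (3 * ε / 8)) atTop atTop :=
    (tendsto_rpow_atTop (by positivity)).comp tendsto_natCast_atTop_atTop
  obtain ⟨t₁, ht₁⟩ := eventually_atTop.mp
    ((hwt.eventually_ge_atTop ((E₀ : ℝ) + 1)).and (hwe.eventually_ge_atTop (8 * 2 ^ K)))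
  refine ⟨δ, hδ0, hδ4, max t₁ 4096, (by norm_num : 64 ≤ 4096).trans (le_max_right _ _), ?_⟩
  intro p v t hp htp ht n F β γ hD b c hU m w hw heq
  have ht64 : 4096 ≤ t := (le_max_right _ _).trans ht
  obtain ⟨hte, hte2⟩ := ht₁ t ((le_max_left _ _).trans ht)
  have htR : (4096 : ℝ) ≤ t := by exact_mod_cast ht64
  have ht0 : (0 : ℝ) < t := by linarith
  obtain ⟨H, hH⟩ : ∃ H : ℝ, H = (t : ℝ) ^ δ := ⟨_, rfl⟩
  rw [← hH] at hD hte
  have hH1 : 1 ≤ H := by rw [hH]; exact Real.one_le_rpow (by linarith) hδ0.le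
  obtain ⟨r, hr⟩ : ∃ r : ℝ, r = (t : ℝ) ^ (1 / 2 : ℝ) := ⟨_, rfl⟩
  have hrr : r * r = t := by
    rw [hr, ← Real.rpow_add ht0]
    norm_num
  have hr8 : 64 ≤ r := by
    have hr0 : 0 ≤ r := by rw [hr]; positivity
    nlinarith
  have hHr : H ≤ r := by
    rw [hH, hr]
    exact Real.rpow_le_rpow_of_exponent_le (by linarith) (by linarith)
  have hHt : 8 * H ≤ t := by nlinarith
  obtain ⟨hnK, hvlow, hvup, hvunit, hcS, htS⟩ := values hD (by omega) hH1 hHt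
  obtain ⟨S, hS⟩ : ∃ S, S = (K + 1) * (Nat.log 2 t + 1) := ⟨_, rfl⟩
  rw [← hS] at hvup hcS htS
  have hS1 : 1 ≤ S := by rw [hS]; exact Nat.mul_pos (by omega) (by omega)
  obtain ⟨q, hq⟩ : ∃ q : Fin n → ℤ, ∀ i, q i = (F i).eval (t : ℤ) := ⟨_, fun i => rfl⟩
  have hq2 : ∀ i, 2 ≤ |q i| := by
    intro i
    have h1 := hvlow i
    rw [← hq i] at h1
    have h3 : (2 : ℝ) ≤ |(q i : ℝ)| := by linarith
    exact_mod_cast h3
  have hqS : ∀ i, |q i| ≤ 2 ^ S := fun i => by rw [hq i]; exact hvup i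
  have hqu : ∀ i, (t : ℤ) ∣ q i - 1 ∨ (t : ℤ) ∣ q i + 1 := fun i => by rw [hq i]; exact hvunit i
  -- the two numbers
  obtain ⟨Xc, hXc⟩ : ∃ Xc : ℤ, Xc = γ * ∏ i, (F i).eval (t : ℤ) ^ c i := ⟨_, rfl⟩
  obtain ⟨Xb, hXb⟩ : ∃ Xb : ℤ, Xb = β * ∏ i, (F i).eval (t : ℤ) ^ b i := ⟨_, rfl⟩
  have hXc' : Xc = γ * ∏ i, q i ^ c i := by rw [hXc]; simp only [hq]
  have hXb' : Xb = β * ∏ i, q i ^ b i := by rw [hXb]; simp only [hq]
  obtain ⟨M, hM⟩ : ∃ M : ℝ, M = max |(Xc : ℝ)| |(Xb : ℝ)| := ⟨_, rfl⟩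
  obtain ⟨Q, hQ⟩ : ∃ Q : ℝ, Q = |((∏ i ∈ used2 b c, (F i).eval (t : ℤ) : ℤ) : ℝ)| := ⟨_, rfl⟩
  rw [← hXc, ← hXb, ← hM, ← hQ]
  have hbase : ∀ (η : ℤ) (e : Fin n → ℕ), η ≠ 0 → (2 : ℝ) ^ (∑ i, e i) ≤
      |((η * ∏ i, q i ^ e i : ℤ) : ℝ)| ∧ ∀ i, e i ≠ 0 → (t : ℝ) / 2 ≤
      |((η * ∏ i, q i ^ e i : ℤ) : ℝ)| := by
    intro η e hη
    have h1 : (1 : ℝ) ≤ |(η : ℝ)| := by exact_mod_cast Int.one_le_abs hη
    push_cast
    rw [abs_mul, Finset.abs_prod]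
    have hqa : ∀ i, (2 : ℝ) ≤ |(q i : ℝ)| := fun i => by exact_mod_cast hq2 i
    have h0 : ∀ i, (1 : ℝ) ≤ |(q i : ℝ) ^ e i| := fun i => by
      rw [abs_pow]
      exact one_le_pow₀ (by linarith [hqa i])
    have hpos : (0 : ℝ) ≤ ∏ i, |(q i : ℝ) ^ e i| := Finset.prod_nonneg fun i _ => abs_nonneg _
    constructor
    · have h2 : (2 : ℝ) ^ (∑ i, e i) ≤ ∏ i, |(q i : ℝ) ^ e i| := by
        rw [← Finset.prod_pow_eq_pow_sum]
        apply Finset.prod_le_prod (fun i _ => by positivity)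
        intro i _
        rw [abs_pow]
        exact pow_le_pow_left₀ (by norm_num) (hqa i) _
      nlinarith
    · intro i hi
      have h2 : |(q i : ℝ) ^ e i| ≤ ∏ i, |(q i : ℝ) ^ e i| := by
        rw [← Finset.mul_prod_erase Finset.univ (fun i => |(q i : ℝ) ^ e i|) (Finset.mem_univ i)]
        refine le_mul_of_one_le_right (abs_nonneg _) ?_
        refine Finset.prod_induction _ (fun x : ℝ => 1 ≤ x) (fun a b ha hb => ?_) le_rfl
          (fun j _ => h0 j)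
        nlinarith
      have h3 : |(q i : ℝ)| ≤ |(q i : ℝ) ^ e i| := by
        rw [abs_pow]
        exact le_self_pow₀ (by linarith [hqa i]) hi
      have h4 := hvlow i
      rw [← hq i] at h4
      nlinarith
  obtain ⟨hb1, hb2⟩ := hbase β b hD.β0
  obtain ⟨hc1, hc2⟩ := hbase γ c hD.γ0
  rw [← hXb'] at hb1 hb2
  rw [← hXc'] at hc1 hc2
  have hMb : |(Xb : ℝ)| ≤ M := by rw [hM]; exact le_max_right _ _
  have hMc : |(Xc : ℝ)| ≤ M := by rw [hM]; exact le_max_left _ _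
  have hMt : (t : ℝ) / 2 ≤ M := by
    obtain ⟨i, hi⟩ := hU
    rcases (Finset.mem_filter.mp hi).2 with h | h
    · exact (hb2 i h).trans hMb
    · exact (hc2 i h).trans hMc
  have hM1 : 1 ≤ M := by linarith
  have hM0 : 0 < M := by linarith
  have hMr : r ≤ M := by nlinarith
  have hw1 : (1 : ℝ) ≤ |(w : ℝ)| := by exact_mod_cast Int.one_le_abs hw
  have hQ1 : (1 : ℝ) ≤ Q := by
    rw [hQ]
    have h1 : ∏ i ∈ used2 b c, (F i).eval (t : ℤ) ≠ 0 := by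
      refine Finset.prod_ne_zero_iff.mpr fun i _ h => ?_
      have := hq2 i
      rw [hq i, h, abs_zero] at this
      omega
    exact_mod_cast Int.one_le_abs h1
  have hwQ : 1 ≤ |(w : ℝ)| * Q := by nlinarith
  -- it suffices to bound M
  suffices hsuff : M ≤ M ^ ε * (|(w : ℝ)| * Q) by
    rw [Real.rpow_sub hM0, Real.rpow_one, div_le_iff₀ (by positivity)]
    linarith
  obtain ⟨E, hE⟩ : ∃ E, E = ∑ i, b i + ∑ i, c i := ⟨_, rfl⟩
  rcases le_or_gt (E : ℝ) H with hcase | hcase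
  · -- small exponents
    obtain ⟨N, hN⟩ : ∃ N, N = max 1 E := ⟨_, rfl⟩
    have hNH : (N : ℝ) ≤ H := by
      rw [hN]
      push_cast
      exact max_le hH1 hcase
    have hEN : E ≤ N := by rw [hN]; exact le_max_right _ _
    have hs : 8 * H * (N * H) ^ (K + 1) ≤ t := by
      have h1 : 8 * H * (N * H) ^ (K + 1) ≤ 8 * (H * (H * H) ^ (K + 1)) := by
        rw [mul_assoc]
        apply mul_le_mul_of_nonneg_left _ (by norm_num)
        apply mul_le_mul_of_nonneg_left _ (by linarith)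
        apply pow_le_pow_left₀ (by positivity)
        exact mul_le_mul_of_nonneg_right hNH (by linarith)
      have h2 : H * (H * H) ^ (K + 1) ≤ r := by
        have e1 : H * (H * H) ^ (K + 1) = H ^ (2 * K + 3) := by ring
        rw [e1, hH, hr, ← Real.rpow_mul_natCast ht0.le]
        apply Real.rpow_le_rpow_of_exponent_le (by linarith)
        push_cast
        exact hδ1
      nlinarith
    have hsm : ∀ x : ℤ, (x = γ * ∏ i, (F i).eval (t : ℤ) ^ c i ∨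
        x = β * ∏ i, (F i).eval (t : ℤ) ^ b i) →
        |(x : ℝ)| ≤ 8 * H ^ 2 * (N * H) ^ K * 2 ^ K * (|(w : ℝ)| * Q) := fun x hx => by
      rw [hQ]
      exact small_case htp hD hH1 (by omega) (by linarith) b c (N := N)
        (by rw [hN]; exact le_max_left _ _) (by omega) (by omega) hs hw hp.ne_zero heq hU hx
    have hMb' : M ≤ 8 * H ^ 2 * (N * H) ^ K * 2 ^ K * (|(w : ℝ)| * Q) := by
      rw [hM]
      exact max_le (hsm Xc (Or.inl hXc)) (hsm Xb (Or.inr hXb))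
    refine hMb'.trans (mul_le_mul_of_nonneg_right ?_ (by linarith))
    have h3 : 8 * H ^ 2 * (N * H) ^ K * 2 ^ K ≤ (8 * 2 ^ K) * (t : ℝ) ^ (ε / 8) := by
      have h4 : H ^ 2 * (N * H) ^ K ≤ (t : ℝ) ^ (ε / 8) := by
        calc H ^ 2 * (N * H) ^ K ≤ H ^ 2 * (H * H) ^ K := by
              apply mul_le_mul_of_nonneg_left _ (by positivity)
              apply pow_le_pow_left₀ (by positivity)
              exact mul_le_mul_of_nonneg_right hNH (by linarith)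
          _ = H ^ (2 + 2 * K) := by ring
          _ ≤ _ := by
              rw [hH, ← Real.rpow_mul_natCast ht0.le]
              apply Real.rpow_le_rpow_of_exponent_le (by linarith)
              push_cast
              exact hδ2
      calc 8 * H ^ 2 * (N * H) ^ K * 2 ^ K = (8 * 2 ^ K) * (H ^ 2 * (N * H) ^ K) := by ring
        _ ≤ _ := mul_le_mul_of_nonneg_left h4 (by positivity)
    refine h3.trans ?_
    calc (8 * 2 ^ K) * (t : ℝ) ^ (ε / 8) ≤ (t : ℝ) ^ (3 * ε / 8) * (t : ℝ) ^ (ε / 8) :=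
          mul_le_mul_of_nonneg_right hte2 (by positivity)
      _ = r ^ ε := by
          rw [← Real.rpow_add ht0, hr, ← Real.rpow_mul ht0.le]
          congr 1
          ring
      _ ≤ M ^ ε := Real.rpow_le_rpow (by linarith) hMr hε.le
  · -- large exponents
    have hEE : E₀ ≤ E := by
      have h1 : (E₀ : ℝ) + 1 < E := lt_of_le_of_lt hte hcase
      have h2 : (E₀ : ℝ) ≤ E := by linarith
      exact_mod_cast h2
    obtain ⟨hev1, hev2⟩ := hE₀ E hEE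
    have hE1 : (1 : ℝ) < E := lt_of_le_of_lt hH1 hcase
    have hE1' : 1 < E := by exact_mod_cast hE1
    have hE0 : (0 : ℝ) < E := by linarith
    have htE : t ≤ E ^ k1 := by
      have h1 : (t : ℝ) ≤ (E : ℝ) ^ k1 := by
        calc (t : ℝ) = H ^ (1 / δ) := by
              rw [hH, ← Real.rpow_mul ht0.le, mul_one_div_cancel hδ0.ne', Real.rpow_one]
          _ ≤ (E : ℝ) ^ (1 / δ) := Real.rpow_le_rpow (by linarith) hcase.le (by positivity)
          _ ≤ (E : ℝ) ^ (k1 : ℝ) := Real.rpow_le_rpow_of_exponent_le hE1.le hk1'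
          _ = _ := Real.rpow_natCast _ _
      exact_mod_cast h1
    obtain ⟨L, hL⟩ : ∃ L, L = Nat.log 2 E + 1 := ⟨_, rfl⟩
    have hEL : E < 2 ^ L := by
      rw [hL]
      exact Nat.lt_pow_succ_log_self (by norm_num) _
    have hlogt : Nat.log 2 t ≤ k1 * L := by
      have h1 : t < 2 ^ (k1 * L + 1) := by
        calc t ≤ E ^ k1 := htE
          _ ≤ (2 ^ L) ^ k1 := Nat.pow_le_pow_left hEL.le _
          _ = 2 ^ (k1 * L) := by rw [← pow_mul, mul_comm]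
          _ < 2 ^ (k1 * L + 1) := Nat.pow_lt_pow_right (by norm_num) (Nat.lt_succ_self _)
      have h2 := Nat.log_lt_of_lt_pow (by omega) h1
      omega
    have hSL : S + L ≤ k2 * (Nat.log 2 E + 1) := by
      rw [← hL, hS, hk2]
      have hL1 : 1 ≤ L := by omega
      have h1 : (K + 1) * (Nat.log 2 t + 1) ≤ (K + 1) * ((k1 + 1) * L) := by
        apply Nat.mul_le_mul_left
        rw [add_mul, one_mul]
        omega
      calc (K + 1) * (Nat.log 2 t + 1) + L ≤ (K + 1) * ((k1 + 1) * L) + L := by omega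
        _ = ((K + 1) * (k1 + 1) + 1) * L := by ring
    have hbi : ∀ i, b i ≤ 2 ^ L := fun i => by
      have := Finset.single_le_sum (f := b) (fun _ _ => Nat.zero_le _) (Finset.mem_univ i)
      omega
    have hci : ∀ i, c i ≤ 2 ^ L := fun i => by
      have := Finset.single_le_sum (f := c) (fun _ _ => Nat.zero_le _) (Finset.mem_univ i)
      omega
    have hβγ : |β| + |γ| < (t : ℤ) := by
      have h1 : |(β : ℝ)| + |(γ : ℝ)| < t := by
        have := hD.βH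
        have := hD.γH
        linarith
      exact_mod_cast h1
    have hlg : ∀ x : ℤ, (x = Xc ∨ x = Xb) →
        |(x : ℝ)| ≤ |(w : ℝ)| * 2 ^ (Cc * (S + L) ^ κ) := fun x hx => by
      have h1 := hlarge n hnK p v t S L htp hp (by omega) hS1 htS q b c β γ hq2 hqS hD.β0 hD.γ0
        (hcS _ hD.βH) (hcS _ hD.γH) hβγ hqu hbi hci m w hw
        (by rw [← hXc', ← hXb', hXc, hXb]; exact heq) x
        (by rw [← hXc', ← hXb']; exact hx)
      exact_mod_cast h1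
    have hMw : M ≤ |(w : ℝ)| * 2 ^ (Cc * (S + L) ^ κ) := by
      rw [hM]
      exact max_le (hlg Xc (Or.inl rfl)) (hlg Xb (Or.inr rfl))
    have hexp : ((Cc * (S + L) ^ κ : ℕ) : ℝ) ≤ ε * (E / 2) := by
      have h1 : Cc * (S + L) ^ κ ≤ Cc * (k2 * (Nat.log 2 E + 1)) ^ κ + 1 :=
        (Nat.mul_le_mul_left _ (Nat.pow_le_pow_left hSL _)).trans (Nat.le_succ _)
      have h2 : ((Cc * (S + L) ^ κ : ℕ) : ℝ) ≤ (E : ℝ) ^ (1 / 2 : ℝ) := by
        refine le_trans ?_ hev1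
        exact_mod_cast h1
      refine h2.trans ?_
      have h3 : (E : ℝ) ^ (1 / 2 : ℝ) * (E : ℝ) ^ (1 / 2 : ℝ) = E := by
        rw [← Real.rpow_add hE0]; norm_num
      have h4 : 2 / ε ≤ (E : ℝ) ^ (1 / 2 : ℝ) := hev2
      have h5 : 0 < (E : ℝ) ^ (1 / 2 : ℝ) := by positivity
      rw [div_le_iff₀ hε] at h4
      nlinarith
    have hMe : (2 : ℝ) ^ ((E : ℝ) / 2) ≤ M := by
      have h1 : (E : ℝ) / 2 ≤ (max (∑ i, b i) (∑ i, c i) : ℕ) := by
        have h2 : E ≤ 2 * max (∑ i, b i) (∑ i, c i) := by omega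
        have h3 : (E : ℝ) ≤ 2 * ((max (∑ i, b i) (∑ i, c i) : ℕ) : ℝ) := by exact_mod_cast h2
        linarith
      have h2 : (2 : ℝ) ^ (((max (∑ i, b i) (∑ i, c i) : ℕ) : ℝ)) ≤ M := by
        rw [Real.rpow_natCast]
        rcases le_total (∑ i, b i) (∑ i, c i) with h | h
        · rw [max_eq_right h]; exact hc1.trans hMc
        · rw [max_eq_left h]; exact hb1.trans hMb
      exact (Real.rpow_le_rpow_of_exponent_le (by norm_num) h1).trans h2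
    have hpow : (2 : ℝ) ^ (Cc * (S + L) ^ κ) ≤ M ^ ε := by
      rw [← Real.rpow_natCast]
      calc (2 : ℝ) ^ ((Cc * (S + L) ^ κ : ℕ) : ℝ) ≤ (2 : ℝ) ^ (ε * (E / 2)) :=
            Real.rpow_le_rpow_of_exponent_le (by norm_num) hexp
        _ = ((2 : ℝ) ^ ((E : ℝ) / 2)) ^ ε := by
            rw [← Real.rpow_mul (by norm_num)]
            congr 1
            ring
        _ ≤ M ^ ε := Real.rpow_le_rpow (by positivity) hMe hε.le
    calc M ≤ |(w : ℝ)| * 2 ^ (Cc * (S + L) ^ κ) := hMw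
      _ ≤ |(w : ℝ)| * M ^ ε := mul_le_mul_of_nonneg_left hpow (by linarith)
      _ ≤ |(w : ℝ)| * M ^ ε * Q := le_mul_of_one_le_right (by positivity) hQ1
      _ = _ := by ring

end Pool.Agent.Q103.SD
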