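import Mathlib
import Pool.Agent.Q103.SD.Sparse

/-!
# The difference of two products of powers of numbers with small digits and first digit `1`
-/

set_option autoImplicit false

namespace Pool.Agent.Q103.SD

open Polynomial Finset Filter

/-- The hypotheses on the bases and the coefficients (no condition on the last digit). -/
structure DataM (t : ℕ) (K : ℕ) (H : ℝ) {n : ℕ} (F : Fin n → ℤ[X]) (β γ : ℤ) : Prop where
  pos : ∀ i, 0 < (F i).natDegree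
  deg : ∑ i, (F i).natDegree ≤ K
  coeff : ∀ i j, |((F i).coeff j : ℝ)| ≤ H
  lead : ∀ i, (F i).leadingCoeff = 1 ∨ (F i).leadingCoeff = -1
  β0 : β ≠ 0
  γ0 : γ ≠ 0
  βH : |(β : ℝ)| ≤ H
  γH : |(γ : ℝ)| ≤ H

/-- **Small exponents.** -/
theorem small_top {t K : ℕ} {H : ℝ} {n : ℕ} {F : Fin n → ℤ[X]} {β γ : ℤ}
    (hD : DataM t K H F β γ) (hH : 1 ≤ H) (ht16 : 16 ≤ t) (hHt : 4 * H ≤ t) (b c : Fin n → ℕ)
    {N : ℕ} (hN : 1 ≤ N) (hb : ∑ i, b i ≤ N) (hc : ∑ i, c i ≤ N)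
    (hs : 8 * H * (N * H) ^ (K + 1) ≤ t) {a : ℤ} (ha0 : a ≠ 0)
    (heq : γ * ∏ i, (F i).eval (t : ℤ) ^ c i - β * ∏ i, (F i).eval (t : ℤ) ^ b i = a)
    (hU : (used2 b c).Nonempty) {x : ℤ}
    (hx : x = γ * ∏ i, (F i).eval (t : ℤ) ^ c i ∨ x = β * ∏ i, (F i).eval (t : ℤ) ^ b i) :
    |(x : ℝ)| * t ≤ 4 * H * 2 ^ K *
      (|(a : ℝ)| * |((∏ i ∈ used2 b c, (F i).eval (t : ℤ) : ℤ) : ℝ)|) := by
  have hF0 : ∀ i, F i ≠ 0 := fun i h => by
    have := hD.pos i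
    rw [h, natDegree_zero] at this
    omega
  have ht0 : (0 : ℝ) < t := by exact_mod_cast (show 0 < t by omega)
  have ht1 : (1 : ℝ) ≤ t := by exact_mod_cast (show 1 ≤ t by omega)
  have hN1 : (1 : ℝ) ≤ N := by exact_mod_cast hN
  obtain ⟨W, hW⟩ : ∃ W : ℝ, W = N * H := ⟨_, rfl⟩
  have hW1 : 1 ≤ W := by rw [hW]; nlinarith
  rw [← hW] at hs
  have hWK : W ≤ W ^ (K + 1) := le_self_pow₀ hW1 (by omega)
  have hWt : 2 * W ≤ t := by
    have h1 : W ≤ H * W ^ (K + 1) := by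
      have : 0 ≤ W ^ (K + 1) := by positivity
      nlinarith
    nlinarith
  obtain ⟨B, hB⟩ : ∃ B, B = PP F β b := ⟨_, rfl⟩
  obtain ⟨G, hG⟩ : ∃ G, G = PP F γ c := ⟨_, rfl⟩
  have hBe : B.eval (t : ℤ) = β * ∏ i, (F i).eval (t : ℤ) ^ b i := by rw [hB, eval_PP]
  have hGe : G.eval (t : ℤ) = γ * ∏ i, (F i).eval (t : ℤ) ^ c i := by rw [hG, eval_PP]
  have ha : (G - B).eval (t : ℤ) = a := by rw [eval_sub, hBe, hGe, heq]
  have hGB : G ≠ B := by
    intro h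
    apply ha0
    rw [← ha, h, sub_self, eval_zero]
  obtain ⟨P, hP⟩ : ∃ P, P = G - B := ⟨_, rfl⟩
  have hP0 : P ≠ 0 := by rw [hP]; exact sub_ne_zero.mpr hGB
  obtain ⟨d, hd⟩ : ∃ d, d = ∑ i ∈ used2 b c, (F i).natDegree := ⟨_, rfl⟩
  have hd0 : 0 < d := by
    obtain ⟨i, hi⟩ := hU
    rw [hd]
    exact lt_of_lt_of_le (hD.pos i)
      (Finset.single_le_sum (f := fun i => (F i).natDegree) (fun _ _ => Nat.zero_le _) hi)
  have hdK : d ≤ K := by
    rw [hd]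
    exact (Finset.sum_le_univ_sum_of_nonneg fun _ => Nat.zero_le _).trans hD.deg
  obtain ⟨h1, -⟩ := two_places_PP hF0 hD.β0 hD.γ0 b c (used2 b c)
    (fun i hi => Finset.mem_filter.mpr ⟨Finset.mem_univ _, hi⟩) (by rw [← hd]; exact hd0)
    (by rw [← hB, ← hG]; exact hGB)
  rw [← hB, ← hG, ← hP, ← hd] at h1
  obtain ⟨D, hDd⟩ : ∃ D, D = max B.natDegree G.natDegree := ⟨_, rfl⟩
  rw [← hDd] at h1
  have hBD : B.natDegree ≤ D := by rw [hDd]; exact le_max_left _ _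
  have hGD : G.natDegree ≤ D := by rw [hDd]; exact le_max_right _ _
  have hPD : P.natDegree ≤ D := by
    rw [hP]
    exact (natDegree_sub_le _ _).trans (max_le hGD hBD)
  have hlc : ∀ i, |(F i).leadingCoeff| ≤ 1 := fun i => by
    rcases hD.lead i with h | h <;> rw [h] <;> norm_num
  have hBc : ∀ i, i ≤ D → |(B.coeff i : ℝ)| ≤ H * W ^ (D - i) := fun i hi => by
    rw [hB, hW]
    exact top_coeff hH hD.coeff hlc hD.βH b hN hb (by rw [← hB]; exact hBD) i hi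
  have hGc : ∀ i, i ≤ D → |(G.coeff i : ℝ)| ≤ H * W ^ (D - i) := fun i hi => by
    rw [hG, hW]
    exact top_coeff hH hD.coeff hlc hD.γH c hN hc (by rw [← hG]; exact hGD) i hi
  have hPc : ∀ i, i ≤ D → |(P.coeff i : ℝ)| ≤ (2 * H) * W ^ (D - i) := fun i hi => by
    rw [hP, coeff_sub]
    push_cast
    refine (abs_sub _ _).trans ?_
    have := hBc i hi
    have := hGc i hi
    linarith
  have hlow := top_lower hP0 (D := D) (Y := 2 * H) (W := W) (t := t) (by linarith) (by linarith) hWt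
    (by omega) hPD hPc (by
      refine le_trans ?_ hs
      have : W ^ (D - P.natDegree + 1) ≤ W ^ (K + 1) := pow_le_pow_right₀ hW1 (by omega)
      nlinarith)
  have hxb : |(x : ℝ)| ≤ 2 * H * (t : ℝ) ^ D := by
    rcases hx with h | h
    · rw [h, ← hGe]
      exact top_upper (by linarith) (by linarith) hWt (by omega) hGD hGc
    · rw [h, ← hBe]
      exact top_upper (by linarith) (by linarith) hWt (by omega) hBD hBc
  have hQ := prod_lower (t := t) (B := H) (by omega) (by linarith) hHt hD.coeff hD.pos hD.deg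
    (used2 b c)
  rw [← hd] at hQ
  obtain ⟨Q, hQd⟩ : ∃ Q, Q = |((∏ i ∈ used2 b c, (F i).eval (t : ℤ) : ℤ) : ℝ)| := ⟨_, rfl⟩
  rw [← hQd] at hQ ⊢
  rw [hP, ha, ← hP] at hlow
  calc |(x : ℝ)| * t ≤ (2 * H * (t : ℝ) ^ D) * t := mul_le_mul_of_nonneg_right hxb ht0.le
    _ = 2 * H * (t : ℝ) ^ (D + 1) := by rw [pow_succ]; ring
    _ ≤ 2 * H * (t : ℝ) ^ (P.natDegree + d) :=
        mul_le_mul_of_nonneg_left (pow_le_pow_right₀ ht1 h1) (by linarith)
    _ = 2 * H * (t : ℝ) ^ P.natDegree * (t : ℝ) ^ d := by rw [pow_add]; ring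
    _ ≤ 2 * H * (2 * |(a : ℝ)|) * (2 ^ K * Q) := by
        apply mul_le_mul (mul_le_mul_of_nonneg_left hlow (by linarith)) hQ (by positivity)
          (by positivity)
    _ = _ := by ring

/-- **Large exponents**: Baker's method, archimedean. -/
theorem arch_int (n : ℕ) : ∃ C κ : ℕ, ∀ S L : ℕ, 1 ≤ S →
    ∀ (q : Fin n → ℤ) (b c : Fin n → ℕ) (β γ : ℤ), (∀ i, 2 ≤ |q i|) →
    (∀ i, |q i| ≤ 2 ^ S) → β ≠ 0 → γ ≠ 0 → |β| ≤ 2 ^ S → |γ| ≤ 2 ^ S →
    (∀ i, b i ≤ 2 ^ L) → (∀ i, c i ≤ 2 ^ L) →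
    ∀ (a : ℤ), a ≠ 0 → γ * ∏ i, q i ^ c i - β * ∏ i, q i ^ b i = a →
    ∀ x : ℤ, (x = γ * ∏ i, q i ^ c i ∨ x = β * ∏ i, q i ^ b i) →
      |x| ≤ |a| * 2 ^ (C * (S + L) ^ κ) := by
  obtain ⟨κ2, g0, harch⟩ := arch n
  refine ⟨2 + (1 + g0) ^ κ2, κ2, ?_⟩
  intro S L hS q b c β γ hq2 hqS hβ hγ hβS hγS hbL hcL a ha0 heq x hx
  obtain ⟨u, hu⟩ : ∃ u, u = ∏ i, q i ^ c i := ⟨_, rfl⟩
  obtain ⟨y, hy⟩ : ∃ y, y = ∏ i, q i ^ b i := ⟨_, rfl⟩
  rw [← hu, ← hy] at heq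
  rw [← hu, ← hy] at hx
  have hQ2 : ∀ i, 2 ≤ (q i).natAbs := fun i => by
    have h1 := hq2 i
    rw [← Int.natCast_natAbs] at h1
    exact_mod_cast h1
  have hQS : ∀ i, (q i).natAbs ≤ 2 ^ S := fun i => by
    have h1 : ((q i).natAbs : ℤ) ≤ 2 ^ S := by rw [Int.natCast_natAbs]; exact hqS i
    exact_mod_cast h1
  have habs : ∀ e : Fin n → ℕ, |∏ i, q i ^ e i| = ((∏ i, (q i).natAbs ^ e i : ℕ) : ℤ) := by
    intro e
    rw [Finset.abs_prod]
    push_cast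
    apply Finset.prod_congr rfl
    intro i _
    rw [abs_pow]
  obtain ⟨V, hV⟩ : ∃ V, V = Nat.log 2 a.natAbs + 1 := ⟨_, rfl⟩
  have haV : |a| ≤ 2 ^ V := by
    have h1 : a.natAbs < 2 ^ V := by
      rw [hV]
      exact Nat.lt_pow_succ_log_self (by norm_num) _
    have h2 : (a.natAbs : ℤ) < 2 ^ V := by exact_mod_cast h1
    rw [Int.natCast_natAbs] at h2
    exact h2.le
  have hVa : (2 : ℤ) ^ V ≤ 2 * |a| := by
    have h1 : 2 ^ (Nat.log 2 a.natAbs) ≤ a.natAbs :=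
      Nat.pow_log_le_self 2 (Int.natAbs_pos.mpr ha0).ne'
    have h2 : (2 : ℤ) ^ (Nat.log 2 a.natAbs) ≤ (a.natAbs : ℤ) := by exact_mod_cast h1
    rw [Int.natCast_natAbs] at h2
    rw [hV, pow_succ]
    linarith
  obtain ⟨G, hG⟩ : ∃ G, G = (S + L + g0) ^ κ2 := ⟨_, rfl⟩
  have ex : ((γ.natAbs * ∏ i, (q i).natAbs ^ c i : ℕ) : ℤ) = |γ * u| := by
    rw [abs_mul, hu, habs, Nat.cast_mul, Int.natCast_natAbs]
  have ey : ((β.natAbs * ∏ i, (q i).natAbs ^ b i : ℕ) : ℤ) = |β * y| := by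
    rw [abs_mul, hy, habs, Nat.cast_mul, Int.natCast_natAbs]
  have hxy : |γ * u| ≤ 2 ^ (V + 1 + G) ∧ |β * y| ≤ 2 ^ (V + 1 + G) := by
    by_cases hne : γ.natAbs * ∏ i, (q i).natAbs ^ c i = β.natAbs * ∏ i, (q i).natAbs ^ b i
    · have h1 : |γ * u| = |β * y| := by rw [← ex, ← ey, hne]
      have h2 : γ * u = -(β * y) := by
        rcases abs_eq_abs.mp h1 with h3 | h3
        · exfalso
          apply ha0
          rw [← heq, h3, sub_self]
        · exact h3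
      have h3 : |γ * u| ≤ 2 ^ V := by
        have h4 : a = 2 * (γ * u) := by rw [← heq]; linarith
        rw [h4, abs_mul] at haV
        have : |(2 : ℤ)| = 2 := by norm_num
        rw [this] at haV
        have := abs_nonneg (γ * u)
        linarith
      have h5 : |γ * u| ≤ 2 ^ (V + 1 + G) :=
        h3.trans (pow_le_pow_right₀ (by norm_num) (by omega))
      exact ⟨h5, h1 ▸ h5⟩
    · have h1 := harch S L V (fun i => (q i).natAbs) b c β.natAbs γ.natAbs (Int.natAbs_pos.mpr hβ)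
        (Int.natAbs_pos.mpr hγ) (by
          have : (β.natAbs : ℤ) ≤ 2 ^ S := by rw [Int.natCast_natAbs]; exact hβS
          exact_mod_cast this) (by
          have : (γ.natAbs : ℤ) ≤ 2 ^ S := by rw [Int.natCast_natAbs]; exact hγS
          exact_mod_cast this) (fun i => by have := hQ2 i; omega) hQS hbL hcL hne (by
          rw [ex, ey]
          refine (abs_abs_sub_abs_le_abs_sub _ _).trans ?_
          rw [heq]
          exact haV)
      rw [← hG] at h1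
      constructor
      · rw [← ex]; exact_mod_cast h1.1
      · rw [← ey]; exact_mod_cast h1.2
  have hxb : |x| ≤ 2 ^ (V + 1 + G) := by
    rcases hx with rfl | rfl
    · exact hxy.1
    · exact hxy.2
  have hfin : |x| ≤ |a| * 2 ^ (2 + G) := by
    calc |x| ≤ 2 ^ (V + 1 + G) := hxb
      _ = 2 ^ V * 2 ^ (1 + G) := by rw [← pow_add]; congr 1; omega
      _ ≤ (2 * |a|) * 2 ^ (1 + G) := mul_le_mul_of_nonneg_right hVa (by positivity)
      _ = _ := by rw [pow_add, pow_add]; ring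
  refine hfin.trans (mul_le_mul_of_nonneg_left (pow_le_pow_right₀ (by norm_num) ?_) (abs_nonneg _))
  obtain ⟨R, hR⟩ : ∃ R, R = S + L := ⟨_, rfl⟩
  have hR1 : 1 ≤ R := by omega
  rw [← hR] at hG ⊢
  obtain ⟨Z, hZ⟩ : ∃ Z, Z = R ^ κ2 := ⟨_, rfl⟩
  rw [← hZ]
  have hZ1 : 1 ≤ Z := by rw [hZ]; exact Nat.one_le_pow _ _ hR1
  have hG2 : G ≤ (1 + g0) ^ κ2 * Z := by
    rw [hG, hZ]
    calc (R + g0) ^ κ2 ≤ ((1 + g0) * R) ^ κ2 := Nat.pow_le_pow_left (by nlinarith) _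
      _ = (1 + g0) ^ κ2 * R ^ κ2 := by rw [mul_pow]
  have e : (2 + (1 + g0) ^ κ2) * Z = 2 * Z + (1 + g0) ^ κ2 * Z := by ring
  rw [e]
  omega

theorem arch_uniform (K : ℕ) : ∃ C κ : ℕ, ∀ n, n ≤ K → ∀ S L : ℕ, 1 ≤ S →
    ∀ (q : Fin n → ℤ) (b c : Fin n → ℕ) (β γ : ℤ), (∀ i, 2 ≤ |q i|) →
    (∀ i, |q i| ≤ 2 ^ S) → β ≠ 0 → γ ≠ 0 → |β| ≤ 2 ^ S → |γ| ≤ 2 ^ S →
    (∀ i, b i ≤ 2 ^ L) → (∀ i, c i ≤ 2 ^ L) →
    ∀ (a : ℤ), a ≠ 0 → γ * ∏ i, q i ^ c i - β * ∏ i, q i ^ b i = a →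
    ∀ x : ℤ, (x = γ * ∏ i, q i ^ c i ∨ x = β * ∏ i, q i ^ b i) →
      |x| ≤ |a| * 2 ^ (C * (S + L) ^ κ) := by
  refine uniform_le (P := fun n C κ => ∀ S L : ℕ, 1 ≤ S →
    ∀ (q : Fin n → ℤ) (b c : Fin n → ℕ) (β γ : ℤ), (∀ i, 2 ≤ |q i|) →
    (∀ i, |q i| ≤ 2 ^ S) → β ≠ 0 → γ ≠ 0 → |β| ≤ 2 ^ S → |γ| ≤ 2 ^ S →
    (∀ i, b i ≤ 2 ^ L) → (∀ i, c i ≤ 2 ^ L) →
    ∀ (a : ℤ), a ≠ 0 → γ * ∏ i, q i ^ c i - β * ∏ i, q i ^ b i = a →
    ∀ x : ℤ, (x = γ * ∏ i, q i ^ c i ∨ x = β * ∏ i, q i ^ b i) →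
      |x| ≤ |a| * 2 ^ (C * (S + L) ^ κ)) ?_ arch_int K
  intro n C κ C' κ' hC hκ h S L h1 q b c β γ h2 h3 h4 h5 h6 h7 h8 h9 a h10 h11 x h12
  refine (h S L h1 q b c β γ h2 h3 h4 h5 h6 h7 h8 h9 a h10 h11 x h12).trans ?_
  apply mul_le_mul_of_nonneg_left _ (abs_nonneg _)
  apply pow_le_pow_right₀ (by norm_num)
  exact Nat.mul_le_mul hC (Nat.pow_le_pow_right (by omega) hκ)

/-- a power of the logarithm of the exponent is less than a higher power of `log log` -/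
theorem loglog_bound (C κ k : ℕ) : ∃ E₀ : ℕ, ∀ E : ℕ, E₀ ≤ E → ∀ M : ℝ,
    (2 : ℝ) ^ ((E : ℝ) / 2) ≤ M →
    (2 : ℝ) ^ (C * (k * (Nat.log 2 E + 1)) ^ κ + 1) ≤ Real.exp (Real.log (Real.log M) ^ (κ + 1)) := by
  obtain ⟨Y, hY⟩ : ∃ Y : ℝ, Y = 2 ^ (κ + 1) * (C * (3 * k) ^ κ + 1) + 8 := ⟨_, rfl⟩
  obtain ⟨E₀, hE₀⟩ : ∃ E₀ : ℕ, E₀ = ⌈Real.exp Y⌉₊ := ⟨_, rfl⟩
  refine ⟨E₀, fun E hE M hM => ?_⟩
  have hY8 : 8 ≤ Y := by
    rw [hY]
    have : (0 : ℝ) ≤ 2 ^ (κ + 1) * (C * (3 * k) ^ κ + 1) := by positivity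
    linarith
  have hEY : Real.exp Y ≤ E := by
    have h1 : Real.exp Y ≤ E₀ := by rw [hE₀]; exact Nat.le_ceil _
    exact h1.trans (by exact_mod_cast hE)
  have hE0 : (0 : ℝ) < E := lt_of_lt_of_le (Real.exp_pos _) hEY
  obtain ⟨l, hl⟩ : ∃ l, l = Real.log E := ⟨_, rfl⟩
  have hlY : Y ≤ l := by rw [hl]; exact (Real.le_log_iff_exp_le hE0).mpr hEY
  have hl8 : 8 ≤ l := hY8.trans hlY
  have hlog2 : 1 / 2 ≤ Real.log 2 := by
    have := Real.log_two_gt_d9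
    linarith
  have hMM : (E : ℝ) / 4 ≤ Real.log M := by
    have h1 : Real.log ((2 : ℝ) ^ ((E : ℝ) / 2)) ≤ Real.log M := Real.log_le_log (by positivity) hM
    rw [Real.log_rpow (by norm_num)] at h1
    nlinarith
  have hLL : l / 2 ≤ Real.log (Real.log M) := by
    have h1 : Real.log ((E : ℝ) / 4) ≤ Real.log (Real.log M) := Real.log_le_log (by positivity) hMM
    rw [Real.log_div hE0.ne' (by norm_num), ← hl] at h1
    have h2 : Real.log 4 ≤ 3 := by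
      have := Real.log_le_sub_one_of_pos (show (0 : ℝ) < 4 by norm_num)
      linarith
    linarith
  have hnl : ((Nat.log 2 E : ℕ) : ℝ) ≤ 2 * l := by
    have h1 : 2 ^ Nat.log 2 E ≤ E := Nat.pow_log_le_self 2 (by
      rintro rfl
      simp at hE0)
    have h2 : (2 : ℝ) ^ (Nat.log 2 E) ≤ E := by exact_mod_cast h1
    have h3 : Real.log ((2 : ℝ) ^ (Nat.log 2 E)) ≤ l := by
      rw [hl]
      exact Real.log_le_log (by positivity) h2
    rw [Real.log_pow] at h3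
    have h4 : (0 : ℝ) ≤ (Nat.log 2 E : ℕ) := Nat.cast_nonneg _
    nlinarith
  have hmain : ((C * (k * (Nat.log 2 E + 1)) ^ κ + 1 : ℕ) : ℝ) ≤
      Real.log (Real.log M) ^ (κ + 1) := by
    push_cast
    have h1 : (k : ℝ) * ((Nat.log 2 E : ℕ) + 1) ≤ 3 * k * l := by
      have : (0 : ℝ) ≤ k := Nat.cast_nonneg _
      nlinarith
    have h2 : ((k : ℝ) * ((Nat.log 2 E : ℕ) + 1)) ^ κ ≤ (3 * k) ^ κ * l ^ κ := by
      rw [← mul_pow]
      exact pow_le_pow_left₀ (by positivity) h1 κ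
    have h3 : (1 : ℝ) ≤ l ^ κ := one_le_pow₀ (by linarith)
    have h4 : (C : ℝ) * ((k : ℝ) * ((Nat.log 2 E : ℕ) + 1)) ^ κ + 1 ≤
        (C * (3 * k) ^ κ + 1) * l ^ κ := by
      have h5 : (C : ℝ) * ((k : ℝ) * ((Nat.log 2 E : ℕ) + 1)) ^ κ ≤ C * ((3 * k) ^ κ * l ^ κ) :=
        mul_le_mul_of_nonneg_left h2 (Nat.cast_nonneg _)
      nlinarith
    refine h4.trans ?_
    have h6 : (C * (3 * k) ^ κ + 1 : ℝ) ≤ l / 2 ^ (κ + 1) := by
      rw [le_div_iff₀ (by positivity), mul_comm]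
      refine le_trans ?_ hlY
      rw [hY]
      linarith
    calc (C * (3 * k) ^ κ + 1 : ℝ) * l ^ κ ≤ (l / 2 ^ (κ + 1)) * l ^ κ :=
          mul_le_mul_of_nonneg_right h6 (by positivity)
      _ = (l / 2) ^ (κ + 1) := by rw [div_pow, pow_succ l κ]; ring
      _ ≤ _ := pow_le_pow_left₀ (by positivity) hLL _
  calc (2 : ℝ) ^ (C * (k * (Nat.log 2 E + 1)) ^ κ + 1)
      ≤ (Real.exp 1) ^ (C * (k * (Nat.log 2 E + 1)) ^ κ + 1) :=
        pow_le_pow_left₀ (by norm_num) (by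
          have := Real.exp_one_gt_d9
          linarith) _
    _ = Real.exp ((C * (k * (Nat.log 2 E + 1)) ^ κ + 1 : ℕ) : ℝ) := by
        rw [← Real.exp_nat_mul, mul_one]
    _ ≤ _ := Real.exp_le_exp.mpr hmain

/-- **The difference of two products of powers of numbers with small digits and first digit `1`.** -/
theorem monic (K : ℕ) (ε : ℝ) (hε : 0 < ε) : ∃ δ : ℝ, 0 < δ ∧ δ ≤ 1 / 4 ∧ ∃ κ t₀ : ℕ, 64 ≤ t₀ ∧
    ∀ t : ℕ, t₀ ≤ t →
    ∀ (n : ℕ) (F : Fin n → ℤ[X]) (β γ : ℤ), DataM t K ((t : ℝ) ^ δ) F β γ →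
    ∀ b c : Fin n → ℕ, (used2 b c).Nonempty → ∀ a : ℤ, a ≠ 0 →
      γ * ∏ i, (F i).eval (t : ℤ) ^ c i - β * ∏ i, (F i).eval (t : ℤ) ^ b i = a →
      ∀ M : ℝ, M = max |((γ * ∏ i, (F i).eval (t : ℤ) ^ c i : ℤ) : ℝ)|
          |((β * ∏ i, (F i).eval (t : ℤ) ^ b i : ℤ) : ℝ)| →
        (t : ℝ) / 2 ≤ M ∧
        M * (t : ℝ) ^ (1 - ε) ≤ |(a : ℝ)| * |((∏ i ∈ used2 b c, (F i).eval (t : ℤ) : ℤ) : ℝ)| *
          Real.exp (Real.log (Real.log M) ^ κ) := by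
  obtain ⟨Cc, κ, hlarge⟩ := arch_uniform K
  obtain ⟨δ, hδ⟩ : ∃ δ : ℝ, δ = min ((1 : ℝ) / (4 * ((K : ℝ) + 2))) (ε / 4) :=
    ⟨_, rfl⟩
  have hδ0 : 0 < δ := by rw [hδ]; exact lt_min (by positivity) (by positivity)
  have hδ1 : δ * (2 * K + 3) ≤ 1 / 2 := by
    have h1 : δ ≤ (1 : ℝ) / (4 * ((K : ℝ) + 2)) := by rw [hδ]; exact min_le_left _ _
    calc δ * (2 * K + 3) ≤ (1 : ℝ) / (4 * ((K : ℝ) + 2)) * (2 * K + 4) := by
          apply mul_le_mul h1 (by linarith) (by positivity) (by positivity)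
      _ = 1 / 2 := by field_simp; ring
  have hδ2 : δ ≤ ε / 4 := by rw [hδ]; exact min_le_right _ _
  have hδ4 : δ ≤ 1 / 4 := by
    have h1 : δ ≤ (1 : ℝ) / (4 * ((K : ℝ) + 2)) := by rw [hδ]; exact min_le_left _ _
    refine h1.trans ?_
    rw [div_le_div_iff₀ (by positivity) (by norm_num)]
    have : (0 : ℝ) ≤ K := by positivity
    linarith
  obtain ⟨k1, hk1⟩ : ∃ k1 : ℕ, k1 = ⌈1 / δ⌉₊ := ⟨_, rfl⟩
  have hk1' : 1 / δ ≤ k1 := by rw [hk1]; exact Nat.le_ceil _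
  obtain ⟨k2, hk2⟩ : ∃ k2 : ℕ, k2 = (K + 1) * (k1 + 1) + 1 := ⟨_, rfl⟩
  obtain ⟨E₀, hE₀⟩ := loglog_bound Cc κ k2
  have hwt : Tendsto (fun t : ℕ => (t : ℝ) ^ δ) atTop atTop :=
    (tendsto_rpow_atTop hδ0).comp tendsto_natCast_atTop_atTop
  have hwe : Tendsto (fun t : ℕ => (t : ℝ) ^ (3 * ε / 4)) atTop atTop :=
    (tendsto_rpow_atTop (by positivity)).comp tendsto_natCast_atTop_atTop
  obtain ⟨t₁, ht₁⟩ := eventually_atTop.mp
    ((hwt.eventually_ge_atTop ((E₀ : ℝ) + 1)).and (hwe.eventually_ge_atTop (4 * 2 ^ K)))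
  refine ⟨δ, hδ0, hδ4, κ + 1, max t₁ 4096, (by norm_num : 64 ≤ 4096).trans (le_max_right _ _), ?_⟩
  intro t ht n F β γ hD b c hU a ha heq M hM
  have ht64 : 4096 ≤ t := (le_max_right _ _).trans ht
  obtain ⟨hte, hte2⟩ := ht₁ t ((le_max_left _ _).trans ht)
  have htR : (4096 : ℝ) ≤ t := by exact_mod_cast ht64
  have ht0 : (0 : ℝ) < t := by linarith
  obtain ⟨H, hH⟩ : ∃ H : ℝ, H = (t : ℝ) ^ δ := ⟨_, rfl⟩
  rw [← hH] at hD hte
  have hH1 : 1 ≤ H := by rw [hH]; exact Real.one_le_rpow (by linarith) hδ0.le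
  obtain ⟨r, hr⟩ : ∃ r : ℝ, r = (t : ℝ) ^ (1 / 2 : ℝ) := ⟨_, rfl⟩
  have hrr : r * r = t := by
    rw [hr, ← Real.rpow_add ht0]
    norm_num
  have hr8 : 64 ≤ r := by
    have hr0 : 0 ≤ r := by rw [hr]; positivity
    nlinarith
  have hHr : H ≤ r := by
    rw [hH, hr]
    exact Real.rpow_le_rpow_of_exponent_le (by linarith) (by linarith)
  have hHt : 8 * H ≤ t := by nlinarith
  -- the values
  have hF0 : ∀ i, F i ≠ 0 := fun i h => by
    have := hD.pos i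
    rw [h, natDegree_zero] at this
    omega
  have hval := fun i => value_size (t := t) (by omega) (by linarith) (by linarith) (hD.coeff i)
    (hF0 i)
  have hdegK : ∀ i, (F i).natDegree ≤ K := fun i =>
    (Finset.single_le_sum (f := fun i => (F i).natDegree) (fun _ _ => Nat.zero_le _)
      (Finset.mem_univ i)).trans hD.deg
  have hnK : n ≤ K := by
    calc n = ∑ _i : Fin n, 1 := by simp
      _ ≤ ∑ i, (F i).natDegree := Finset.sum_le_sum fun i _ => hD.pos i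
      _ ≤ K := hD.deg
  obtain ⟨S, hS⟩ : ∃ S, S = (K + 1) * (Nat.log 2 t + 1) := ⟨_, rfl⟩
  have htS : t ^ (K + 1) ≤ 2 ^ S := by
    rw [hS, mul_comm, pow_mul]
    exact Nat.pow_le_pow_left (Nat.lt_pow_succ_log_self (by norm_num) _).le _
  have htSZ : (t : ℤ) ^ (K + 1) ≤ 2 ^ S := by exact_mod_cast htS
  have httK : (t : ℤ) ≤ (t : ℤ) ^ (K + 1) := by
    have h1 : (1 : ℤ) ≤ t := by exact_mod_cast (show 1 ≤ t by omega)
    exact le_self_pow₀ h1 (by omega)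
  have hS1 : 1 ≤ S := by rw [hS]; exact Nat.mul_pos (by omega) (by omega)
  have hvlow : ∀ i, (t : ℝ) / 2 ≤ |(((F i).eval (t : ℤ) : ℤ) : ℝ)| := by
    intro i
    have h1 := (hval i).1
    have h2 : (t : ℝ) ≤ (t : ℝ) ^ (F i).natDegree := le_self_pow₀ (by linarith) (hD.pos i).ne'
    linarith
  have hvup : ∀ i, |(F i).eval (t : ℤ)| ≤ 2 ^ S := by
    intro i
    have h1 := (hval i).2
    have h2 : (H + 1 / 2) * (t : ℝ) ^ (F i).natDegree ≤ (t : ℝ) ^ (K + 1) := by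
      calc (H + 1 / 2) * (t : ℝ) ^ (F i).natDegree ≤ t * (t : ℝ) ^ K := by
            apply mul_le_mul (by linarith) _ (by positivity) (by linarith)
            exact pow_le_pow_right₀ (by linarith) (hdegK i)
        _ = _ := by ring
    have h3 : |(((F i).eval (t : ℤ) : ℤ) : ℝ)| ≤ (t : ℝ) ^ (K + 1) := h1.trans h2
    have h4 : |(F i).eval (t : ℤ)| ≤ (t : ℤ) ^ (K + 1) := by exact_mod_cast h3
    exact h4.trans htSZ
  have hcS : ∀ x : ℤ, |(x : ℝ)| ≤ H → |x| ≤ 2 ^ S := by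
    intro x hx
    have h1 : |(x : ℝ)| ≤ t := hx.trans (by linarith)
    have h2 : |x| ≤ t := by exact_mod_cast h1
    exact h2.trans (httK.trans htSZ)
  obtain ⟨q, hq⟩ : ∃ q : Fin n → ℤ, ∀ i, q i = (F i).eval (t : ℤ) := ⟨_, fun i => rfl⟩
  have hq2 : ∀ i, 2 ≤ |q i| := by
    intro i
    have h1 := hvlow i
    rw [← hq i] at h1
    have h3 : (2 : ℝ) ≤ |(q i : ℝ)| := by linarith
    exact_mod_cast h3
  have hqS : ∀ i, |q i| ≤ 2 ^ S := fun i => by rw [hq i]; exact hvup i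
  -- the two numbers
  obtain ⟨Xc, hXc⟩ : ∃ Xc : ℤ, Xc = γ * ∏ i, (F i).eval (t : ℤ) ^ c i := ⟨_, rfl⟩
  obtain ⟨Xb, hXb⟩ : ∃ Xb : ℤ, Xb = β * ∏ i, (F i).eval (t : ℤ) ^ b i := ⟨_, rfl⟩
  have hXc' : Xc = γ * ∏ i, q i ^ c i := by rw [hXc]; simp only [hq]
  have hXb' : Xb = β * ∏ i, q i ^ b i := by rw [hXb]; simp only [hq]
  obtain ⟨Q, hQ⟩ : ∃ Q : ℝ, Q = |((∏ i ∈ used2 b c, (F i).eval (t : ℤ) : ℤ) : ℝ)| := ⟨_, rfl⟩
  rw [← hXc, ← hXb] at hM
  rw [← hQ]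
  have hbase : ∀ (η : ℤ) (e : Fin n → ℕ), η ≠ 0 → (2 : ℝ) ^ (∑ i, e i) ≤
      |((η * ∏ i, q i ^ e i : ℤ) : ℝ)| ∧ ∀ i, e i ≠ 0 → (t : ℝ) / 2 ≤
      |((η * ∏ i, q i ^ e i : ℤ) : ℝ)| := by
    intro η e hη
    have h1 : (1 : ℝ) ≤ |(η : ℝ)| := by exact_mod_cast Int.one_le_abs hη
    push_cast
    rw [abs_mul, Finset.abs_prod]
    have hqa : ∀ i, (2 : ℝ) ≤ |(q i : ℝ)| := fun i => by exact_mod_cast hq2 i
    have h0 : ∀ i, (1 : ℝ) ≤ |(q i : ℝ) ^ e i| := fun i => by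
      rw [abs_pow]
      exact one_le_pow₀ (by linarith [hqa i])
    have hpos : (0 : ℝ) ≤ ∏ i, |(q i : ℝ) ^ e i| := Finset.prod_nonneg fun i _ => abs_nonneg _
    constructor
    · have h2 : (2 : ℝ) ^ (∑ i, e i) ≤ ∏ i, |(q i : ℝ) ^ e i| := by
        rw [← Finset.prod_pow_eq_pow_sum]
        apply Finset.prod_le_prod (fun i _ => by positivity)
        intro i _
        rw [abs_pow]
        exact pow_le_pow_left₀ (by norm_num) (hqa i) _
      nlinarith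
    · intro i hi
      have h2 : |(q i : ℝ) ^ e i| ≤ ∏ i, |(q i : ℝ) ^ e i| := by
        rw [← Finset.mul_prod_erase Finset.univ (fun i => |(q i : ℝ) ^ e i|) (Finset.mem_univ i)]
        refine le_mul_of_one_le_right (abs_nonneg _) ?_
        refine Finset.prod_induction _ (fun x : ℝ => 1 ≤ x) (fun a b ha hb => ?_) le_rfl
          (fun j _ => h0 j)
        nlinarith
      have h3 : |(q i : ℝ)| ≤ |(q i : ℝ) ^ e i| := by
        rw [abs_pow]
        exact le_self_pow₀ (by linarith [hqa i]) hi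
      have h4 := hvlow i
      rw [← hq i] at h4
      nlinarith
  obtain ⟨hb1, hb2⟩ := hbase β b hD.β0
  obtain ⟨hc1, hc2⟩ := hbase γ c hD.γ0
  rw [← hXb'] at hb1 hb2
  rw [← hXc'] at hc1 hc2
  have hMb : |(Xb : ℝ)| ≤ M := by rw [hM]; exact le_max_right _ _
  have hMc : |(Xc : ℝ)| ≤ M := by rw [hM]; exact le_max_left _ _
  have hMt : (t : ℝ) / 2 ≤ M := by
    obtain ⟨i, hi⟩ := hU
    rcases (Finset.mem_filter.mp hi).2 with h | h
    · exact (hb2 i h).trans hMb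
    · exact (hc2 i h).trans hMc
  refine ⟨hMt, ?_⟩
  have hM1 : 1 ≤ M := by linarith
  have hM0 : 0 < M := by linarith
  have ha1 : (1 : ℝ) ≤ |(a : ℝ)| := by exact_mod_cast Int.one_le_abs ha
  have hQt : (t : ℝ) / 2 ≤ Q := by
    obtain ⟨i, hi⟩ := hU
    have h1 : (F i).eval (t : ℤ) ∣ ∏ i ∈ used2 b c, (F i).eval (t : ℤ) :=
      Finset.dvd_prod_of_mem (fun i => (F i).eval (t : ℤ)) hi
    have h2 : |(F i).eval (t : ℤ)| ≤ |∏ i ∈ used2 b c, (F i).eval (t : ℤ)| := Int.le_of_dvd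
      (abs_pos.mpr (Finset.prod_ne_zero_iff.mpr fun j _ h => by
        have := hq2 j
        rw [hq j, h, abs_zero] at this
        omega)) ((abs_dvd_abs _ _).mpr h1)
    rw [hQ]
    refine (hvlow i).trans ?_
    exact_mod_cast h2
  have hQ0 : 0 ≤ Q := by linarith
  have haQ0 : 0 ≤ |(a : ℝ)| * Q := mul_nonneg (abs_nonneg _) hQ0
  have hexp1 : 1 ≤ Real.exp (Real.log (Real.log M) ^ (κ + 1)) := by
    apply Real.one_le_exp
    apply pow_nonneg
    apply Real.log_nonneg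
    have h1 : Real.log (Real.exp 1) ≤ Real.log M := Real.log_le_log (Real.exp_pos _) (by
      have := Real.exp_one_lt_d9
      linarith)
    rwa [Real.log_exp] at h1
  obtain ⟨E, hE⟩ : ∃ E, E = ∑ i, b i + ∑ i, c i := ⟨_, rfl⟩
  rcases le_or_gt (E : ℝ) H with hcase | hcase
  · -- small exponents
    obtain ⟨N, hN⟩ : ∃ N, N = max 1 E := ⟨_, rfl⟩
    have hNH : (N : ℝ) ≤ H := by
      rw [hN]
      push_cast
      exact max_le hH1 hcase
    have hEN : E ≤ N := by rw [hN]; exact le_max_right _ _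
    have hs : 8 * H * (N * H) ^ (K + 1) ≤ t := by
      have h1 : 8 * H * (N * H) ^ (K + 1) ≤ 8 * (H * (H * H) ^ (K + 1)) := by
        rw [mul_assoc]
        apply mul_le_mul_of_nonneg_left _ (by norm_num)
        apply mul_le_mul_of_nonneg_left _ (by linarith)
        apply pow_le_pow_left₀ (by positivity)
        exact mul_le_mul_of_nonneg_right hNH (by linarith)
      have h2 : H * (H * H) ^ (K + 1) ≤ r := by
        have e1 : H * (H * H) ^ (K + 1) = H ^ (2 * K + 3) := by ring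
        rw [e1, hH, hr, ← Real.rpow_mul_natCast ht0.le]
        apply Real.rpow_le_rpow_of_exponent_le (by linarith)
        push_cast
        exact hδ1
      nlinarith
    have hsm : M * t ≤ 4 * H * 2 ^ K * (|(a : ℝ)| * Q) := by
      have h1 : ∀ x : ℤ, (x = γ * ∏ i, (F i).eval (t : ℤ) ^ c i ∨
          x = β * ∏ i, (F i).eval (t : ℤ) ^ b i) →
          |(x : ℝ)| * t ≤ 4 * H * 2 ^ K * (|(a : ℝ)| * Q) := fun x hx => by
        rw [hQ]
        exact small_top hD hH1 (by omega) (by linarith) b c (N := N)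
          (by rw [hN]; exact le_max_left _ _) (by omega) (by omega) hs ha heq hU hx
      rcases max_choice |(Xc : ℝ)| |(Xb : ℝ)| with h | h
      · rw [hM, h]; exact h1 Xc (Or.inl hXc)
      · rw [hM, h]; exact h1 Xb (Or.inr hXb)
    have h2 : 4 * H * 2 ^ K ≤ (t : ℝ) ^ ε := by
      calc 4 * H * 2 ^ K = (4 * 2 ^ K) * H := by ring
        _ ≤ (t : ℝ) ^ (3 * ε / 4) * (t : ℝ) ^ (ε / 4) := by
            apply mul_le_mul hte2 _ (by linarith) (by positivity)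
            rw [hH]
            exact Real.rpow_le_rpow_of_exponent_le (by linarith) hδ2
        _ = _ := by
            rw [← Real.rpow_add ht0]
            congr 1
            ring
    have h3 : M * (t : ℝ) ^ (1 - ε) ≤ |(a : ℝ)| * Q := by
      rw [Real.rpow_sub ht0, Real.rpow_one, ← mul_div_assoc, div_le_iff₀ (by positivity)]
      refine hsm.trans ?_
      rw [mul_comm (|(a : ℝ)| * Q)]
      exact mul_le_mul_of_nonneg_right h2 haQ0
    exact h3.trans (le_mul_of_one_le_right haQ0 hexp1)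
  · -- large exponents
    have hEE : E₀ ≤ E := by
      have h1 : (E₀ : ℝ) + 1 < E := lt_of_le_of_lt hte hcase
      have h2 : (E₀ : ℝ) ≤ E := by linarith
      exact_mod_cast h2
    have hE1 : (1 : ℝ) < E := lt_of_le_of_lt hH1 hcase
    have hE1' : 1 < E := by exact_mod_cast hE1
    have hE0 : (0 : ℝ) < E := by linarith
    have htE : t ≤ E ^ k1 := by
      have h1 : (t : ℝ) ≤ (E : ℝ) ^ k1 := by
        calc (t : ℝ) = H ^ (1 / δ) := by
              rw [hH, ← Real.rpow_mul ht0.le, mul_one_div_cancel hδ0.ne', Real.rpow_one]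
          _ ≤ (E : ℝ) ^ (1 / δ) := Real.rpow_le_rpow (by linarith) hcase.le (by positivity)
          _ ≤ (E : ℝ) ^ (k1 : ℝ) := Real.rpow_le_rpow_of_exponent_le hE1.le hk1'
          _ = _ := Real.rpow_natCast _ _
      exact_mod_cast h1
    obtain ⟨L, hL⟩ : ∃ L, L = Nat.log 2 E + 1 := ⟨_, rfl⟩
    have hEL : E < 2 ^ L := by
      rw [hL]
      exact Nat.lt_pow_succ_log_self (by norm_num) _
    have hlogt : Nat.log 2 t ≤ k1 * L := by
      have h1 : t < 2 ^ (k1 * L + 1) := by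
        calc t ≤ E ^ k1 := htE
          _ ≤ (2 ^ L) ^ k1 := Nat.pow_le_pow_left hEL.le _
          _ = 2 ^ (k1 * L) := by rw [← pow_mul, mul_comm]
          _ < 2 ^ (k1 * L + 1) := Nat.pow_lt_pow_right (by norm_num) (Nat.lt_succ_self _)
      have h2 := Nat.log_lt_of_lt_pow (by omega) h1
      omega
    have hSL : S + L ≤ k2 * (Nat.log 2 E + 1) := by
      rw [← hL, hS, hk2]
      have hL1 : 1 ≤ L := by omega
      have h1 : (K + 1) * (Nat.log 2 t + 1) ≤ (K + 1) * ((k1 + 1) * L) := by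
        apply Nat.mul_le_mul_left
        rw [add_mul, one_mul]
        omega
      calc (K + 1) * (Nat.log 2 t + 1) + L ≤ (K + 1) * ((k1 + 1) * L) + L := by omega
        _ = ((K + 1) * (k1 + 1) + 1) * L := by ring
    have hbi : ∀ i, b i ≤ 2 ^ L := fun i => by
      have := Finset.single_le_sum (f := b) (fun _ _ => Nat.zero_le _) (Finset.mem_univ i)
      omega
    have hci : ∀ i, c i ≤ 2 ^ L := fun i => by
      have := Finset.single_le_sum (f := c) (fun _ _ => Nat.zero_le _) (Finset.mem_univ i)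
      omega
    have hlg : ∀ x : ℤ, (x = Xc ∨ x = Xb) →
        |(x : ℝ)| ≤ |(a : ℝ)| * 2 ^ (Cc * (S + L) ^ κ) := fun x hx => by
      have h1 := hlarge n hnK S L hS1 q b c β γ hq2 hqS hD.β0 hD.γ0
        (hcS _ hD.βH) (hcS _ hD.γH) hbi hci a ha
        (by rw [← hXc', ← hXb', hXc, hXb]; exact heq) x
        (by rw [← hXc', ← hXb']; exact hx)
      exact_mod_cast h1
    have hMw : M ≤ |(a : ℝ)| * 2 ^ (Cc * (S + L) ^ κ) := by
      rw [hM]
      exact max_le (hlg Xc (Or.inl rfl)) (hlg Xb (Or.inr rfl))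
    have hMe : (2 : ℝ) ^ ((E : ℝ) / 2) ≤ M := by
      have h1 : (E : ℝ) / 2 ≤ (max (∑ i, b i) (∑ i, c i) : ℕ) := by
        have h2 : E ≤ 2 * max (∑ i, b i) (∑ i, c i) := by omega
        have h3 : (E : ℝ) ≤ 2 * ((max (∑ i, b i) (∑ i, c i) : ℕ) : ℝ) := by exact_mod_cast h2
        linarith
      have h2 : (2 : ℝ) ^ (((max (∑ i, b i) (∑ i, c i) : ℕ) : ℝ)) ≤ M := by
        rw [Real.rpow_natCast]
        rcases le_total (∑ i, b i) (∑ i, c i) with h | h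
        · rw [max_eq_right h]; exact hc1.trans hMc
        · rw [max_eq_left h]; exact hb1.trans hMb
      exact (Real.rpow_le_rpow_of_exponent_le (by norm_num) h1).trans h2
    have hfin := hE₀ E hEE M hMe
    have hpow : (2 : ℝ) * 2 ^ (Cc * (S + L) ^ κ) ≤ Real.exp (Real.log (Real.log M) ^ (κ + 1)) := by
      refine le_trans ?_ hfin
      rw [pow_succ, mul_comm]
      apply mul_le_mul_of_nonneg_right _ (by norm_num)
      exact pow_le_pow_right₀ (by norm_num) (Nat.mul_le_mul_left _ (Nat.pow_le_pow_left hSL _))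
    have htε : (t : ℝ) ^ (1 - ε) ≤ 2 * Q := by
      refine le_trans ?_ (show (t : ℝ) ≤ 2 * Q by linarith)
      calc (t : ℝ) ^ (1 - ε) ≤ (t : ℝ) ^ (1 : ℝ) :=
            Real.rpow_le_rpow_of_exponent_le (by linarith) (by linarith)
        _ = t := Real.rpow_one _
    calc M * (t : ℝ) ^ (1 - ε) ≤ (|(a : ℝ)| * 2 ^ (Cc * (S + L) ^ κ)) * (2 * Q) :=
          mul_le_mul hMw htε (by positivity) (by positivity)
      _ = |(a : ℝ)| * Q * (2 * 2 ^ (Cc * (S + L) ^ κ)) := by ring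
      _ ≤ _ := mul_le_mul_of_nonneg_left hpow haQ0

end Pool.Agent.Q103.SD
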