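import Mathlib
import Pool.Agent.Q103.SD.Sparse

/-!
# Several linear combinations of two products of powers of numbers with small digits
-/

set_option autoImplicit false

namespace Pool.Agent.Q103.SD

open Polynomial Finset Filter

section

variable {K : Type*} [Field K] [CharZero K]

/-- **Two different linear combinations of two products of powers, one at zero, one at infinity.** -/
theorem wr_places {R B G N N' : K[X]} (hR : R ≠ 0) (hB : B ≠ 0) (hG : G ≠ 0)
    (hRd : 0 < R.natDegree)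
    (h1 : R * derivative B = B * N) (h2 : R * derivative G = G * N')
    (hR0 : R.coeff 0 ≠ 0) (hB0 : B.coeff 0 ≠ 0) (hG0 : G.coeff 0 ≠ 0)
    {s r s' r' : K} (hr : r ≠ 0) (hs' : s' ≠ 0) (hr' : r' ≠ 0)
    {P P' : K[X]} (hP : P = C s * B - C r * G) (hP' : P' = C s' * B - C r' * G) (hP0 : P ≠ 0)
    (hP0' : P' ≠ 0) :
    P.natTrailingDegree + max B.natDegree G.natDegree ≤ P'.natDegree + R.natDegree := by
  obtain ⟨W, hW⟩ : ∃ W, W = B * derivative G - derivative B * G := ⟨_, rfl⟩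
  have hRW : R * W = B * G * (N' - N) := by
    rw [hW]
    linear_combination B * h2 - G * h1
  have hWP : C r * W = derivative B * P - B * derivative P := by
    rw [hW, hP, derivative_sub, derivative_C_mul, derivative_C_mul]
    ring
  have hWP' : C r' * W = derivative B * P' - B * derivative P' := by
    rw [hW, hP', derivative_sub, derivative_C_mul, derivative_C_mul]
    ring
  have hWG' : C s' * W = derivative G * P' - G * derivative P' := by
    rw [hW, hP', derivative_sub, derivative_C_mul, derivative_C_mul]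
    ring
  by_cases hNN : N' - N = 0
  · rw [hNN, mul_zero] at hRW
    have hW0 : W = 0 := by
      rcases mul_eq_zero.mp hRW with h3 | h3
      · exact absurd h3 hR
      · exact h3
    have hdB : B.natDegree = P'.natDegree := by
      apply degree_eq hB hP0'
      rw [hW0, mul_zero] at hWP'
      linear_combination -hWP'
    have hdG : G.natDegree = P'.natDegree := by
      apply degree_eq hG hP0'
      rw [hW0, mul_zero] at hWG'
      linear_combination -hWG'
    have htr : B.natTrailingDegree = P.natTrailingDegree := by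
      apply trailing_eq hB hP0
      rw [hW0, mul_zero] at hWP
      linear_combination -hWP
    have h3 : B.natTrailingDegree ≤ 0 := natTrailingDegree_le_of_ne_zero hB0
    omega
  · have hW0 : W ≠ 0 := by
      rintro rfl
      rw [mul_zero] at hRW
      exact (mul_ne_zero (mul_ne_zero hB hG) hNN) hRW.symm
    have hdeg : R.natDegree + W.natDegree = B.natDegree + G.natDegree + (N' - N).natDegree := by
      rw [← natDegree_mul hR hW0, hRW, natDegree_mul (mul_ne_zero hB hG) hNN, natDegree_mul hB hG]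
    have hdC : ∀ c : K, c ≠ 0 → (C c * W).natDegree = W.natDegree := fun c hc =>
      natDegree_C_mul hc
    have key : ∀ {c : K} {Y : K[X]}, c ≠ 0 → C c * W = derivative Y * P' - Y * derivative P' →
        W.natDegree + 1 ≤ Y.natDegree + P'.natDegree := by
      intro c Y hc hY
      have e1 : C (-c) * W = Y * derivative P' - derivative Y * P' := by
        rw [C_neg]
        linear_combination -hY
      have hc' : -c ≠ 0 := neg_ne_zero.mpr hc
      rcases Nat.eq_zero_or_pos (Y.natDegree + P'.natDegree) with h0 | h0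
      · exfalso
        have e2 : Y.natDegree = 0 := by omega
        have e3 : P'.natDegree = 0 := by omega
        rw [eq_C_of_natDegree_eq_zero e2, eq_C_of_natDegree_eq_zero e3, derivative_C,
          derivative_C, mul_zero, zero_mul, sub_zero] at e1
        rcases mul_eq_zero.mp e1 with h | h
        · exact hc' (C_eq_zero.mp h)
        · exact hW0 h
      · have h4 := degree_wr h0 (le_refl (Y.natDegree + P'.natDegree))
        rw [← e1, hdC _ hc'] at h4
        exact h4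
    have hd1 := key hr' hWP'
    have hd2 := key hs' hWG'
    have htr : R.natTrailingDegree + W.natTrailingDegree =
        B.natTrailingDegree + G.natTrailingDegree + (N' - N).natTrailingDegree := by
      rw [← natTrailingDegree_mul hR hW0, hRW, natTrailingDegree_mul (mul_ne_zero hB hG) hNN,
        natTrailingDegree_mul hB hG]
    have t1 : R.natTrailingDegree ≤ 0 := natTrailingDegree_le_of_ne_zero hR0
    have t2 : B.natTrailingDegree ≤ 0 := natTrailingDegree_le_of_ne_zero hB0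
    have t3 : G.natTrailingDegree ≤ 0 := natTrailingDegree_le_of_ne_zero hG0
    have t4 := natTrailingDegree_le_natDegree (N' - N)
    have t5 : P.natTrailingDegree ≤ W.natTrailingDegree + 1 := by
      rcases Nat.eq_zero_or_pos P.natTrailingDegree with h0 | h0
      · omega
      · obtain ⟨m, hm⟩ : ∃ m, P.natTrailingDegree = m + 1 := ⟨P.natTrailingDegree - 1, by omega⟩
        have h3 : X ^ (m + 1) ∣ P := by
          rw [X_pow_dvd_iff]
          intro d hd
          exact coeff_eq_zero_of_lt_natTrailingDegree (by omega)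
        have h4 : X ^ m ∣ C r * W := by
          rw [hWP]
          exact dvd_sub (Dvd.dvd.mul_left ((pow_dvd_pow X (Nat.le_succ m)).trans h3) _)
            (Dvd.dvd.mul_left (X_pow_dvd_derivative h3) _)
        have h4' : X ^ m ∣ W := by
          have e : W = C r⁻¹ * (C r * W) := by
            rw [← mul_assoc, ← C_mul, inv_mul_cancel₀ hr, C_1, one_mul]
          rw [e]
          exact Dvd.dvd.mul_left h4 _
        have h5 : m ≤ W.natTrailingDegree :=
          le_natTrailingDegree hW0 fun d hd => (X_pow_dvd_iff.mp h4') d hd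
        omega
    omega

end

/-- version over a domain, for power products -/
theorem wr_places_PP {A : Type*} [CommRing A] [IsDomain A] [CharZero A] {κ : Type*} [Fintype κ]
    [DecidableEq κ] {F : κ → A[X]} (hF : ∀ i, F i ≠ 0)
    (b c : κ → ℕ) (U : Finset κ) (hU : ∀ i, b i ≠ 0 ∨ c i ≠ 0 → i ∈ U)
    (hU0 : 0 < ∑ i ∈ U, (F i).natDegree) (hU1 : ∀ i ∈ U, (F i).coeff 0 ≠ 0)
    {s r s' r' : A} (hr : r ≠ 0) (hs' : s' ≠ 0) (hr' : r' ≠ 0)
    (hne : C s * PP F 1 b - C r * PP F 1 c ≠ 0) (hne' : C s' * PP F 1 b - C r' * PP F 1 c ≠ 0) :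
    (C s * PP F 1 b - C r * PP F 1 c).natTrailingDegree +
        max (PP F 1 b).natDegree (PP F 1 c).natDegree ≤
      (C s' * PP F 1 b - C r' * PP F 1 c).natDegree + ∑ i ∈ U, (F i).natDegree := by
  let φ : A →+* FractionRing A := algebraMap A (FractionRing A)
  have hφ : Function.Injective φ := IsFractionRing.injective A (FractionRing A)
  have : CharZero (FractionRing A) := charZero_of_injective_algebraMap hφ
  have hne0 : ∀ {P : A[X]}, P ≠ 0 → P.map φ ≠ 0 := fun h => (Polynomial.map_ne_zero_iff hφ).mpr h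
  have hprod : ∀ e : κ → ℕ, (∀ i, e i ≠ 0 → i ∈ U) → ∏ i, F i ^ e i = ∏ i ∈ U, F i ^ e i := by
    intro e he
    symm
    apply Finset.prod_subset (Finset.subset_univ _)
    intro i _ hi
    have : e i = 0 := by
      by_contra h
      exact hi (he i h)
    rw [this, pow_zero]
  have hlog : ∀ (η : A) (e : κ → ℕ), (∀ i, e i ≠ 0 → i ∈ U) → ∃ N : A[X],
      (∏ i ∈ U, F i) * derivative (PP F η e) = PP F η e * N := by
    intro η e he
    obtain ⟨N, -, h⟩ := exists_log F e U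
    refine ⟨N, ?_⟩
    unfold PP
    rw [hprod e he, derivative_C_mul]
    linear_combination (C η) * h
  obtain ⟨N, hN⟩ := hlog 1 b fun i hi => hU i (Or.inl hi)
  obtain ⟨N', hN'⟩ := hlog 1 c fun i hi => hU i (Or.inr hi)
  have hRne : ∏ i ∈ U, F i ≠ 0 := Finset.prod_ne_zero_iff.mpr fun i _ => hF i
  have hRdeg : (∏ i ∈ U, F i).natDegree = ∑ i ∈ U, (F i).natDegree :=
    natDegree_prod _ _ fun i _ => hF i
  have hc0 : ∀ e : κ → ℕ, (∀ i, e i ≠ 0 → i ∈ U) → φ ((PP F 1 e).coeff 0) ≠ 0 := by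
    intro e he
    rw [Ne, map_eq_zero_iff φ hφ, coeff_zero_eq_eval_zero, eval_PP]
    refine mul_ne_zero one_ne_zero (Finset.prod_ne_zero_iff.mpr fun i _ => ?_)
    by_cases hi : e i = 0
    · rw [hi, pow_zero]; exact one_ne_zero
    · rw [← coeff_zero_eq_eval_zero]
      exact pow_ne_zero _ (hU1 i (he i hi))
  have hmapP : ∀ x y : A, (C x * PP F 1 b - C y * PP F 1 c).map φ =
      C (φ x) * (PP F 1 b).map φ - C (φ y) * (PP F 1 c).map φ := by
    intro x y
    rw [Polynomial.map_sub, Polynomial.map_mul, Polynomial.map_mul, map_C, map_C]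
  have hφ0 : ∀ {x : A}, x ≠ 0 → φ x ≠ 0 := fun h => (map_ne_zero_iff φ hφ).mpr h
  have h := wr_places (R := (∏ i ∈ U, F i).map φ) (B := (PP F 1 b).map φ) (G := (PP F 1 c).map φ)
    (N := N.map φ) (N' := N'.map φ) (hne0 hRne) (hne0 (PP_ne_zero hF one_ne_zero b))
    (hne0 (PP_ne_zero hF one_ne_zero c))
    (by rw [natDegree_map_eq_of_injective hφ, hRdeg]; exact hU0)
    (by rw [derivative_map, ← Polynomial.map_mul, ← Polynomial.map_mul, hN])
    (by rw [derivative_map, ← Polynomial.map_mul, ← Polynomial.map_mul, hN'])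
    (by
      rw [coeff_map, Ne, map_eq_zero_iff φ hφ, coeff_zero_eq_eval_zero, eval_prod]
      refine Finset.prod_ne_zero_iff.mpr fun i hi => ?_
      rw [← coeff_zero_eq_eval_zero]
      exact hU1 i hi)
    (by rw [coeff_map]; exact hc0 b fun i hi => hU i (Or.inl hi))
    (by rw [coeff_map]; exact hc0 c fun i hi => hU i (Or.inr hi))
    (hφ0 hr) (hφ0 hs') (hφ0 hr') (hmapP s r) (hmapP s' r') (hne0 hne) (hne0 hne')
  simp only [natDegree_map_eq_of_injective hφ, trailing_map hφ, hRdeg] at h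
  exact h

theorem exists_single {ι : Type*} [Fintype ι] [DecidableEq ι] [Nonempty ι] (f : ι → ℕ)
    (h : ∀ i j, i ≠ j → f i = 0 ∨ f j = 0) : ∃ i, ∑ j, f j = f i := by
  by_cases h0 : ∃ i, f i ≠ 0
  · obtain ⟨i, hi⟩ := h0
    refine ⟨i, Finset.sum_eq_single i (fun j _ hj => ?_) fun h => absurd (Finset.mem_univ i) h⟩
    rcases h i j (Ne.symm hj) with h1 | h1
    · exact absurd h1 hi
    · exact h1
  · push Not at h0
    obtain ⟨i⟩ := ‹Nonempty ι›
    exact ⟨i, by rw [h0 i]; exact Finset.sum_eq_zero fun j _ => h0 j⟩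

/-- The hypotheses on the values. -/
structure Values (H : ℝ) {ι : Type*} (s r : ι → ℤ) : Prop where
  s0 : ∀ i, s i ≠ 0
  r0 : ∀ i, r i ≠ 0
  sH : ∀ i, |(s i : ℝ)| ≤ H
  rH : ∀ i, |(r i : ℝ)| ≤ H
  ne : ∀ i j, i ≠ j → s i * r j ≠ s j * r i

theorem small_many {p v t K : ℕ} (ht : t = p ^ v) {H : ℝ} {n : ℕ} {F : Fin n → ℤ[X]}
    (hD : Data2 t K H F 1 1) {k : ℕ} {s r : Fin k → ℤ} (hV : Values H s r) (hk : 0 < k)
    (hH : 1 ≤ H) (ht16 : 16 ≤ t) (hHt : 4 * H ≤ t) (b c : Fin n → ℕ)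
    {N : ℕ} (hN : 1 ≤ N) (hb : ∑ i, b i ≤ N) (hc : ∑ i, c i ≤ N)
    (hs : 8 * H ^ 2 * (N * H) ^ (K + 1) ≤ t) {m : Fin k → ℕ} {w : Fin k → ℤ} (hw : ∀ i, w i ≠ 0)
    (hp : p ≠ 0)
    (heq : ∀ j, s j * ∏ i, (F i).eval (t : ℤ) ^ b i - r j * ∏ i, (F i).eval (t : ℤ) ^ c i =
      (p : ℤ) ^ m j * w j)
    (hU : (used2 b c).Nonempty) {x : ℤ}
    (hx : x = ∏ i, (F i).eval (t : ℤ) ^ c i ∨ x = ∏ i, (F i).eval (t : ℤ) ^ b i) :
    |(x : ℝ)| ^ k ≤ (8 * H ^ 3 * (N * H) ^ K) ^ k * 2 ^ K *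
      ((∏ j, |(w j : ℝ)|) * |((∏ i ∈ used2 b c, (F i).eval (t : ℤ) : ℤ) : ℝ)|) := by
  have hF0 : ∀ i, F i ≠ 0 := fun i h => by
    have := hD.pos i
    rw [h, natDegree_zero] at this
    omega
  have ht0 : (0 : ℝ) < t := by exact_mod_cast (show 0 < t by omega)
  have ht1 : (1 : ℝ) ≤ t := by exact_mod_cast (show 1 ≤ t by omega)
  have hN1 : (1 : ℝ) ≤ N := by exact_mod_cast hN
  obtain ⟨W, hW⟩ : ∃ W : ℝ, W = N * H := ⟨_, rfl⟩
  have hW1 : 1 ≤ W := by rw [hW]; nlinarith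
  rw [← hW] at hs ⊢
  have hWK : W ≤ W ^ (K + 1) := le_self_pow₀ hW1 (by omega)
  have hH2 : 1 ≤ H ^ 2 := one_le_pow₀ hH
  have hHH : H ≤ H ^ 2 := le_self_pow₀ hH (by norm_num)
  have hWt : 2 * W ≤ t := by
    have h1 : W ≤ H ^ 2 * W ^ (K + 1) := by
      have : 0 ≤ W ^ (K + 1) := by positivity
      nlinarith
    nlinarith
  obtain ⟨B, hB⟩ : ∃ B, B = PP F 1 b := ⟨_, rfl⟩
  obtain ⟨G, hG⟩ : ∃ G, G = PP F 1 c := ⟨_, rfl⟩
  have hBe : B.eval (t : ℤ) = ∏ i, (F i).eval (t : ℤ) ^ b i := by rw [hB, eval_PP, one_mul]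
  have hGe : G.eval (t : ℤ) = ∏ i, (F i).eval (t : ℤ) ^ c i := by rw [hG, eval_PP, one_mul]
  obtain ⟨P, hP⟩ : ∃ P : Fin k → ℤ[X], ∀ j, P j = C (s j) * B - C (r j) * G := ⟨_, fun j => rfl⟩
  have ha : ∀ j, (P j).eval (t : ℤ) = (p : ℤ) ^ m j * w j := fun j => by
    rw [hP, eval_sub, eval_mul, eval_mul, eval_C, eval_C, hBe, hGe, heq]
  have ha0 : ∀ j, (P j).eval (t : ℤ) ≠ 0 := fun j => by
    rw [ha]
    exact mul_ne_zero (pow_ne_zero _ (by exact_mod_cast hp)) (hw j)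
  have hP0 : ∀ j, P j ≠ 0 := fun j h => by
    apply ha0 j
    rw [h, eval_zero]
  obtain ⟨d, hd⟩ : ∃ d, d = ∑ i ∈ used2 b c, (F i).natDegree := ⟨_, rfl⟩
  have hd0 : 0 < d := by
    obtain ⟨i, hi⟩ := hU
    rw [hd]
    exact lt_of_lt_of_le (hD.pos i)
      (Finset.single_le_sum (f := fun i => (F i).natDegree) (fun _ _ => Nat.zero_le _) hi)
  have hdK : d ≤ K := by
    rw [hd]
    exact (Finset.sum_le_univ_sum_of_nonneg fun _ => Nat.zero_le _).trans hD.deg
  obtain ⟨D, hDd⟩ : ∃ D, D = max B.natDegree G.natDegree := ⟨_, rfl⟩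
  have h2 : ∀ i j, (P i).natTrailingDegree + D ≤ (P j).natDegree + d := by
    intro i j
    have h3 := wr_places_PP hF0 b c (used2 b c)
      (fun i hi => Finset.mem_filter.mpr ⟨Finset.mem_univ _, hi⟩) (by rw [← hd]; exact hd0)
      (fun i _ => by rcases hD.unit i with h | h <;> rw [h] <;> norm_num)
      (hV.r0 i) (hV.s0 j) (hV.r0 j) (by rw [← hB, ← hG, ← hP]; exact hP0 i)
      (by rw [← hB, ← hG, ← hP]; exact hP0 j)
    rw [← hB, ← hG, ← hP, ← hP, ← hDd, ← hd] at h3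
    exact h3
  have hBD : B.natDegree ≤ D := by rw [hDd]; exact le_max_left _ _
  have hGD : G.natDegree ≤ D := by rw [hDd]; exact le_max_right _ _
  have hPD : ∀ j, (P j).natDegree ≤ D := by
    intro j
    rw [hP]
    refine (natDegree_sub_le _ _).trans (max_le ?_ ?_)
    · exact (natDegree_C_mul_le _ _).trans hBD
    · exact (natDegree_C_mul_le _ _).trans hGD
  have hlc : ∀ i, |(F i).leadingCoeff| ≤ 1 := fun i => by
    rcases hD.lead i with h | h <;> rw [h] <;> norm_num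
  have hBc : ∀ i, i ≤ D → |(B.coeff i : ℝ)| ≤ H * W ^ (D - i) := fun i hi => by
    rw [hB, hW]
    exact top_coeff hH hD.coeff hlc hD.βH b hN hb (by rw [← hB]; exact hBD) i hi
  have hGc : ∀ i, i ≤ D → |(G.coeff i : ℝ)| ≤ H * W ^ (D - i) := fun i hi => by
    rw [hG, hW]
    exact top_coeff hH hD.coeff hlc hD.γH c hN hc (by rw [← hG]; exact hGD) i hi
  have hcomb : ∀ (j : Fin k) (i : ℕ) (Y : ℝ), |(B.coeff i : ℝ)| ≤ H * Y → |(G.coeff i : ℝ)| ≤ H * Y →
      |((P j).coeff i : ℝ)| ≤ (2 * H ^ 2) * Y := by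
    intro j i Y h3 h4
    rw [hP, coeff_sub, coeff_C_mul, coeff_C_mul]
    push_cast
    refine (abs_sub _ _).trans ?_
    rw [abs_mul, abs_mul]
    have e1 : |(s j : ℝ)| * |(B.coeff i : ℝ)| ≤ H * (H * Y) :=
      mul_le_mul (hV.sH j) h3 (abs_nonneg _) (by linarith)
    have e2 : |(r j : ℝ)| * |(G.coeff i : ℝ)| ≤ H * (H * Y) :=
      mul_le_mul (hV.rH j) h4 (abs_nonneg _) (by linarith)
    nlinarith
  have hPc : ∀ j, ∀ i, i ≤ D → |((P j).coeff i : ℝ)| ≤ (2 * H ^ 2) * W ^ (D - i) :=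
    fun j i hi => hcomb j i _ (hBc i hi) (hGc i hi)
  have hlow : ∀ j, (t : ℝ) ^ (P j).natDegree ≤ 2 * |(((P j).eval (t : ℤ) : ℤ) : ℝ)| := fun j => by
    refine top_lower (hP0 j) (D := D) (Y := 2 * H ^ 2) (W := W) (t := t) (by positivity)
      (by linarith) hWt (by omega) (hPD j) (hPc j) ?_
    refine le_trans ?_ hs
    have h3 := h2 j j
    have : W ^ (D - (P j).natDegree + 1) ≤ W ^ (K + 1) := pow_le_pow_right₀ hW1 (by omega)
    nlinarith
  have hgeo : ∀ i, Geo (fun x : ℤ => |(x : ℝ)|) (F i) H := by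
    intro i j
    rcases Nat.eq_zero_or_pos j with rfl | hj
    · rw [pow_zero]
      show |((F i).coeff 0 : ℝ)| ≤ 1
      rcases hD.unit i with h | h <;> rw [h] <;> norm_num
    · exact (hD.coeff i j).trans (le_self_pow₀ hH (by omega))
  have hlowc : ∀ (e : Fin n → ℕ), ∑ i, e i ≤ N → ∀ j,
      |((PP F 1 e).coeff j : ℝ)| ≤ H * W ^ j := by
    intro e he j
    refine (coeff_PP sizeZ F 1 e (by linarith) hgeo j).trans ?_
    apply mul_le_mul hD.βH _ (by positivity) (by linarith)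
    apply pow_le_pow_left₀ (by positivity)
    rw [hW]
    apply mul_le_mul_of_nonneg_right _ (by linarith)
    exact_mod_cast he
  obtain ⟨Z, hZ⟩ : ∃ Z : ℝ, Z = 2 * H ^ 2 * W ^ K := ⟨_, rfl⟩
  have hZ0 : 0 ≤ Z := by rw [hZ]; positivity
  have htK : ∀ j, (P j).natTrailingDegree ≤ K := fun j => by
    have h3 := h2 j j
    have := hPD j
    omega
  have hPr : ∀ j, |((P j).coeff (P j).natTrailingDegree : ℝ)| ≤ Z := by
    intro j
    have h3 := hcomb j (P j).natTrailingDegree (W ^ (P j).natTrailingDegree)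
      (by rw [hB]; exact hlowc b hb _) (by rw [hG]; exact hlowc c hc _)
    have e3 : W ^ (P j).natTrailingDegree ≤ W ^ K := pow_le_pow_right₀ hW1 (htK j)
    rw [hZ]
    refine h3.trans (mul_le_mul_of_nonneg_left e3 (by positivity))
  have hZt : Z < t := by
    have e4 : 2 * H ^ 2 * W ^ K ≤ 2 * H ^ 2 * W ^ (K + 1) :=
      mul_le_mul_of_nonneg_left (pow_le_pow_right₀ hW1 (by omega)) (by positivity)
    have e5 : 0 < H ^ 2 * W ^ (K + 1) := by positivity
    rw [hZ]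
    nlinarith
  have hbot : ∀ j, (p : ℝ) ^ m j ≤ (t : ℝ) ^ (P j).natTrailingDegree * Z := fun j => by
    have h3 := bottom (hP0 j) ht (lt_of_le_of_lt (hPr j) hZt) (m := m j)
      (by rw [ha]; exact dvd_mul_right _ _)
    exact h3.trans (mul_le_mul_of_nonneg_left (hPr j) (by positivity))
  have hone : ∀ j, (t : ℝ) ^ (P j).natDegree ≤
      2 * Z * (t : ℝ) ^ (P j).natTrailingDegree * |(w j : ℝ)| := by
    intro j
    refine (hlow j).trans ?_
    rw [ha]
    push_cast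
    rw [abs_mul, abs_of_nonneg (by positivity : (0 : ℝ) ≤ (p : ℝ) ^ m j)]
    calc 2 * ((p : ℝ) ^ m j * |(w j : ℝ)|) ≤
          2 * (((t : ℝ) ^ (P j).natTrailingDegree * Z) * |(w j : ℝ)|) := by
          apply mul_le_mul_of_nonneg_left _ (by norm_num)
          exact mul_le_mul_of_nonneg_right (hbot j) (abs_nonneg _)
      _ = _ := by ring
  -- the product
  have hprod : (t : ℝ) ^ (∑ j, (P j).natDegree) ≤
      (2 * Z) ^ k * (t : ℝ) ^ (∑ j, (P j).natTrailingDegree) * ∏ j, |(w j : ℝ)| := by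
    calc (t : ℝ) ^ (∑ j, (P j).natDegree) = ∏ j, (t : ℝ) ^ (P j).natDegree :=
          (Finset.prod_pow_eq_pow_sum _ _ _).symm
      _ ≤ ∏ j, (2 * Z * (t : ℝ) ^ (P j).natTrailingDegree * |(w j : ℝ)|) :=
          Finset.prod_le_prod (fun j _ => by positivity) fun j _ => hone j
      _ = _ := by
          rw [Finset.prod_mul_distrib, Finset.prod_mul_distrib, Finset.prod_const,
            Finset.card_univ, Fintype.card_fin, Finset.prod_pow_eq_pow_sum]
  have hcount : ∑ j, (P j).natTrailingDegree + k * D ≤ ∑ j, (P j).natDegree + d := by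
    have : Nonempty (Fin k) := ⟨⟨0, hk⟩⟩
    have hc0 : ∀ e : Fin n → ℕ, (PP F 1 e).coeff 0 ≠ 0 := fun e => by
      rw [coeff_zero_eq_eval_zero, eval_PP]
      refine mul_ne_zero one_ne_zero (Finset.prod_ne_zero_iff.mpr fun i _ => pow_ne_zero _ ?_)
      rw [← coeff_zero_eq_eval_zero]
      rcases hD.unit i with h | h <;> rw [h] <;> norm_num
    have hdet : ∀ i j, i ≠ j → ∀ x y : ℤ, s i * x - r i * y = 0 → s j * x - r j * y = 0 →
        y = 0 := by
      intro i j hij x y h3 h4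
      have h5 : (s i * r j - s j * r i) * y = 0 := by linear_combination s j * h3 - s i * h4
      rcases mul_eq_zero.mp h5 with h6 | h6
      · exact absurd (sub_eq_zero.mp h6) (hV.ne i j hij)
      · exact h6
    obtain ⟨i₀, hi₀⟩ := exists_single (fun j => (P j).natTrailingDegree) (by
      intro i j hij
      by_contra hcon
      push Not at hcon
      have hz : ∀ l, (P l).natTrailingDegree ≠ 0 → s l * B.coeff 0 - r l * G.coeff 0 = 0 := by
        intro l hl
        have h3 : (P l).coeff 0 = 0 := coeff_eq_zero_of_lt_natTrailingDegree (by omega)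
        rw [hP, coeff_sub, coeff_C_mul, coeff_C_mul] at h3
        exact h3
      have h3 := hdet i j hij _ _ (hz i hcon.1) (hz j hcon.2)
      rw [hG] at h3
      exact hc0 c h3)
    obtain ⟨i₁, hi₁⟩ := exists_single (fun j => D - (P j).natDegree) (by
      intro i j hij
      by_contra hcon
      push Not at hcon
      have hz : ∀ l, D - (P l).natDegree ≠ 0 → s l * B.coeff D - r l * G.coeff D = 0 := by
        intro l hl
        have h3 : (P l).coeff D = 0 := coeff_eq_zero_of_natDegree_lt (by omega)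
        rw [hP, coeff_sub, coeff_C_mul, coeff_C_mul] at h3
        exact h3
      have h3 := hdet i j hij _ _ (hz i hcon.1) (hz j hcon.2)
      have h4 : B.coeff D = 0 := by
        have h5 := hz i hcon.1
        rw [h3, mul_zero, sub_zero] at h5
        exact (mul_eq_zero.mp h5).resolve_left (hV.s0 i)
      rcases max_choice B.natDegree G.natDegree with h5 | h5
      · rw [← hDd] at h5
        rw [h5, coeff_natDegree] at h4
        exact leadingCoeff_ne_zero.mpr (by rw [hB]; exact PP_ne_zero hF0 one_ne_zero b) h4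
      · rw [← hDd] at h5
        rw [h5, coeff_natDegree] at h3
        exact leadingCoeff_ne_zero.mpr (by rw [hG]; exact PP_ne_zero hF0 one_ne_zero c) h3)
    have h3 := h2 i₀ i₁
    have h4 := hPD i₁
    have h5 : ∑ j, (P j).natDegree + ∑ j, (D - (P j).natDegree) = k * D := by
      rw [← Finset.sum_add_distrib]
      have : ∀ j ∈ (Finset.univ : Finset (Fin k)), (P j).natDegree + (D - (P j).natDegree) = D :=
        fun j _ => by have := hPD j; omega
      rw [Finset.sum_congr rfl this, Finset.sum_const, Finset.card_univ, Fintype.card_fin,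
        smul_eq_mul]
    have hi₀' : ∑ j, (P j).natTrailingDegree = (P i₀).natTrailingDegree := hi₀
    have hi₁' : ∑ j, (D - (P j).natDegree) = D - (P i₁).natDegree := hi₁
    omega
  have hxb : |(x : ℝ)| ≤ 2 * H * (t : ℝ) ^ D := by
    rcases hx with h | h
    · rw [h, ← hGe]
      exact top_upper (by linarith) (by linarith) hWt (by omega) hGD hGc
    · rw [h, ← hBe]
      exact top_upper (by linarith) (by linarith) hWt (by omega) hBD hBc
  have hQ := prod_lower (t := t) (B := H) (by omega) (by linarith) hHt hD.coeff hD.pos hD.deg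
    (used2 b c)
  rw [← hd] at hQ
  obtain ⟨Q, hQd⟩ : ∃ Q, Q = |((∏ i ∈ used2 b c, (F i).eval (t : ℤ) : ℤ) : ℝ)| := ⟨_, rfl⟩
  rw [← hQd] at hQ ⊢
  obtain ⟨Ω, hΩ⟩ : ∃ Ω : ℝ, Ω = ∏ j, |(w j : ℝ)| := ⟨_, rfl⟩
  have hΩ0 : 0 ≤ Ω := by rw [hΩ]; exact Finset.prod_nonneg fun j _ => abs_nonneg _
  rw [← hΩ] at hprod ⊢
  obtain ⟨a, haa⟩ : ∃ a, a = ∑ j, (P j).natTrailingDegree := ⟨_, rfl⟩
  obtain ⟨g, hg⟩ : ∃ g, g = ∑ j, (P j).natDegree := ⟨_, rfl⟩
  rw [← haa, ← hg] at hprod hcount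
  have hr0 : (0 : ℝ) < (t : ℝ) ^ a := by positivity
  have hfin : (t : ℝ) ^ a * |(x : ℝ)| ^ k ≤ (t : ℝ) ^ a *
      ((8 * H ^ 3 * W ^ K) ^ k * 2 ^ K * (Ω * Q)) := by
    calc (t : ℝ) ^ a * |(x : ℝ)| ^ k ≤ (t : ℝ) ^ a * (2 * H * (t : ℝ) ^ D) ^ k :=
          mul_le_mul_of_nonneg_left (pow_le_pow_left₀ (abs_nonneg _) hxb k) hr0.le
      _ = (2 * H) ^ k * (t : ℝ) ^ (a + k * D) := by
          rw [mul_pow, ← pow_mul, pow_add, mul_comm D k]; ring
      _ ≤ (2 * H) ^ k * (t : ℝ) ^ (g + d) :=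
          mul_le_mul_of_nonneg_left (pow_le_pow_right₀ ht1 hcount) (by positivity)
      _ = (2 * H) ^ k * (t : ℝ) ^ d * (t : ℝ) ^ g := by rw [pow_add]; ring
      _ ≤ (2 * H) ^ k * (t : ℝ) ^ d * ((2 * Z) ^ k * (t : ℝ) ^ a * Ω) :=
          mul_le_mul_of_nonneg_left hprod (by positivity)
      _ = (2 * H) ^ k * (2 * Z) ^ k * Ω * (t : ℝ) ^ a * (t : ℝ) ^ d := by ring
      _ ≤ (2 * H) ^ k * (2 * Z) ^ k * Ω * (t : ℝ) ^ a * (2 ^ K * Q) :=
          mul_le_mul_of_nonneg_left hQ (by positivity)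
      _ = _ := by
          rw [hZ, ← mul_pow]
          have : 2 * H * (2 * (2 * H ^ 2 * W ^ K)) = 8 * H ^ 3 * W ^ K := by ring
          rw [this]
          ring
  exact le_of_mul_le_mul_left hfin hr0

/-- **Several linear combinations of two products of powers of numbers with small digits.** -/
theorem many (K : ℕ) (ε : ℝ) (hε : 0 < ε) : ∃ δ : ℝ, 0 < δ ∧ δ ≤ 1 / 4 ∧ ∃ t₀ : ℕ, 64 ≤ t₀ ∧
    ∀ p v t : ℕ, p.Prime → t = p ^ v → t₀ ≤ t →
    ∀ (n : ℕ) (F : Fin n → ℤ[X]), Data2 t K ((t : ℝ) ^ δ) F 1 1 →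
    ∀ (k : ℕ) (s r : Fin k → ℤ), Values ((t : ℝ) ^ δ) s r →
    ∀ b c : Fin n → ℕ, (used2 b c).Nonempty → ∀ (m : Fin k → ℕ) (w : Fin k → ℤ), (∀ j, w j ≠ 0) →
      (∀ j, s j * ∏ i, (F i).eval (t : ℤ) ^ b i - r j * ∏ i, (F i).eval (t : ℤ) ^ c i =
        (p : ℤ) ^ m j * w j) →
      (max |((∏ i, (F i).eval (t : ℤ) ^ c i : ℤ) : ℝ)|
        |((∏ i, (F i).eval (t : ℤ) ^ b i : ℤ) : ℝ)|) ^ ((k : ℝ) * (1 - ε)) ≤
        (∏ j, |(w j : ℝ)|) * |((∏ i ∈ used2 b c, (F i).eval (t : ℤ) : ℤ) : ℝ)| := by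
  obtain ⟨Cc, κ, hlarge⟩ := large_uniform K
  obtain ⟨δ, hδ⟩ : ∃ δ : ℝ, δ = min ((1 : ℝ) / (4 * ((K : ℝ) + 2))) (ε / (16 * ((K : ℝ) + 2))) :=
    ⟨_, rfl⟩
  have hδ0 : 0 < δ := by rw [hδ]; exact lt_min (by positivity) (by positivity)
  have hδ1 : δ * (2 * K + 4) ≤ 1 / 2 := by
    have h1 : δ ≤ (1 : ℝ) / (4 * ((K : ℝ) + 2)) := by rw [hδ]; exact min_le_left _ _
    calc δ * (2 * K + 4) ≤ (1 : ℝ) / (4 * ((K : ℝ) + 2)) * (2 * K + 4) := by
          apply mul_le_mul h1 (by linarith) (by positivity) (by positivity)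
      _ = 1 / 2 := by field_simp; ring
  have hδ2 : δ * (3 + 2 * K) ≤ ε / 8 := by
    have h1 : δ ≤ ε / (16 * ((K : ℝ) + 2)) := by rw [hδ]; exact min_le_right _ _
    calc δ * (3 + 2 * K) ≤ ε / (16 * (K + 2)) * (2 * K + 4) := by
          apply mul_le_mul h1 (by linarith) (by positivity) (by positivity)
      _ = ε / 8 := by field_simp; ring
  have hδ4 : δ ≤ 1 / 4 := by
    have h1 : δ ≤ (1 : ℝ) / (4 * ((K : ℝ) + 2)) := by rw [hδ]; exact min_le_left _ _
    refine h1.trans ?_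
    rw [div_le_div_iff₀ (by positivity) (by norm_num)]
    have : (0 : ℝ) ≤ K := by positivity
    linarith
  obtain ⟨k1, hk1⟩ : ∃ k1 : ℕ, k1 = ⌈1 / δ⌉₊ := ⟨_, rfl⟩
  have hk1' : 1 / δ ≤ k1 := by rw [hk1]; exact Nat.le_ceil _
  obtain ⟨k2, hk2⟩ : ∃ k2 : ℕ, k2 = (K + 1) * (k1 + 1) + 1 := ⟨_, rfl⟩
  obtain ⟨E₀, hE₀⟩ := eventually_atTop.mp ((ev_poly Cc κ k2 (δ := 1 / 2) (by norm_num)).and
    (((tendsto_rpow_atTop (show (0 : ℝ) < 1 / 2 by norm_num)).comp
      tendsto_natCast_atTop_atTop).eventually_ge_atTop (2 / ε)))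
  have hwt : Tendsto (fun t : ℕ => (t : ℝ) ^ δ) atTop atTop :=
    (tendsto_rpow_atTop hδ0).comp tendsto_natCast_atTop_atTop
  have hwe : Tendsto (fun t : ℕ => (t : ℝ) ^ (3 * ε / 8)) atTop atTop :=
    (tendsto_rpow_atTop (by positivity)).comp tendsto_natCast_atTop_atTop
  obtain ⟨t₁, ht₁⟩ := eventually_atTop.mp
    ((hwt.eventually_ge_atTop ((E₀ : ℝ) + 1)).and (hwe.eventually_ge_atTop (8 * 2 ^ K)))
  refine ⟨δ, hδ0, hδ4, max t₁ 4096, (by norm_num : 64 ≤ 4096).trans (le_max_right _ _), ?_⟩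
  intro p v t hp htp ht n F hD k s r hV b c hU m w hw heq
  have ht64 : 4096 ≤ t := (le_max_right _ _).trans ht
  obtain ⟨hte, hte2⟩ := ht₁ t ((le_max_left _ _).trans ht)
  have htR : (4096 : ℝ) ≤ t := by exact_mod_cast ht64
  have ht0 : (0 : ℝ) < t := by linarith
  obtain ⟨H, hH⟩ : ∃ H : ℝ, H = (t : ℝ) ^ δ := ⟨_, rfl⟩
  rw [← hH] at hD hte hV
  have hH1 : 1 ≤ H := by rw [hH]; exact Real.one_le_rpow (by linarith) hδ0.le
  obtain ⟨ρ, hρ⟩ : ∃ ρ : ℝ, ρ = (t : ℝ) ^ (1 / 2 : ℝ) := ⟨_, rfl⟩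
  have hρρ : ρ * ρ = t := by
    rw [hρ, ← Real.rpow_add ht0]
    norm_num
  have hρ8 : 64 ≤ ρ := by
    have hρ0 : 0 ≤ ρ := by rw [hρ]; positivity
    nlinarith
  have hHρ : H ≤ ρ := by
    rw [hH, hρ]
    exact Real.rpow_le_rpow_of_exponent_le (by linarith) (by linarith)
  have hHt : 8 * H ≤ t := by nlinarith
  obtain ⟨hnK, hvlow, hvup, hvunit, hcS, htS⟩ := values hD (by omega) hH1 hHt
  obtain ⟨S, hS⟩ : ∃ S, S = (K + 1) * (Nat.log 2 t + 1) := ⟨_, rfl⟩
  rw [← hS] at hvup hcS htS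
  have hS1 : 1 ≤ S := by rw [hS]; exact Nat.mul_pos (by omega) (by omega)
  obtain ⟨q, hq⟩ : ∃ q : Fin n → ℤ, ∀ i, q i = (F i).eval (t : ℤ) := ⟨_, fun i => rfl⟩
  have hq2 : ∀ i, 2 ≤ |q i| := by
    intro i
    have h1 := hvlow i
    rw [← hq i] at h1
    have h3 : (2 : ℝ) ≤ |(q i : ℝ)| := by linarith
    exact_mod_cast h3
  have hqS : ∀ i, |q i| ≤ 2 ^ S := fun i => by rw [hq i]; exact hvup i
  have hqu : ∀ i, (t : ℤ) ∣ q i - 1 ∨ (t : ℤ) ∣ q i + 1 := fun i => by rw [hq i]; exact hvunit i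
  -- the two numbers
  obtain ⟨Xc, hXc⟩ : ∃ Xc : ℤ, Xc = ∏ i, (F i).eval (t : ℤ) ^ c i := ⟨_, rfl⟩
  obtain ⟨Xb, hXb⟩ : ∃ Xb : ℤ, Xb = ∏ i, (F i).eval (t : ℤ) ^ b i := ⟨_, rfl⟩
  have hXc' : Xc = ∏ i, q i ^ c i := by rw [hXc]; simp only [hq]
  have hXb' : Xb = ∏ i, q i ^ b i := by rw [hXb]; simp only [hq]
  obtain ⟨M, hM⟩ : ∃ M : ℝ, M = max |(Xc : ℝ)| |(Xb : ℝ)| := ⟨_, rfl⟩
  obtain ⟨Q, hQ⟩ : ∃ Q : ℝ, Q = |((∏ i ∈ used2 b c, (F i).eval (t : ℤ) : ℤ) : ℝ)| := ⟨_, rfl⟩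
  obtain ⟨Ω, hΩ⟩ : ∃ Ω : ℝ, Ω = ∏ j, |(w j : ℝ)| := ⟨_, rfl⟩
  rw [← hXc, ← hXb, ← hM, ← hQ, ← hΩ]
  have hbase : ∀ (e : Fin n → ℕ), (2 : ℝ) ^ (∑ i, e i) ≤
      |((∏ i, q i ^ e i : ℤ) : ℝ)| ∧ ∀ i, e i ≠ 0 → (t : ℝ) / 2 ≤
      |((∏ i, q i ^ e i : ℤ) : ℝ)| := by
    intro e
    push_cast
    rw [Finset.abs_prod]
    have hqa : ∀ i, (2 : ℝ) ≤ |(q i : ℝ)| := fun i => by exact_mod_cast hq2 i
    have h0 : ∀ i, (1 : ℝ) ≤ |(q i : ℝ) ^ e i| := fun i => by
      rw [abs_pow]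
      exact one_le_pow₀ (by linarith [hqa i])
    constructor
    · rw [← Finset.prod_pow_eq_pow_sum]
      apply Finset.prod_le_prod (fun i _ => by positivity)
      intro i _
      rw [abs_pow]
      exact pow_le_pow_left₀ (by norm_num) (hqa i) _
    · intro i hi
      have h2 : |(q i : ℝ) ^ e i| ≤ ∏ i, |(q i : ℝ) ^ e i| := by
        rw [← Finset.mul_prod_erase Finset.univ (fun i => |(q i : ℝ) ^ e i|) (Finset.mem_univ i)]
        refine le_mul_of_one_le_right (abs_nonneg _) ?_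
        refine Finset.prod_induction _ (fun x : ℝ => 1 ≤ x) (fun a b ha hb => ?_) le_rfl
          (fun j _ => h0 j)
        nlinarith
      have h3 : |(q i : ℝ)| ≤ |(q i : ℝ) ^ e i| := by
        rw [abs_pow]
        exact le_self_pow₀ (by linarith [hqa i]) hi
      have h4 := hvlow i
      rw [← hq i] at h4
      linarith
  obtain ⟨hb1, hb2⟩ := hbase b
  obtain ⟨hc1, hc2⟩ := hbase c
  rw [← hXb'] at hb1 hb2
  rw [← hXc'] at hc1 hc2
  have hMb : |(Xb : ℝ)| ≤ M := by rw [hM]; exact le_max_right _ _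
  have hMc : |(Xc : ℝ)| ≤ M := by rw [hM]; exact le_max_left _ _
  have hMt : (t : ℝ) / 2 ≤ M := by
    obtain ⟨i, hi⟩ := hU
    rcases (Finset.mem_filter.mp hi).2 with h | h
    · exact (hb2 i h).trans hMb
    · exact (hc2 i h).trans hMc
  have hM1 : 1 ≤ M := by linarith
  have hM0 : 0 < M := by linarith
  have hMr : ρ ≤ M := by nlinarith
  have hw1 : ∀ j, (1 : ℝ) ≤ |(w j : ℝ)| := fun j => by exact_mod_cast Int.one_le_abs (hw j)
  have hΩ1 : 1 ≤ Ω := by
    rw [hΩ]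
    refine Finset.prod_induction _ (fun x : ℝ => 1 ≤ x) (fun a b ha hb => ?_) le_rfl
      (fun j _ => hw1 j)
    nlinarith
  have hQ1 : (1 : ℝ) ≤ Q := by
    rw [hQ]
    have h1 : ∏ i ∈ used2 b c, (F i).eval (t : ℤ) ≠ 0 := by
      refine Finset.prod_ne_zero_iff.mpr fun i _ h => ?_
      have := hq2 i
      rw [hq i, h, abs_zero] at this
      omega
    exact_mod_cast Int.one_le_abs h1
  have hwQ : 1 ≤ Ω * Q := by nlinarith
  rcases Nat.eq_zero_or_pos k with hk | hk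
  · rw [hk, Nat.cast_zero, zero_mul, Real.rpow_zero]
    exact hwQ
  have hkR : (1 : ℝ) ≤ k := by exact_mod_cast hk
  -- it suffices to bound M
  suffices hsuff : M ^ k ≤ (M ^ ε) ^ k * (Ω * Q) by
    have e1 : M ^ ((k : ℝ) * (1 - ε)) = M ^ k / (M ^ ε) ^ k := by
      rw [← Real.rpow_natCast (M ^ ε) k, ← Real.rpow_mul hM0.le, ← Real.rpow_natCast M k,
        ← Real.rpow_sub hM0]
      congr 1
      ring
    rw [e1, div_le_iff₀ (by positivity)]
    linarith
  obtain ⟨E, hE⟩ : ∃ E, E = ∑ i, b i + ∑ i, c i := ⟨_, rfl⟩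
  rcases le_or_gt (E : ℝ) H with hcase | hcase
  · -- small exponents
    obtain ⟨N, hN⟩ : ∃ N, N = max 1 E := ⟨_, rfl⟩
    have hNH : (N : ℝ) ≤ H := by
      rw [hN]
      push_cast
      exact max_le hH1 hcase
    have hEN : E ≤ N := by rw [hN]; exact le_max_right _ _
    have hs : 8 * H ^ 2 * (N * H) ^ (K + 1) ≤ t := by
      have h1 : 8 * H ^ 2 * (N * H) ^ (K + 1) ≤ 8 * (H ^ 2 * (H * H) ^ (K + 1)) := by
        rw [mul_assoc]
        apply mul_le_mul_of_nonneg_left _ (by norm_num)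
        apply mul_le_mul_of_nonneg_left _ (by positivity)
        apply pow_le_pow_left₀ (by positivity)
        exact mul_le_mul_of_nonneg_right hNH (by linarith)
      have h2 : H ^ 2 * (H * H) ^ (K + 1) ≤ ρ := by
        have e1 : H ^ 2 * (H * H) ^ (K + 1) = H ^ (2 * K + 4) := by ring
        rw [e1, hH, hρ, ← Real.rpow_mul_natCast ht0.le]
        apply Real.rpow_le_rpow_of_exponent_le (by linarith)
        push_cast
        exact hδ1
      nlinarith
    have hsm : ∀ x : ℤ, (x = ∏ i, (F i).eval (t : ℤ) ^ c i ∨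
        x = ∏ i, (F i).eval (t : ℤ) ^ b i) →
        |(x : ℝ)| ^ k ≤ (8 * H ^ 3 * (N * H) ^ K) ^ k * 2 ^ K * (Ω * Q) := fun x hx => by
      rw [hQ, hΩ]
      exact small_many htp hD hV hk hH1 (by omega) (by linarith) b c (N := N)
        (by rw [hN]; exact le_max_left _ _) (by omega) (by omega) hs hw hp.ne_zero heq hU hx
    have hMb' : M ^ k ≤ (8 * H ^ 3 * (N * H) ^ K) ^ k * 2 ^ K * (Ω * Q) := by
      rcases max_choice |(Xc : ℝ)| |(Xb : ℝ)| with h | h
      · rw [hM, h]; exact hsm Xc (Or.inl hXc)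
      · rw [hM, h]; exact hsm Xb (Or.inr hXb)
    refine hMb'.trans (mul_le_mul_of_nonneg_right ?_ (by linarith))
    have h3 : 8 * H ^ 3 * (N * H) ^ K * 2 ^ K ≤ M ^ ε := by
      have h4 : H ^ 3 * (N * H) ^ K ≤ (t : ℝ) ^ (ε / 8) := by
        calc H ^ 3 * (N * H) ^ K ≤ H ^ 3 * (H * H) ^ K := by
              apply mul_le_mul_of_nonneg_left _ (by positivity)
              apply pow_le_pow_left₀ (by positivity)
              exact mul_le_mul_of_nonneg_right hNH (by linarith)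
          _ = H ^ (3 + 2 * K) := by ring
          _ ≤ _ := by
              rw [hH, ← Real.rpow_mul_natCast ht0.le]
              apply Real.rpow_le_rpow_of_exponent_le (by linarith)
              push_cast
              exact hδ2
      calc 8 * H ^ 3 * (N * H) ^ K * 2 ^ K = (8 * 2 ^ K) * (H ^ 3 * (N * H) ^ K) := by ring
        _ ≤ (8 * 2 ^ K) * (t : ℝ) ^ (ε / 8) := mul_le_mul_of_nonneg_left h4 (by positivity)
        _ ≤ (t : ℝ) ^ (3 * ε / 8) * (t : ℝ) ^ (ε / 8) :=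
          mul_le_mul_of_nonneg_right hte2 (by positivity)
        _ = ρ ^ ε := by
            rw [← Real.rpow_add ht0, hρ, ← Real.rpow_mul ht0.le]
            congr 1
            ring
        _ ≤ M ^ ε := Real.rpow_le_rpow (by linarith) hMr hε.le
    calc (8 * H ^ 3 * (N * H) ^ K) ^ k * 2 ^ K ≤ (8 * H ^ 3 * (N * H) ^ K) ^ k * (2 ^ K) ^ k := by
          apply mul_le_mul_of_nonneg_left _ (by positivity)
          exact le_self_pow₀ (one_le_pow₀ (by norm_num)) hk.ne'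
      _ = (8 * H ^ 3 * (N * H) ^ K * 2 ^ K) ^ k := (mul_pow _ _ _).symm
      _ ≤ (M ^ ε) ^ k := pow_le_pow_left₀ (by positivity) h3 k
  · -- large exponents
    have hEE : E₀ ≤ E := by
      have h1 : (E₀ : ℝ) + 1 < E := lt_of_le_of_lt hte hcase
      have h2 : (E₀ : ℝ) ≤ E := by linarith
      exact_mod_cast h2
    obtain ⟨hev1, hev2⟩ := hE₀ E hEE
    have hE1 : (1 : ℝ) < E := lt_of_le_of_lt hH1 hcase
    have hE1' : 1 < E := by exact_mod_cast hE1
    have hE0 : (0 : ℝ) < E := by linarith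
    have htE : t ≤ E ^ k1 := by
      have h1 : (t : ℝ) ≤ (E : ℝ) ^ k1 := by
        calc (t : ℝ) = H ^ (1 / δ) := by
              rw [hH, ← Real.rpow_mul ht0.le, mul_one_div_cancel hδ0.ne', Real.rpow_one]
          _ ≤ (E : ℝ) ^ (1 / δ) := Real.rpow_le_rpow (by linarith) hcase.le (by positivity)
          _ ≤ (E : ℝ) ^ (k1 : ℝ) := Real.rpow_le_rpow_of_exponent_le hE1.le hk1'
          _ = _ := Real.rpow_natCast _ _
      exact_mod_cast h1
    obtain ⟨L, hL⟩ : ∃ L, L = Nat.log 2 E + 1 := ⟨_, rfl⟩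
    have hEL : E < 2 ^ L := by
      rw [hL]
      exact Nat.lt_pow_succ_log_self (by norm_num) _
    have hlogt : Nat.log 2 t ≤ k1 * L := by
      have h1 : t < 2 ^ (k1 * L + 1) := by
        calc t ≤ E ^ k1 := htE
          _ ≤ (2 ^ L) ^ k1 := Nat.pow_le_pow_left hEL.le _
          _ = 2 ^ (k1 * L) := by rw [← pow_mul, mul_comm]
          _ < 2 ^ (k1 * L + 1) := Nat.pow_lt_pow_right (by norm_num) (Nat.lt_succ_self _)
      have h2 := Nat.log_lt_of_lt_pow (by omega) h1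
      omega
    have hSL : S + L ≤ k2 * (Nat.log 2 E + 1) := by
      rw [← hL, hS, hk2]
      have hL1 : 1 ≤ L := by omega
      have h1 : (K + 1) * (Nat.log 2 t + 1) ≤ (K + 1) * ((k1 + 1) * L) := by
        apply Nat.mul_le_mul_left
        rw [add_mul, one_mul]
        omega
      calc (K + 1) * (Nat.log 2 t + 1) + L ≤ (K + 1) * ((k1 + 1) * L) + L := by omega
        _ = ((K + 1) * (k1 + 1) + 1) * L := by ring
    have hbi : ∀ i, b i ≤ 2 ^ L := fun i => by
      have := Finset.single_le_sum (f := b) (fun _ _ => Nat.zero_le _) (Finset.mem_univ i)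
      omega
    have hci : ∀ i, c i ≤ 2 ^ L := fun i => by
      have := Finset.single_le_sum (f := c) (fun _ _ => Nat.zero_le _) (Finset.mem_univ i)
      omega
    have hMw : ∀ j, M ≤ |(w j : ℝ)| * 2 ^ (Cc * (S + L) ^ κ) := by
      intro j
      have hβγ : |r j| + |s j| < (t : ℤ) := by
        have h1 : |(r j : ℝ)| + |(s j : ℝ)| < t := by
          have := hV.sH j
          have := hV.rH j
          linarith
        exact_mod_cast h1
      have hl := hlarge n hnK p v t S L htp hp (by omega) hS1 htS q c b (r j) (s j) hq2 hqS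
        (hV.r0 j) (hV.s0 j) (hcS _ (hV.rH j)) (hcS _ (hV.sH j)) hβγ hqu hci hbi (m j) (w j) (hw j)
        (by rw [← hXc', ← hXb', hXc, hXb]; exact heq j)
      have hup : ∀ (x y : ℤ), y ≠ 0 → |y * x| ≤ |w j| * 2 ^ (Cc * (S + L) ^ κ) →
          |(x : ℝ)| ≤ |(w j : ℝ)| * 2 ^ (Cc * (S + L) ^ κ) := by
        intro x y hy h1
        have h2 : |x| ≤ |y * x| := by
          rw [abs_mul]
          exact le_mul_of_one_le_left (abs_nonneg _) (Int.one_le_abs hy)
        exact_mod_cast h2.trans h1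
      rw [hM]
      apply max_le
      · exact hup Xc (r j) (hV.r0 j) (hl _ (Or.inr (by rw [hXc'])))
      · exact hup Xb (s j) (hV.s0 j) (hl _ (Or.inl (by rw [hXb'])))
    have hexp : ((Cc * (S + L) ^ κ : ℕ) : ℝ) ≤ ε * (E / 2) := by
      have h1 : Cc * (S + L) ^ κ ≤ Cc * (k2 * (Nat.log 2 E + 1)) ^ κ + 1 :=
        (Nat.mul_le_mul_left _ (Nat.pow_le_pow_left hSL _)).trans (Nat.le_succ _)
      have h2 : ((Cc * (S + L) ^ κ : ℕ) : ℝ) ≤ (E : ℝ) ^ (1 / 2 : ℝ) := by
        refine le_trans ?_ hev1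
        exact_mod_cast h1
      refine h2.trans ?_
      have h3 : (E : ℝ) ^ (1 / 2 : ℝ) * (E : ℝ) ^ (1 / 2 : ℝ) = E := by
        rw [← Real.rpow_add hE0]; norm_num
      have h4 : 2 / ε ≤ (E : ℝ) ^ (1 / 2 : ℝ) := hev2
      have h5 : 0 < (E : ℝ) ^ (1 / 2 : ℝ) := by positivity
      rw [div_le_iff₀ hε] at h4
      nlinarith
    have hMe : (2 : ℝ) ^ ((E : ℝ) / 2) ≤ M := by
      have h1 : (E : ℝ) / 2 ≤ (max (∑ i, b i) (∑ i, c i) : ℕ) := by
        have h2 : E ≤ 2 * max (∑ i, b i) (∑ i, c i) := by omega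
        have h3 : (E : ℝ) ≤ 2 * ((max (∑ i, b i) (∑ i, c i) : ℕ) : ℝ) := by exact_mod_cast h2
        linarith
      have h2 : (2 : ℝ) ^ (((max (∑ i, b i) (∑ i, c i) : ℕ) : ℝ)) ≤ M := by
        rw [Real.rpow_natCast]
        rcases le_total (∑ i, b i) (∑ i, c i) with h | h
        · rw [max_eq_right h]; exact hc1.trans hMc
        · rw [max_eq_left h]; exact hb1.trans hMb
      exact (Real.rpow_le_rpow_of_exponent_le (by norm_num) h1).trans h2
    have hpow : (2 : ℝ) ^ (Cc * (S + L) ^ κ) ≤ M ^ ε := by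
      rw [← Real.rpow_natCast]
      calc (2 : ℝ) ^ ((Cc * (S + L) ^ κ : ℕ) : ℝ) ≤ (2 : ℝ) ^ (ε * (E / 2)) :=
            Real.rpow_le_rpow_of_exponent_le (by norm_num) hexp
        _ = ((2 : ℝ) ^ ((E : ℝ) / 2)) ^ ε := by
            rw [← Real.rpow_mul (by norm_num)]
            congr 1
            ring
        _ ≤ M ^ ε := Real.rpow_le_rpow (by positivity) hMe hε.le
    calc M ^ k = ∏ _j : Fin k, M := by
          rw [Finset.prod_const, Finset.card_univ, Fintype.card_fin]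
      _ ≤ ∏ j, (|(w j : ℝ)| * M ^ ε) := by
          refine Finset.prod_le_prod (fun _ _ => hM0.le) fun j _ => ?_
          exact (hMw j).trans (mul_le_mul_of_nonneg_left hpow (abs_nonneg _))
      _ = (M ^ ε) ^ k * Ω := by
          rw [Finset.prod_mul_distrib, Finset.prod_const, Finset.card_univ, Fintype.card_fin, hΩ]
          ring
      _ ≤ (M ^ ε) ^ k * Ω * Q := le_mul_of_one_le_right (by positivity) hQ1
      _ = _ := by ring

end Pool.Agent.Q103.SD
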