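import Mathlib
import Pool.Agent.Q103.SD.NFRad
import Pool.Agent.Q103.SD.NFPair

/-!
# The abc inequality in number fields for three composed terms
-/

set_option autoImplicit false

namespace Pool.Agent.Q103.SD.NF

open Polynomial Finset NumberField IsDedekindDomain

/-- a product over used bases divides the product of the powers -/
theorem prod_dvd_prod_pow {A : Type*} [CommRing A] {n : ℕ} (f : Fin n → A) (e : Fin n → ℕ)
    (U : Finset (Fin n)) (hU : ∀ i ∈ U, e i ≠ 0) : ∏ i ∈ U, f i ∣ ∏ i, f i ^ e i := by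
  refine dvd_trans (Finset.prod_dvd_prod_of_dvd _ (fun i => f i ^ e i) ?_)
    (Finset.prod_dvd_prod_of_subset _ _ _ (Finset.subset_univ U))
  intro i hi
  exact dvd_pow_self _ (hU i hi)

/-- **The abc inequality for three composed coprime terms.** -/
theorem three_main (D : ℕ) {ε : ℝ} (hε : 0 < ε) : ∃ δ₀ : ℝ, 0 < δ₀ ∧ ∀ δ : ℝ, 0 < δ → δ ≤ δ₀ →
    ∃ T₀ : ℝ, 1 ≤ T₀ ∧ ∀ T : ℝ, T₀ ≤ T → ∀ (K : Type) [Field K] [NumberField K],
      ∀ (n : ℕ) (t : 𝓞 K) (F : Fin n → (𝓞 K)[X]) (α β γ : 𝓞 K) (l b c : Fin n → ℕ),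
      DataK T (T ^ δ) D t F α β γ l b c →
      (∀ i j, i ≠ j → IsCoprime ((F i).eval t) ((F j).eval t)) →
      ∀ x y z Q : 𝓞 K, x = α * ∏ i, (F i).eval t ^ l i → y = β * ∏ i, (F i).eval t ^ b i →
      z = γ * ∏ i, (F i).eval t ^ c i → x + y = z → IsCoprime x y → (Deg.used l b c).Nonempty →
      Q = ∏ i ∈ Deg.used l b c, (F i).eval t →
      (∀ i, (F i).eval t ≠ 0) ∧
      (∀ w : InfinitePlace K, max (w (x : K)) (max (w (y : K)) (w (z : K))) * w (t : K) ^ (1 - ε) ≤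
        w (Q : K)) ∧
      HH x y z * nrm t ^ (1 - ε) ≤ nrm Q ∧
      (Squarefree (Ideal.span {Q}) → HH x y z * nrm t ^ (1 - ε) ≤ radK (x * y * z)) := by
  classical
  obtain ⟨δ₀, hδ₀, hch⟩ := choose_three D hε
  refine ⟨δ₀, hδ₀, ?_⟩
  intro δ hδ hδδ
  obtain ⟨T₀, hT₀⟩ := Filter.eventually_atTop.mp (hch δ hδ hδδ)
  refine ⟨max T₀ 1, le_max_right _ _, ?_⟩
  intro T hTT K _ _ n t F α β γ l b c hD hpw x y z Q hx hy hz hsum hco hU hQ
  obtain ⟨hT1, hH, hT2, hT3, hT4⟩ := hT₀ T ((le_max_left _ _).trans hTT)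
  have hT0 : 0 < T := by linarith
  have hTb : 4 * (T ^ δ) ^ 2 ≤ T := by
    have : 0 ≤ (T ^ δ) ^ (4 * D + 2) := by positivity
    linarith
  have hval := value_ne hD hH hTb
  have ht0 : t ≠ 0 := by
    rintro rfl
    obtain ⟨σ⟩ : Nonempty (K →+* ℂ) := inferInstance
    have h1 := hD.big σ
    simp at h1
    linarith
  have hnt : 0 < nrm t := nrm_pos ht0
  have hprod : ∀ e : Fin n → ℕ, ∏ i, (F i).eval t ^ e i ≠ 0 := fun e =>
    Finset.prod_ne_zero_iff.mpr fun i _ => pow_ne_zero _ (hval i)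
  have hx0 : x ≠ 0 := by rw [hx]; exact mul_ne_zero hD.α0 (hprod l)
  have hy0 : y ≠ 0 := by rw [hy]; exact mul_ne_zero hD.β0 (hprod b)
  have hz0 : z ≠ 0 := by rw [hz]; exact mul_ne_zero hD.γ0 (hprod c)
  have hQ0 : Q ≠ 0 := by rw [hQ]; exact Finset.prod_ne_zero_iff.mpr fun i _ => hval i
  have hx' : (PP F α l).eval t = x := by rw [eval_PP, hx]
  have hy' : (PP F β b).eval t = y := by rw [eval_PP, hy]
  have hz' : (PP F γ c).eval t = z := by rw [eval_PP, hz]
  have hd1 : ∀ (e : Fin n → ℕ) (u w : 𝓞 K) (i : Fin n), e i ≠ 0 → w = u * ∏ i, (F i).eval t ^ e i →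
      (F i).eval t ∣ w := by
    intro e u w i hi hw
    rw [hw]
    refine dvd_mul_of_dvd_right ?_ _
    refine dvd_trans (dvd_pow_self _ hi) (Finset.dvd_prod_of_mem (fun i => (F i).eval t ^ e i)
      (Finset.mem_univ i))
  have hnu : ∀ i, ¬ IsUnit ((F i).eval t) := by
    intro i hu
    obtain ⟨u, hu'⟩ := hu.exists_right_inv
    have hu0 : u ≠ 0 := by
      rintro rfl
      rw [mul_zero] at hu'
      exact zero_ne_one hu'
    obtain ⟨σ, hσ⟩ := exists_conjugate_one_le_norm hu0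
    have h1 := (value_size hD hH hTb i σ).1
    have h2 : ‖σ ((F i).eval t : 𝓞 K)‖ * ‖σ u‖ = 1 := by
      have h := congrArg (fun z : 𝓞 K => ‖σ (z : K)‖) hu'
      simp only [map_mul, norm_mul, map_one, norm_one] at h
      exact h
    have h3 : ‖σ ((F i).eval t : 𝓞 K)‖ ≤ 1 := by
      have h4 : 0 ≤ ‖σ ((F i).eval t : 𝓞 K)‖ := norm_nonneg _
      nlinarith
    have h5 : T ≤ ‖σ t‖ ^ (F i).natDegree :=
      (hD.big σ).trans (le_self_pow₀ (hT1.trans (hD.big σ)) (hD.pos i).ne')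
    have h6 : 2 * T ^ δ * ‖σ ((F i).eval t : 𝓞 K)‖ ≤ 2 * T ^ δ := by nlinarith
    nlinarith
  have hmin : ∀ i, l i = 0 ∨ b i = 0 ∨ c i = 0 := by
    intro i
    by_contra hcon
    push Not at hcon
    obtain ⟨h1, h2, -⟩ := hcon
    exact hnu i (hco.isUnit_of_dvd' (hd1 l α x i h1 hx) (hd1 b β y i h2 hy))
  have hsig : ∀ (σ : K →+* ℂ) (u : 𝓞 K), u = x ∨ u = y ∨ u = z → ‖σ u‖ * ‖σ t‖ ≤
      (2 * T ^ δ) ^ (2 * D + 1) * ‖σ (Q : 𝓞 K)‖ := by
    intro σ u hu
    have h1 := pair_sigma hD hH hT2 hT3 hpw hmin (by rw [hx', hy', hz']; exact hsum) hU σ u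
    rw [hx', hy', hz', ← hQ] at h1
    exact h1 hu
  have hw : ∀ w : InfinitePlace K, max (w (x : K)) (max (w (y : K)) (w (z : K))) *
      w (t : K) ^ (1 - ε) ≤ w (Q : K) := by
    intro w
    have h2 : T ≤ w (t : K) := by
      rw [← InfinitePlace.norm_embedding_eq]
      exact hD.big w.embedding
    have h3 : 0 < w (t : K) := by linarith
    have h0 : ∀ u : 𝓞 K, u = x ∨ u = y ∨ u = z → w (u : K) * w (t : K) ≤
        (2 * T ^ δ) ^ (2 * D + 1) * w (Q : K) := by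
      intro u hu
      have h1 := hsig w.embedding u hu
      rw [InfinitePlace.norm_embedding_eq, InfinitePlace.norm_embedding_eq,
        InfinitePlace.norm_embedding_eq] at h1
      exact h1
    have h1 : max (w (x : K)) (max (w (y : K)) (w (z : K))) * w (t : K) ≤
        (2 * T ^ δ) ^ (2 * D + 1) * w (Q : K) := by
      rw [max_mul_of_nonneg _ _ h3.le, max_mul_of_nonneg _ _ h3.le]
      exact max_le (h0 x (Or.inl rfl)) (max_le (h0 y (Or.inr (Or.inl rfl)))
        (h0 z (Or.inr (Or.inr rfl))))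
    have h4 : (2 * T ^ δ) ^ (2 * D + 1) ≤ w (t : K) ^ ε :=
      hT4.trans (Real.rpow_le_rpow hT0.le h2 hε.le)
    have h5 : w (t : K) = w (t : K) ^ (1 - ε) * w (t : K) ^ ε := by
      rw [← Real.rpow_add h3]
      have : 1 - ε + ε = 1 := by ring
      rw [this, Real.rpow_one]
    have h6 : 0 < w (t : K) ^ ε := Real.rpow_pos_of_pos h3 _
    have h7 : w (t : K) ^ ε * (max (w (x : K)) (max (w (y : K)) (w (z : K))) *
        w (t : K) ^ (1 - ε)) ≤ w (t : K) ^ ε * w (Q : K) := by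
      calc w (t : K) ^ ε * (max (w (x : K)) (max (w (y : K)) (w (z : K))) * w (t : K) ^ (1 - ε))
          = max (w (x : K)) (max (w (y : K)) (w (z : K))) *
            (w (t : K) ^ (1 - ε) * w (t : K) ^ ε) := by ring
        _ = max (w (x : K)) (max (w (y : K)) (w (z : K))) * w (t : K) := by rw [← h5]
        _ ≤ (2 * T ^ δ) ^ (2 * D + 1) * w (Q : K) := h1
        _ ≤ _ := mul_le_mul_of_nonneg_right h4 (apply_nonneg _ _)
    exact le_of_mul_le_mul_left h7 h6
  have hmaxpos : ∀ w : InfinitePlace K, 0 < max (w (x : K)) (max (w (y : K)) (w (z : K))) :=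
    fun w => lt_max_of_lt_left (InfinitePlace.pos_iff.mpr (RingOfIntegers.coe_ne_zero_iff.mpr hx0))
  have p1 : HH x y z * nrm t ^ (1 - ε) ≤ nrm Q := by
    rw [HH_eq, nrm_eq t, nrm_eq Q, ← Real.finsetProd_rpow _ _ (fun w _ => by positivity),
      ← Finset.prod_mul_distrib]
    apply Finset.prod_le_prod (fun w _ => by positivity)
    intro w _
    have h1 := pow_le_pow_left₀ (by positivity) (hw w) w.mult
    rw [mul_pow] at h1
    have h2 : (w (t : K) ^ w.mult) ^ (1 - ε) = (w (t : K) ^ (1 - ε)) ^ w.mult := by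
      rw [← Real.rpow_natCast_mul (apply_nonneg _ _), ← Real.rpow_mul_natCast (apply_nonneg _ _),
        mul_comm]
    rw [h2]
    exact h1
  refine ⟨hval, hw, p1, ?_⟩
  intro hsq
  refine p1.trans ?_
  have hxyz : x * y * z ≠ 0 := mul_ne_zero (mul_ne_zero hx0 hy0) hz0
  have h2 := le_sum_log hQ0 hsq (primes_finite hxyz).toFinset (by
    intro v hv
    rw [Set.Finite.mem_toFinset]
    have h3 : ∃ i ∈ Deg.used l b c, (F i).eval t ∈ v.asIdeal := by
      rw [hQ] at hv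
      exact (v.isPrime.prod_mem_iff).mp hv
    obtain ⟨i, hi, hiv⟩ := h3
    have h4 : (F i).eval t ∣ x * y * z := by
      have hi' : l i ≠ 0 ∨ b i ≠ 0 ∨ c i ≠ 0 := by
        unfold Deg.used at hi
        have := (Finset.mem_filter.mp hi).2
        tauto
      rcases hi' with h | h | h
      · exact (hd1 l α x i h hx).trans ⟨y * z, by ring⟩
      · exact (hd1 b β y i h hy).trans ⟨x * z, by ring⟩
      · exact (hd1 c γ z i h hz).trans ⟨x * y, by ring⟩
    obtain ⟨u, hu⟩ := h4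
    show x * y * z ∈ v.asIdeal
    rw [hu]
    exact Ideal.mul_mem_right _ _ hiv)
  rw [← Real.log_prod (fun v _ => by
    have := one_le_absNorm v
    linarith), ← radK_eq hxyz] at h2
  exact (Real.log_le_log_iff (nrm_pos hQ0) (by linarith [one_le_radK hxyz])).mp h2

end Pool.Agent.Q103.SD.NF
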