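import Mathlib
import Pool.Agent.Q103.SD.Monic

/-!
# The difference of two products of powers: small and large exponents
-/

set_option autoImplicit false

namespace Pool.Agent.Q103.SD

open Polynomial Finset Filter

/-- the larger of two products of powers of numbers of size at least `2` -/
theorem two_pow_le_max {n : ℕ} {q : Fin n → ℤ} (hq : ∀ i, 2 ≤ |q i|) {β γ : ℤ} (hβ : β ≠ 0)
    (hγ : γ ≠ 0) (b c : Fin n → ℕ) :
    (2 : ℝ) ^ (((∑ i, b i + ∑ i, c i : ℕ) : ℝ) / 2) ≤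
      max |((γ * ∏ i, q i ^ c i : ℤ) : ℝ)| |((β * ∏ i, q i ^ b i : ℤ) : ℝ)| := by
  have hbase : ∀ (η : ℤ) (e : Fin n → ℕ), η ≠ 0 → (2 : ℝ) ^ (∑ i, e i) ≤
      |((η * ∏ i, q i ^ e i : ℤ) : ℝ)| := by
    intro η e hη
    have h1 : (1 : ℝ) ≤ |(η : ℝ)| := by exact_mod_cast Int.one_le_abs hη
    push_cast
    rw [abs_mul, Finset.abs_prod]
    have hqa : ∀ i, (2 : ℝ) ≤ |(q i : ℝ)| := fun i => by exact_mod_cast hq i
    have hpos : (0 : ℝ) ≤ ∏ i, |(q i : ℝ) ^ e i| := Finset.prod_nonneg fun i _ => abs_nonneg _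
    have h2 : (2 : ℝ) ^ (∑ i, e i) ≤ ∏ i, |(q i : ℝ) ^ e i| := by
      rw [← Finset.prod_pow_eq_pow_sum]
      apply Finset.prod_le_prod (fun i _ => by positivity)
      intro i _
      rw [abs_pow]
      exact pow_le_pow_left₀ (by norm_num) (hqa i) _
    nlinarith
  have h1 : (((∑ i, b i + ∑ i, c i : ℕ) : ℝ)) / 2 ≤ (max (∑ i, b i) (∑ i, c i) : ℕ) := by
    have h2 : ∑ i, b i + ∑ i, c i ≤ 2 * max (∑ i, b i) (∑ i, c i) := by omega
    have h3 : ((∑ i, b i + ∑ i, c i : ℕ) : ℝ) ≤ 2 * ((max (∑ i, b i) (∑ i, c i) : ℕ) : ℝ) := by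
      exact_mod_cast h2
    linarith
  refine (Real.rpow_le_rpow_of_exponent_le (by norm_num) h1).trans ?_
  rw [Real.rpow_natCast]
  rcases le_total (∑ i, b i) (∑ i, c i) with h | h
  · rw [max_eq_right h]
    exact (hbase γ c hγ).trans (le_max_left _ _)
  · rw [max_eq_left h]
    exact (hbase β b hβ).trans (le_max_right _ _)

/-- large exponents: powers of `t` and of `log M` are small -/
theorem large_small (κ G : ℕ) {δ ε : ℝ} (hδ : 0 < δ) (hε : 0 < ε) :
    ∃ t₀ : ℕ, ∀ t : ℕ, t₀ ≤ t → ∀ E M : ℝ, (t : ℝ) ^ δ < E → (2 : ℝ) ^ (E / 2) ≤ M →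
      (t : ℝ) ^ G ≤ M ^ ε ∧ Real.exp (Real.log (Real.log M) ^ κ) ≤ M ^ ε := by
  -- `log x ^ κ ≤ ε x` for large `x`
  have h1 : ∀ᶠ x : ℝ in atTop, Real.log x ^ κ ≤ ε * x := by
    have h2 : (fun x : ℝ => Real.log x ^ κ) =o[atTop] (fun x : ℝ => x) := by
      have := Real.isLittleO_pow_log_id_atTop (n := κ)
      exact this
    have h3 := h2.bound hε
    filter_upwards [h3, eventually_ge_atTop (1 : ℝ)] with x hx hx1
    rw [Real.norm_eq_abs, Real.norm_eq_abs, abs_of_nonneg (by linarith : (0 : ℝ) ≤ x)] at hx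
    exact (le_abs_self _).trans hx
  obtain ⟨Y, hY⟩ := eventually_atTop.mp h1
  -- `G log t ≤ (ε / 4) t ^ δ`
  have h4 : ∀ᶠ t : ℕ in atTop, (G : ℝ) * Real.log t ≤ ε / 4 * (t : ℝ) ^ δ := by
    have h5 := (isLittleO_log_rpow_atTop hδ).bound
      (show (0 : ℝ) < ε / (4 * ((G : ℝ) + 1)) by positivity)
    have h6 := (tendsto_natCast_atTop_atTop (R := ℝ)).eventually h5
    filter_upwards [h6, eventually_ge_atTop 1] with t ht ht1
    have ht1' : (1 : ℝ) ≤ t := by exact_mod_cast ht1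
    rw [Real.norm_eq_abs, Real.norm_eq_abs, abs_of_nonneg (Real.log_nonneg ht1'),
      abs_of_nonneg (by positivity)] at ht
    have hG : (0 : ℝ) ≤ G := Nat.cast_nonneg _
    have hT : 0 ≤ (t : ℝ) ^ δ := by positivity
    calc (G : ℝ) * Real.log t ≤ (G + 1) * Real.log t := by
          apply mul_le_mul_of_nonneg_right (by linarith) (Real.log_nonneg ht1')
      _ ≤ (G + 1) * (ε / (4 * ((G : ℝ) + 1)) * (t : ℝ) ^ δ) :=
          mul_le_mul_of_nonneg_left ht (by linarith)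
      _ = _ := by field_simp
  have h7 : ∀ᶠ t : ℕ in atTop, 4 * |Y| + 4 ≤ (t : ℝ) ^ δ :=
    ((tendsto_rpow_atTop hδ).comp (tendsto_natCast_atTop_atTop (R := ℝ))).eventually_ge_atTop _
  obtain ⟨t₀, ht₀⟩ := eventually_atTop.mp (h4.and (h7.and (eventually_ge_atTop 2)))
  refine ⟨t₀, ?_⟩
  intro t ht E M hE hM
  obtain ⟨g1, g2, g3⟩ := ht₀ t ht
  have htR : (2 : ℝ) ≤ t := by exact_mod_cast g3
  have hE0 : 0 < E := lt_of_le_of_lt (by positivity) hE
  have hM0 : 0 < M := lt_of_lt_of_le (by positivity) hM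
  have hlog2 : 1 / 2 ≤ Real.log 2 := by
    have := Real.log_two_gt_d9
    linarith
  have hlM : E / 4 ≤ Real.log M := by
    have h8 : Real.log ((2 : ℝ) ^ (E / 2)) ≤ Real.log M := Real.log_le_log (by positivity) hM
    rw [Real.log_rpow (by norm_num)] at h8
    nlinarith
  constructor
  · have h9 : Real.log ((t : ℝ) ^ G) ≤ Real.log (M ^ ε) := by
      rw [Real.log_pow, Real.log_rpow hM0]
      have : ε * (E / 4) ≤ ε * Real.log M := mul_le_mul_of_nonneg_left hlM hε.le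
      nlinarith
    exact (Real.log_le_log_iff (by positivity) (by positivity)).mp h9
  · have h10 : Y ≤ Real.log M := by
      have := le_abs_self Y
      linarith
    have h11 := hY _ h10
    calc Real.exp (Real.log (Real.log M) ^ κ) ≤ Real.exp (ε * Real.log M) :=
          Real.exp_le_exp.mpr h11
      _ = M ^ ε := by rw [Real.rpow_def_of_pos hM0, mul_comm]

/-- the values -/
theorem values_size {t K : ℕ} {H : ℝ} {n : ℕ} {F : Fin n → ℤ[X]} (ht : 64 ≤ t) (hH : 1 ≤ H)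
    (hHt : 8 * H ≤ t) (hpos : ∀ i, 0 < (F i).natDegree) (hdeg : ∑ i, (F i).natDegree ≤ K)
    (hcoeff : ∀ i j, |((F i).coeff j : ℝ)| ≤ H) :
    (∀ i, (t : ℝ) / 2 ≤ |(((F i).eval (t : ℤ) : ℤ) : ℝ)|) ∧
      ∀ U : Finset (Fin n), |((∏ i ∈ U, (F i).eval (t : ℤ) : ℤ) : ℝ)| ≤ (t : ℝ) ^ (K * (K + 1)) := by
  have htR : (64 : ℝ) ≤ t := by exact_mod_cast ht
  have ht0 : (0 : ℝ) < t := by linarith
  have hF0 : ∀ i, F i ≠ 0 := fun i h => by
    have := hpos i
    rw [h, natDegree_zero] at this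
    omega
  have hval := fun i => value_size (t := t) (by omega) (by linarith) (by linarith) (hcoeff i)
    (hF0 i)
  have hdegK : ∀ i, (F i).natDegree ≤ K := fun i =>
    (Finset.single_le_sum (f := fun i => (F i).natDegree) (fun _ _ => Nat.zero_le _)
      (Finset.mem_univ i)).trans hdeg
  have hnK : n ≤ K := by
    calc n = ∑ _i : Fin n, 1 := by simp
      _ ≤ ∑ i, (F i).natDegree := Finset.sum_le_sum fun i _ => hpos i
      _ ≤ K := hdeg
  constructor
  · intro i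
    have h1 := (hval i).1
    have h2 : (t : ℝ) ≤ (t : ℝ) ^ (F i).natDegree := le_self_pow₀ (by linarith) (hpos i).ne'
    linarith
  · intro U
    push_cast
    rw [Finset.abs_prod]
    calc ∏ i ∈ U, |(((F i).eval (t : ℤ) : ℤ) : ℝ)| ≤ ∏ _i ∈ U, (t : ℝ) ^ (K + 1) := by
          apply Finset.prod_le_prod (fun _ _ => abs_nonneg _)
          intro i _
          have h1 := (hval i).2
          have h2 : (H + 1 / 2) * (t : ℝ) ^ (F i).natDegree ≤ (t : ℝ) ^ (K + 1) := by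
            calc (H + 1 / 2) * (t : ℝ) ^ (F i).natDegree ≤ t * (t : ℝ) ^ K := by
                  apply mul_le_mul (by linarith) _ (by positivity) (by linarith)
                  exact pow_le_pow_right₀ (by linarith) (hdegK i)
              _ = _ := by ring
          exact h1.trans h2
      _ = ((t : ℝ) ^ (K + 1)) ^ U.card := by rw [Finset.prod_const]
      _ ≤ ((t : ℝ) ^ (K + 1)) ^ K := by
          apply pow_le_pow_right₀ (one_le_pow₀ (by linarith))
          refine (Finset.card_le_univ U).trans ?_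
          rw [Fintype.card_fin]
          exact hnK
      _ = _ := by rw [← pow_mul, mul_comm]

/-- **The difference of two products of powers**, archimedean, in the two regimes. -/
theorem split_top (K : ℕ) (ε : ℝ) (hε : 0 < ε) : ∃ δ : ℝ, 0 < δ ∧ δ ≤ 1 / 4 ∧ ∃ t₀ : ℕ, 64 ≤ t₀ ∧
    ∀ t : ℕ, t₀ ≤ t →
    ∀ (n : ℕ) (F : Fin n → ℤ[X]) (β γ : ℤ), DataM t K ((t : ℝ) ^ δ) F β γ →
    ∀ b c : Fin n → ℕ, (used2 b c).Nonempty → ∀ a : ℤ, a ≠ 0 →
      γ * ∏ i, (F i).eval (t : ℤ) ^ c i - β * ∏ i, (F i).eval (t : ℤ) ^ b i = a →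
      ∀ M : ℝ, M = max |((γ * ∏ i, (F i).eval (t : ℤ) ^ c i : ℤ) : ℝ)|
          |((β * ∏ i, (F i).eval (t : ℤ) ^ b i : ℤ) : ℝ)| →
        (t : ℝ) / 2 ≤ M ∧
        (M * (t : ℝ) ^ (1 - ε) ≤
            |(a : ℝ)| * |((∏ i ∈ used2 b c, (F i).eval (t : ℤ) : ℤ) : ℝ)| ∨
          (M ^ (1 - ε) ≤ |(a : ℝ)| ∧ (t : ℝ) ≤ M ^ ε)) := by
  obtain ⟨δ₁, hδ₁, hδ₁', κ, t₁, ht₁, h⟩ := monic K 1 one_pos
  obtain ⟨δ, hδ⟩ : ∃ δ : ℝ, δ = min δ₁ (min ((1 : ℝ) / (4 * ((K : ℝ) + 2))) (ε / 4)) := ⟨_, rfl⟩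
  have hδ0 : 0 < δ := by rw [hδ]; exact lt_min hδ₁ (lt_min (by positivity) (by positivity))
  have hδδ : δ ≤ δ₁ := by rw [hδ]; exact min_le_left _ _
  have hδ1 : δ * (2 * K + 3) ≤ 1 / 2 := by
    have h1 : δ ≤ (1 : ℝ) / (4 * ((K : ℝ) + 2)) := by
      rw [hδ]; exact (min_le_right _ _).trans (min_le_left _ _)
    calc δ * (2 * K + 3) ≤ (1 : ℝ) / (4 * ((K : ℝ) + 2)) * (2 * K + 4) := by
          apply mul_le_mul h1 (by linarith) (by positivity) (by positivity)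
      _ = 1 / 2 := by field_simp; ring
  have hδ2 : δ ≤ ε / 4 := by rw [hδ]; exact (min_le_right _ _).trans (min_le_right _ _)
  have hδ4 : δ ≤ 1 / 4 := hδδ.trans hδ₁'
  have hwt : Tendsto (fun t : ℕ => (t : ℝ) ^ (3 * ε / 4)) atTop atTop :=
    (tendsto_rpow_atTop (by positivity)).comp tendsto_natCast_atTop_atTop
  obtain ⟨t₂, ht₂⟩ := eventually_atTop.mp (hwt.eventually_ge_atTop (4 * 2 ^ K))
  obtain ⟨t₃, ht₃⟩ := large_small κ (K * (K + 1) + 1) hδ0 (show 0 < ε / 2 by positivity)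
  refine ⟨δ, hδ0, hδ4, max (max t₁ t₂) (max t₃ 4096),
    (by norm_num : 64 ≤ 4096).trans ((le_max_right _ _).trans (le_max_right _ _)), ?_⟩
  intro t ht n F β γ hD b c hU a ha heq M hM
  have htt₁ : t₁ ≤ t := ((le_max_left _ _).trans (le_max_left _ _)).trans ht
  have hte2 := ht₂ t (((le_max_right _ _).trans (le_max_left _ _)).trans ht)
  have hlarge := ht₃ t (((le_max_left _ _).trans (le_max_right _ _)).trans ht)
  have ht64 : 4096 ≤ t := ((le_max_right _ _).trans (le_max_right _ _)).trans ht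
  have htR : (4096 : ℝ) ≤ t := by exact_mod_cast ht64
  have ht0 : (0 : ℝ) < t := by linarith
  obtain ⟨H, hH⟩ : ∃ H : ℝ, H = (t : ℝ) ^ δ := ⟨_, rfl⟩
  have hHδ₁ : H ≤ (t : ℝ) ^ δ₁ := by
    rw [hH]
    exact Real.rpow_le_rpow_of_exponent_le (by linarith) hδδ
  rw [← hH] at hD
  have hH1 : 1 ≤ H := by rw [hH]; exact Real.one_le_rpow (by linarith) hδ0.le
  obtain ⟨r, hr⟩ : ∃ r : ℝ, r = (t : ℝ) ^ (1 / 2 : ℝ) := ⟨_, rfl⟩
  have hrr : r * r = t := by
    rw [hr, ← Real.rpow_add ht0]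
    norm_num
  have hr8 : 64 ≤ r := by
    have hr0 : 0 ≤ r := by rw [hr]; positivity
    nlinarith
  have hHr : H ≤ r := by
    rw [hH, hr]
    exact Real.rpow_le_rpow_of_exponent_le (by linarith) (by linarith)
  have hHt : 8 * H ≤ t := by nlinarith
  obtain ⟨hvlow, hQup⟩ := values_size (by omega) hH1 hHt hD.pos hD.deg hD.coeff
  obtain ⟨hMt, hmon⟩ := h t htt₁ n F β γ ⟨hD.pos, hD.deg, fun i j => (hD.coeff i j).trans hHδ₁,
    hD.lead, hD.β0, hD.γ0, hD.βH.trans hHδ₁, hD.γH.trans hHδ₁⟩ b c hU a ha heq M hM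
  refine ⟨hMt, ?_⟩
  obtain ⟨Q, hQ⟩ : ∃ Q : ℝ, Q = |((∏ i ∈ used2 b c, (F i).eval (t : ℤ) : ℤ) : ℝ)| := ⟨_, rfl⟩
  have hQup' : Q ≤ (t : ℝ) ^ (K * (K + 1)) := by rw [hQ]; exact hQup _
  rw [← hQ] at hmon ⊢
  have hQ0 : 0 ≤ Q := by rw [hQ]; exact abs_nonneg _
  have haQ0 : 0 ≤ |(a : ℝ)| * Q := mul_nonneg (abs_nonneg _) hQ0
  have hM1 : 1 ≤ M := by linarith
  have hM0 : 0 < M := by linarith
  obtain ⟨E, hE⟩ : ∃ E, E = ∑ i, b i + ∑ i, c i := ⟨_, rfl⟩
  rcases le_or_gt (E : ℝ) H with hcase | hcase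
  · -- small exponents
    left
    obtain ⟨N, hN⟩ : ∃ N, N = max 1 E := ⟨_, rfl⟩
    have hNH : (N : ℝ) ≤ H := by
      rw [hN]
      push_cast
      exact max_le hH1 hcase
    have hEN : E ≤ N := by rw [hN]; exact le_max_right _ _
    have hs : 8 * H * (N * H) ^ (K + 1) ≤ t := by
      have h1 : 8 * H * (N * H) ^ (K + 1) ≤ 8 * (H * (H * H) ^ (K + 1)) := by
        rw [mul_assoc]
        apply mul_le_mul_of_nonneg_left _ (by norm_num)
        apply mul_le_mul_of_nonneg_left _ (by linarith)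
        apply pow_le_pow_left₀ (by positivity)
        exact mul_le_mul_of_nonneg_right hNH (by linarith)
      have h2 : H * (H * H) ^ (K + 1) ≤ r := by
        have e1 : H * (H * H) ^ (K + 1) = H ^ (2 * K + 3) := by ring
        rw [e1, hH, hr, ← Real.rpow_mul_natCast ht0.le]
        apply Real.rpow_le_rpow_of_exponent_le (by linarith)
        push_cast
        exact hδ1
      nlinarith
    have hsm : M * t ≤ 4 * H * 2 ^ K * (|(a : ℝ)| * Q) := by
      have h1 : ∀ x : ℤ, (x = γ * ∏ i, (F i).eval (t : ℤ) ^ c i ∨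
          x = β * ∏ i, (F i).eval (t : ℤ) ^ b i) →
          |(x : ℝ)| * t ≤ 4 * H * 2 ^ K * (|(a : ℝ)| * Q) := fun x hx => by
        rw [hQ]
        exact small_top hD hH1 (by omega) (by linarith) b c (N := N)
          (by rw [hN]; exact le_max_left _ _) (by omega) (by omega) hs ha heq hU hx
      rcases max_choice |((γ * ∏ i, (F i).eval (t : ℤ) ^ c i : ℤ) : ℝ)|
        |((β * ∏ i, (F i).eval (t : ℤ) ^ b i : ℤ) : ℝ)| with h | h
      · rw [hM, h]; exact h1 _ (Or.inl rfl)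
      · rw [hM, h]; exact h1 _ (Or.inr rfl)
    have h2 : 4 * H * 2 ^ K ≤ (t : ℝ) ^ ε := by
      calc 4 * H * 2 ^ K = (4 * 2 ^ K) * H := by ring
        _ ≤ (t : ℝ) ^ (3 * ε / 4) * (t : ℝ) ^ (ε / 4) := by
            apply mul_le_mul hte2 _ (by linarith) (by positivity)
            rw [hH]
            exact Real.rpow_le_rpow_of_exponent_le (by linarith) hδ2
        _ = _ := by
            rw [← Real.rpow_add ht0]
            congr 1
            ring
    rw [Real.rpow_sub ht0, Real.rpow_one, ← mul_div_assoc, div_le_iff₀ (by positivity)]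
    refine hsm.trans ?_
    rw [mul_comm (|(a : ℝ)| * Q)]
    exact mul_le_mul_of_nonneg_right h2 haQ0
  · -- large exponents
    right
    have hq2 : ∀ i, 2 ≤ |(F i).eval (t : ℤ)| := by
      intro i
      have h1 := hvlow i
      have h3 : (2 : ℝ) ≤ |(((F i).eval (t : ℤ) : ℤ) : ℝ)| := by linarith
      exact_mod_cast h3
    have hMe := two_pow_le_max hq2 hD.β0 hD.γ0 b c
    rw [← hM, ← hE] at hMe
    obtain ⟨g1, g2⟩ := hlarge E M (by rw [← hH]; exact hcase) hMe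
    have hMh : 0 < M ^ (ε / 2) := by positivity
    rw [pow_succ] at g1
    have htK : (1 : ℝ) ≤ (t : ℝ) ^ (K * (K + 1)) := one_le_pow₀ (by linarith)
    have hQt : Q ≤ M ^ (ε / 2) := by
      refine hQup'.trans (le_trans ?_ g1)
      exact le_mul_of_one_le_right (by positivity) (by linarith)
    have htM : (t : ℝ) ≤ M ^ (ε / 2) := by
      refine le_trans ?_ g1
      exact le_mul_of_one_le_left (by linarith) htK
    constructor
    · have h3 : M ≤ |(a : ℝ)| * (M ^ (ε / 2) * M ^ (ε / 2)) := by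
        have h4 : (t : ℝ) ^ ((1 : ℝ) - 1) = 1 := by norm_num
        rw [h4, mul_one] at hmon
        calc M ≤ |(a : ℝ)| * Q * Real.exp (Real.log (Real.log M) ^ κ) := hmon
          _ ≤ |(a : ℝ)| * M ^ (ε / 2) * M ^ (ε / 2) := by
              apply mul_le_mul _ g2 (Real.exp_pos _).le (by positivity)
              exact mul_le_mul_of_nonneg_left hQt (abs_nonneg _)
          _ = _ := by ring
      rw [← Real.rpow_add hM0, show ε / 2 + ε / 2 = ε by ring] at h3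
      rw [Real.rpow_sub hM0, Real.rpow_one, div_le_iff₀ (by positivity)]
      exact h3
    · exact htM.trans (Real.rpow_le_rpow_of_exponent_le hM1 (by linarith))

/-- **The difference of two products of powers**, at the prime dividing the base, in the two
regimes. -/
theorem split_base (K : ℕ) (ε : ℝ) (hε : 0 < ε) : ∃ δ : ℝ, 0 < δ ∧ δ ≤ 1 / 4 ∧ ∃ t₀ : ℕ, 64 ≤ t₀ ∧
    ∀ p v t : ℕ, p.Prime → t = p ^ v → t₀ ≤ t →
    ∀ (n : ℕ) (F : Fin n → ℤ[X]) (β γ : ℤ), Data2 t K ((t : ℝ) ^ δ) F β γ →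
    ∀ b c : Fin n → ℕ, (used2 b c).Nonempty → ∀ (m : ℕ) (w : ℤ), w ≠ 0 →
      γ * ∏ i, (F i).eval (t : ℤ) ^ c i - β * ∏ i, (F i).eval (t : ℤ) ^ b i = (p : ℤ) ^ m * w →
      ∀ M : ℝ, M = max |((γ * ∏ i, (F i).eval (t : ℤ) ^ c i : ℤ) : ℝ)|
          |((β * ∏ i, (F i).eval (t : ℤ) ^ b i : ℤ) : ℝ)| →
        M ≤ (t : ℝ) ^ ε * (|(w : ℝ)| * |((∏ i ∈ used2 b c, (F i).eval (t : ℤ) : ℤ) : ℝ)|) ∨
          (M ^ (1 - ε) ≤ |(w : ℝ)| ∧ (t : ℝ) ≤ M ^ ε) := by
  obtain ⟨δ₁, hδ₁, hδ₁', t₁, ht₁, h⟩ := sparse K (ε / 2) (by positivity)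
  obtain ⟨δ, hδ⟩ : ∃ δ : ℝ, δ = min δ₁ (min ((1 : ℝ) / (4 * ((K : ℝ) + 2)))
      (ε / (4 * ((K : ℝ) + 2)))) := ⟨_, rfl⟩
  have hδ0 : 0 < δ := by rw [hδ]; exact lt_min hδ₁ (lt_min (by positivity) (by positivity))
  have hδδ : δ ≤ δ₁ := by rw [hδ]; exact min_le_left _ _
  have hδ1 : δ * (2 * K + 3) ≤ 1 / 2 := by
    have h1 : δ ≤ (1 : ℝ) / (4 * ((K : ℝ) + 2)) := by
      rw [hδ]; exact (min_le_right _ _).trans (min_le_left _ _)
    calc δ * (2 * K + 3) ≤ (1 : ℝ) / (4 * ((K : ℝ) + 2)) * (2 * K + 4) := by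
          apply mul_le_mul h1 (by linarith) (by positivity) (by positivity)
      _ = 1 / 2 := by field_simp; ring
  have hδ2 : δ * (2 + 2 * K) ≤ ε / 2 := by
    have h1 : δ ≤ ε / (4 * ((K : ℝ) + 2)) := by
      rw [hδ]; exact (min_le_right _ _).trans (min_le_right _ _)
    calc δ * (2 + 2 * K) ≤ ε / (4 * ((K : ℝ) + 2)) * (2 * K + 4) := by
          apply mul_le_mul h1 (by linarith) (by positivity) (by positivity)
      _ = ε / 2 := by field_simp; ring
  have hδ4 : δ ≤ 1 / 4 := hδδ.trans hδ₁'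
  have hwt : Tendsto (fun t : ℕ => (t : ℝ) ^ (ε / 2)) atTop atTop :=
    (tendsto_rpow_atTop (by positivity)).comp tendsto_natCast_atTop_atTop
  obtain ⟨t₂, ht₂⟩ := eventually_atTop.mp (hwt.eventually_ge_atTop (8 * 2 ^ K))
  obtain ⟨t₃, ht₃⟩ := large_small 0 (K * (K + 1) + 1) hδ0 (show 0 < ε / 2 by positivity)
  refine ⟨δ, hδ0, hδ4, max (max t₁ t₂) (max t₃ 4096),
    (by norm_num : 64 ≤ 4096).trans ((le_max_right _ _).trans (le_max_right _ _)), ?_⟩
  intro p v t hp htp ht n F β γ hD b c hU m w hw heq M hM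
  have htt₁ : t₁ ≤ t := ((le_max_left _ _).trans (le_max_left _ _)).trans ht
  have hte2 := ht₂ t (((le_max_right _ _).trans (le_max_left _ _)).trans ht)
  have hlarge := ht₃ t (((le_max_left _ _).trans (le_max_right _ _)).trans ht)
  have ht64 : 4096 ≤ t := ((le_max_right _ _).trans (le_max_right _ _)).trans ht
  have htR : (4096 : ℝ) ≤ t := by exact_mod_cast ht64
  have ht0 : (0 : ℝ) < t := by linarith
  obtain ⟨H, hH⟩ : ∃ H : ℝ, H = (t : ℝ) ^ δ := ⟨_, rfl⟩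
  have hHδ₁ : H ≤ (t : ℝ) ^ δ₁ := by
    rw [hH]
    exact Real.rpow_le_rpow_of_exponent_le (by linarith) hδδ
  rw [← hH] at hD
  have hH1 : 1 ≤ H := by rw [hH]; exact Real.one_le_rpow (by linarith) hδ0.le
  obtain ⟨r, hr⟩ : ∃ r : ℝ, r = (t : ℝ) ^ (1 / 2 : ℝ) := ⟨_, rfl⟩
  have hrr : r * r = t := by
    rw [hr, ← Real.rpow_add ht0]
    norm_num
  have hr8 : 64 ≤ r := by
    have hr0 : 0 ≤ r := by rw [hr]; positivity
    nlinarith
  have hHr : H ≤ r := by
    rw [hH, hr]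
    exact Real.rpow_le_rpow_of_exponent_le (by linarith) (by linarith)
  have hHt : 8 * H ≤ t := by nlinarith
  obtain ⟨hvlow, hQup⟩ := values_size (by omega) hH1 hHt hD.pos hD.deg hD.coeff
  have hmon := h p v t hp htp htt₁ n F β γ ⟨hD.pos, hD.deg,
    fun i j => (hD.coeff i j).trans hHδ₁, hD.unit,
    hD.lead, hD.β0, hD.γ0, hD.βH.trans hHδ₁, hD.γH.trans hHδ₁⟩ b c hU m w hw heq
  obtain ⟨Q, hQ⟩ : ∃ Q : ℝ, Q = |((∏ i ∈ used2 b c, (F i).eval (t : ℤ) : ℤ) : ℝ)| := ⟨_, rfl⟩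
  have hQup' : Q ≤ (t : ℝ) ^ (K * (K + 1)) := by rw [hQ]; exact hQup _
  rw [← hQ, ← hM] at hmon
  rw [← hQ]
  have hQ0 : 0 ≤ Q := by rw [hQ]; exact abs_nonneg _
  have hwQ0 : 0 ≤ |(w : ℝ)| * Q := mul_nonneg (abs_nonneg _) hQ0
  have hq2 : ∀ i, 2 ≤ |(F i).eval (t : ℤ)| := by
    intro i
    have h1 := hvlow i
    have h3 : (2 : ℝ) ≤ |(((F i).eval (t : ℤ) : ℤ) : ℝ)| := by linarith
    exact_mod_cast h3
  have hMe := two_pow_le_max hq2 hD.β0 hD.γ0 b c
  obtain ⟨E, hE⟩ : ∃ E, E = ∑ i, b i + ∑ i, c i := ⟨_, rfl⟩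
  rw [← hM, ← hE] at hMe
  have hM1 : 1 ≤ M := (Real.one_le_rpow (by norm_num) (by positivity)).trans hMe
  have hM0 : 0 < M := by linarith
  rcases le_or_gt (E : ℝ) H with hcase | hcase
  · -- small exponents
    left
    obtain ⟨N, hN⟩ : ∃ N, N = max 1 E := ⟨_, rfl⟩
    have hNH : (N : ℝ) ≤ H := by
      rw [hN]
      push_cast
      exact max_le hH1 hcase
    have hEN : E ≤ N := by rw [hN]; exact le_max_right _ _
    have hs : 8 * H * (N * H) ^ (K + 1) ≤ t := by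
      have h1 : 8 * H * (N * H) ^ (K + 1) ≤ 8 * (H * (H * H) ^ (K + 1)) := by
        rw [mul_assoc]
        apply mul_le_mul_of_nonneg_left _ (by norm_num)
        apply mul_le_mul_of_nonneg_left _ (by linarith)
        apply pow_le_pow_left₀ (by positivity)
        exact mul_le_mul_of_nonneg_right hNH (by linarith)
      have h2 : H * (H * H) ^ (K + 1) ≤ r := by
        have e1 : H * (H * H) ^ (K + 1) = H ^ (2 * K + 3) := by ring
        rw [e1, hH, hr, ← Real.rpow_mul_natCast ht0.le]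
        apply Real.rpow_le_rpow_of_exponent_le (by linarith)
        push_cast
        exact hδ1
      nlinarith
    have hsm : M ≤ 8 * H ^ 2 * (N * H) ^ K * 2 ^ K * (|(w : ℝ)| * Q) := by
      have h1 : ∀ x : ℤ, (x = γ * ∏ i, (F i).eval (t : ℤ) ^ c i ∨
          x = β * ∏ i, (F i).eval (t : ℤ) ^ b i) →
          |(x : ℝ)| ≤ 8 * H ^ 2 * (N * H) ^ K * 2 ^ K * (|(w : ℝ)| * Q) := fun x hx => by
        rw [hQ]
        exact small_case htp hD hH1 (by omega) (by linarith) b c (N := N)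
          (by rw [hN]; exact le_max_left _ _) (by omega) (by omega) hs hw hp.ne_zero heq hU hx
      rw [hM]
      exact max_le (h1 _ (Or.inl rfl)) (h1 _ (Or.inr rfl))
    refine hsm.trans (mul_le_mul_of_nonneg_right ?_ hwQ0)
    have h4 : H ^ 2 * (N * H) ^ K ≤ (t : ℝ) ^ (ε / 2) := by
      calc H ^ 2 * (N * H) ^ K ≤ H ^ 2 * (H * H) ^ K := by
            apply mul_le_mul_of_nonneg_left _ (by positivity)
            apply pow_le_pow_left₀ (by positivity)
            exact mul_le_mul_of_nonneg_right hNH (by linarith)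
        _ = H ^ (2 + 2 * K) := by ring
        _ ≤ _ := by
            rw [hH, ← Real.rpow_mul_natCast ht0.le]
            apply Real.rpow_le_rpow_of_exponent_le (by linarith)
            push_cast
            exact hδ2
    calc 8 * H ^ 2 * (N * H) ^ K * 2 ^ K = (8 * 2 ^ K) * (H ^ 2 * (N * H) ^ K) := by ring
      _ ≤ (t : ℝ) ^ (ε / 2) * (t : ℝ) ^ (ε / 2) := mul_le_mul hte2 h4 (by positivity) (by positivity)
      _ = _ := by rw [← Real.rpow_add ht0]; congr 1; ring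
  · -- large exponents
    right
    obtain ⟨g1, -⟩ := hlarge E M (by rw [← hH]; exact hcase) hMe
    have hMh : 0 < M ^ (ε / 2) := by positivity
    rw [pow_succ] at g1
    have htK : (1 : ℝ) ≤ (t : ℝ) ^ (K * (K + 1)) := one_le_pow₀ (by linarith)
    have hQt : Q ≤ M ^ (ε / 2) := by
      refine hQup'.trans (le_trans ?_ g1)
      exact le_mul_of_one_le_right (by positivity) (by linarith)
    have htM : (t : ℝ) ≤ M ^ (ε / 2) := by
      refine le_trans ?_ g1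
      exact le_mul_of_one_le_left (by linarith) htK
    constructor
    · have h3 : M ^ (1 - ε / 2) ≤ |(w : ℝ)| * M ^ (ε / 2) :=
        hmon.trans (mul_le_mul_of_nonneg_left hQt (abs_nonneg _))
      have h4 : M ^ (1 - ε / 2) = M ^ (1 - ε) * M ^ (ε / 2) := by
        rw [← Real.rpow_add hM0]
        congr 1
        ring
      rw [h4] at h3
      exact le_of_mul_le_mul_right h3 hMh
    · exact htM.trans (Real.rpow_le_rpow_of_exponent_le hM1 (by linarith))

end Pool.Agent.Q103.SD
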